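import Pool.Agent.HopfRem.Class3

/-!
# Singular sets in a ball
-/

set_option autoImplicit false
set_option linter.unusedSectionVars false

open scoped ContDiff Topology Manifold MeasureTheory
open Set Filter Metric Topology

namespace Pool.Agent.HopfCov.Smooth

/-- the inclusion of the punctured space is a local diffeomorphism -/
theorem LDA_val (x : V4) : LDA (fun y : V4 => (y : E4)) x := by
  let c : OpenPartialHomeomorph V4 E4 := V4.openPartialHomeomorphSubtypeCoe ⟨x⟩
  refine ⟨{ toPartialEquiv := c.toPartialEquiv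
            open_source := c.open_source
            open_target := c.open_target
            contMDiffOn_toFun := ?_
            contMDiffOn_invFun := ?_ }, ?_, ?_⟩
  · exact contMDiff_subtype_val.contMDiffOn
  · intro y hy
    refine ContMDiffAt.contMDiffWithinAt ?_
    rw [← ContMDiffAt.subtypeVal_comp_iff]
    refine contMDiffAt_id.congr_of_eventuallyEq ?_
    filter_upwards [c.open_target.mem_nhds hy] with w hw
    exact c.right_inv hw
  · exact mem_univ x
  · intro y _
    rfl

/-- a singular set which lies in an open ball is removed up to a point -/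
theorem in_ball {M X : Mfd4} {s : ℝ} {L : E4 ≃ₗᵢ[ℝ] E4} {p₀ : Punctured → X}
    (hX : IsModel X s L p₀) (F : M.carrier ≃ₜ X.carrier) {φ : E4 → M.carrier} (hφ : Par φ)
    {A : Set M.carrier} (hA : IsClosed A) (hAφ : A ⊆ range φ)
    (hF : ∀ x, x ∉ A → LDA F x) : OffPointTo M X := by
  obtain ⟨a1, a2, -, -, -, τ, hτ, hp₀⟩ := hX.orbit.data
  have a3 : CompactSpace M.carrier := F.symm.compactSpace
  have a4 : T2Space M.carrier := F.symm.t2Space
  have hcov : IsCoveringMap (p₀ : V4 → X.carrier) := hX.orbit.cov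
  set f : E4 → X.carrier := fun y => F (φ y) with hf
  have hfe : IsOpenEmbedding f := F.isOpenEmbedding.comp hφ.emb
  -- the lift
  have hsc : SimplyConnectedSpace E4 := inferInstance
  obtain ⟨v₀, hv₀⟩ := hp₀.surj (f 0)
  obtain ⟨e₀, ⟨he0, he⟩, -⟩ := hcov.existsUnique_continuousMap_lifts
    (⟨f, hfe.continuous⟩ : C(E4, X.carrier)) 0 v₀ hv₀
  have hef : ∀ y, p₀ (e₀ y) = f y := fun y => congrFun he y
  have hinj : Function.Injective e₀ := by
    intro y z hyz
    apply hfe.injective
    rw [← hef, ← hef, hyz]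
  have hlocp : IsLocalHomeomorph (p₀ : V4 → X.carrier) := hcov.isLocalHomeomorph
  let e₁ : E4 → V4 := fun y => e₀ y
  have he₁ : Continuous e₁ := e₀.continuous
  have hemb : IsOpenEmbedding e₁ := by
    refine IsLocalHomeomorph.isOpenEmbedding_of_comp hlocp ?_ he₁
    have h0 : (fun y => p₀ (e₁ y)) = f := funext hef
    have h1 : IsOpenEmbedding (fun y => p₀ (e₁ y)) := by
      rw [h0]
      exact hfe
    exact h1
  set e : E4 → E4 := fun y => ((e₁ y : V4) : E4) with hedef
  have hee : IsOpenEmbedding e := V4.isOpen.isOpenEmbedding_subtypeVal.comp hemb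
  set K : Set E4 := φ ⁻¹' A with hK
  have hKc : IsCompact K := hφ.emb.isInducing.isCompact_preimage' hA.isCompact hAφ
  have hfL : ∀ y, y ∉ K → LDA f y := fun y hy =>
    LDA.comp' (f := φ) (g := F) (hF _ hy) (hφ.loc y)
  have heL : ∀ y, y ∉ K → LDA e₁ y := fun y hy =>
    LDA.of_comp (f := e₁) (g := (p₀ : V4 → X.carrier)) he₁.continuousAt
      (hp₀.loc (e₁ y)) ((hfL y hy).congr' (Eventually.of_forall fun z => (hef z).symm))
  have hr : ∀ y, y ∉ K → RG e y := fun y hy =>
    (ldAt_iff.1 (LDA.comp' (f := e₁) (g := fun z : V4 => (z : E4))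
      (LDA_val (e₁ y)) (heL y hy))).self_of_nhds
  obtain ⟨χ, ⟨C, hC, hχ⟩, hχ2⟩ := one_point hdim4 hee hKc hr
  obtain ⟨Θ, h1, h2⟩ := exists_transport hφ.emb χ hC hχ
  refine ⟨Θ.trans F, φ 0, fun x hx => ?_⟩
  by_cases hxr : x ∈ range φ
  · obtain ⟨y, rfl⟩ := hxr
    have hy : y ≠ 0 := fun h => hx (by rw [h])
    -- `f ∘ χ` is a local diffeomorphism at `y`
    have h3 : LDA (fun z => e (χ z)) y := by
      rw [ldAt_iff]
      filter_upwards [isOpen_ne.mem_nhds hy] with z hz
      exact hχ2 z hz
    have h4 : LDA (fun z => e₁ (χ z)) y :=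
      LDA.of_comp (f := fun z => e₁ (χ z)) (g := fun z : V4 => (z : E4))
        (he₁.comp χ.continuous).continuousAt (LDA_val _) h3
    have h5 : LDA (fun z => f (χ z)) y :=
      (LDA.comp' (f := fun z => e₁ (χ z)) (g := (p₀ : V4 → X.carrier)) (hp₀.loc _) h4).congr'
        (Eventually.of_forall fun z => hef (χ z))
    have h6 : LDA (fun z => (Θ.trans F) (φ z)) y :=
      h5.congr' (Eventually.of_forall fun z => by
        show F (φ (χ z)) = F (Θ (φ z))
        rw [h1])
    exact LDA.of_comp_right (f := φ) (g := (Θ.trans F : M.carrier → X.carrier)) (hφ.loc y) h6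
  · have hxA : x ∉ A := fun h => hxr (hAφ h)
    have hxC : x ∉ φ '' C := fun ⟨c, _, hc⟩ => hxr ⟨c, hc⟩
    have hcl : IsClosed (φ '' C) := (hC.image hφ.emb.continuous).isClosed
    refine (hF x hxA).congr' ?_
    filter_upwards [hcl.isOpen_compl.mem_nhds hxC] with z hz
    show F z = F (Θ z)
    rw [h2 z hz]

end Pool.Agent.HopfCov.Smooth
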