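import Pool.Agent.HopfRem.Statement3

/-!
# The definitions used in the statement

Smooth structures on `S¹ × S³` and on the twisted product which are standard off a small set.
-/

set_option autoImplicit false

open scoped ContDiff Topology Manifold MeasureTheory
open Set Filter Metric

namespace Pool.Agent.HopfCov.Smooth

/-- the homeomorphisms of `ℝ⁴` form a group, the product is the composition -/
instance : Group Homeo4 := @Homeomorph.instGroup E4 _

/-- `h` fixes the origin and restricts to a diffeomorphism of `ℝ⁴ ∖ 0` -/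
def InP (h : Homeo4) : Prop :=
  h.fn 0 = 0 ∧ ∀ x, x ≠ 0 → ContDiffAt ℝ ∞ h.fn x ∧ (fderiv ℝ h.fn x).det ≠ 0

/-- `h` fixes the origin and restricts to an orientation preserving diffeomorphism of
`ℝ⁴ ∖ 0` -/
def InD (h : Homeo4) : Prop :=
  h.fn 0 = 0 ∧ ∀ x, x ≠ 0 → ContDiffAt ℝ ∞ h.fn x ∧ 0 < (fderiv ℝ h.fn x).det

theorem InP.mul {a b : Homeo4} (ha : InP a) (hb : InP b) : InP (a * b) :=
  groupP.mul_mem' (a := a) (b := b) ha hb

theorem InP.one : InP 1 := groupP.one_mem'

theorem InP.inv {a : Homeo4} (ha : InP a) : InP a⁻¹ := groupP.inv_mem' (x := a) ha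

theorem InD.mul {a b : Homeo4} (ha : InD a) (hb : InD b) : InD (a * b) :=
  groupD.mul_mem' (a := a) (b := b) ha hb

theorem InD.one : InD 1 := groupD.one_mem'

theorem InD.inv {a : Homeo4} (ha : InD a) : InD a⁻¹ := groupD.inv_mem' (x := a) ha

/-- the group `P` of the homeomorphisms of `ℝ⁴` which fix the origin and restrict to
diffeomorphisms of `ℝ⁴ ∖ 0` -/
def grpP : Subgroup Homeo4 where
  carrier := {h | InP h}
  mul_mem' := InP.mul
  one_mem' := InP.one
  inv_mem' := InP.inv

/-- the subgroup `D` of the orientation preserving ones -/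
def grpD : Subgroup Homeo4 where
  carrier := {h | InD h}
  mul_mem' := InD.mul
  one_mem' := InD.one
  inv_mem' := InD.inv

/-- the commutator subgroup `[P, P]` -/
def derP : Subgroup Homeo4 := ⁅grpP, grpP⁆

/-- the commutator subgroup `[D, D]` -/
def derD : Subgroup Homeo4 := ⁅grpD, grpD⁆

/-- `p : ℝ⁴ ∖ 0 → M` is the smooth covering of the compact Hausdorff manifold `M` whose fibres are
the orbits of the group generated by `G ∈ P`, and `G` maps the closed unit ball into the open unit
ball -/
structure Orbit (M : Mfd4) (p : Punctured → M) (G : Homeo4) : Prop where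
  compact : CompactSpace M
  hausdorff : T2Space M
  surj : Function.Surjective p
  loc : LocalDiffeo p
  fib : ∀ x y : Punctured, p x = p y ↔ ∃ n : ℤ, val y = (G ^ n).fn (val x)
  mem : G ∈ grpP
  trap : ∀ x, nrm x ≤ 1 → nrm (G.fn x) < 1

/-- the inverse of `halfReflection` -/
noncomputable def doubleReflection (z : E4) : E4 :=
  WithLp.toLp 2 ![-(2 * z 0), 2 * z 1, 2 * z 2, 2 * z 3]

theorem double_half (z : E4) : doubleReflection (halfReflection z) = z := by
  ext i
  fin_cases i <;> simp [doubleReflection, halfReflection] <;> ring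

theorem half_double (z : E4) : halfReflection (doubleReflection z) = z := by
  ext i
  fin_cases i <;> simp [doubleReflection, halfReflection]
  ring

theorem continuous_half : Continuous halfReflection := by
  unfold halfReflection
  fun_prop

theorem continuous_double : Continuous doubleReflection := by
  unfold doubleReflection
  fun_prop

/-- the homeomorphism `(z₀, z₁, z₂, z₃) ↦ (- z₀, z₁, z₂, z₃) / 2` -/
noncomputable def rho : Homeo4 := Homeomorph.mk
  ⟨halfReflection, doubleReflection, double_half, half_double⟩ continuous_half continuous_double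

/-- `X` is the twisted product, the orbit space of `rho` -/
def TwistedProduct (X : Mfd4) : Prop := ∃ p : Punctured → X, Orbit X p rho

/-- `F` is a local diffeomorphism at `x` -/
def LocalDiffeoAt {M X : Mfd4} (F : M → X) (x : M) : Prop :=
  IsLocalDiffeomorphAt (𝓡 4) (𝓡 4) ∞ F x

/-- the images of the set in the charts have one-dimensional Hausdorff measure zero -/
def NullLength {M : Mfd4} (A : Set M) : Prop :=
  ∀ x : M, μH[1] (chartAt E4 x '' (A ∩ (chartAt E4 x).source)) = 0

/-- `A` lies in an open subset of `M` which is diffeomorphic to `ℝ⁴` -/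
def InBall {M : Mfd4} (A : Set M) : Prop :=
  ∃ φ : E4 → M, Topology.IsOpenEmbedding φ ∧ IsLocalDiffeomorph (𝓡 4) (𝓡 4) ∞ φ ∧ A ⊆ range φ

/-- there is a homeomorphism `F : M → X` which is a local diffeomorphism off a closed set `A`
such that `A` or its image has length zero or `A` is in an open ball of `M` -/
def AlmostDiffeo (M X : Mfd4) : Prop :=
  ∃ (F : M ≃ₜ X) (A : Set M), IsClosed A ∧ (∀ x, x ∉ A → LocalDiffeoAt F x) ∧
    (NullLength A ∨ NullLength (F '' A) ∨ InBall A)

/-- `M` is homeomorphic to `S¹ × S³` or to the twisted product, `p` is a smooth covering and embeds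
the unit sphere -/
structure EmbedsUnitSphere (M : Mfd4) (p : Punctured → M) : Prop where
  homeo : ∃ X : Mfd4, (DiffeoS1S3 X ∨ TwistedProduct X) ∧ Nonempty (M ≃ₜ X)
  cov : IsCoveringMap p
  loc : LocalDiffeo p
  inj : InjOn p {x | nrm (val x) = 1}

end Pool.Agent.HopfCov.Smooth
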