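import Pool.Agent.HopfRem.Class4
import Pool.Agent.HopfRem.InBall
import Pool.Agent.HopfRem.Statement4

/-!
# Translation of the statement
-/

set_option autoImplicit false
set_option linter.unusedSectionVars false

open scoped ContDiff Topology Manifold MeasureTheory
open Set Filter Metric

namespace Pool.Agent.HopfCov.Smooth

theorem grpP_eq : grpP = groupP := rfl

theorem grpD_eq : grpD = groupD := rfl

theorem derP_eq : derP = ⁅groupP, groupP⁆ := rfl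

theorem derD_eq : derD = ⁅groupD, groupD⁆ := rfl

theorem almost_iff {X : Mfd4} {s : ℝ} {L : E4 ≃ₗᵢ[ℝ] E4} {p₀ : Punctured → X}
    (hX : IsModel X s L p₀) (M : Mfd4) : AlmostDiffeo M X ↔ SmoothOffLengthZero M X := by
  constructor
  · rintro ⟨F, A, h1, h2, h3 | h3 | ⟨φ, h4, h5, h6⟩⟩
    · exact ⟨F, A, h1, h2, Or.inl h3⟩
    · exact ⟨F, A, h1, h2, Or.inr h3⟩
    · exact (conditions hX M).2.1 (in_ball hX F ⟨h4, h5⟩ h1 h6 h2)
  · rintro ⟨F, A, h1, h2, h3 | h3⟩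
    · exact ⟨F, A, h1, h2, Or.inl h3⟩
    · exact ⟨F, A, h1, h2, Or.inr (Or.inl h3)⟩

theorem orbit_eq {M : Mfd4} {p : Punctured → M} {G : Homeo4} :
    Orbit M p G ↔ IsOrbit M p (show E4 ≃ₜ E4 from G) := by
  constructor
  · rintro ⟨h1, h2, h3, h4, h5, h6, h7⟩
    have h8 : PD 1 (show E4 ≃ₜ E4 from G) ∨ PD (-1) (show E4 ≃ₜ E4 from G) := mem_groupP.1 h6
    have h9 : ∃ g : V4 ≃ₜ V4, Extends (show E4 ≃ₜ E4 from G) g :=
      h8.elim (fun h => exists_restr h) fun h => exists_restr h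
    obtain ⟨g, hg⟩ := h9
    have h10 : OrbitMap g (M := M.carrier) p :=
      ⟨h3, h4, fun x y => (h5 x y).trans (orbit_iff hg x y)⟩
    exact IsOrbit.mk' h10 hg h8 h7
  · intro h
    exact ⟨h.closed.compact, h.closed.hausdorff, h.surj, h.loc, h.fib, h.diffeo, h.trap⟩

theorem rho_eq : (show E4 ≃ₜ E4 from rho) = TT := TT_eq fun _ => rfl

theorem twistedProduct_iff {X : Mfd4} : TwistedProduct X ↔ IsTwisted X := by
  constructor
  · rintro ⟨p, h⟩
    have h1 := orbit_eq.1 h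
    rw [rho_eq] at h1
    exact (twisted_iff h1 PD_TT).2 chi_TT
  · intro h
    obtain ⟨p, h1⟩ := h.isOrbit
    rw [← rho_eq] at h1
    exact ⟨p, orbit_eq.2 h1⟩

theorem almost_iff' {X : Mfd4} (hX : DiffeoS1S3 X ∨ TwistedProduct X) (M : Mfd4) :
    AlmostDiffeo M X ↔ SmoothOffLengthZero M X := by
  rcases hX with hX | hX
  · obtain ⟨p₀, hm⟩ := hX.model
    exact almost_iff hm M
  · obtain ⟨p₀, hm⟩ := (twistedProduct_iff.1 hX).model
    exact almost_iff hm M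

/-- the conditions for `S¹ × S³` -/
theorem almost_pos {M X : Mfd4} (hX : DiffeoS1S3 X) :
    AlmostDiffeo M X ↔ ∃ (p : Punctured → M) (G : Homeo4), Orbit M p G ∧ G ∈ grpD := by
  rw [almost_iff' (Or.inl hX)]
  obtain ⟨p₀, hm⟩ := hX.model
  obtain ⟨c1, c2⟩ := conditions hm M
  exact (c1.trans c2).symm.trans ⟨fun ⟨p, G, h1, h2⟩ => ⟨p, G, orbit_eq.2 h1,
    mem_groupD.2 h2⟩, fun ⟨p, G, h1, h2⟩ => ⟨p, G, orbit_eq.1 h1, mem_groupD.1 h2⟩⟩

/-- the conditions for the twisted product -/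
theorem almost_neg {M X : Mfd4} (hX : TwistedProduct X) :
    AlmostDiffeo M X ↔ ∃ (p : Punctured → M) (G : Homeo4), Orbit M p G ∧ G ∉ grpD := by
  rw [almost_iff' (Or.inr hX)]
  obtain ⟨p₀, hm⟩ := (twistedProduct_iff.1 hX).model
  obtain ⟨c1, c2⟩ := conditions hm M
  exact (c1.trans c2).symm.trans ⟨fun ⟨p, G, h1, h2⟩ => ⟨p, G, orbit_eq.2 h1,
    neg_not_mem h2⟩, fun ⟨p, G, h1, h2⟩ => ⟨p, G, orbit_eq.1 h1, (orbit_eq.1 h1).neg h2⟩⟩

/-- a singular point suffices -/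
theorem almost_off {M X : Mfd4} (hX : DiffeoS1S3 X ∨ TwistedProduct X) :
    AlmostDiffeo M X ↔ OffPointTo M X := by
  rw [almost_iff' hX]
  rcases hX with hX | hX
  · obtain ⟨p₀, hm⟩ := hX.model
    exact (conditions hm M).2.symm
  · obtain ⟨p₀, hm⟩ := (twistedProduct_iff.1 hX).model
    exact (conditions hm M).2.symm

theorem uniq_pos :
    (∀ M X : Mfd4, DiffeoS1S3 X → AlmostDiffeo M X → DiffeoS1S3 M) ↔ derD = grpD := by
  have h1 : (∀ M X : Mfd4, DiffeoS1S3 X → AlmostDiffeo M X → DiffeoS1S3 M) ↔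
      ∀ M X : Mfd4, DiffeoS1S3 X → SmoothOffLengthZero M X → DiffeoS1S3 M :=
    forall_congr' fun M => forall_congr' fun X => forall_congr' fun hX => by
      rw [almost_iff' (Or.inl hX)]
  exact h1.trans unique_pos

theorem uniq_neg :
    (∀ M X : Mfd4, TwistedProduct X → AlmostDiffeo M X → TwistedProduct M) ↔ derP = grpD := by
  have h1 : (∀ M X : Mfd4, TwistedProduct X → AlmostDiffeo M X → TwistedProduct M) ↔
      ∀ M X : Mfd4, IsTwisted X → SmoothOffLengthZero M X → IsTwisted M :=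
    forall_congr' fun M => forall_congr' fun X => by
      rw [← twistedProduct_iff, ← twistedProduct_iff]
      exact forall_congr' fun hX => by rw [almost_iff' (Or.inr hX)]
  exact h1.trans unique_neg

theorem pos_neg (h : derD = grpD) : derP = grpD := by
  have h0 : groupD ≤ groupP := by
    rw [groupD_eq, groupP_eq]
    exact DD_le_PP
  have h1 : ⁅groupD, groupD⁆ = groupD := h
  have h2 : ⁅groupP, groupP⁆ = groupD := by
    refine le_antisymm comm_le_D ?_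
    calc groupD = ⁅groupD, groupD⁆ := h1.symm
      _ ≤ ⁅groupP, groupP⁆ := Subgroup.commutator_mono h0 h0
  exact h2

theorem embeds_iff {M : Mfd4} {p : Punctured → M} :
    (∃ G : Homeo4, Orbit M p G) ↔ EmbedsUnitSphere M p := by
  constructor
  · rintro ⟨G, h⟩
    have h1 := orbit_eq.1 h
    obtain ⟨h2, h3, h4, h5⟩ := orbit_iff_embeds.2 ⟨_, h1⟩
    refine ⟨?_, h3, h4, h5⟩
    by_cases hG : (show E4 ≃ₜ E4 from G) ∈ groupD
    · obtain ⟨X, hX⟩ := exists_S1S3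
      obtain ⟨p₀, hm⟩ := hX.model
      obtain ⟨F, -⟩ := (conditions hm M).1.1 ⟨p, _, h1, mem_groupD.1 hG⟩
      exact ⟨X, Or.inl hX, ⟨F⟩⟩
    · obtain ⟨X, hX⟩ := exists_twisted
      obtain ⟨p₀, hm⟩ := hX.model
      obtain ⟨F, -⟩ := (conditions hm M).1.1 ⟨p, _, h1, h1.neg hG⟩
      exact ⟨X, Or.inr (twistedProduct_iff.2 hX), ⟨F⟩⟩
  · rintro ⟨⟨X, hX, ⟨F⟩⟩, h3, h4, h5⟩
    have h6 : HomeoS1S3 M ∨ HomeoTwisted M := by
      rcases hX with ⟨⟨D⟩⟩ | hX
      · exact Or.inl ⟨F.trans D.toHomeomorph⟩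
      · obtain ⟨p₀, h7⟩ := (twistedProduct_iff.1 hX).isOrbit
        obtain ⟨F'⟩ := h7.homeoTwisted PD_TT
        exact Or.inr ⟨F.trans F'⟩
    obtain ⟨G, h7⟩ := orbit_iff_embeds.1 ⟨h6, h3, h4, h5⟩
    exact ⟨G, orbit_eq.2 h7⟩

theorem derD_iff {h : Homeo4} : h ∈ derD ↔ h ∈ grpD ∧ Extendable h := by
  have h1 : h ∈ derD ↔ (show E4 ≃ₜ E4 from h) ∈ DX := by
    rw [← DD_comm]
    exact Iff.rfl
  have h2 : h ∈ grpD ↔ PD 1 (show E4 ≃ₜ E4 from h) := mem_groupD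
  rw [h1, h2, mem_DX, ← agrees_iff]
  exact Iff.rfl

theorem perfect_derD : ⁅derD, derD⁆ = derD := by
  have h1 : derD = DX := DD_comm
  rw [h1]
  exact commutator_DX

theorem two_commutators {h : Homeo4} (hh : h ∈ derD) :
    ∃ a ∈ derD, ∃ b ∈ derD, ∃ c ∈ derD, ∃ d ∈ derD,
      h = (a * b * a⁻¹ * b⁻¹) * (c * d * c⁻¹ * d⁻¹) := by
  have h1 : derD = DX := DD_comm
  rw [h1] at hh ⊢
  obtain ⟨a, b, c, d, ha, hb, hc, hd, e⟩ := two_comm hdim4 hh.1 hh.2
  exact ⟨a, ha, b, hb, c, hc, d, hd, e⟩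

theorem realise {h : Homeo4} (hh : h ∈ grpP) :
    ∃ (M : Mfd4) (p : Punctured → M) (G : Homeo4), Orbit M p G ∧ G * h⁻¹ ∈ derD := by
  obtain ⟨M, p, G, h1, h2⟩ := realise_all (h := h) hh
  exact ⟨M, p, G, orbit_eq.2 h1, h2⟩

section

variable {M : Mfd4} {p : Punctured → M} {G : Homeo4}

theorem std_final (h : Orbit M p G) : DiffeoS1S3 M ↔ G ∈ derD := std_iff_comm (orbit_eq.1 h)

theorem twisted_final (h : Orbit M p G) : TwistedProduct M ↔ G * rho⁻¹ ∈ derP := by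
  have h1 := twisted_iff_comm (orbit_eq.1 h)
  rw [← twistedProduct_iff, ← rho_eq] at h1
  exact h1

theorem conj_final (h : Orbit M p G) {M' : Mfd4} {p' : Punctured → M'} {G' : Homeo4}
    (h' : Orbit M' p' G') :
    Diffeomorphic M M' ↔ ∃ k ∈ grpP, G' * (k * G * k⁻¹)⁻¹ ∈ derD := by
  have h1 := diffeo_conj_iff (orbit_eq.1 h) (orbit_eq.1 h')
  rw [← groupP_eq, ← DD_comm] at h1
  exact h1

theorem cover_final (h : Orbit M p G) {m : ℕ} {N : Mfd4} {q : N → M} (hm : 0 < m)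
    (hN : Closed N) (hq : Cover m q) :
    ∃ p' : Punctured → N, Orbit N p' (G ^ m) ∧ ∀ x, q (p' x) = p x := by
  obtain ⟨p', h2, h3⟩ := cover_orbit (orbit_eq.1 h) hm hN hq
  exact ⟨p', orbit_eq.2 h2, h3⟩

end

end Pool.Agent.HopfCov.Smooth
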