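import Pool.Agent.HopfRem.Defs

/-!
# HR1 (`Loc`): calculus of local diffeomorphisms

All statements are about the predicate `RG f x` (smooth at `x`, invertible derivative).

* `RG.exists_local_inv`: the inverse function theorem (as in `LD.inv` of `HopfCov/Defs.lean` and
  `ContDiffAt.toOpenPartialHomeomorph`, `ContDiffAt.to_localInverse`): `g` is the local inverse.
* `RG.map_nhds`: `HasStrictFDerivAt.map_nhds_eq_of_equiv`.
* `RG.isOpen_image`, `RG.isOpenEmbedding`: from `RG.map_nhds`.
* `RG.of_comp`: `f` is continuous at `x`, `g` has a local inverse `g'` at `f x`, hence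
  `f = g' ∘ (g ∘ f)` near `x`; use `RG.comp` and `RG.congr`. Only `RG g (f x)` and
  `RG (g ∘ f) x` (not in a neighbourhood) are needed.
* `RG.of_comp_right`: `f'` local inverse of `f` at `x` with `f' (f x) = x`, hence
  `g = (g ∘ f) ∘ f'` near `f x`.
* `sign_const`: the sign of the determinant of `fderiv ℝ f` is locally constant on the open set `U`
  because `f` is `C^1` on `U` (`ContDiffOn`, `continuousOn_fderiv_of_isOpen`) and the
  determinant is continuous; use `IsPreconnected` (intermediate value theorem).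
* `preconnected_compl_singleton`: `isPathConnected_compl_singleton_of_one_lt_rank`.
-/

set_option autoImplicit false
set_option linter.unusedSectionVars false

open scoped ContDiff Topology
open Set Filter Metric Topology

namespace Pool.Agent.HopfCov

variable {E : Type} [NormedAddCommGroup E] [InnerProductSpace ℝ E] [FiniteDimensional ℝ E]

private theorem loc_equiv {f : E → E} {x : E} (h : RG f x) :
    ∃ A : E ≃L[ℝ] E, HasFDerivAt f (A : E →L[ℝ] E) x := by
  refine ⟨(fderiv ℝ f x).toContinuousLinearEquivOfDetNeZero h.2, ?_⟩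
  rw [ContinuousLinearMap.coe_toContinuousLinearEquivOfDetNeZero]
  exact (h.1.differentiableAt (by simp)).hasFDerivAt

theorem RG.exists_local_inv {f : E → E} {x : E} (h : RG f x) :
    ∃ g : E → E, RG g (f x) ∧ g (f x) = x ∧ (∀ᶠ y in 𝓝 x, g (f y) = y) ∧
      ∀ᶠ z in 𝓝 (f x), f (g z) = z := by
  have hcomplete : CompleteSpace E := FiniteDimensional.complete ℝ E
  obtain ⟨A, hA⟩ := loc_equiv h
  have hn : (∞ : WithTop ℕ∞) ≠ 0 := by simp
  set P := h.1.toOpenPartialHomeomorph f hA hn with hP
  have hx : x ∈ P.source := h.1.mem_toOpenPartialHomeomorph_source hA hn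
  have hPf : (P : E → E) = f := h.1.toOpenPartialHomeomorph_coe hA hn
  have h1 : P.symm (f x) = x := by
    rw [← hPf]
    exact P.left_inv hx
  have h2 : ∀ᶠ y in 𝓝 x, P.symm (f y) = y := by
    rw [← hPf]
    exact P.eventually_left_inverse hx
  have h3 : ∀ᶠ z in 𝓝 (f x), f (P.symm z) = z := by
    have h4 := P.eventually_right_inverse (P.map_source hx)
    rw [hPf] at h4
    exact h4
  have h4 : ContDiffAt ℝ ∞ P.symm (f x) := h.1.to_localInverse hA hn
  refine ⟨P.symm, ⟨h4, fun h0 => ?_⟩, h1, h2, h3⟩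
  have h5 : HasFDerivAt (fun y => P.symm (f y))
      ((fderiv ℝ P.symm (f x)).comp (fderiv ℝ f x)) x :=
    ((h4.differentiableAt (by simp)).hasFDerivAt).comp x
      (h.1.differentiableAt (by simp)).hasFDerivAt
  have h6 : fderiv ℝ (fun y => P.symm (f y)) x = ContinuousLinearMap.id ℝ E := by
    have h7 : (fun y => P.symm (f y)) =ᶠ[𝓝 x] fun y => y := h2
    rw [h7.fderiv_eq, fderiv_fun_id]
  have h8 := h5.fderiv
  rw [h6] at h8
  have h9 := congrArg ContinuousLinearMap.det h8
  rw [det_comp_clm, h0, zero_mul] at h9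
  simp [ContinuousLinearMap.det] at h9

theorem RG.map_nhds {f : E → E} {x : E} (h : RG f x) : map f (𝓝 x) = 𝓝 (f x) := by
  have hcomplete : CompleteSpace E := FiniteDimensional.complete ℝ E
  obtain ⟨A, hA⟩ := loc_equiv h
  exact (h.1.hasStrictFDerivAt' hA (by simp)).map_nhds_eq_of_equiv

theorem RG.isOpen_image {f : E → E} {U : Set E} (hU : IsOpen U) (h : ∀ x ∈ U, RG f x) :
    IsOpen (f '' U) := by
  rw [isOpen_iff_mem_nhds]
  rintro _ ⟨x, hx, rfl⟩
  rw [← (h x hx).map_nhds]
  exact image_mem_map (hU.mem_nhds hx)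

theorem RG.isOpenEmbedding {f : E → E} (hi : Function.Injective f) (h : ∀ x, RG f x) :
    IsOpenEmbedding f := by
  refine IsOpenEmbedding.of_continuous_injective_isOpenMap
    (continuous_iff_continuousAt.2 fun x => (h x).continuousAt) hi fun U hU => ?_
  exact RG.isOpen_image hU fun x _ => h x

theorem RG.of_comp {f g : E → E} {x : E} (hf : ContinuousAt f x) (hg : RG g (f x))
    (h : RG (fun y => g (f y)) x) : RG f x := by
  obtain ⟨g', h1, h2, h3, -⟩ := hg.exists_local_inv
  have h4 : RG (fun y => g' (g (f y))) x := RG.comp (g := g') (f := fun y => g (f y)) h1 h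
  exact h4.congr (hf.eventually h3)

theorem RG.of_comp_right {f g : E → E} {x : E} (hf : RG f x) (h : RG (fun y => g (f y)) x) :
    RG g (f x) := by
  obtain ⟨f', h1, h2, -, h3⟩ := hf.exists_local_inv
  have h4 : RG (fun y => g (f y)) (f' (f x)) := by rwa [h2]
  have h5 : RG (fun z => g (f (f' z))) (f x) := RG.comp (g := fun y => g (f y)) (f := f') h4 h1
  refine h5.congr ?_
  filter_upwards [h3] with z hz
  rw [hz]

theorem sign_const {f : E → E} {U : Set E} (hU : IsOpen U) (hc : IsPreconnected U)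
    (h : ∀ x ∈ U, RG f x) : ∃ s : ℝ, (s = 1 ∨ s = -1) ∧ ∀ x ∈ U, LD s f x := by
  have hcont : ContinuousOn (fun x => (fderiv ℝ f x).det) U := by
    intro x hx
    refine ContinuousAt.continuousWithinAt ?_
    have h1 : ContinuousAt (fderiv ℝ f) x :=
      ((h x hx).1.fderiv_right (m := 0) (by simp)).continuousAt
    exact ContinuousLinearMap.continuous_det.continuousAt.comp h1
  have himg := (hc.image _ hcont).ordConnected
  by_cases hpos : ∀ x ∈ U, 0 < (fderiv ℝ f x).det
  · exact ⟨1, Or.inl rfl, fun x hx => ⟨(h x hx).1, by rw [one_mul]; exact hpos x hx⟩⟩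
  · push Not at hpos
    obtain ⟨x0, hx0, h0⟩ := hpos
    refine ⟨-1, Or.inr rfl, fun x hx => ⟨(h x hx).1, ?_⟩⟩
    by_contra hcon
    have h1 : 0 ≤ (fderiv ℝ f x).det := by linarith
    have h2 : (0 : ℝ) ∈ (fun x => (fderiv ℝ f x).det) '' U :=
      himg.out ⟨x0, hx0, rfl⟩ ⟨x, hx, rfl⟩ ⟨h0, h1⟩
    obtain ⟨y, hy, hy0⟩ := h2
    exact (h y hy).2 hy0

theorem preconnected_compl_singleton (hdim : 1 < Module.finrank ℝ E) (a : E) :
    IsPreconnected ({a}ᶜ : Set E) := by
  refine (isPathConnected_compl_singleton_of_one_lt_rank ?_ a).isConnected.isPreconnected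
  rw [← Module.finrank_eq_rank]
  exact_mod_cast hdim

end Pool.Agent.HopfCov
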