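import Pool.Agent.HopfRem.MDefs
import Pool.Agent.HopfRem.Loc

/-!
# HR20 (`ParRG`): local diffeomorphisms of manifolds

* `ldAt_iff`: if `f` is a local diffeomorphism at `x` then it agrees near `x` with a partial
  diffeomorphism `Φ`; `f` and `Φ.symm` are smooth near `x`, `f x`, and `Φ.symm ∘ f = id` near
  `x`, so the derivative is invertible (chain rule). Conversely, if `RG f y` for all `y` near
  `x`, then the inverse function theorem gives an open partial homeomorphism which is smooth
  with smooth inverse (`RG.exists_local_inv` at every point near `x`, or as in `restr_gen` /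
  `specRestr` of the library `HopfCov`, see `HopfCov/Ends.lean`, `HopfCov/Lifts.lean`: search
  for `IsLocalDiffeomorphAt`).
* `LDA.symm`: the partial diffeomorphism `Φ` with `F = Φ` near `x`; `F.symm = Φ.symm` near `F x`
  (restrict the source of `Φ`).
* `LDA.of_comp`, `LDA.of_comp_right`: `g` agrees near `f x` with a partial diffeomorphism, whose
  inverse `g'` satisfies `g' ∘ (g ∘ f) = f` near `x`; use `IsLocalDiffeomorphAt.comp` (as in
  `HopfCov/Orbit.lean`) and congruence.
* `LDA.eventually`: immediate from the definition (the same partial diffeomorphism).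
* `LDA_homeo_comp`: special case used for `S : E4 ≃ₜ E4`.
-/

set_option autoImplicit false
set_option linter.unusedSectionVars false

open scoped ContDiff Topology Manifold
open Set Filter Metric Topology

namespace Pool.Agent.HopfCov

theorem ldAt_iff {f : E4 → E4} {x : E4} : LDA f x ↔ ∀ᶠ y in 𝓝 x, RG f y := by
  constructor
  · rintro ⟨Φ, hx, hΦ⟩
    filter_upwards [Φ.open_source.mem_nhds hx] with y hy
    have hfy : f =ᶠ[𝓝 y] Φ := by
      filter_upwards [Φ.open_source.mem_nhds hy] with z hz
      exact hΦ hz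
    have hty : Φ y ∈ Φ.target := Φ.map_source hy
    have c1 : ContDiffAt ℝ ∞ Φ y :=
      (contMDiffOn_iff_contDiffOn.1 Φ.contMDiffOn_toFun).contDiffAt (Φ.open_source.mem_nhds hy)
    have c2 : ContDiffAt ℝ ∞ Φ.invFun (Φ y) :=
      (contMDiffOn_iff_contDiffOn.1 Φ.contMDiffOn_invFun).contDiffAt
        (Φ.open_target.mem_nhds hty)
    refine RG.congr (f := Φ) ⟨c1, fun h0 => ?_⟩ hfy.symm
    have hcomp : HasFDerivAt (fun z => Φ.invFun (Φ z))
        ((fderiv ℝ Φ.invFun (Φ y)).comp (fderiv ℝ Φ y)) y :=
      ((c2.differentiableAt (by simp)).hasFDerivAt).comp y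
        (c1.differentiableAt (by simp)).hasFDerivAt
    have hid : (fun z => Φ.invFun (Φ z)) =ᶠ[𝓝 y] fun z => z := by
      filter_upwards [Φ.open_source.mem_nhds hy] with z hz
      exact Φ.left_inv hz
    have hcomp' := hcomp.fderiv
    rw [hid.fderiv_eq] at hcomp'
    have hdd : (1 : ℝ) = (fderiv ℝ Φ.invFun (Φ y)).det * (fderiv ℝ Φ y).det := by
      rw [← det_comp_clm, ← hcomp', fderiv_fun_id]
      simp [ContinuousLinearMap.det]
    rw [h0, mul_zero] at hdd
    exact one_ne_zero hdd
  · intro h
    obtain ⟨U, hU, hUo, hxU⟩ := _root_.eventually_nhds_iff.1 h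
    have hd : ∀ y, RG f y → ∃ A : E4 ≃L[ℝ] E4, HasFDerivAt f (A : E4 →L[ℝ] E4) y := by
      intro y hy
      refine ⟨(fderiv ℝ f y).toContinuousLinearEquivOfDetNeZero hy.2, ?_⟩
      rw [ContinuousLinearMap.coe_toContinuousLinearEquivOfDetNeZero]
      exact (hy.1.differentiableAt (by simp)).hasFDerivAt
    obtain ⟨A, hA⟩ := hd x (hU x hxU)
    set P := (hU x hxU).1.toOpenPartialHomeomorph f hA (by simp) with hP
    have hPf : ∀ y, P y = f y := fun y => by
      rw [hP, ContDiffAt.toOpenPartialHomeomorph_coe]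
    have hxP : x ∈ P.source := ContDiffAt.mem_toOpenPartialHomeomorph_source _ hA (by simp)
    refine ⟨{ toPartialEquiv := (P.restrOpen U hUo).toPartialEquiv
              open_source := (P.restrOpen U hUo).open_source
              open_target := (P.restrOpen U hUo).open_target
              contMDiffOn_toFun := ?_
              contMDiffOn_invFun := ?_ }, ⟨hxP, hxU⟩, fun y _ => (hPf y).symm⟩
    · rw [contMDiffOn_iff_contDiffOn]
      intro y hy
      have h1 : ContDiffAt ℝ ∞ f y := (hU y hy.2).1
      have h2 : ContDiffAt ℝ ∞ P y := h1.congr_of_eventuallyEq (Eventually.of_forall hPf)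
      exact h2.contDiffWithinAt
    · rw [contMDiffOn_iff_contDiffOn]
      intro z hz
      have hy : (P.restrOpen U hUo).symm z ∈ (P.restrOpen U hUo).source :=
        (P.restrOpen U hUo).map_target hz
      obtain ⟨A', hA'⟩ := hd _ (hU _ hy.2)
      have h3 : ContDiffAt ℝ ∞ (P.restrOpen U hUo).symm z := by
        refine (P.restrOpen U hUo).contDiffAt_symm hz (f₀' := A') ?_ ?_
        · exact hA'.congr_of_eventuallyEq (Eventually.of_forall hPf)
        · exact (hU _ hy.2).1.congr_of_eventuallyEq (Eventually.of_forall hPf)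
      exact h3.contDiffWithinAt

section

variable {X Y Z : Type} [TopologicalSpace X] [ChartedSpace E4 X] [IsManifold (𝓡 4) ∞ X]
  [TopologicalSpace Y] [ChartedSpace E4 Y] [IsManifold (𝓡 4) ∞ Y]
  [TopologicalSpace Z] [ChartedSpace E4 Z] [IsManifold (𝓡 4) ∞ Z]

theorem LDA.congr' {f g : X → Y} {x : X} (h : LDA f x) (hfg : f =ᶠ[𝓝 x] g) : LDA g x := by
  obtain ⟨Φ, hx, hΦ⟩ := h
  obtain ⟨U, hU, hUo, hxU⟩ := _root_.eventually_nhds_iff.1 hfg
  refine ⟨{ toPartialEquiv := (Φ.toOpenPartialHomeomorph.restrOpen U hUo).toPartialEquiv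
            open_source := (Φ.toOpenPartialHomeomorph.restrOpen U hUo).open_source
            open_target := (Φ.toOpenPartialHomeomorph.restrOpen U hUo).open_target
            contMDiffOn_toFun := Φ.contMDiffOn_toFun.mono ?_
            contMDiffOn_invFun := Φ.contMDiffOn_invFun.mono ?_ }, ?_, ?_⟩
  · intro y hy; exact hy.1
  · intro y hy; exact hy.1
  · exact ⟨hx, hxU⟩
  · intro y hy
    exact (hU y hy.2).symm.trans (hΦ hy.1)

theorem LDA.eventually {f : X → Y} {x : X} (h : LDA f x) : ∀ᶠ y in 𝓝 x, LDA f y := by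
  obtain ⟨Φ, hx, hΦ⟩ := h
  filter_upwards [Φ.open_source.mem_nhds hx] with y hy
  exact ⟨Φ, hy, hΦ⟩

theorem LDA.comp' {f : X → Y} {g : Y → Z} {x : X} (hg : LDA g (f x)) (hf : LDA f x) :
    LDA (fun y => g (f y)) x :=
  hf.comp (K := 𝓡 4) (hg := hg)

theorem LDA.of_comp {f : X → Y} {g : Y → Z} {x : X} (hf : ContinuousAt f x)
    (hg : LDA g (f x)) (h : LDA (fun y => g (f y)) x) : LDA f x := by
  have h1 : LDA hg.localInverse (g (f x)) := hg.localInverse_isLocalDiffeomorphAt
  have h2 : LDA (fun y => hg.localInverse (g (f y))) x :=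
    LDA.comp' (f := fun y => g (f y)) h1 h
  refine h2.congr' ?_
  have h3 : ∀ᶠ y in 𝓝 x, f y ∈ hg.localInverse.target :=
    hf (hg.localInverse.open_target.mem_nhds hg.localInverse_mem_target)
  filter_upwards [h3] with y hy
  exact hg.localInverse_left_inv hy

theorem LDA.of_comp_right {f : X → Y} {g : Y → Z} {x : X} (hf : LDA f x)
    (h : LDA (fun y => g (f y)) x) : LDA g (f x) := by
  have h0 : hf.localInverse (f x) = x := hf.localInverse_left_inv hf.localInverse_mem_target
  have h1 : LDA hf.localInverse (f x) := hf.localInverse_isLocalDiffeomorphAt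
  have h2 : LDA (fun z => g (f (hf.localInverse z))) (f x) :=
    LDA.comp' (f := hf.localInverse) (g := fun y => g (f y)) (by rw [h0]; exact h) h1
  refine h2.congr' ?_
  filter_upwards [hf.localInverse.open_source.mem_nhds hf.localInverse_mem_source] with z hz
  rw [hf.localInverse_right_inv hz]

theorem LDA.symm' {F : X ≃ₜ Y} {x : X} (h : LDA F x) : LDA F.symm (F x) := by
  have h1 : LDA h.localInverse (F x) := h.localInverse_isLocalDiffeomorphAt
  refine h1.congr' ?_
  filter_upwards [h.localInverse.open_source.mem_nhds h.localInverse_mem_source] with z hz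
  have h2 := h.localInverse_right_inv hz
  symm
  rw [Homeomorph.symm_apply_eq]
  exact h2.symm

theorem LDA_id (x : X) : LDA (fun y : X => y) x :=
  (Diffeomorph.refl (𝓡 4) X ∞).isLocalDiffeomorph x

end

end Pool.Agent.HopfCov
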