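import Pool.Agent.HopfRem.TwModel
import Pool.Agent.HopfCov.Push

/-!
# The smooth structure on an orbit space, both orientation characters
-/

set_option autoImplicit false
set_option linter.unusedSectionVars false

open scoped ContDiff Topology Manifold
open Set Filter Metric

namespace Pool.Agent.HopfCov

section

variable {X : Type} [TopologicalSpace X] {g : V4 ≃ₜ V4} {G : E4 ≃ₜ E4} {p : V4 → X}

theorem contDiffAt_ext0_zpow_gen {s : ℝ} (hs : s * s = 1) (hG : Extends G g) (hPD : PD s G)
    (n : ℤ) (x : V4) : ContDiffAt ℝ ∞ (ext0 (g ^ n : V4 ≃ₜ V4)) (x : E4) := by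
  refine ((hPD.zpow' hs n).2 x x.2).1.congr_of_eventuallyEq ?_
  filter_upwards [V4_eventually_ne x] with y hy
  rw [ext0_mk _ hy]
  exact (hG.zpow n ⟨y, hy⟩).symm

/-- the smooth structure for which the projection is a local diffeomorphism -/
theorem exists_structure_gen {s : ℝ} (hss : s * s = 1) (hG : Extends G g) (hPD : PD s G)
    (hs : Function.Surjective p)
    (hl : IsLocalHomeomorph p) (hf : ∀ x y, p x = p y ↔ ∃ n : ℤ, y = (g ^ n) x) :
    ∃ _ : ChartedSpace E4 X, IsManifold (𝓡 4) ∞ X ∧ OrbitMap g p := by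
  choose e hev he using hl
  have hVne : ∀ _ : V4, Nonempty V4 := fun v => ⟨v⟩
  let c : V4 → OpenPartialHomeomorph V4 E4 := fun v =>
    V4.openPartialHomeomorphSubtypeCoe ⟨v⟩
  let ch : V4 → OpenPartialHomeomorph X E4 := fun v => (e v).symm ≫ₕ c v
  choose r hr using hs
  let C : ChartedSpace E4 X :=
    { atlas := range ch
      chartAt := fun x => ch (r x)
      mem_chart_source := by
        intro x
        have h1 : x ∈ (e (r x)).target := by
          have h2 := (e (r x)).map_source (hev (r x))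
          rw [← he (r x), hr x] at h2
          exact h2
        simp only [ch, c, OpenPartialHomeomorph.trans_source, OpenPartialHomeomorph.symm_source,
          TopologicalSpace.Opens.openPartialHomeomorphSubtypeCoe_source, preimage_univ, inter_univ]
        exact h1
      chart_mem_atlas := fun x => mem_range_self _ }
  -- the inverse of the inclusion
  have hcsymm : ∀ (v : V4) (y : E4), y ≠ 0 → ((c v).symm y : E4) = y := by
    intro v y hy
    have h1 : y ∈ (c v).target := by
      simp only [c, TopologicalSpace.Opens.openPartialHomeomorphSubtypeCoe_target]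
      exact hy
    exact (c v).right_inv h1
  have hcsymm' : ∀ (v : V4) (y : E4) (hy : y ≠ 0), (c v).symm y = ⟨y, hy⟩ := fun v y hy =>
    Subtype.ext (hcsymm v y hy)
  have hman : IsManifold (𝓡 4) ∞ X := by
    refine isManifold_of_contDiffOn (𝓡 4) ∞ X ?_
    rintro _ _ ⟨v, rfl⟩ ⟨w, rfl⟩
    intro y₀ hy₀
    have hy₁ : y₀ ∈ ((ch v).symm ≫ₕ ch w).source := hy₀.1
    refine ContDiffAt.contDiffWithinAt ?_
    have h0 : y₀ ∈ (c v).target := by
      have h1 : y₀ ∈ (ch v).target := hy₁.1
      have h2 : y₀ ∈ ((e v).symm ≫ₕ c v).target := h1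
      rw [OpenPartialHomeomorph.trans_target] at h2
      exact h2.1
    have hne : y₀ ≠ 0 := by
      simp only [c, TopologicalSpace.Opens.openPartialHomeomorphSubtypeCoe_target] at h0
      exact h0
    have h1 : p ⟨y₀, hne⟩ ∈ (e w).target := by
      have h2 : (ch v).symm y₀ ∈ (ch w).source := hy₁.2
      have h3 : (ch v).symm y₀ = e v ((c v).symm y₀) := rfl
      rw [h3, hcsymm' v y₀ hne, ← he v] at h2
      have h4 : p ⟨y₀, hne⟩ ∈ ((e w).symm ≫ₕ c w).source := h2
      rw [OpenPartialHomeomorph.trans_source] at h4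
      exact h4.1
    obtain ⟨n, hn⟩ := local_power hf (he w) h1
    have hsm := contDiffAt_ext0_zpow_gen hss hG hPD n ⟨y₀, hne⟩
    refine hsm.congr_of_eventuallyEq ?_
    rw [nhds_subtype_eq_comap, eventually_comap] at hn
    filter_upwards [hn, isOpen_ne.mem_nhds hne] with y hy hy0
    have hy0' : y ≠ 0 := hy0
    have h5 := hy ⟨y, hy0'⟩ rfl
    show (((e w).symm (e v ((c v).symm y)) : V4) : E4) = _
    rw [hcsymm' v y hy0', ← he v, h5, ext0_mk _ hy0']
  refine ⟨C, hman, ⟨fun x => ⟨r x, hr x⟩, fun v => ?_, hf⟩⟩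
  have hmem : ch v ∈ IsManifold.maximalAtlas (𝓡 4) ∞ X :=
    IsManifold.subset_maximalAtlas (mem_range_self v)
  have hsrc : (ch v).source = (e v).target := by
    simp only [ch, c, OpenPartialHomeomorph.trans_source, OpenPartialHomeomorph.symm_source,
      TopologicalSpace.Opens.openPartialHomeomorphSubtypeCoe_source, preimage_univ, inter_univ]
  have hon : ContMDiffOn (𝓡 4) (𝓡 4) ∞ (ch v) (ch v).source :=
    contMDiffOn_of_mem_maximalAtlas hmem
  have hon' : ContMDiffOn (𝓡 4) (𝓡 4) ∞ (ch v).symm (ch v).target :=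
    contMDiffOn_symm_of_mem_maximalAtlas hmem
  refine ⟨{ toPartialEquiv := (e v).toPartialEquiv
            open_source := (e v).open_source
            open_target := (e v).open_target
            contMDiffOn_toFun := ?_
            contMDiffOn_invFun := ?_ }, hev v, fun x _ => ?_⟩
  · intro x hx
    have h1 : (x : E4) ∈ (ch v).target := by
      have h2 : ch v (e v x) = (x : E4) := by
        show c v ((e v).symm (e v x)) = _
        rw [(e v).left_inv hx]
        rfl
      rw [← h2]
      refine (ch v).map_source ?_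
      rw [hsrc]
      exact (e v).map_source hx
    have h2 : ContMDiffAt (𝓡 4) (𝓡 4) ∞ (ch v).symm (x : E4) :=
      (hon' _ h1).contMDiffAt ((ch v).open_target.mem_nhds h1)
    have h3 : ContMDiffAt (𝓡 4) (𝓡 4) ∞ (fun z : V4 => (ch v).symm (z : E4)) x :=
      h2.comp x (contMDiff_subtype_val x)
    refine (h3.congr_of_eventuallyEq (Eventually.of_forall fun z => ?_)).contMDiffWithinAt
    show e v z = e v ((c v).symm (z : E4))
    rw [hcsymm' v z z.2]
  · rw [← hsrc]
    intro z hz
    have h1 := hon z hz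
    exact (ContMDiffWithinAt.subtypeVal_comp_iff V4 _ _ _).1 h1
  · rw [he v]
    rfl

end

/-- the orbit space of a trapping contraction, as a smooth structure on a given topological
orbit space of a linear contraction with the same orientation character -/
theorem exists_orbit_space_gen {s : ℝ} (hs : s * s = 1) {L : E4 ≃ₗᵢ[ℝ] E4}
    (hL : 0 < s * (L.toContinuousLinearEquiv : E4 →L[ℝ] E4).det) {τ : V4 ≃ₜ V4}
    (hτ : Extends (tauL L) τ) {X : Type} [TopologicalSpace X] {q₀ : V4 → X}
    (c1 : Function.Surjective q₀) (c2 : IsLocalHomeomorph q₀)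
    (c3 : ∀ x y : V4, q₀ x = q₀ y ↔ ∃ n : ℤ, y = (τ ^ n) x)
    {G : E4 ≃ₜ E4} (hPD : PD s G) (ht : Trap G) (hc : Contr G) :
    ∃ (g : V4 ≃ₜ V4) (_ : ChartedSpace E4 X) (p : V4 → X), Extends G g ∧
      IsManifold (𝓡 4) ∞ X ∧ OrbitMap g p := by
  obtain ⟨g, hG⟩ := exists_restr hPD
  obtain ⟨Φ, f1, f2, -⟩ := core_point hGerm hSwap hRad hdim4 hs hPD ht hc L hL
  have f1' : (Φ⁻¹ : E4 ≃ₜ E4) 0 = 0 := by
    have := inv_apply_self' Φ 0
    rwa [f1] at this
  obtain ⟨k, k1, -⟩ := exists_restr_LD f1'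
  have hc1 : k * g = τ * k := by
    have e1 : Φ * tauL L = G * Φ := Homeomorph.ext f2
    have e2 : Φ⁻¹ * G = tauL L * Φ⁻¹ := by
      rw [inv_mul_eq_iff_eq_mul, ← mul_assoc, e1, mul_assoc, mul_inv_cancel, mul_one]
    have d1 : Extends (Φ⁻¹ * G) (k * g) := k1.mul hG
    have d2 : Extends (tauL L * Φ⁻¹) (τ * k) := hτ.mul k1
    rw [e2] at d1
    exact d1.eq_of d2
  have hsc : SemiconjBy k g τ := hc1
  have hpow : ∀ (n : ℤ) (x : V4), k ((g ^ n) x) = (τ ^ n) (k x) := fun n x =>
    DFunLike.congr_fun (hsc.zpow_right n).eq x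
  have hsu : Function.Surjective fun x => q₀ (k x) := c1.comp k.surjective
  have hl : IsLocalHomeomorph fun x => q₀ (k x) := c2.comp k.isLocalHomeomorph
  have hf : ∀ x y, q₀ (k x) = q₀ (k y) ↔ ∃ n : ℤ, y = (g ^ n) x := by
    intro x y
    rw [c3]
    constructor
    · rintro ⟨n, hn⟩
      exact ⟨n, k.injective (by rw [hn, hpow])⟩
    · rintro ⟨n, hn⟩
      exact ⟨n, by rw [hn, hpow]⟩
  obtain ⟨C, h1, h2⟩ := exists_structure_gen hs (p := fun x => q₀ (k x)) hG hPD hsu hl hf
  exact ⟨g, C, _, hG, h1, h2⟩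

end Pool.Agent.HopfCov
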