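import Pool.Agent.HopfRem.Loc

/-!
# HR4 (`InvE`): the inversion, and conjugation with the inversion

`iv c x = EuclideanGeometry.inversion c 1 x` (so `iv c c = c`). Use
`EuclideanGeometry.inversion_self`, `inversion_inversion`, `dist_inversion_center`,
`EuclideanGeometry.hasFDerivAt_inversion` (derivative: a nonzero multiple of a reflection, hence
invertible; or use `iv c (iv c x) = x` and the chain rule), `ContDiffAt.inversion`.

* `tendsto_iv_cocompact`: `‖iv c x - c‖ = ‖x - c‖⁻¹`.
* `tendsto_iv_nhds`: the same.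
* `sign_iv`: `sign_const` on `{c}ᶜ`.
* `exists_invconj`: `F' x = iv 0 (F (iv 0 x))`. It is bijective with inverse
  `iv 0 (F⁻¹ (iv 0 x))`. Continuity away from `0`: `iv 0` is continuous at nonzero points and
  `F (iv 0 x) ≠ 0` for `x ≠ 0`. Continuity at `0`: if `x → 0`, `x ≠ 0`, then `iv 0 x → ∞`
  (cocompact), `F` preserves the filter `cocompact E` (`tendsto_cocompact'` in
  `HopfCov/Basic.lean`), and `iv 0` of it tends to `0`. `LD`: for `x ≠ 0`,
  `LD t (iv 0)` at `x` and at `F (iv 0 x)` with the same `t = 1` or `t = -1` by `sign_iv`, and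
  `t * s * t = s`.
-/

set_option autoImplicit false
set_option linter.unusedSectionVars false

open scoped ContDiff Topology
open Set Filter Metric Topology

namespace Pool.Agent.HopfCov

variable {E : Type} [NormedAddCommGroup E] [InnerProductSpace ℝ E] [FiniteDimensional ℝ E]

theorem iv_self (c : E) : iv c c = c := EuclideanGeometry.inversion_self c 1

theorem iv_iv (c x : E) : iv c (iv c x) = x :=
  EuclideanGeometry.inversion_inversion c one_ne_zero x

theorem iv_ne {c x : E} (h : x ≠ c) : iv c x ≠ c := by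
  intro h1
  exact h ((EuclideanGeometry.inversion_eq_center one_ne_zero).1 h1)

theorem iv_injective (c : E) : Function.Injective (iv c) :=
  EuclideanGeometry.inversion_injective c one_ne_zero

theorem norm_iv_sub (c x : E) : ‖iv c x - c‖ = ‖x - c‖⁻¹ := by
  have h := EuclideanGeometry.dist_inversion_center c x 1
  rw [dist_eq_norm, dist_eq_norm] at h
  change ‖EuclideanGeometry.inversion c 1 x - c‖ = _
  rw [h]
  simp

theorem norm_iv_zero (x : E) : ‖iv 0 x‖ = ‖x‖⁻¹ := by
  have := norm_iv_sub 0 x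
  simpa using this

private theorem contDiffAt_iv {c x : E} (h : x ≠ c) : ContDiffAt ℝ ∞ (iv c) x :=
  ContDiffAt.inversion (n := ⊤) (c := fun _ => c) (R := fun _ => 1) (x := fun y => y)
    contDiffAt_const contDiffAt_const contDiffAt_id h

theorem rg_iv {c x : E} (h : x ≠ c) : RG (iv c) x := by
  have h1 := contDiffAt_iv h
  have h2 := contDiffAt_iv (iv_ne h)
  refine ⟨h1, fun h0 => ?_⟩
  have d1 : HasFDerivAt (iv c) (fderiv ℝ (iv c) x) x :=
    (h1.differentiableAt (by simp)).hasFDerivAt
  have d2 : HasFDerivAt (iv c) (fderiv ℝ (iv c) (iv c x)) (iv c x) :=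
    (h2.differentiableAt (by simp)).hasFDerivAt
  have d3 := d2.comp x d1
  have e : (iv c ∘ iv c : E → E) = fun y => y := by
    funext y
    exact iv_iv c y
  rw [e] at d3
  have d4 : (fderiv ℝ (iv c) (iv c x)).comp (fderiv ℝ (iv c) x) = ContinuousLinearMap.id ℝ E :=
    d3.unique (hasFDerivAt_id x)
  have d5 := det_comp_clm (fderiv ℝ (iv c) (iv c x)) (fderiv ℝ (iv c) x)
  rw [d4, h0, mul_zero] at d5
  simp [ContinuousLinearMap.det] at d5

theorem continuousAt_iv {c x : E} (h : x ≠ c) : ContinuousAt (iv c) x :=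
  (rg_iv h).continuousAt

theorem tendsto_iv_cocompact (c : E) : Tendsto (iv c) (cocompact E) (𝓝 c) := by
  rw [tendsto_iff_norm_sub_tendsto_zero]
  simp only [norm_iv_sub]
  have h1 : Tendsto (fun x : E => dist x c) (cocompact E) atTop :=
    tendsto_dist_right_cocompact_atTop c
  have h2 := tendsto_inv_atTop_zero.comp h1
  refine h2.congr fun x => ?_
  simp [dist_eq_norm]

theorem tendsto_iv_nhds (c : E) : Tendsto (iv c) (𝓝[≠] c) (cocompact E) := by
  apply tendsto_cocompact_of_tendsto_dist_comp_atTop c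
  have h1 : Tendsto (fun x : E => ‖x - c‖) (𝓝[≠] c) (𝓝[>] 0) := by
    rw [tendsto_nhdsWithin_iff]
    refine ⟨?_, ?_⟩
    · have h2 : Tendsto (fun x : E => ‖x - c‖) (𝓝 c) (𝓝 0) := by
        rw [← tendsto_iff_norm_sub_tendsto_zero]
        exact tendsto_id
      exact h2.mono_left nhdsWithin_le_nhds
    · filter_upwards [self_mem_nhdsWithin] with x hx
      exact norm_pos_iff.2 (sub_ne_zero.2 hx)
  refine (tendsto_inv_nhdsGT_zero.comp h1).congr fun x => ?_
  simp only [Function.comp_apply, dist_eq_norm, norm_iv_sub]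

theorem sign_iv (hdim : 1 < Module.finrank ℝ E) (c : E) :
    ∃ t : ℝ, (t = 1 ∨ t = -1) ∧ ∀ x, x ≠ c → LD t (iv c) x := by
  obtain ⟨t, ht, h⟩ := sign_const (f := iv c) (U := ({c}ᶜ : Set E)) isOpen_compl_singleton
    (preconnected_compl_singleton hdim c) (fun x hx => rg_iv hx)
  exact ⟨t, ht, fun x hx => h x hx⟩

/-- Continuity of the conjugate. -/
private theorem continuous_conj {F : E ≃ₜ E} (h0 : F 0 = 0) :
    Continuous fun x => iv 0 (F (iv 0 x)) := by
  rw [continuous_iff_continuousAt]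
  intro x
  by_cases hx : x = 0
  · subst hx
    rw [continuousAt_iff_punctured_nhds]
    have e : iv 0 (F (iv 0 (0 : E))) = 0 := by
      rw [iv_self, h0, iv_self]
    rw [e]
    exact (tendsto_iv_cocompact 0).comp ((tendsto_cocompact' F).comp (tendsto_iv_nhds 0))
  · have h1 : F (iv 0 x) ≠ 0 := by
      intro h2
      exact iv_ne hx (F.injective (h2.trans h0.symm))
    have h2 : ContinuousAt (fun y => F (iv 0 y)) x :=
      F.continuous.continuousAt.comp (continuousAt_iv hx)
    exact ContinuousAt.comp (g := iv 0) (f := fun y => F (iv 0 y)) (continuousAt_iv h1) h2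

theorem exists_invconj (hdim : 1 < Module.finrank ℝ E) {F : E ≃ₜ E} (h0 : F 0 = 0) :
    ∃ F' : E ≃ₜ E, F' 0 = 0 ∧ (∀ x, F' x = iv 0 (F (iv 0 x))) ∧
      (∀ x, x ≠ 0 → RG F (iv 0 x) → RG F' x) ∧
      ∀ s : ℝ, ∀ x, x ≠ 0 → LD s F (iv 0 x) → LD s F' x := by
  have h0' : F.symm 0 = 0 := by
    rw [Homeomorph.symm_apply_eq, h0]
  let F' : E ≃ₜ E :=
    { toFun := fun x => iv 0 (F (iv 0 x))
      invFun := fun x => iv 0 (F.symm (iv 0 x))
      left_inv := fun x => by
        change iv 0 (F.symm (iv 0 (iv 0 (F (iv 0 x))))) = x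
        rw [iv_iv, F.symm_apply_apply, iv_iv]
      right_inv := fun x => by
        change iv 0 (F (iv 0 (iv 0 (F.symm (iv 0 x))))) = x
        rw [iv_iv, F.apply_symm_apply, iv_iv]
      continuous_toFun := continuous_conj h0
      continuous_invFun := continuous_conj h0' }
  have hF' : ∀ x, F' x = iv 0 (F (iv 0 x)) := fun _ => rfl
  have hne : ∀ x : E, x ≠ 0 → F (iv 0 x) ≠ 0 := by
    intro x hx h2
    exact iv_ne hx (F.injective (h2.trans h0.symm))
  obtain ⟨t, ht, hs⟩ := sign_iv hdim (0 : E)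
  refine ⟨F', ?_, hF', fun x hx h => ?_, fun s x hx h => ?_⟩
  · rw [hF', iv_self, h0, iv_self]
  · have h1 : RG (fun y => F (iv 0 y)) x := RG.comp h (rg_iv hx)
    exact RG.comp (g := iv 0) (f := fun y => F (iv 0 y)) (rg_iv (hne x hx)) h1
  · have h1 : LD (s * t) (F ∘ iv 0) x := LD.comp h (hs x hx)
    have h2 : LD (t * (s * t)) (iv 0 ∘ (F ∘ iv 0)) x := LD.comp (hs _ (hne x hx)) h1
    have e : t * (s * t) = s := by
      rcases ht with rfl | rfl <;> ring
    rw [e] at h2
    exact h2

end Pool.Agent.HopfCov
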