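import Pool.Agent.HopfRem.OuterBall
import Pool.Agent.HopfRem.InvE

/-!
# HR14 (`Inner`): a homeomorphism smooth outside a ball is made smooth off one point

Proof. Let `F'` be given by `exists_invconj` for `F`: `F' x = iv 0 (F (iv 0 x))`, `F' 0 = 0`. For
`0 < ‖x‖ < a⁻¹` we have `‖iv 0 x‖ > a`, so `RG F' x`. Apply `outer_ball` to `F'` with `K = {0}`,
radii `b⁻¹ < a⁻¹`: `G'` is a homeomorphism, `G' = F'` on `closedBall 0 b⁻¹`, `RG G' x` for
`x ≠ 0`; `G' 0 = 0`. Apply `exists_invconj` to `G'`: the resulting `G` satisfies `G 0 = 0`,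
`RG G x` for `x ≠ 0` (as `iv 0 x ≠ 0`), and for `‖x‖ ≥ b`: `‖iv 0 x‖ ≤ b⁻¹`, so
`G x = iv 0 (G' (iv 0 x)) = iv 0 (F' (iv 0 x)) = iv 0 (iv 0 (F (iv 0 (iv 0 x)))) = F x`.
-/

set_option autoImplicit false
set_option linter.unusedSectionVars false

open scoped ContDiff Topology
open Set Filter Metric Topology

namespace Pool.Agent.HopfCov

variable {E : Type} [NormedAddCommGroup E] [InnerProductSpace ℝ E] [FiniteDimensional ℝ E]

theorem inner_fix (hdim : 1 < Module.finrank ℝ E) {F : E ≃ₜ E} (h0 : F 0 = 0) {a b : ℝ}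
    (ha : 0 < a) (hab : a < b) (hr : ∀ x, a ≤ ‖x‖ → RG F x) :
    ∃ G : E ≃ₜ E, G 0 = 0 ∧ (∀ x, x ≠ 0 → RG G x) ∧ ∀ x, b ≤ ‖x‖ → G x = F x := by
  have hb : 0 < b := ha.trans hab
  obtain ⟨F', h0', hF', hrg', -⟩ := exists_invconj hdim h0
  obtain ⟨G', hG', hGr⟩ := outer_ball hdim (F := F') (K := {0}) isCompact_singleton
    (c := b⁻¹) (b := a⁻¹) (inv_pos.2 hb) (inv_strictAnti₀ ha hab)
    (by
      rw [singleton_subset_iff, mem_closedBall, dist_self]
      exact (inv_pos.2 hb).le)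
    (fun x hx hx0 => by
      have hx0' : x ≠ 0 := hx0
      refine hrg' x hx0' (hr _ ?_)
      rw [norm_iv_zero]
      rw [mem_ball, dist_zero_right] at hx
      have hpos : 0 < ‖x‖ := norm_pos_iff.2 hx0'
      have h1 := inv_strictAnti₀ hpos hx
      rw [inv_inv] at h1
      exact h1.le)
  have hG0 : G' 0 = 0 := by
    rw [hG' 0 (by
      rw [mem_closedBall, dist_self]
      exact (inv_pos.2 hb).le), h0']
  obtain ⟨G, hGz, hGG, hGrg, -⟩ := exists_invconj hdim hG0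
  refine ⟨G, hGz, fun x hx => hGrg x hx (hGr _ ?_), fun x hx => ?_⟩
  · exact iv_ne hx
  · have h1 : iv 0 x ∈ closedBall (0 : E) b⁻¹ := by
      rw [mem_closedBall, dist_zero_right, norm_iv_zero]
      exact inv_anti₀ hb hx
    rw [hGG, hG' _ h1, hF', iv_iv, iv_iv]

end Pool.Agent.HopfCov
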