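import Pool.Agent.HopfRem.Outer

/-!
# HR13 (`OuterBall`): smoothing the outside of a ball

Proof. Let `h : E → ball 0 b` be the map of `exists_shrink 0` (identity on `closedBall 0 c`), and
`e = F ∘ h`, an open embedding (`F` is a homeomorphism). If `x ∉ K` then `h x ∉ K`: otherwise
`h x ∈ closedBall 0 c`, so `h (h x) = h x` and `x = h x ∈ K`. So `RG F (h x)` and `RG e x`.
Apply `outer` to `e`, `K`, `L = closedBall 0 c`: `G = e = F ∘ h = F` on `closedBall 0 c`.
-/

set_option autoImplicit false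
set_option linter.unusedSectionVars false

open scoped ContDiff Topology
open Set Filter Metric Topology

namespace Pool.Agent.HopfCov

variable {E : Type} [NormedAddCommGroup E] [InnerProductSpace ℝ E] [FiniteDimensional ℝ E]

theorem outer_ball (hdim : 1 < Module.finrank ℝ E) {F : E ≃ₜ E} {K : Set E} (hK : IsCompact K)
    {c b : ℝ} (hc : 0 < c) (hcb : c < b) (hKc : K ⊆ closedBall 0 c)
    (hr : ∀ x ∈ ball (0 : E) b, x ∉ K → RG F x) :
    ∃ G : E ≃ₜ E, (∀ x ∈ closedBall (0 : E) c, G x = F x) ∧ ∀ x, x ∉ K → RG G x := by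
  obtain ⟨h, hh, hhr, hhid, hran⟩ := exists_shrink (0 : E) hc hcb
  have hKh : ∀ x, x ∉ K → h x ∉ K := by
    intro x hx hxK
    have h1 : h (h x) = h x := hhid _ (hKc hxK)
    rw [hh.injective h1] at hxK
    exact hx hxK
  have hmem : ∀ x, h x ∈ ball (0 : E) b := fun x => by
    rw [← hran]
    exact mem_range_self x
  have he : IsOpenEmbedding (fun x => F (h x)) := F.isOpenEmbedding.comp hh
  obtain ⟨G, hG1, hG2⟩ := outer hdim he hK (isCompact_closedBall (0 : E) c)
    (fun x hx => RG.comp (hr _ (hmem x) (hKh x hx)) (hhr x))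
  refine ⟨G, fun x hx => ?_, hG2⟩
  rw [hG1 x hx, hhid x hx]

end Pool.Agent.HopfCov
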