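import Pool.Agent.HopfRem.Defs
import Pool.Agent.HopfCov.Crit

/-!
# HR3 (`PushE`): moving a point inside a connected open set

Proof. Local step: let `closedBall b r ⊆ U` with `r > 0` and `‖b' - b‖ ≤ r / 5`. Put
`c = 2 • b' - b`, so `‖b - c‖ = 2 * ‖b' - b‖ ≤ 2 * r / 5`, and take the radial
diffeomorphism `s` of `hRad` (`SpecRadial`, `HopfCov/Crit.lean`) with factor `1/2` on
`‖x‖ ≤ 2 * r / 5` and the identity for `‖x‖ ≥ 3 * r / 5`. Then `S x = c + s (x - c)` satisfies
`S b = c + (b - c) / 2 = b'`, is `LD 1` everywhere (translations are `LD 1`: `LD_tr`, `LD_all_mul`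
of `HopfCov/Basic.lean`) and is the identity off `closedBall c (3 * r / 5) ⊆ closedBall b r`
(`‖c - b‖ ≤ 2 * r / 5`), a compact subset of `U`.

The relation `a ~ b` (`a, b ∈ U` and there is `S` as in the theorem) is reflexive, symmetric
(`S⁻¹`, `LD_all_inv`, same compact set) and transitive (`S' * S`, union of the compact sets).
By the local step its classes are open (if `b ∈ U` is equivalent to `a` then so is every `b'` near
`b`), so the class of `a` and its complement in `U` (a union of classes) are open; as `U` is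
preconnected the class of `a` is `U`.
-/

set_option autoImplicit false
set_option linter.unusedSectionVars false

open scoped ContDiff Topology
open Set Filter Metric Topology

namespace Pool.Agent.HopfCov

variable {E : Type} [NormedAddCommGroup E] [InnerProductSpace ℝ E] [FiniteDimensional ℝ E]

private theorem push_local {U : Set E} {b b' : E} {r : ℝ} (hr : 0 < r)
    (h : closedBall b r ⊆ U) (hb : ‖b' - b‖ ≤ r / 5) :
    ∃ S : E ≃ₜ E, (∀ x, LD 1 S x) ∧ S b = b' ∧
      ∃ C : Set E, IsCompact C ∧ C ⊆ U ∧ ∀ x, x ∉ C → S x = x := by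
  have hp : ProperSpace E := FiniteDimensional.proper ℝ E
  obtain ⟨s, hs1, hs2, hs3⟩ := hRad E (1 / 2) (2 * r / 5) (3 * r / 5) (by norm_num)
    (by norm_num) (by positivity) (by linarith)
  set c : E := (2 : ℝ) • b' - b with hc
  have hS : ∀ x, (tr c * s * tr (-c) : E ≃ₜ E) x = s (x - c) + c := by
    intro x
    rw [mul_apply', mul_apply', tr_apply, tr_apply, sub_eq_add_neg]
  have hbc : b - c = (2 : ℝ) • (b - b') := by
    rw [hc, smul_sub, two_smul ℝ b]
    abel
  have hnbc : ‖b - c‖ ≤ 2 * r / 5 := by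
    rw [hbc, norm_smul, Real.norm_ofNat, norm_sub_rev]
    linarith
  refine ⟨tr c * s * tr (-c), LD_all_mul (LD_all_mul (LD_tr c) hs1) (LD_tr (-c)), ?_,
    closedBall c (3 * r / 5), isCompact_closedBall _ _, ?_, ?_⟩
  · rw [hS, hs2 _ hnbc, hbc, smul_smul]
    norm_num
    rw [hc, two_smul ℝ b']
    abel
  · refine (closedBall_subset_closedBall' ?_).trans h
    rw [dist_comm, dist_eq_norm]
    linarith
  · intro x hx
    rw [mem_closedBall, not_le, dist_eq_norm] at hx
    rw [hS, hs3 _ hx.le]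
    abel

theorem push_open {U : Set E} (hU : IsOpen U) (hc : IsPreconnected U) {a b : E} (ha : a ∈ U)
    (hb : b ∈ U) : ∃ S : E ≃ₜ E, (∀ x, LD 1 S x) ∧ S a = b ∧
      ∃ C : Set E, IsCompact C ∧ C ⊆ U ∧ ∀ x, x ∉ C → S x = x := by
  refine hc.induction₂ (fun a b => ∃ S : E ≃ₜ E, (∀ x, LD 1 S x) ∧ S a = b ∧
      ∃ C : Set E, IsCompact C ∧ C ⊆ U ∧ ∀ x, x ∉ C → S x = x) ?_ ?_ ?_ ha hb
  · intro x hx
    obtain ⟨r, hr, hrU⟩ := Metric.nhds_basis_closedBall.mem_iff.1 (hU.mem_nhds hx)
    refine eventually_nhdsWithin_of_eventually_nhds ?_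
    filter_upwards [closedBall_mem_nhds x (show (0 : ℝ) < r / 5 by positivity)] with y hy
    refine push_local hr hrU ?_
    rw [← dist_eq_norm]
    exact hy
  · rintro x y z - - - ⟨S, h1, h2, C, h3, h4, h5⟩ ⟨S', h1', h2', C', h3', h4', h5'⟩
    refine ⟨S' * S, LD_all_mul h1' h1, ?_, C ∪ C', h3.union h3', union_subset h4 h4', ?_⟩
    · rw [mul_apply', h2, h2']
    · intro w hw
      rw [mem_union, not_or] at hw
      rw [mul_apply', h5 w hw.1, h5' w hw.2]
  · rintro x y - - ⟨S, h1, h2, C, h3, h4, h5⟩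
    refine ⟨S⁻¹, LD_all_inv h1, ?_, C, h3, h4, ?_⟩
    · rw [← h2, inv_apply_self']
    · intro w hw
      conv_lhs => rw [← h5 w hw]
      exact inv_apply_self' S w

end Pool.Agent.HopfCov
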