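import Pool.Agent.HopfRem.Perf2
import Pool.Agent.HopfCov.Cov

/-!
# The abelianisation of the group of all punctured diffeomorphisms; orientation reversing
contractions
-/

set_option autoImplicit false
set_option linter.unusedSectionVars false

open scoped ContDiff Topology
open Set Filter Metric Topology

namespace Pool.Agent.HopfCov

/-- the group of all punctured diffeomorphisms of `ℝ⁴` -/
def PP : Subgroup (E4 ≃ₜ E4) where
  carrier := {h | PD 1 h ∨ PD (-1) h}
  mul_mem' := by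
    rintro a b (ha | ha) (hb | hb)
    · exact Or.inl (ha.mul_one' hb)
    · exact Or.inr (ha.mul_pos_neg hb)
    · right
      have := ha.mul hb
      rwa [mul_one] at this
    · exact Or.inl (ha.mul_neg hb)
  one_mem' := Or.inl PD_one
  inv_mem' := by
    rintro a (ha | ha)
    · exact Or.inl ha.inv
    · exact Or.inr ha.inv

theorem mem_PP {h : E4 ≃ₜ E4} : h ∈ PP ↔ PD 1 h ∨ PD (-1) h := Iff.rfl

theorem DD_le_PP : DD ≤ PP := fun _ h => Or.inl h

theorem chi_proof {K : E4 ≃ₜ E4} (h h' : PD (-1) K) : chi K h = chi K h' := rfl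

/-- the class of the product of two orientation reversing punctured diffeomorphisms -/
theorem pr_mul_neg {a b : E4 ≃ₜ E4} (ha : PD (-1) a) (hb : PD (-1) b) (h : PD 1 (a * b)) :
    pr (cls (a * b) h) = chi a ha * chi b hb := by
  have h1 : PD 1 (a * TT⁻¹) := ha.mul_neg PD_TT.inv
  have h2 : PD 1 (b * TT⁻¹) := hb.mul_neg PD_TT.inv
  have h3 : PD 1 (TT * (b * TT⁻¹) * TT⁻¹) := PD_conj (s := -1) (by norm_num) PD_TT h2
  have h4 : PD 1 (TT * TT) := PD_TT.mul_neg PD_TT
  have e : a * b = (a * TT⁻¹) * (TT * (b * TT⁻¹) * TT⁻¹) * (TT * TT) := by group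
  rw [cls_congr h e ((h1.mul_one' h3).mul_one' h4), cls_mul' (h1.mul_one' h3) h4,
    cls_mul' h1 h3, conj_eq_R PD_TT h2 h3, (cls_eq_one h4).2 Ext_TT_sq, mul_one, map_mul, pr_R]
  rfl

/-- the elements of trivial class -/
def CC : Subgroup (E4 ≃ₜ E4) where
  carrier := {u | ∃ hu : PD 1 u, pr (cls u hu) = 1}
  mul_mem' := by
    rintro a b ⟨ha, ha'⟩ ⟨hb, hb'⟩
    exact ⟨ha.mul_one' hb, by rw [cls_mul ha hb, map_mul, ha', hb', mul_one]⟩
  one_mem' := ⟨PD_one, by rw [(cls_eq_one PD_one).2 Ext_one, map_one]⟩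
  inv_mem' := by
    rintro a ⟨ha, ha'⟩
    exact ⟨ha.inv, by rw [cls_inv ha, map_inv, ha', inv_one]⟩

theorem mem_CC {u : E4 ≃ₜ E4} : u ∈ CC ↔ ∃ hu : PD 1 u, pr (cls u hu) = 1 := Iff.rfl

theorem DX_le_CC : DX ≤ CC := by
  rintro h ⟨h1, h2⟩
  exact ⟨h1, by rw [(cls_eq_one h1).2 h2, map_one]⟩

theorem commutator_PP : ⁅PP, PP⁆ = CC := by
  apply le_antisymm
  · rw [Subgroup.commutator_le]
    intro a ha b hb
    rw [commutatorElement_def]
    rcases ha with ha | ha <;> rcases hb with hb | hb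
    · apply DX_le_CC
      rw [← commutator_DD, ← commutatorElement_def]
      exact Subgroup.commutator_mem_commutator (show a ∈ DD from ha) (show b ∈ DD from hb)
    · -- `a` preserves, `b` reverses
      have h1 : PD 1 (b * a⁻¹ * b⁻¹) := PD_conj (s := -1) (by norm_num) hb ha.inv
      have e : a * b * a⁻¹ * b⁻¹ = a * (b * a⁻¹ * b⁻¹) := by group
      rw [e]
      refine ⟨ha.mul_one' h1, ?_⟩
      rw [cls_mul' ha h1, conj_eq_R hb ha.inv h1, map_mul, pr_R, cls_inv ha, map_inv,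
        mul_inv_cancel]
    · have h1 : PD 1 (a * b * a⁻¹) := PD_conj (s := -1) (by norm_num) ha hb
      refine ⟨h1.mul_one' hb.inv, ?_⟩
      rw [cls_mul' h1 hb.inv, conj_eq_R ha hb h1, map_mul, pr_R, cls_inv hb, map_inv,
        mul_inv_cancel]
    · have h1 : PD 1 (a * b) := ha.mul_neg hb
      have h2 : PD 1 (b * a) := hb.mul_neg ha
      have e : a * b * a⁻¹ * b⁻¹ = (a * b) * (b * a)⁻¹ := by group
      rw [e]
      refine ⟨h1.mul_one' h2.inv, ?_⟩
      rw [cls_mul' h1 h2.inv, cls_inv h2, map_mul, map_inv, pr_mul_neg ha hb h1,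
        pr_mul_neg hb ha h2, mul_comm (chi b hb), mul_inv_cancel]
  · rintro u ⟨hu, hu'⟩
    obtain ⟨y, hy⟩ := pr_eq_one.1 hu'
    obtain ⟨w, hw, rfl⟩ := cls_surj y
    have h1 : PD 1 (TT * w⁻¹ * TT⁻¹) := PD_conj (s := -1) (by norm_num) PD_TT hw.inv
    have h2 : PD 1 (w * (TT * w⁻¹ * TT⁻¹)) := hw.mul_one' h1
    have h3 : (w * (TT * w⁻¹ * TT⁻¹))⁻¹ * u ∈ DX := by
      refine ⟨h2.inv.mul_one' hu, ?_⟩
      rw [← cls_eq_one (h2.inv.mul_one' hu), cls_mul' h2.inv hu, cls_inv h2, cls_mul' hw h1,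
        conj_eq_R PD_TT hw.inv h1, ← hy, cls_inv hw, map_inv, inv_mul_cancel]
    have h4 : w * (TT * w⁻¹ * TT⁻¹) ∈ ⁅PP, PP⁆ := by
      have h5 := Subgroup.commutator_mem_commutator (show w ∈ PP from Or.inl hw)
        (show TT ∈ PP from Or.inr PD_TT)
      rw [commutatorElement_def] at h5
      have e : w * (TT * w⁻¹ * TT⁻¹) = w * TT * w⁻¹ * TT⁻¹ := by group
      rw [e]
      exact h5
    have h6 : (w * (TT * w⁻¹ * TT⁻¹))⁻¹ * u ∈ ⁅PP, PP⁆ := by
      have h7 : DX ≤ ⁅PP, PP⁆ := by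
        rw [← commutator_DD]
        exact Subgroup.commutator_mono DD_le_PP DD_le_PP
      exact h7 h3
    have e : u = (w * (TT * w⁻¹ * TT⁻¹)) * ((w * (TT * w⁻¹ * TT⁻¹))⁻¹ * u) := by group
    rw [e]
    exact mul_mem h4 h6

/-- two orientation reversing punctured diffeomorphisms have the same class if and only if
they are equal in the abelianisation -/
theorem chi_eq_iff {K K' : E4 ≃ₜ E4} (hK : PD (-1) K) (hK' : PD (-1) K') :
    chi K' hK' = chi K hK ↔ K' * K⁻¹ ∈ ⁅PP, PP⁆ := by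
  have h1 : PD 1 (K' * K⁻¹) := hK'.mul_neg hK.inv
  have h3 : chi ((K' * K⁻¹) * K) (h1.mul_pos_neg hK) = chi K' hK' :=
    chi_congr (by group) _ _
  rw [chi_mul h1 hK] at h3
  rw [commutator_PP, mem_CC, ← h3, mul_eq_right]
  exact ⟨fun h => ⟨h1, h⟩, fun ⟨_, h⟩ => h⟩

/-- the profile of an affine function -/
theorem exists_affine {l : ℝ} (hl : 0 < l) (m : ℝ) :
    ∃ e : ℝ ≃o ℝ, SmProf e ∧ ∀ u, e u = l * u + m := by
  have h1 : ContDiff ℝ ∞ fun u : ℝ => l * u + m :=
    (contDiff_const.mul contDiff_id).add contDiff_const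
  have h2 : ∀ u, deriv (fun u : ℝ => l * u + m) u = l := by
    intro u
    have : HasDerivAt (fun u : ℝ => l * u + m) (l * 1) u :=
      ((hasDerivAt_id u).const_mul l).add_const m
    rw [this.deriv, mul_one]
  have h3 : Tendsto (fun u : ℝ => l * u + m) atTop atTop :=
    tendsto_atTop_add_const_right _ _ (tendsto_id.const_mul_atTop hl)
  have h4 : Tendsto (fun u : ℝ => l * u + m) atBot atBot :=
    tendsto_atBot_add_const_right _ _ (tendsto_id.const_mul_atBot hl)
  obtain ⟨e, he⟩ := exists_orderIso h1 (fun u => by rw [h2]; exact hl) h3 h4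
  exact ⟨e, ⟨_, he, h1, fun u => by rw [h2]; exact hl⟩, he⟩

theorem exists_adjust {w : E4 ≃ₜ E4} (hw : w 0 = 0) {r : ℝ} (hr : r < 1) :
    ∃ e : ℝ ≃o ℝ, SmProf e ∧ (∀ x, ‖x‖ ≤ r → ‖(w * (rad e)⁻¹ : E4 ≃ₜ E4) x‖ < 1) ∧
      ∀ x, ‖(w * (rad e)⁻¹ : E4 ≃ₜ E4) x‖ ≤ 1 → ‖x‖ ≤ 1 := by
  -- a ball which is mapped into the unit ball, and a ball which contains the preimage of it
  have hcont : Tendsto (fun x => ‖w x‖) (𝓝 0) (𝓝 0) := by
    have := w.continuous.norm.tendsto 0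
    rwa [hw, norm_zero] at this
  obtain ⟨a, ha, ha'⟩ := Metric.eventually_nhds_iff_ball.1
    (hcont.eventually (gt_mem_nhds (show (0 : ℝ) < 1 by norm_num)))
  obtain ⟨b₀, hb₀⟩ := bounded_image w⁻¹ 1
  set a' : ℝ := a / 2 with ha2
  have ha'0 : 0 < a' := by positivity
  set b : ℝ := max b₀ (2 * a') with hb
  have hab : a' < b := lt_of_lt_of_le (by linarith) (le_max_right _ _)
  have hb0 : 0 < b := ha'0.trans hab
  set r' : ℝ := max r (1 / 2) with hr'
  have hr'1 : r' < 1 := max_lt hr (by norm_num)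
  have hr'0 : 0 < r' := lt_of_lt_of_le (by norm_num) (le_max_right _ _)
  have hlog : Real.log a' < Real.log b := Real.log_lt_log ha'0 hab
  have hlr : Real.log r' < 0 := Real.log_neg hr'0 hr'1
  set l : ℝ := (-Real.log r') / (Real.log b - Real.log a') with hl
  have hl0 : 0 < l := div_pos (by linarith) (by linarith)
  obtain ⟨e, he, hev⟩ := exists_affine hl0 (-(l * Real.log b))
  have heb : e (Real.log b) = 0 := by rw [hev]; ring
  have hea : e (Real.log a') = Real.log r' := by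
    rw [hev]
    have h1 : l * (Real.log b - Real.log a') = -Real.log r' := by
      rw [hl]
      exact div_mul_cancel₀ _ (by linarith)
    linarith
  have hri : ∀ x : E4, x ≠ 0 → ‖((rad e)⁻¹ : E4 ≃ₜ E4) x‖ = Real.exp (e.symm (Real.log ‖x‖)) := by
    intro x hx
    show ‖radFun e.symm x‖ = _
    exact norm_radFun _ hx
  have hr0 : ((rad e)⁻¹ : E4 ≃ₜ E4) 0 = 0 := by
    show radFun e.symm (0 : E4) = 0
    exact radFun_zero _
  refine ⟨e, he, fun x hx => ?_, fun x hx => ?_⟩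
  · show ‖w (((rad e)⁻¹ : E4 ≃ₜ E4) x)‖ < 1
    refine ha' _ ?_
    rw [mem_ball_zero_iff]
    by_cases hx0 : x = 0
    · rw [hx0, hr0, norm_zero]
      exact ha
    · rw [hri x hx0]
      have h1 : Real.log ‖x‖ ≤ Real.log r' :=
        Real.log_le_log (norm_pos_iff.2 hx0) (hx.trans (le_max_left _ _))
      have h2 : e.symm (Real.log ‖x‖) ≤ Real.log a' := by
        rw [← hea] at h1
        have := e.symm.monotone h1
        rwa [e.symm_apply_apply] at this
      calc Real.exp (e.symm (Real.log ‖x‖)) ≤ Real.exp (Real.log a') := Real.exp_le_exp.2 h2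
        _ = a' := Real.exp_log ha'0
        _ < a := by rw [ha2]; linarith
  · by_cases hx0 : x = 0
    · rw [hx0, norm_zero]; exact zero_le_one
    · have h1 : ‖w (((rad e)⁻¹ : E4 ≃ₜ E4) x)‖ ≤ 1 := hx
      have h2 := hb₀ _ h1
      rw [inv_apply_self'] at h2
      have h3 : Real.exp (e.symm (Real.log ‖x‖)) ≤ b := by
        rw [← hri x hx0]
        exact h2.trans (le_max_left _ _)
      have h4 : e.symm (Real.log ‖x‖) ≤ Real.log b := by
        rw [Real.le_log_iff_exp_le hb0]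
        exact h3
      have h5 := e.monotone h4
      rw [e.apply_symm_apply, heb] at h5
      rw [← Real.log_nonpos_iff (norm_nonneg _)]
      exact h5

/-- orientation reversing trapping contractions with the same class are conjugate -/
theorem CJ_of_chi {K K' : E4 ≃ₜ E4} (hK : PD (-1) K) (hK' : PD (-1) K') (t : Trap K)
    (t' : Trap K') (c : Contr K) (c' : Contr K') (h : chi K' hK' = chi K hK) : CJ K K' := by
  obtain ⟨w, hw, hwe⟩ := exists_conj_of_chi hK hK' h
  -- the image of the closed unit ball under `K`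
  obtain ⟨r, hr1, hr⟩ : ∃ r : ℝ, r < 1 ∧ ∀ x, ‖x‖ ≤ 1 → ‖K x‖ ≤ r := by
    obtain ⟨x₀, hx₀, hmax⟩ := (isCompact_closedBall (0 : E4) 1).exists_isMaxOn
      ⟨0, by simp⟩ K.continuous.norm.continuousOn
    exact ⟨‖K x₀‖, t x₀ (by simpa using hx₀), fun x hx => hmax (by simpa using hx)⟩
  obtain ⟨e, he, h1, h2⟩ := exists_adjust hw.1 hr1
  set θ : E4 ≃ₜ E4 := rad e with hθ
  set w' : E4 ≃ₜ E4 := w * θ⁻¹ with hw'
  have hw'PD : PD 1 w' := hw.mul_one' he.PD.inv
  have hneg : PD (-1) (w' * K * w'⁻¹) := by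
    have := (hw'PD.mul hK).mul hw'PD.inv
    rwa [show (1 : ℝ) * -1 * 1 = -1 by norm_num] at this
  refine (CJ_of_conj hw'PD rfl).trans (CJ_core (s := -1) (by norm_num) hneg hK' ?_ t'
    (c.conj hw'PD.zero) c' ?_)
  · intro y hy
    have h3 : ‖w' ((w'⁻¹ : E4 ≃ₜ E4) y)‖ ≤ 1 := by rw [apply_inv_self']; exact hy
    exact h1 _ (hr _ (h2 _ h3))
  · have h3 : Ext (K * θ⁻¹ * K⁻¹) := Ext.conj hGerm hSwap hdim4 (s := -1) (by norm_num)
      he.ext.inv hK
    have h4 : Ext (w * ((K * θ⁻¹ * K⁻¹) * θ) * w⁻¹) :=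
      Ext.conj hGerm hSwap hdim4 (one_mul 1) (h3.mul he.ext) hw
    have e : K' * (w' * K * w'⁻¹)⁻¹ =
        (K' * (w * K * w⁻¹)⁻¹) * (w * ((K * θ⁻¹ * K⁻¹) * θ) * w⁻¹) := by
      rw [hw']
      group
    rw [e]
    exact hwe.mul h4

/-- every class is the class of an orientation reversing trapping contraction -/
theorem realise_neg {K : E4 ≃ₜ E4} (hK : PD (-1) K) :
    ∃ (G : E4 ≃ₜ E4) (hG : PD (-1) G), Contr G ∧ Trap G ∧ chi G hG = chi K hK := by
  obtain ⟨e, A, he, a1, a2, a3, h1⟩ := exists_rad hK.1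
  have h2 : PD 1 (rad e : E4 ≃ₜ E4) := PD_rad he a1 a2
  refine ⟨rad e * K, h2.mul_pos_neg hK, contr_of_half h1, trap_of_half h1, ?_⟩
  rw [chi_mul h2 hK, (cls_eq_one h2).2 (Ext_rad he a1 a2 a3), map_one, one_mul]

/-- perfectness statements -/
theorem perfect_iff : ⁅DD, DD⁆ = DD ↔ ∀ h : E4 ≃ₜ E4, PD 1 h → Ext h := by
  rw [commutator_DD]
  constructor
  · intro h u hu
    have : u ∈ DX := by rw [h]; exact hu
    exact this.2
  · intro h
    exact le_antisymm (fun u hu => hu.1) fun u hu => ⟨hu, h u hu⟩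

theorem coperfect_iff : ⁅PP, PP⁆ = DD ↔
    ∀ (K K' : E4 ≃ₜ E4) (hK : PD (-1) K) (hK' : PD (-1) K'), chi K' hK' = chi K hK := by
  constructor
  · intro h K K' hK hK'
    rw [chi_eq_iff, h]
    exact hK'.mul_neg hK.inv
  · intro h
    apply le_antisymm
    · rw [commutator_PP]
      rintro u ⟨hu, -⟩
      exact hu
    · intro u hu
      have h1 := h TT (u * TT) PD_TT (PD.mul_pos_neg hu PD_TT)
      rw [chi_eq_iff] at h1
      have e : u * TT * TT⁻¹ = u := by group
      rwa [e] at h1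

end Pool.Agent.HopfCov
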