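import Pool.Agent.HopfRem.InvE
import Pool.Agent.HopfCov.Realise

/-!
# Extendable punctured diffeomorphisms are products of two commutators
-/

set_option autoImplicit false
set_option linter.unusedSectionVars false

open scoped ContDiff Topology
open Set Filter Metric Topology

namespace Pool.Agent.HopfCov

variable {E : Type} [NormedAddCommGroup E] [InnerProductSpace ℝ E] [FiniteDimensional ℝ E]

/-- radial diffeomorphisms with a smooth profile -/
def SmProf (e : ℝ ≃o ℝ) : Prop :=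
  ∃ A : ℝ → ℝ, (∀ u, e u = A u) ∧ ContDiff ℝ ∞ A ∧ ∀ u, 0 < deriv A u

theorem SmProf.PD {e : ℝ ≃o ℝ} (h : SmProf e) : PD 1 (rad e : E ≃ₜ E) := by
  obtain ⟨A, h1, h2, h3⟩ := h
  exact PD_rad h1 h2 h3

theorem SmProf.ext {e : ℝ ≃o ℝ} (h : SmProf e) : Ext (rad e : E ≃ₜ E) := by
  obtain ⟨A, h1, h2, h3⟩ := h
  refine Ext_rad h1 h2 h3 ?_
  have : A = e := funext fun u => (h1 u).symm
  rw [this]
  exact e.tendsto_atTop

theorem norm_rad_le {e : ℝ ≃o ℝ} {c : ℝ} (h : ∀ u, e u ≤ u + c) (x : E) :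
    ‖(rad e : E ≃ₜ E) x‖ ≤ Real.exp c * ‖x‖ := by
  by_cases hx : x = 0
  · rw [hx, rad_apply, radFun_zero]
    simp
  · have h0 : 0 < ‖x‖ := norm_pos_iff.2 hx
    rw [rad_apply, norm_radFun _ hx]
    calc Real.exp (e (Real.log ‖x‖)) ≤ Real.exp (Real.log ‖x‖ + c) := Real.exp_le_exp.2 (h _)
      _ = Real.exp c * ‖x‖ := by rw [Real.exp_add, Real.exp_log h0, mul_comm]

theorem norm_rad_mono {e e' : ℝ ≃o ℝ} (h : ∀ u, e u ≤ e' u) (x : E) :
    ‖(rad e : E ≃ₜ E) x‖ ≤ ‖(rad e' : E ≃ₜ E) x‖ := by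
  by_cases hx : x = 0
  · rw [hx, rad_apply, rad_apply, radFun_zero, radFun_zero]
  · rw [rad_apply, rad_apply, norm_radFun _ hx, norm_radFun _ hx]
    exact Real.exp_le_exp.2 (h _)

/-- a radial contraction `s` with `s * k` contracting, arbitrarily strong -/
theorem exists_rad_two [Nontrivial E] {k : E ≃ₜ E} (h0 : k 0 = 0) (c : ℝ) :
    ∃ e : ℝ ≃o ℝ, SmProf e ∧ (∀ u, e u ≤ u + c) ∧
      ∀ x, ‖(rad e * k : E ≃ₜ E) x‖ ≤ 2⁻¹ * ‖x‖ := by
  obtain ⟨e₀, A₀, h1, -, -, -, h2⟩ := exists_rad h0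
  have hm : Monotone fun u => min (e₀ u) (u + c) := by
    intro u v huv
    exact min_le_min (e₀.monotone huv) (by linarith)
  have ht : Tendsto (fun u => min (e₀ u) (u + c)) atTop atTop := by
    rw [Filter.tendsto_atTop]
    intro b
    filter_upwards [e₀.tendsto_atTop.eventually (eventually_ge_atTop b),
      eventually_ge_atTop (b - c)] with u hu hu'
    exact le_min hu (by linarith)
  have hb : Tendsto (fun u => min (e₀ u) (u + c)) atBot atBot := by
    rw [Filter.tendsto_atBot]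
    intro b
    filter_upwards [e₀.tendsto_atBot.eventually (eventually_le_atBot b)] with u hu
    exact (min_le_left _ _).trans hu
  obtain ⟨A, a1, a2, a3, a4, a5⟩ := exists_smooth_below hm ht hb
  obtain ⟨e, he⟩ := exists_orderIso a1 a2 a4 a5
  have h3 : ∀ u, e u ≤ e₀ u := fun u => by
    rw [he]
    exact (a3 u).trans (min_le_left _ _)
  refine ⟨e, ⟨A, he, a1, a2⟩, fun u => ?_, fun x => ?_⟩
  · rw [he]
    exact (a3 u).trans (min_le_right _ _)
  · exact (norm_rad_mono h3 (k x)).trans (h2 x)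

/-- a compactly supported punctured diffeomorphism is a commutator -/
theorem comm_of_cs [Nontrivial E] {k : E ≃ₜ E} (hk : PD 1 k) (hs : CS k) :
    ∃ (F : E ≃ₜ E) (e : ℝ ≃o ℝ), SmProf e ∧ PD 1 F ∧ CS F ∧
      k = F * rad e * F⁻¹ * (rad e)⁻¹ := by
  obtain ⟨R, hR1, hRk⟩ := exists_radius hs
  have hR0 : 0 ≤ R := hR1.le
  have hRi : ∀ x, R ≤ ‖x‖ → (k⁻¹ : E ≃ₜ E) x = x := by
    intro x hx
    conv_lhs => rw [← hRk x hx]
    exact inv_apply_self' _ _
  set b : ℝ := 2 * (R + 1) with hb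
  have hb2 : 2 ≤ b := by linarith
  obtain ⟨e, he, hec, hek⟩ := exists_rad_two hk.1 (-Real.log b)
  set s : E ≃ₜ E := rad e with hsdef
  have hexp : Real.exp (-Real.log b) = b⁻¹ := by
    rw [Real.exp_neg, Real.exp_log (by linarith)]
  have hs1 : ∀ x, ‖s x‖ ≤ b⁻¹ * ‖x‖ := fun x => by
    rw [← hexp]
    exact norm_rad_le hec x
  have hs2 : ∀ x, ‖s x‖ ≤ 2⁻¹ * ‖x‖ := fun x => by
    refine (hs1 x).trans (mul_le_mul_of_nonneg_right ?_ (norm_nonneg _))
    exact inv_anti₀ two_pos hb2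
  have hs3 : ∀ x, b * ‖x‖ ≤ ‖(s⁻¹ : E ≃ₜ E) x‖ := fun x => by
    have h1 := hs1 ((s⁻¹ : E ≃ₜ E) x)
    rw [apply_inv_self'] at h1
    rw [inv_mul_eq_div, le_div_iff₀ (by linarith)] at h1
    linarith
  have hsPD : PD 1 s := he.PD
  have hskPD : PD 1 (s * k) := hsPD.mul_one' hk
  have t1 := trap_of_half hs2
  have c1 := contr_of_half hs2
  have t2 := trap_of_half hek
  have c2 := contr_of_half hek
  have hglue : Glue s (s * k) (s * k * s⁻¹) := by
    refine ⟨⟨1 / 2, by norm_num, fun x hx => ?_⟩, ⟨0, 2, by norm_num, by norm_num,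
      fun x _ _ => ?_⟩, fun x => ?_⟩
    · have h1 : R ≤ ‖(s⁻¹ : E ≃ₜ E) x‖ := by
        have h2 := hs3 x
        have h3 : b * (1 / 2) ≤ b * ‖x‖ := mul_le_mul_of_nonneg_left hx (by linarith)
        linarith
      show s (k ((s⁻¹ : E ≃ₜ E) x)) = x
      rw [hRk _ h1, apply_inv_self']
    · show s (k ((s⁻¹ : E ≃ₜ E) (s x))) = s (k x)
      rw [inv_apply_self']
    · have h1 : ((s * k)⁻¹ : E ≃ₜ E) ((s * k * s⁻¹ : E ≃ₜ E) x) = (s⁻¹ : E ≃ₜ E) x := by
        show ((s * k)⁻¹ * (s * k * s⁻¹) : E ≃ₜ E) x = _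
        congr 1
        group
      rw [h1]
  have hG : PD 1 (s * k * s⁻¹) := hskPD.mul_one' hsPD.inv
  set F' : E ≃ₜ E := glueHomeo hglue hsPD.1 hskPD.1 t1 t2 c1 c2 with hF'
  have hF'a : ∀ x, F' x = glueFun s (s * k) (s * k * s⁻¹) x := fun x => rfl
  have hF'0 : F' 0 = 0 := glueFun_zero _ _ _
  have hF'PD : PD 1 F' := by
    refine ⟨hF'0, fun x hx => ?_⟩
    obtain ⟨n, hn⟩ := exists_InA t1 c1 hx
    have hx' : ((s ^ (-n) : E ≃ₜ E)) x ≠ 0 := (hsPD.zpow (-n)).ne hx
    exact glue_LD (one_mul 1) hglue hsPD hskPD t1 hn (hG.ne hx') (hG.2 _ hx')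
  have hF'eq : ∀ x, F' (s x) = s (k (F' x)) := fun x =>
    glueFun_equivariant hsPD.1 hskPD.1 t1 c1 x
  have hF'CS : CS F' := by
    have key : ∀ n : ℕ, ∀ x, InA s (-((n : ℤ) + 1)) x → F' x = x := by
      intro n
      induction n with
      | zero =>
        intro x hx
        rw [hF'a, glueFun_eq hsPD.1 t1 hx]
        have h1 : (-(-(((0 : ℕ) : ℤ) + 1))) = (1 : ℤ) := by norm_num
        have h2 : (-(((0 : ℕ) : ℤ) + 1)) = (-1 : ℤ) := by norm_num
        rw [h1, h2, zpow_one, zpow_neg_one]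
        show ((s * k)⁻¹ * (s * k * s⁻¹) * s : E ≃ₜ E) x = x
        have h3 : ((s * k)⁻¹ * (s * k * s⁻¹) * s : E ≃ₜ E) = 1 := by group
        rw [h3]
        rfl
      | succ n ih =>
        intro x hx
        have h1 : InA s (-((n : ℤ) + 1)) (s x) := by
          have e1 : ∀ j : ℤ, (s ^ (-(j + 1))) (s x) = (s ^ (-j)) x := by
            intro j
            rw [show (-(j + 1) : ℤ) = -j + -1 by ring, zpow_apply_add, zpow_neg_one,
              inv_apply_self']
          have e2 : (-((n : ℤ) + 1)) = (-(((n + 1 : ℕ) : ℤ) + 1)) + 1 := by push_cast; ring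
          constructor
          · rw [e2, e1]
            exact hx.1
          · rw [e2, e1]
            exact hx.2
        have h2 := ih _ h1
        rw [hF'eq] at h2
        have h3 : k (F' x) = x := s.injective h2
        have h4 : 1 < ‖s x‖ := by
          have := hx.2
          have h5 : (-(-(((n + 1 : ℕ) : ℤ) + 1) + 1)) = ((n + 1 : ℕ) : ℤ) := by ring
          rw [h5, zpow_natCast] at this
          by_contra hcon
          push Not at hcon
          rw [pow_succ, mul_apply'] at this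
          exact absurd (t1.pow n hcon) (not_le.2 this)
        have h6 : R ≤ ‖x‖ := by
          have h7 := hs1 x
          rw [inv_mul_eq_div, le_div_iff₀ (by linarith)] at h7
          nlinarith
        calc F' x = (k⁻¹ : E ≃ₜ E) (k (F' x)) := (inv_apply_self' _ _).symm
          _ = (k⁻¹ : E ≃ₜ E) x := by rw [h3]
          _ = x := hRi x h6
    refine CS_of_supp (R := 2) fun x hx => ?_
    have hx0 : x ≠ 0 := by
      rw [← norm_pos_iff]
      linarith
    obtain ⟨m, hm⟩ := exists_InA t1 c1 hx0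
    have hm0 : m < 0 := by
      by_contra hcon
      push Not at hcon
      have := norm_le_of_le t1 hcon hm.1
      rw [neg_zero, zpow_zero] at this
      have h2 : ‖x‖ ≤ 1 := this
      linarith
    obtain ⟨n, hn⟩ := Int.eq_ofNat_of_zero_le (show 0 ≤ -m - 1 by omega)
    have h1 : m = -((n : ℤ) + 1) := by omega
    rw [h1] at hm
    exact key n x hm
  have hF'eq2 : F' * s = s * k * F' := by
    ext1 x
    exact hF'eq x
  refine ⟨s⁻¹ * F' * s, e, he, (hsPD.inv.mul_one' hF'PD).mul_one' hsPD, ?_, ?_⟩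
  · have h1 : EqInf (s⁻¹ * F' * s) (s⁻¹ * 1 * s) :=
      ((EqInf.refl _).mul hF'CS.eqInf).mul (EqInf.refl _)
    rw [mul_one, inv_mul_cancel] at h1
    exact CS.of_eqInf h1
  · have h1 : F' * s * F'⁻¹ = s * k := by rw [hF'eq2]; group
    rw [← hsdef]
    calc k = s⁻¹ * (s * k) := by group
      _ = s⁻¹ * (F' * s * F'⁻¹) := by rw [h1]
      _ = _ := by group

end Pool.Agent.HopfCov
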