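import Pool.Agent.HopfRem.Outer

/-!
# HR16 (`GermE`): germs with an isolated singular point extend to homeomorphisms of `E`

Proof. Choose `ε > 0` with `ball a ε ⊆ g.source`, `δ = ε / 2`, and let `h : E → ball a ε` be given
by `exists_shrink a` (identity on `closedBall a δ`). `e = g ∘ h` is an open embedding (`g` is
injective, continuous and open on its open source). For `x ≠ a`: `h x ≠ a` (as `h a = a`), so
`RG g (h x)` and `RG e x`. Apply `outer` with `K = {a}`, `L = closedBall a δ`: on `closedBall a δ`,
`G = e = g`.
-/

set_option autoImplicit false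
set_option linter.unusedSectionVars false

open scoped ContDiff Topology
open Set Filter Metric Topology

namespace Pool.Agent.HopfCov

variable {E : Type} [NormedAddCommGroup E] [InnerProductSpace ℝ E] [FiniteDimensional ℝ E]

theorem germ_extend (hdim : 1 < Module.finrank ℝ E) (g : OpenPartialHomeomorph E E) {a : E}
    (ha : a ∈ g.source) (hr : ∀ x ∈ g.source, x ≠ a → RG g x) :
    ∃ G : E ≃ₜ E, (∀ᶠ x in 𝓝 a, G x = g x) ∧ ∀ x, x ≠ a → RG G x := by
  obtain ⟨ε, hε, hball⟩ := Metric.isOpen_iff.mp g.open_source a ha
  obtain ⟨h, hemb, hrg, hid, hrange⟩ := exists_shrink a (half_pos hε) (half_lt_self hε)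
  have hmem : ∀ x, h x ∈ g.source := fun x => hball (hrange ▸ mem_range_self x)
  have hcont : Continuous (fun x => g (h x)) :=
    g.continuousOn.comp_continuous hemb.continuous hmem
  have hinj : Function.Injective (fun x => g (h x)) := fun x y hxy =>
    hemb.injective (g.injOn (hmem x) (hmem y) hxy)
  have hopen : IsOpenMap (fun x => g (h x)) := by
    intro U hU
    have h1 : (fun x => g (h x)) '' U = g '' (h '' U) := by
      rw [image_image]
    rw [h1]
    refine g.isOpen_image_of_subset_source (hemb.isOpenMap U hU) ?_
    rintro _ ⟨x, _, rfl⟩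
    exact hmem x
  have he : IsOpenEmbedding (fun x => g (h x)) :=
    IsOpenEmbedding.of_continuous_injective_isOpenMap hcont hinj hopen
  have haa : h a = a := hid a (mem_closedBall_self (half_pos hε).le)
  obtain ⟨G, hG1, hG2⟩ := outer hdim he (K := {a}) (L := closedBall a (ε / 2))
    isCompact_singleton (isCompact_closedBall a (ε / 2)) (by
      intro x hx
      rw [mem_singleton_iff] at hx
      have hne : h x ≠ a := fun hxa => hx (hemb.injective (hxa.trans haa.symm))
      exact RG.comp (hr (h x) (hmem x) hne) (hrg x))
  refine ⟨G, ?_, fun x hx => hG2 x (by rwa [mem_singleton_iff])⟩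
  filter_upwards [closedBall_mem_nhds a (half_pos hε)] with x hx
  rw [hG1 x hx, hid x hx]

end Pool.Agent.HopfCov
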