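import Pool.Agent.HopfRem.BoxPar

/-!
# HR24 (`BoxE`): disjoint small boxes covering a compact set of length zero

Proof. For `k : Fin 4` the projection `π k '' T` (`π k x = x k` is `1`-Lipschitz) has
one-dimensional Hausdorff measure zero (`LipschitzOnWith.hausdorffMeasure_image_le` or
`LipschitzWith.hausdorffMeasure_image_le`), hence Lebesgue measure zero
(`MeasureTheory.hausdorffMeasure_real`), so its complement meets every nonempty open interval. By
`lebesgue_number_lemma_of_metric_sUnion` there is `δ > 0` such that every `ball x δ`, `x ∈ K`, is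
contained in a member of `𝒰`. Let `η = δ / 5` (a box with side lengths `< 2 * η` has diameter
`≤ √4 * 2 * η = 4 * η < δ`). Choose `t k i ∈ (i * η, (i + 1) * η)`,
`i : ℤ`, with `t k i ∉ π k '' T`. Then `t k i < t k (i + 1) < t k i + 2 * η`. For
`m : Fin 4 → ℤ` let `Q m = {x | ∀ k, t k (m k) < x k < t k (m k + 1)}`; these open boxes are
pairwise disjoint (monotonicity of `t k`), and the closure of `Q m` is in the closed box. Every
`x ∈ K ⊆ T` lies in some `Q m` (`x k` is not one of the `t k i`; take `m k` = the largest `i` with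
`t k i < x k`, e.g. from `⌊x k / η⌋` and the previous index). The set of `m` with `Q m ∩ K ≠ ∅`
is finite
(`K` is bounded, and `|m k| * η ≤ R + 2 * η`). List them (`Finite` gives an equivalence with
`Fin n`) and take the maps of `box_par`. For such `m`, with `x ∈ Q m ∩ K`, the closed box is in
`ball x δ`, which is in a member of `𝒰`. Compactness of the closure: bounded. Finally a
point of `T` in the closed box has no coordinate equal to `t k (m k)` or `t k (m k + 1)`, so it is
in `Q m`.
-/

set_option autoImplicit false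
set_option linter.unusedSectionVars false

open scoped ContDiff Topology MeasureTheory
open Set Filter Metric Topology

namespace Pool.Agent.HopfCov

private lemma abs_coord_le (x y : E4) (k : Fin 4) : |x k - y k| ≤ dist x y := by
  rw [EuclideanSpace.dist_eq]
  refine Real.abs_le_sqrt ?_
  have h1 : (x k - y k) ^ 2 = dist (x k) (y k) ^ 2 := by rw [Real.dist_eq, sq_abs]
  rw [h1]
  exact Finset.single_le_sum (f := fun i => dist (x i) (y i) ^ 2) (fun i _ => sq_nonneg _)
    (Finset.mem_univ k)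

private lemma dist_le_four {x y : E4} {η : ℝ} (hη : 0 ≤ η) (h : ∀ k, |x k - y k| ≤ 2 * η) :
    dist x y ≤ 4 * η := by
  rw [EuclideanSpace.dist_eq]
  refine Real.sqrt_le_iff.2 ⟨by positivity, ?_⟩
  have h1 : ∀ k ∈ (Finset.univ : Finset (Fin 4)), dist (x k) (y k) ^ 2 ≤ (2 * η) ^ 2 := by
    intro k _
    rw [Real.dist_eq]
    exact pow_le_pow_left₀ (abs_nonneg _) (h k) 2
  have h2 := Finset.sum_le_card_nsmul _ _ _ h1
  rw [Finset.card_univ, Fintype.card_fin, nsmul_eq_mul] at h2
  push_cast at h2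
  nlinarith [h2]

private lemma exists_cut {T : Set E4} (hT : μH[1] T = 0) (k : Fin 4) {u v : ℝ} (huv : u < v) :
    ∃ t : ℝ, (u < t ∧ t < v) ∧ ∀ y ∈ T, y k ≠ t := by
  have hL : LipschitzWith 1 (fun x : E4 => x k) := by
    refine LipschitzWith.mk_one fun x y => ?_
    rw [Real.dist_eq]
    exact abs_coord_le x y k
  have h0 : MeasureTheory.volume ((fun x : E4 => x k) '' T) = 0 := by
    rw [← MeasureTheory.hausdorffMeasure_real]
    have h1 := hL.hausdorffMeasure_image_le (zero_le_one' ℝ) T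
    rw [hT, mul_zero] at h1
    exact le_antisymm h1 bot_le
  by_contra hcon
  push Not at hcon
  have hsub : Ioo u v ⊆ (fun x : E4 => x k) '' T := by
    intro t ht
    obtain ⟨y, hy, hyt⟩ := hcon t ht
    exact ⟨y, hy, hyt⟩
  have h2 := (MeasureTheory.measure_mono (μ := MeasureTheory.volume) hsub).trans_eq h0
  rw [Real.volume_Ioo] at h2
  have h3 : ENNReal.ofReal (v - u) = 0 := le_antisymm h2 bot_le
  rw [ENNReal.ofReal_eq_zero] at h3
  linarith

theorem box_cover {T K : Set E4} (hT : μH[1] T = 0) (hK : IsCompact K) (hKT : K ⊆ T)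
    {𝒰 : Set (Set E4)} (hU : ∀ U ∈ 𝒰, IsOpen U) (hc : K ⊆ ⋃₀ 𝒰) :
    ∃ (n : ℕ) (φ : Fin n → E4 → E4),
      (∀ i, IsOpenEmbedding (φ i) ∧ (∀ x, RG (φ i) x) ∧ IsCompact (closure (range (φ i))) ∧
        (∃ U ∈ 𝒰, closure (range (φ i)) ⊆ U) ∧ T ∩ closure (range (φ i)) ⊆ range (φ i)) ∧
      (∀ i j, i ≠ j → Disjoint (range (φ i)) (range (φ j))) ∧ K ⊆ ⋃ i, range (φ i) := by
  classical
  obtain ⟨δ, hδ, hball⟩ := lebesgue_number_lemma_of_metric_sUnion hK hU hc
  set η : ℝ := δ / 5 with hη
  have hη0 : 0 < η := by positivity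
  have hcut : ∀ (k : Fin 4) (i : ℤ), ∃ t : ℝ, ((i : ℝ) * η < t ∧ t < ((i : ℝ) + 1) * η) ∧
      ∀ y ∈ T, y k ≠ t := fun k i => exists_cut hT k (by nlinarith)
  choose t ht hTt using hcut
  have hstep : ∀ k i, t k i < t k (i + 1) := by
    intro k i
    have h1 := (ht k i).2
    have h2 := (ht k (i + 1)).1
    push_cast at h2
    linarith
  have hmono : ∀ k, StrictMono (t k) := fun k => strictMono_int_of_lt_succ (hstep k)
  have hwidth : ∀ k i, t k (i + 1) - t k i ≤ 2 * η := by
    intro k i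
    have h1 := (ht k i).1
    have h2 := (ht k (i + 1)).2
    push_cast at h2
    nlinarith
  -- the boxes
  set Q : (Fin 4 → ℤ) → Set E4 := fun m => {x | ∀ k, t k (m k) < x k ∧ x k < t k (m k + 1)} with hQ
  set C : (Fin 4 → ℤ) → Set E4 := fun m => {x | ∀ k, t k (m k) ≤ x k ∧ x k ≤ t k (m k + 1)} with hC
  have hQC : ∀ m, Q m ⊆ C m := fun m x hx k => ⟨(hx k).1.le, (hx k).2.le⟩
  have hCcl : ∀ m, IsClosed (C m) := by
    intro m
    have h1 : C m = ⋂ k, {x : E4 | t k (m k) ≤ x k ∧ x k ≤ t k (m k + 1)} := by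
      ext x
      simp [hC]
    rw [h1]
    refine isClosed_iInter fun k => ?_
    have hcont : Continuous fun x : E4 => x k := by fun_prop
    exact (isClosed_le continuous_const hcont).inter (isClosed_le hcont continuous_const)
  have hdisj : ∀ m m', m ≠ m' → Disjoint (Q m) (Q m') := by
    intro m m' hne
    rw [Set.disjoint_left]
    intro x hx hx'
    apply hne
    funext k
    have h1 : t k (m k) < t k (m' k + 1) := (hx k).1.trans (hx' k).2
    have h2 : t k (m' k) < t k (m k + 1) := (hx' k).1.trans (hx k).2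
    have h3 := (hmono k).lt_iff_lt.1 h1
    have h4 := (hmono k).lt_iff_lt.1 h2
    omega
  have hex : ∀ x ∈ T, ∃ m, x ∈ Q m := by
    intro x hx
    have h1 : ∀ k, ∃ j : ℤ, t k j < x k ∧ x k < t k (j + 1) := by
      intro k
      have h2 : (⌊x k / η⌋ : ℝ) * η ≤ x k := by
        have := Int.floor_le (x k / η)
        rwa [le_div_iff₀ hη0] at this
      have h3 : x k < ((⌊x k / η⌋ : ℝ) + 1) * η := by
        have := Int.lt_floor_add_one (x k / η)
        rwa [div_lt_iff₀ hη0] at this
      rcases lt_trichotomy (t k ⌊x k / η⌋) (x k) with h | h | h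
      · refine ⟨⌊x k / η⌋, h, ?_⟩
        have h4 := (ht k (⌊x k / η⌋ + 1)).1
        push_cast at h4
        linarith
      · exact absurd h.symm (hTt k _ x hx)
      · refine ⟨⌊x k / η⌋ - 1, ?_, ?_⟩
        · have h4 := (ht k (⌊x k / η⌋ - 1)).2
          push_cast at h4
          have h5 : ((⌊x k / η⌋ : ℝ) - 1 + 1) * η = (⌊x k / η⌋ : ℝ) * η := by ring
          linarith
        · rw [sub_add_cancel]
          exact h
    choose m hm using h1
    exact ⟨m, hm⟩
  obtain ⟨R, hR⟩ := hK.isBounded.subset_ball 0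
  set A : Set (Fin 4 → ℤ) := {m | (Q m ∩ K).Nonempty} with hA
  have hAfin : A.Finite := by
    refine (Set.finite_Icc (fun _ : Fin 4 => (⌊-R / η⌋ - 2 : ℤ)) (fun _ => ⌈R / η⌉)).subset ?_
    rintro m ⟨x, hx, hxK⟩
    have hxR : ∀ k, |x k| < R := by
      intro k
      have h1 := hR hxK
      rw [mem_ball] at h1
      have h2 := abs_coord_le x 0 k
      have h3 : (0 : E4) k = 0 := rfl
      rw [h3, sub_zero] at h2
      exact lt_of_le_of_lt h2 h1
    rw [Set.mem_Icc, Pi.le_def, Pi.le_def]
    constructor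
    · intro k
      have h1 := (hx k).2
      have h2 := (ht k (m k + 1)).2
      push_cast at h2
      have h3 := (abs_lt.1 (hxR k)).1
      have h4 : -R / η < (m k : ℝ) + 2 := by
        rw [div_lt_iff₀ hη0]
        linarith
      have h5 : ((⌊-R / η⌋ : ℤ) : ℝ) < ((m k + 2 : ℤ) : ℝ) := by
        push_cast
        exact lt_of_le_of_lt (Int.floor_le _) h4
      have h6 : ⌊-R / η⌋ < m k + 2 := by exact_mod_cast h5
      change ⌊-R / η⌋ - 2 ≤ m k
      omega
    · intro k
      have h1 := (hx k).1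
      have h2 := (ht k (m k)).1
      have h3 := (abs_lt.1 (hxR k)).2
      have h4 : (m k : ℝ) < R / η := by
        rw [lt_div_iff₀ hη0]
        linarith
      have h5 : (m k : ℝ) ≤ ((⌈R / η⌉ : ℤ) : ℝ) := h4.le.trans (Int.le_ceil _)
      change m k ≤ ⌈R / η⌉
      exact_mod_cast h5
  choose φ hφ1 hφ2 hφ3 using fun m : Fin 4 → ℤ =>
    box_par (a := fun k => t k (m k)) (b := fun k => t k (m k + 1)) (fun k => hstep k (m k))
  have hφQ : ∀ m, range (φ m) = Q m := fun m => hφ3 m
  have hclC : ∀ m, closure (range (φ m)) ⊆ C m := by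
    intro m
    rw [hφQ m]
    exact closure_minimal (hQC m) (hCcl m)
  have hCball : ∀ m, ∀ x ∈ Q m, C m ⊆ ball x δ := by
    intro m x hx y hy
    rw [mem_ball]
    have h1 : dist y x ≤ 4 * η := by
      refine dist_le_four hη0.le fun k => ?_
      have h2 := hwidth k (m k)
      have h3 := hx k
      have h4 := hy k
      rw [abs_le]
      constructor <;> linarith [h3.1, h3.2, h4.1, h4.2]
    have h5 : 4 * η < δ := by
      rw [hη]
      linarith
    exact lt_of_le_of_lt h1 h5
  have : Finite A := hAfin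
  obtain ⟨n, ⟨e⟩⟩ := Finite.exists_equiv_fin A
  refine ⟨n, fun i => φ (e.symm i), fun i => ?_, fun i j hij => ?_, fun x hx => ?_⟩
  · obtain ⟨x, hxQ, hxK⟩ := (e.symm i).2
    have hsub : closure (range (φ (e.symm i))) ⊆ ball x δ :=
      (hclC _).trans (hCball _ x hxQ)
    refine ⟨hφ1 _, hφ2 _, ?_, ?_, ?_⟩
    · exact Metric.isCompact_of_isClosed_isBounded isClosed_closure
        (Metric.isBounded_ball.subset hsub)
    · obtain ⟨U, hUm, hUb⟩ := hball x hxK
      exact ⟨U, hUm, hsub.trans hUb⟩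
    · rintro y ⟨hyT, hy⟩
      rw [hφQ]
      have h1 := hclC _ hy
      intro k
      exact ⟨lt_of_le_of_ne (h1 k).1 (fun h => hTt k _ y hyT h.symm),
        lt_of_le_of_ne (h1 k).2 (hTt k _ y hyT)⟩
  · change Disjoint (range (φ (e.symm i))) (range (φ (e.symm j)))
    rw [hφQ, hφQ]
    refine hdisj _ _ fun h => hij ?_
    exact e.symm.injective (Subtype.ext h)
  · obtain ⟨m, hm⟩ := hex x (hKT hx)
    have hmA : m ∈ A := ⟨x, hm, hx⟩
    refine Set.mem_iUnion.2 ⟨e ⟨m, hmA⟩, ?_⟩
    change x ∈ range (φ (e.symm (e ⟨m, hmA⟩)))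
    rw [Equiv.symm_apply_apply, hφQ]
    exact hm

end Pool.Agent.HopfCov
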