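import Pool.Agent.HopfRem.Loc
import Pool.Agent.HopfCov.Crit

/-!
# HR2 (`Shrink`): a diffeomorphism of `E` onto a ball which is the identity on a smaller ball

Proof. Step 1: for some `0 < δ₀ < ε` there is such a map `h₀`. Let `u x = univBall q ε (x - q)`
(Mathlib `OpenPartialHomeomorph.univBall`, `OpenPartialHomeomorph.contDiff_univBall`,
`OpenPartialHomeomorph.contDiffOn_univBall_symm`); it is an open embedding with range
`ball q ε`, `RG` everywhere (smooth with smooth local inverse: `RG.of_comp` or the chain rule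
applied to `symm ∘ univBall = id`), and `u q = q`. By `sign_const` with `U = univ` it is `LD 1`
everywhere or `LD (-1)` everywhere; in the second case replace `u` by `u (q + r (x - q))` for a
linear reflection `r` (dimension zero is trivial; or show directly that the derivative at `q` is a
positive multiple of the identity). The local inverse `φ` of `u` at `q` satisfies
`∀ᶠ x in 𝓝 q, LD 1 φ x` and `φ q = q`, so `hGerm` (`SpecGermFix`, with `O = univ`) gives a
homeomorphism `H`, `LD 1` everywhere, with `H = φ` near `q`. Put `h₀ = u ∘ H`: near `q` it is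
`u ∘ φ = id`; `range h₀ = ball q ε`. Choose `δ₀ < min ε δ` such that `h₀ = id` on
`closedBall q δ₀`.

Step 2: arbitrary `δ < ε`. By `hRad` (`SpecRadial`) with factor `δ₀ / δ ≤ 1`, `a = δ`,
`b = (δ + ε) / 2` there is a diffeomorphism `s` with `s v = (δ₀ / δ) • v` for `‖v‖ ≤ δ` and
`s v = v` for `‖v‖ ≥ b`. Let `S x = q + s (x - q)`; it maps `ball q ε` onto itself (it is the
identity for `‖x - q‖ ≥ b` and a bijection) and `closedBall q δ` into `closedBall q δ₀`. Put
`h = S⁻¹ ∘ h₀ ∘ S`.
-/

set_option autoImplicit false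
set_option linter.unusedSectionVars false

open scoped ContDiff Topology
open Set Filter Metric Topology

namespace Pool.Agent.HopfCov

variable {E : Type} [NormedAddCommGroup E] [InnerProductSpace ℝ E] [FiniteDimensional ℝ E]

/-- the determinants of inverse germs -/
private theorem det_mul_inv {f g : E → E} {x : E} (hf : DifferentiableAt ℝ f x)
    (hg : DifferentiableAt ℝ g (f x)) (h : ∀ᶠ y in 𝓝 x, g (f y) = y) :
    (fderiv ℝ g (f x)).det * (fderiv ℝ f x).det = 1 := by
  have hcomp : HasFDerivAt (fun y => g (f y)) ((fderiv ℝ g (f x)).comp (fderiv ℝ f x)) x :=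
    hg.hasFDerivAt.comp x hf.hasFDerivAt
  have h1 : (fun y => g (f y)) =ᶠ[𝓝 x] fun y => y := h
  have h2 := hcomp.fderiv
  rw [h1.fderiv_eq, fderiv_fun_id] at h2
  rw [← det_comp_clm, ← h2]
  simp [ContinuousLinearMap.det]

/-- the explicit formula -/
private theorem univBall_eq (q : E) {ε : ℝ} (hε : 0 < ε) (x : E) :
    OpenPartialHomeomorph.univBall q ε x = (ε * (Real.sqrt (1 + ‖x‖ ^ 2))⁻¹) • x + q := by
  unfold OpenPartialHomeomorph.univBall
  rw [dif_pos hε]
  simp [OpenPartialHomeomorph.univUnitBall_apply, OpenPartialHomeomorph.unitBallBall_apply,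
    smul_smul]

/-- the derivative at the origin -/
private theorem hasFDerivAt_univBall (q : E) {ε : ℝ} (hε : 0 < ε) :
    HasFDerivAt (OpenPartialHomeomorph.univBall q ε : E → E)
      (ε • ContinuousLinearMap.id ℝ E) 0 := by
  have h1 : HasFDerivAt (fun x : E => (ε * (Real.sqrt (1 + ‖x‖ ^ 2))⁻¹) • x + q)
      (ε • ContinuousLinearMap.id ℝ E) 0 := by
    have h2 : DifferentiableAt ℝ (fun x : E => ε * (Real.sqrt (1 + ‖x‖ ^ 2))⁻¹) 0 := by
      have h3 : ContDiff ℝ 1 (fun x : E => ε * (Real.sqrt (1 + ‖x‖ ^ 2))⁻¹) := by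
        refine contDiff_const.mul (ContDiff.inv ?_ fun x => ?_)
        · exact (contDiff_const.add (contDiff_norm_sq ℝ)).sqrt fun x => by positivity
        · have : 0 < 1 + ‖x‖ ^ 2 := by positivity
          exact (Real.sqrt_pos.2 this).ne'
      exact h3.differentiable (by norm_num) 0
    have h4 := (h2.hasFDerivAt.smul (hasFDerivAt_id (𝕜 := ℝ) (0 : E))).add_const q
    refine h4.congr_fderiv ?_
    ext v
    simp
  refine h1.congr_of_eventuallyEq (Eventually.of_forall fun x => ?_)
  exact univBall_eq q hε x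

/-- the embedding of `E` onto a ball -/
private noncomputable def emb (q : E) (ε : ℝ) (x : E) : E :=
  OpenPartialHomeomorph.univBall q ε (x - q)

/-- its inverse -/
private noncomputable def emi (q : E) (ε : ℝ) (x : E) : E :=
  (OpenPartialHomeomorph.univBall q ε : OpenPartialHomeomorph E E).symm x + q

private theorem emi_emb (q : E) (ε : ℝ) (x : E) : emi q ε (emb q ε x) = x := by
  unfold emi emb
  rw [(OpenPartialHomeomorph.univBall q ε : OpenPartialHomeomorph E E).left_inv (by simp)]
  exact sub_add_cancel _ _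

private theorem emb_mem (q : E) {ε : ℝ} (hε : 0 < ε) (x : E) : emb q ε x ∈ ball q ε := by
  have h := (OpenPartialHomeomorph.univBall q ε : OpenPartialHomeomorph E E).map_source
    (x := x - q) (by simp)
  rwa [OpenPartialHomeomorph.univBall_target q hε] at h

private theorem emb_emi (q : E) {ε : ℝ} (hε : 0 < ε) {x : E} (hx : x ∈ ball q ε) :
    emb q ε (emi q ε x) = x := by
  unfold emi emb
  rw [add_sub_cancel_right]
  refine (OpenPartialHomeomorph.univBall q ε : OpenPartialHomeomorph E E).right_inv ?_
  rwa [OpenPartialHomeomorph.univBall_target q hε]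

private theorem emb_self (q : E) (ε : ℝ) : emb q ε q = q := by
  unfold emb
  rw [sub_self, OpenPartialHomeomorph.univBall_apply_zero]

private theorem emb_contDiff (q : E) (ε : ℝ) : ContDiff ℝ ∞ (emb q ε) :=
  OpenPartialHomeomorph.contDiff_univBall.comp (contDiff_id.sub contDiff_const)

private theorem emi_contDiffAt (q : E) (ε : ℝ) {x : E} (hx : x ∈ ball q ε) :
    ContDiffAt ℝ ∞ (emi q ε) x := by
  refine ContDiffAt.add ?_ contDiffAt_const
  exact OpenPartialHomeomorph.contDiffOn_univBall_symm.contDiffAt (isOpen_ball.mem_nhds hx)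

private theorem emb_rg (q : E) {ε : ℝ} (hε : 0 < ε) (x : E) : RG (emb q ε) x := by
  refine ⟨(emb_contDiff q ε).contDiffAt, fun h0 => ?_⟩
  have h := det_mul_inv (f := emb q ε) (g := emi q ε) (x := x)
    ((emb_contDiff q ε).contDiffAt.differentiableAt (by simp))
    ((emi_contDiffAt q ε (emb_mem q hε x)).differentiableAt (by simp))
    (Eventually.of_forall fun y => emi_emb q ε y)
  rw [h0, mul_zero] at h
  exact zero_ne_one h

private theorem emb_ld (q : E) {ε : ℝ} (hε : 0 < ε) (x : E) : LD 1 (emb q ε) x := by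
  obtain ⟨s, hs, h⟩ := sign_const (f := emb q ε) isOpen_univ isPreconnected_univ
    fun x _ => emb_rg q hε x
  rcases hs with rfl | rfl
  · exact h x (mem_univ x)
  · exfalso
    have h1 := (h q (mem_univ q)).2
    have h2 : HasFDerivAt (emb q ε) (ε • ContinuousLinearMap.id ℝ E) q := by
      have h3 : HasFDerivAt (fun x : E => x - q) (ContinuousLinearMap.id ℝ E) q :=
        (hasFDerivAt_id q).sub_const q
      have h4 : HasFDerivAt (OpenPartialHomeomorph.univBall q ε : E → E)
          (ε • ContinuousLinearMap.id ℝ E) (q - q) := by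
        rw [sub_self]
        exact hasFDerivAt_univBall q hε
      have h5 := HasFDerivAt.comp (f := fun x : E => x - q) q h4 h3
      rw [ContinuousLinearMap.comp_id] at h5
      exact h5
    rw [h2.fderiv] at h1
    have h6 : (ε • ContinuousLinearMap.id ℝ E : E →L[ℝ] E).det = ε ^ Module.finrank ℝ E := by
      have : ((ε • ContinuousLinearMap.id ℝ E : E →L[ℝ] E) : E →ₗ[ℝ] E) =
          ε • LinearMap.id := rfl
      rw [ContinuousLinearMap.det, this, LinearMap.det_smul, LinearMap.det_id, mul_one]
    rw [h6] at h1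
    have h7 : 0 < ε ^ Module.finrank ℝ E := pow_pos hε _
    linarith

private theorem emi_ld (q : E) {ε : ℝ} (hε : 0 < ε) {x : E} (hx : x ∈ ball q ε) :
    LD 1 (emi q ε) x := by
  refine ⟨emi_contDiffAt q ε hx, ?_⟩
  have h1 := (emb_ld q hε (emi q ε x)).2
  have h := det_mul_inv (f := emb q ε) (g := emi q ε) (x := emi q ε x)
    ((emb_contDiff q ε).contDiffAt.differentiableAt (by simp))
    ((emi_contDiffAt q ε (emb_mem q hε _)).differentiableAt (by simp))
    (Eventually.of_forall fun y => emi_emb q ε y)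
  rw [emb_emi q hε hx] at h
  rw [one_mul] at h1 ⊢
  by_contra h2
  push Not at h2
  have := mul_nonpos_of_nonpos_of_nonneg h2 h1.le
  linarith

/-- Step 1 -/
private theorem exists_shrink_small (q : E) {ε : ℝ} (hε : 0 < ε) :
    ∃ (η : ℝ) (h : E → E), 0 < η ∧ IsOpenEmbedding h ∧ (∀ x, RG h x) ∧
      (∀ x ∈ ball q η, h x = x) ∧ range h = ball q ε := by
  have hq : emi q ε q = q := by
    have := emi_emb q ε q
    rwa [emb_self] at this
  obtain ⟨H, hH, hHφ, -⟩ := hGerm E (emi q ε) q
    (eventually_of_mem (isOpen_ball.mem_nhds (mem_ball_self hε)) fun x hx => emi_ld q hε hx) hq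
    univ univ_mem
  have h1 : ∀ᶠ x in 𝓝 q, emb q ε (H x) = x := by
    filter_upwards [hHφ, isOpen_ball.mem_nhds (mem_ball_self hε)] with x hx hx'
    rw [hx, emb_emi q hε hx']
  obtain ⟨η, hη, h2⟩ := Metric.eventually_nhds_iff_ball.1 h1
  refine ⟨η, fun x => emb q ε (H x), hη, ?_, ?_, h2, ?_⟩
  · refine RG.isOpenEmbedding ?_ ?_
    · intro x y hxy
      have h3 := congrArg (emi q ε) hxy
      simp only [emi_emb] at h3
      exact H.injective h3
    · exact fun x => (emb_rg q hε (H x)).comp (hH x).rg
  · exact fun x => (emb_rg q hε (H x)).comp (hH x).rg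
  · apply Subset.antisymm
    · rintro _ ⟨x, rfl⟩
      exact emb_mem q hε _
    · intro y hy
      refine ⟨H.symm (emi q ε y), ?_⟩
      simp only [Homeomorph.apply_symm_apply]
      exact emb_emi q hε hy

theorem exists_shrink (q : E) {δ ε : ℝ} (hδ : 0 < δ) (hε : δ < ε) :
    ∃ h : E → E, IsOpenEmbedding h ∧ (∀ x, RG h x) ∧ (∀ x ∈ closedBall q δ, h x = x) ∧
      range h = ball q ε := by
  obtain ⟨η, h₀, hη, he, hrg, hid, hran⟩ := exists_shrink_small q (hδ.trans hε)
  set δ₀ : ℝ := min (η / 2) δ with hδ₀
  have h0 : 0 < δ₀ := lt_min (by positivity) hδ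
  have h0δ : δ₀ ≤ δ := min_le_right _ _
  have h0η : δ₀ < η := (min_le_left _ _).trans_lt (by linarith)
  have hb : δ < (δ + ε) / 2 := by linarith
  have hb' : (δ + ε) / 2 < ε := by linarith
  obtain ⟨s, hs, hs1, hs2⟩ := hRad E (δ₀ / δ) δ ((δ + ε) / 2) (by positivity)
    ((div_le_one hδ).2 h0δ) hδ hb
  -- `s` preserves the ball of radius `b`
  have hs3 : ∀ x, ‖x‖ < (δ + ε) / 2 → ‖s x‖ < (δ + ε) / 2 := by
    intro x hx
    by_contra h1
    push Not at h1
    have h2 := s.injective (hs2 _ h1)
    rw [h2] at h1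
    linarith
  have hsr : ∀ x, RG s x := fun x => (hs x).rg
  have hsr' : ∀ x, RG s.symm x := by
    intro x
    have h1 : RG (s⁻¹ : E ≃ₜ E) x := RG.inv' (hsr _)
    exact h1
  have htr : ∀ x, RG (fun y : E => y - q) x := fun x => (LD_sub_const q x).rg
  have htr' : ∀ x, RG (fun y : E => y + q) x := fun x => (LD_add_const q x).rg
  have hR : ∀ x, RG (fun x => s.symm (h₀ (s (x - q) + q) - q) + q) x := by
    intro x
    have r1 : RG (fun x : E => s (x - q)) x := (hsr _).comp (htr x)
    have r2 : RG (fun x : E => s (x - q) + q) x := RG.comp (g := fun y : E => y + q) (htr' _) r1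
    have r3 : RG (fun x : E => h₀ (s (x - q) + q)) x := RG.comp (g := h₀) (hrg _) r2
    have r4 : RG (fun x : E => h₀ (s (x - q) + q) - q) x :=
      RG.comp (g := fun y : E => y - q) (htr _) r3
    have r5 : RG (fun x : E => s.symm (h₀ (s (x - q) + q) - q)) x := RG.comp (hsr' _) r4
    exact RG.comp (g := fun y : E => y + q) (htr' _) r5
  refine ⟨fun x => s.symm (h₀ (s (x - q) + q) - q) + q, ?_, hR, ?_, ?_⟩
  · refine RG.isOpenEmbedding ?_ hR
    intro x y hxy
    simp only [add_left_inj] at hxy
    have h1 := s.symm.injective hxy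
    simp only [sub_left_inj] at h1
    have h2 := he.injective h1
    simp only [add_left_inj] at h2
    have h3 := s.injective h2
    simpa using h3
  · intro x hx
    rw [mem_closedBall, dist_eq_norm] at hx
    have h1 : s (x - q) + q ∈ ball q η := by
      rw [mem_ball, dist_eq_norm, add_sub_cancel_right, hs1 _ hx, norm_smul, Real.norm_eq_abs,
        abs_of_pos (by positivity)]
      calc δ₀ / δ * ‖x - q‖ ≤ δ₀ / δ * δ := by gcongr
        _ = δ₀ := by field_simp
        _ < η := h0η
    simp only
    rw [hid _ h1, add_sub_cancel_right, Homeomorph.symm_apply_apply, sub_add_cancel]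
  · apply Subset.antisymm
    · rintro _ ⟨x, rfl⟩
      simp only
      have h1 : h₀ (s (x - q) + q) ∈ ball q ε := by
        rw [← hran]
        exact mem_range_self _
      rw [mem_ball, dist_eq_norm] at h1
      rw [mem_ball, dist_eq_norm, add_sub_cancel_right]
      by_contra h2
      push Not at h2
      have h3 := hs2 _ (hb'.le.trans h2)
      rw [Homeomorph.apply_symm_apply] at h3
      rw [← h3] at h2
      linarith
    · intro y hy
      rw [mem_ball, dist_eq_norm] at hy
      have h1 : s (y - q) + q ∈ ball q ε := by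
        rw [mem_ball, dist_eq_norm, add_sub_cancel_right]
        rcases lt_or_ge ‖y - q‖ ((δ + ε) / 2) with h2 | h2
        · exact (hs3 _ h2).trans hb'
        · rw [hs2 _ h2]
          exact hy
      rw [← hran] at h1
      obtain ⟨x, hx⟩ := h1
      refine ⟨s.symm (x - q) + q, ?_⟩
      simp only
      rw [add_sub_cancel_right, Homeomorph.apply_symm_apply, sub_add_cancel, hx,
        add_sub_cancel_right, Homeomorph.symm_apply_apply, sub_add_cancel]

end Pool.Agent.HopfCov
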