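import Pool.Agent.HopfRem.ParRG
import Pool.Agent.HopfRem.Shrink

/-!
# HR21 (`ParEx`): smooth parametrisations of small open sets

Proof of `exists_par`. Let `e = chartAt E4 x` and choose `r > 0` with
`ball (e x) r ⊆ e.target ∩ e.symm ⁻¹' O'` for an open set `O' ⊆ O` containing `x` (`e.symm` is
continuous on `e.target`). Let `h : E4 → ball (e x) r` be given by `exists_shrink (e x)`
(an open embedding, `RG` everywhere, `h (e x) = e x`). Put `φ y = e.symm (h (y + e x))`. It is
an open embedding (`e.symm` is an open embedding of `e.target`), `φ 0 = x`, the range is in `O`.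
It is a local diffeomorphism: `e.symm` is a partial diffeomorphism (`e` is in the maximal atlas,
`contMDiffOn_chart`, `contMDiffOn_chart_symm`; see `IsLocalDiffeomorphAt` of charts in Mathlib
or in the library `HopfCov`), composed with local diffeomorphisms (`ldAt_iff`).
* `Par.comp`: composition with an open embedding of `E4` which is `RG` everywhere.
* `Par.mk_homeo`: image under a homeomorphism of `M` which is a local diffeomorphism.
-/

set_option autoImplicit false
set_option linter.unusedSectionVars false

open scoped ContDiff Topology Manifold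
open Set Filter Metric Topology

namespace Pool.Agent.HopfCov

variable {M : Type} [TopologicalSpace M] [ChartedSpace E4 M] [IsManifold (𝓡 4) ∞ M]

private noncomputable def parExChart (x : M) : PartialDiffeomorph (𝓡 4) (𝓡 4) M E4 ∞ where
  toPartialEquiv := (chartAt E4 x).toPartialEquiv
  open_source := (chartAt E4 x).open_source
  open_target := (chartAt E4 x).open_target
  contMDiffOn_toFun := contMDiffOn_chart
  contMDiffOn_invFun := contMDiffOn_chart_symm

private theorem parEx_symm (x : M) {y : E4} (hy : y ∈ (chartAt E4 x).target) :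
    LDA (chartAt E4 x).symm y :=
  ⟨(parExChart x).symm, hy, fun _ _ => rfl⟩

theorem exists_par (x : M) {O : Set M} (hO : O ∈ 𝓝 x) :
    ∃ φ : E4 → M, Par φ ∧ φ 0 = x ∧ range φ ⊆ O := by
  set e := chartAt E4 x with he
  have hx : x ∈ e.source := mem_chart_source E4 x
  have hex : e x ∈ e.target := e.map_source hx
  have hc : Tendsto e.symm (𝓝 (e x)) (𝓝 x) := by
    have := (e.symm.continuousAt hex)
    unfold ContinuousAt at this
    rwa [e.left_inv hx] at this
  have h1 : e.target ∩ e.symm ⁻¹' O ∈ 𝓝 (e x) :=
    inter_mem (e.open_target.mem_nhds hex) (hc hO)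
  obtain ⟨r, hr, hrs⟩ := Metric.mem_nhds_iff.mp h1
  obtain ⟨h, hh, hrg, hid, hran⟩ := exists_shrink (e x) (half_pos hr) (half_lt_self hr)
  have hmem : ∀ y, h y ∈ ball (e x) r := fun y => hran ▸ mem_range_self y
  have htar : ∀ y, h y ∈ e.target := fun y => (hrs (hmem y)).1
  have hcont : Continuous (fun y : E4 => h (y + e x)) :=
    hh.continuous.comp (continuous_id.add continuous_const)
  have hg : IsOpenEmbedding (fun y : E4 => h (y + e x)) :=
    hh.comp (Homeomorph.addRight (e x)).isOpenEmbedding
  refine ⟨fun y => e.symm (h (y + e x)), ⟨?_, ?_⟩, ?_, ?_⟩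
  · refine IsOpenEmbedding.of_continuous_injective_isOpenMap ?_ ?_ ?_
    · exact e.symm.continuousOn.comp_continuous hcont fun y => htar _
    · intro y z hyz
      have h2 : h (y + e x) = h (z + e x) := e.symm.injOn (htar _) (htar _) hyz
      exact hg.injective h2
    · intro U hU
      have h2 : (fun y => e.symm (h (y + e x))) '' U =
          e.symm '' ((fun y : E4 => h (y + e x)) '' U) := by
        rw [image_image]
      rw [h2]
      refine e.symm.isOpen_image_of_subset_source (hg.isOpenMap U hU) ?_
      rintro _ ⟨y, _, rfl⟩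
      exact htar _
  · intro y
    have h2 : LDA (fun y : E4 => h (y + e x)) y := by
      refine ldAt_iff.mpr (Eventually.of_forall fun z => ?_)
      exact RG.comp (hrg _) (LD_add_const (e x) z).rg
    exact LDA.comp' (parEx_symm x (htar _)) h2
  · change e.symm (h (0 + e x)) = x
    rw [zero_add, hid (e x) (mem_closedBall_self (half_pos hr).le), e.left_inv hx]
  · rintro _ ⟨y, rfl⟩
    exact (hrs (hmem _)).2

theorem Par.comp {φ : E4 → M} (h : Par φ) {κ : E4 → E4} (hκ : IsOpenEmbedding κ)
    (hr : ∀ x, RG κ x) : Par (fun y => φ (κ y)) :=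
  ⟨h.emb.comp hκ, fun x => LDA.comp' (h.loc (κ x))
    (ldAt_iff.mpr (Eventually.of_forall fun z => hr z))⟩

theorem Par.homeo {φ : E4 → M} (h : Par φ) {Θ : M ≃ₜ M} (hΘ : ∀ x, LDA Θ x) :
    Par (fun y => Θ (φ y)) :=
  ⟨Θ.isOpenEmbedding.comp h.emb, fun x => LDA.comp' (hΘ (φ x)) (h.loc x)⟩

end Pool.Agent.HopfCov
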