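import Pool.Agent.HopfRem.LenPar
import Pool.Agent.HopfRem.BoxE
import Pool.Agent.HopfRem.ParEx

/-!
# HR26 (`BoxM`): disjoint small balls covering a compact set of length zero in a manifold

Proof. We prove by induction on `k`: if `S` is compact with `LenZero S`, `β : Fin k → E4 → M` are
`Par` with `S ⊆ ⋃ i, range (β i)`, and `𝒰` is a set of open sets with `S ⊆ ⋃₀ 𝒰`, then the
conclusion holds. (For the theorem take finitely many `exists_par` ranges covering the compact
set `S`.) `k = 0`: `S = ∅`, `n = 0`. Step: let `β₀` be the first of the `k + 1` maps. Choose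
compact sets `S₁`, `S₂` with `S = S₁ ∪ S₂`, `S₁ ⊆ range β₀`, `S₂ ⊆ ⋃ i > 0, range (β i)`
(`IsCompact.binary_compact_cover`). Apply `box_cover` with `T = β₀ ⁻¹' S` (`LenZero.par`),
`K = β₀ ⁻¹' S₁` (compact, as `β₀` is an embedding and `S₁ ⊆ range β₀`), and the open cover
`{β₀ ⁻¹' U | U ∈ 𝒰}`; obtain `κ i : E4 → E4`, `i : Fin n₁`, and let `φ i = β₀ ∘ κ i`, which are
`Par` (`Par.comp`) with pairwise disjoint ranges, each in a member of `𝒰`. Let
`Z = ⋃ i, β₀ '' closure (range (κ i))`, compact, hence closed (`M` is Hausdorff),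
`S ∩ Z ⊆ ⋃ i, range (φ i)` (by the last property in `box_cover`), and
`Z ⊇ ⋃ i, range (φ i) ⊇ S₁`. Let `S' = S \ ⋃ i, range (φ i)`, compact, `LenZero`
(`LenZero.mono`), contained in `S₂`, so covered by the ranges of the other `k` maps, and
disjoint from `Z`. Apply the induction hypothesis to `S'` and `{U \ Z | U ∈ 𝒰}` (open sets, they
cover `S'`). The new ranges are disjoint from `Z`, hence from the ranges of the `φ i`. Join the
two families (`Fin.append` or `Fin.addCases`; it may be convenient to state the induction for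
finite sets of maps, or for a `Fintype` index type `Sum`, and to convert to `Fin n` at the end).
-/

set_option autoImplicit false
set_option linter.unusedSectionVars false

open scoped ContDiff Topology Manifold MeasureTheory
open Set Filter Metric Topology

namespace Pool.Agent.HopfCov

variable {M : Type} [TopologicalSpace M] [ChartedSpace E4 M] [IsManifold (𝓡 4) ∞ M]

private theorem box_cover_aux [T2Space M] (k : ℕ) : ∀ {S : Set M}, LenZero S → IsCompact S →
    ∀ β : Fin k → E4 → M, (∀ i, Par (β i)) → S ⊆ ⋃ i, range (β i) →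
    ∀ {𝒰 : Set (Set M)}, (∀ U ∈ 𝒰, IsOpen U) → S ⊆ ⋃₀ 𝒰 →
    ∃ (ι : Type) (_ : Finite ι) (φ : ι → E4 → M),
      (∀ i, Par (φ i) ∧ ∃ U ∈ 𝒰, range (φ i) ⊆ U) ∧
      (∀ i j, i ≠ j → Disjoint (range (φ i)) (range (φ j))) ∧ S ⊆ ⋃ i, range (φ i) := by
  induction k with
  | zero =>
    intro S _ _ β _ hSβ 𝒰 _ _
    refine ⟨Fin 0, inferInstance, fun i => i.elim0, fun i => i.elim0, fun i => i.elim0, ?_⟩
    intro x hx
    obtain ⟨i, _⟩ := mem_iUnion.1 (hSβ hx)
    exact i.elim0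
  | succ k ih =>
    intro S hL hS β hβ hSβ 𝒰 hU hc
    have hopen : ∀ i, IsOpen (range (β i)) := fun i => (hβ i).emb.isOpen_range
    obtain ⟨S₁, S₂, hS₁, hS₂, h1, h2, hSS⟩ := hS.binary_compact_cover (hopen 0)
      (isOpen_iUnion fun i : Fin k => hopen i.succ) (by
        intro x hx
        obtain ⟨i, hi⟩ := mem_iUnion.1 (hSβ hx)
        rcases Fin.eq_zero_or_eq_succ i with rfl | ⟨j, rfl⟩
        · exact Or.inl hi
        · exact Or.inr (mem_iUnion.2 ⟨j, hi⟩))
    have hS1S : S₁ ⊆ S := by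
      rw [hSS]
      exact subset_union_left
    set b : E4 → M := β 0 with hb
    have hbe : IsOpenEmbedding b := (hβ 0).emb
    obtain ⟨n₁, κ, hκ, hdis, hcov⟩ := box_cover (T := b ⁻¹' S) (K := b ⁻¹' S₁)
      (hL.par (hβ 0)) ((hbe.isInducing.isCompact_preimage_iff h1).2 hS₁)
      (preimage_mono hS1S) (𝒰 := (fun U => b ⁻¹' U) '' 𝒰) (by
        rintro _ ⟨U, hU', rfl⟩
        exact (hU U hU').preimage hbe.continuous) (by
        intro x hx
        obtain ⟨U, hU', hxU⟩ := hc (hS1S hx)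
        exact ⟨b ⁻¹' U, ⟨U, hU', rfl⟩, hxU⟩)
    set φ₁ : Fin n₁ → E4 → M := fun i y => b (κ i y) with hφ₁
    have hpar : ∀ i, Par (φ₁ i) := fun i => (hβ 0).comp (hκ i).1 (hκ i).2.1
    have hrange : ∀ i, range (φ₁ i) = b '' range (κ i) := fun i => range_comp b (κ i)
    set Z : Set M := ⋃ i, b '' closure (range (κ i)) with hZ
    have hZc : IsClosed Z :=
      (isCompact_iUnion fun i => (hκ i).2.2.1.image hbe.continuous).isClosed
    have hRZ : ∀ i, range (φ₁ i) ⊆ Z := by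
      intro i
      rw [hrange i]
      exact (image_mono subset_closure).trans
        (subset_iUnion (fun i => b '' closure (range (κ i))) i)
    have hSZ : S ∩ Z ⊆ ⋃ i, range (φ₁ i) := by
      rintro x ⟨hx, hxZ⟩
      obtain ⟨i, y, hy, rfl⟩ := mem_iUnion.1 hxZ
      refine mem_iUnion.2 ⟨i, ?_⟩
      rw [hrange i]
      exact mem_image_of_mem b ((hκ i).2.2.2.2 ⟨hx, hy⟩)
    have hOp : IsOpen (⋃ i, range (φ₁ i)) := isOpen_iUnion fun i => (hpar i).emb.isOpen_range
    set S' : Set M := S \ ⋃ i, range (φ₁ i) with hS'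
    have hS'Z : ∀ x ∈ S', x ∉ Z := fun x hx hxZ => hx.2 (hSZ ⟨hx.1, hxZ⟩)
    obtain ⟨ι, hι, φ₂, hφ₂, hd₂, hc₂⟩ := ih (S := S') (hL.mono sdiff_subset) (hS.diff hOp)
      (fun i => β i.succ) (fun i => hβ i.succ) (by
        intro x hx
        apply h2
        have h3 : x ∈ S₁ ∪ S₂ := hSS ▸ hx.1
        rcases h3 with h3 | h3
        · exfalso
          apply hx.2
          obtain ⟨y, rfl⟩ := h1 h3
          obtain ⟨i, hi⟩ := mem_iUnion.1 (hcov (show y ∈ b ⁻¹' S₁ from h3))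
          refine mem_iUnion.2 ⟨i, ?_⟩
          rw [hrange i]
          exact mem_image_of_mem b hi
        · exact h3) (𝒰 := (fun U => U \ Z) '' 𝒰) (by
        rintro _ ⟨U, hU', rfl⟩
        exact (hU U hU').sdiff hZc) (by
        intro x hx
        obtain ⟨U, hU', hxU⟩ := hc hx.1
        exact ⟨U \ Z, ⟨U, hU', rfl⟩, hxU, hS'Z x hx⟩)
    have h12 : ∀ i j, Disjoint (range (φ₁ i)) (range (φ₂ j)) := by
      intro i j
      obtain ⟨_, ⟨U, _, rfl⟩, hj⟩ := (hφ₂ j).2
      rw [Set.disjoint_left]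
      intro x hx hx'
      exact (hj hx').2 (hRZ i hx)
    refine ⟨Fin n₁ ⊕ ι, inferInstance, Sum.elim φ₁ φ₂, ?_, ?_, ?_⟩
    · rintro (i | j)
      · refine ⟨hpar i, ?_⟩
        obtain ⟨_, ⟨U, hU', rfl⟩, hi⟩ := (hκ i).2.2.2.1
        refine ⟨U, hU', ?_⟩
        change range (φ₁ i) ⊆ U
        rw [hrange i, image_subset_iff]
        exact subset_closure.trans hi
      · refine ⟨(hφ₂ j).1, ?_⟩
        obtain ⟨_, ⟨U, hU', rfl⟩, hj⟩ := (hφ₂ j).2
        exact ⟨U, hU', hj.trans sdiff_subset⟩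
    · rintro (i | i) (j | j) hij
      · change Disjoint (range (φ₁ i)) (range (φ₁ j))
        rw [hrange i, hrange j, disjoint_image_iff hbe.injective]
        exact hdis i j fun h => hij (by rw [h])
      · exact h12 i j
      · exact (h12 j i).symm
      · exact hd₂ i j fun h => hij (by rw [h])
    · intro x hx
      by_cases h : x ∈ ⋃ i, range (φ₁ i)
      · obtain ⟨i, hi⟩ := mem_iUnion.1 h
        exact mem_iUnion.2 ⟨Sum.inl i, hi⟩
      · obtain ⟨i, hi⟩ := mem_iUnion.1 (hc₂ ⟨hx, h⟩)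
        exact mem_iUnion.2 ⟨Sum.inr i, hi⟩

theorem box_cover_mfd [T2Space M] {S : Set M} (hL : LenZero S) (hS : IsCompact S)
    {𝒰 : Set (Set M)} (hU : ∀ U ∈ 𝒰, IsOpen U) (hc : S ⊆ ⋃₀ 𝒰) :
    ∃ (n : ℕ) (φ : Fin n → E4 → M),
      (∀ i, Par (φ i) ∧ ∃ U ∈ 𝒰, range (φ i) ⊆ U) ∧
      (∀ i j, i ≠ j → Disjoint (range (φ i)) (range (φ j))) ∧ S ⊆ ⋃ i, range (φ i) := by
  choose p hp hp0 _ using fun x : M => exists_par x (O := univ) univ_mem
  obtain ⟨t, -, ht⟩ := hS.elim_nhds_subcover (fun x => range (p x)) (by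
    intro x _
    exact (hp x).emb.isOpen_range.mem_nhds ⟨0, hp0 x⟩)
  obtain ⟨ι, hι, φ, h1, h2, h3⟩ := box_cover_aux t.card hL hS
    (fun i => p (t.equivFin.symm i)) (fun i => hp _) (by
      intro x hx
      obtain ⟨y, hy, hxy⟩ := mem_iUnion₂.1 (ht hx)
      refine mem_iUnion.2 ⟨t.equivFin ⟨y, hy⟩, ?_⟩
      rw [Equiv.symm_apply_apply]
      exact hxy) hU hc
  have := Fintype.ofFinite ι
  let e := Fintype.equivFin ι
  refine ⟨Fintype.card ι, fun i => φ (e.symm i), fun i => h1 _, fun i j hij => ?_, ?_⟩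
  · exact h2 _ _ fun h => hij (e.symm.injective h)
  · intro x hx
    obtain ⟨i, hi⟩ := mem_iUnion.1 (h3 hx)
    refine mem_iUnion.2 ⟨e i, ?_⟩
    change x ∈ range (φ (e.symm (e i)))
    rw [Equiv.symm_apply_apply]
    exact hi

end Pool.Agent.HopfCov
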