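import Pool.Agent.HopfRem.Loc

/-!
# HR23 (`BoxPar`): an open box is diffeomorphic to the space

Proof. For `a < b` the function `t ↦ a + (b - a) * (Real.arctan t / π + 1/2)` is smooth with
positive derivative and maps `ℝ` bijectively onto `(a, b)`. Let `φ x` have coordinates
`f i (x i)`. It is injective with range the box. `RG`: `φ` is smooth (`contDiff_euclidean`), and
the derivative is the diagonal map with nonzero entries (injective, finite dimension). Then
`RG.isOpenEmbedding`.
-/

set_option autoImplicit false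
set_option linter.unusedSectionVars false

open scoped ContDiff Topology
open Set Filter Metric Topology

namespace Pool.Agent.HopfCov

/-- the coordinate function of the parametrisation of a box -/
private noncomputable def bxf (a b t : ℝ) : ℝ := a + (b - a) * (Real.arctan t / Real.pi + 1 / 2)

private theorem bxf_contDiff (a b : ℝ) : ContDiff ℝ ∞ (bxf a b) := by
  unfold bxf
  exact contDiff_const.add (contDiff_const.mul ((Real.contDiff_arctan.div_const _).add
    contDiff_const))

private theorem bxf_hasDerivAt (a b t : ℝ) :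
    HasDerivAt (bxf a b) ((b - a) * ((1 / (1 + t ^ 2)) / Real.pi)) t := by
  unfold bxf
  have h := (((Real.hasDerivAt_arctan t).div_const Real.pi).add_const (1 / 2 : ℝ)).const_mul
    (b - a)
  exact h.const_add a

private theorem bxf_inj {a b : ℝ} (h : a < b) : Function.Injective (bxf a b) := by
  intro s t hst
  unfold bxf at hst
  have h0 : b - a ≠ 0 := by linarith
  have h1 : Real.arctan s / Real.pi + 1 / 2 = Real.arctan t / Real.pi + 1 / 2 :=
    mul_left_cancel₀ h0 (add_left_cancel hst)
  have h2 : Real.arctan s / Real.pi = Real.arctan t / Real.pi := add_right_cancel h1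
  have h3 : Real.arctan s = Real.arctan t := by
    field_simp at h2
    exact h2
  exact Real.arctan_injective h3

private theorem bxf_mem {a b : ℝ} (h : a < b) (t : ℝ) : a < bxf a b t ∧ bxf a b t < b := by
  unfold bxf
  have h0 : 0 < b - a := by linarith
  have hp := Real.pi_pos
  have h1 : -(1 / 2 : ℝ) < Real.arctan t / Real.pi := by
    rw [lt_div_iff₀ hp]
    have := Real.neg_pi_div_two_lt_arctan t
    linarith
  have h2 : Real.arctan t / Real.pi < 1 / 2 := by
    rw [div_lt_iff₀ hp]
    have := Real.arctan_lt_pi_div_two t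
    linarith
  constructor
  · have : 0 < (b - a) * (Real.arctan t / Real.pi + 1 / 2) := mul_pos h0 (by linarith)
    linarith
  · have : (b - a) * (Real.arctan t / Real.pi + 1 / 2) < (b - a) * 1 :=
      mul_lt_mul_of_pos_left (by linarith) h0
    linarith

private theorem bxf_surj {a b y : ℝ} (h1 : a < y) (h2 : y < b) :
    ∃ t, bxf a b t = y := by
  have h0 : 0 < b - a := by linarith
  have hp := Real.pi_pos
  refine ⟨Real.tan (Real.pi * ((y - a) / (b - a) - 1 / 2)), ?_⟩
  unfold bxf
  have hu0 : 0 < (y - a) / (b - a) := div_pos (by linarith) h0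
  have hu1 : (y - a) / (b - a) < 1 := by
    rw [div_lt_one h0]
    linarith
  rw [Real.arctan_tan (by nlinarith) (by nlinarith)]
  have h3 : Real.pi * ((y - a) / (b - a) - 1 / 2) / Real.pi = (y - a) / (b - a) - 1 / 2 := by
    field_simp
  rw [h3]
  have h4 : (b - a) * ((y - a) / (b - a)) = y - a := by
    field_simp
  linarith

theorem box_par {a b : Fin 4 → ℝ} (h : ∀ i, a i < b i) :
    ∃ φ : E4 → E4, IsOpenEmbedding φ ∧ (∀ x, RG φ x) ∧
      range φ = {x : E4 | ∀ i, a i < x i ∧ x i < b i} := by
  let φ : E4 → E4 := fun x => WithLp.toLp 2 (fun i => bxf (a i) (b i) (x i))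
  have hφ : ∀ x i, φ x i = bxf (a i) (b i) (x i) := fun x i => rfl
  have hsm : ContDiff ℝ ∞ φ := by
    rw [contDiff_euclidean]
    intro i
    exact (bxf_contDiff (a i) (b i)).comp (EuclideanSpace.proj (𝕜 := ℝ) i).contDiff
  have hrg : ∀ x, RG φ x := by
    intro x
    refine ⟨hsm.contDiffAt, ?_⟩
    have hd : HasFDerivAt φ (fderiv ℝ φ x) x :=
      (hsm.differentiable (by simp)).differentiableAt.hasFDerivAt
    have hd2 : ∀ i : Fin 4, HasFDerivAt (fun y : E4 => φ y i)
        ((EuclideanSpace.proj i : E4 →L[ℝ] ℝ).comp (fderiv ℝ φ x)) x := fun i =>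
      (EuclideanSpace.proj (𝕜 := ℝ) (ι := Fin 4) i).hasFDerivAt.comp x hd
    have hval : ∀ (v : E4) (i : Fin 4), (fderiv ℝ φ x v) i =
        ((b i - a i) * ((1 / (1 + (x i) ^ 2)) / Real.pi)) * v i := by
      intro v i
      have h1 := hd2 i
      have h2 : HasFDerivAt (fun y : E4 => bxf (a i) (b i) (y i))
          (((b i - a i) * ((1 / (1 + (x i) ^ 2)) / Real.pi)) •
            (EuclideanSpace.proj i : E4 →L[ℝ] ℝ)) x := by
        have h3 := (bxf_hasDerivAt (a i) (b i) (x i)).comp_hasFDerivAt x
          (EuclideanSpace.proj (𝕜 := ℝ) (ι := Fin 4) i).hasFDerivAt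
        exact h3
      have h4 := h1.unique h2
      have h5 := congrArg (fun L : E4 →L[ℝ] ℝ => L v) h4
      simpa using h5
    have hinj : Function.Injective (fderiv ℝ φ x : E4 →ₗ[ℝ] E4) := by
      rw [injective_iff_map_eq_zero]
      intro v hv
      ext i
      have h1 := hval v i
      have h2 : (fderiv ℝ φ x v) = 0 := hv
      rw [h2] at h1
      have h3 : ((b i - a i) * ((1 / (1 + (x i) ^ 2)) / Real.pi)) ≠ 0 := by
        have h0 : 0 < b i - a i := by linarith [h i]
        have hp := Real.pi_pos
        positivity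
      have h4 : ((b i - a i) * ((1 / (1 + (x i) ^ 2)) / Real.pi)) * v i = 0 := h1.symm
      rcases mul_eq_zero.1 h4 with h5 | h5
      · exact absurd h5 h3
      · simpa using h5
    have hu : IsUnit (fderiv ℝ φ x : E4 →ₗ[ℝ] E4) :=
      (LinearMap.isUnit_iff_ker_eq_bot _).2 (LinearMap.ker_eq_bot.2 hinj)
    have hdet := (LinearMap.isUnit_iff_isUnit_det _).1 hu
    exact hdet.ne_zero
  have hinj : Function.Injective φ := by
    intro x y hxy
    ext i
    have h1 : φ x i = φ y i := by rw [hxy]
    rw [hφ, hφ] at h1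
    exact bxf_inj (h i) h1
  refine ⟨φ, RG.isOpenEmbedding hinj hrg, hrg, ?_⟩
  ext y
  simp only [mem_range, mem_ofPred_eq]
  constructor
  · rintro ⟨x, rfl⟩ i
    rw [hφ]
    exact bxf_mem (h i) (x i)
  · intro hy
    choose t ht using fun i => bxf_surj (hy i).1 (hy i).2
    refine ⟨WithLp.toLp 2 t, ?_⟩
    ext i
    rw [hφ]
    exact ht i

end Pool.Agent.HopfCov
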