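import Pool.Agent.HopfRem.CollN
import Pool.Agent.HopfRem.Shrink

/-!
# HR8 (`Cell`): the collapsed set has small neighbourhoods which are cells

Proof. Let `ε` be as in `Coll.nbhd`, `δ = ε / 2`, and let `h : E → ball q ε` be the map of
`exists_shrink q` (`h = id` on `closedBall q δ`). Note that `h y = q` iff `y = q`. Put
`N' = ψ ⁻¹' ball q δ`, open, containing `K`. Define `κ x = x` if `ψ x ∈ ball q δ` and otherwise
`κ x` = the unique `y ∉ K` with `ψ y = h (ψ x)`: it exists, because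
`h (ψ x) ∈ ball q ε ⊆ ψ '' N` and `h (ψ x) ≠ q`, and it is unique by `h.inj`. In all cases
`ψ (κ x) = h (ψ x)` (in the first case `h (ψ x) = ψ x`), and `κ x ∈ K` iff `x ∈ K`. Injective:
if `κ x = κ y` then `h (ψ x) = h (ψ y)`, so `ψ x = ψ y`; if both are off `K` use `h.inj`; if one
of them is in `K` then both are and `κ = id` there. Range: `ψ (κ x) = h (ψ x) ∈ ball q ε`, so
`κ x ∈ ψ ⁻¹' ball q ε ⊆ N`. `RG κ x`: clear for `x ∈ N'` (`κ = id` near `x`). For `x ∉ K`:
`ψ` is `RG` at `κ x`, with a local inverse `g` there (`RG.exists_local_inv`, near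
`ψ (κ x) = h (ψ x)`, `g (h (ψ x)) = κ x`), and `κ = g ∘ h ∘ ψ` near `x`: for `y` near `x`,
`g (h (ψ y))` is near `κ x`, so it is off `K` and `ψ (g (h (ψ y))) = h (ψ y) = ψ (κ y)`, and
`κ y ∉ K`, so by `h.inj` they agree. So `RG κ x` by `RG.comp`, `RG.congr`. Finally
`RG.isOpenEmbedding`.
-/

set_option autoImplicit false
set_option linter.unusedSectionVars false

open scoped ContDiff Topology
open Set Filter Metric Topology

namespace Pool.Agent.HopfCov

variable {E : Type} [NormedAddCommGroup E] [InnerProductSpace ℝ E] [FiniteDimensional ℝ E]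

theorem Coll.cell (hdim : 1 < Module.finrank ℝ E) {K : Set E} {q : E} {ψ : E → E}
    (h : Coll K q ψ) {N : Set E} (hN : IsOpen N) (hKN : K ⊆ N) :
    ∃ (N' : Set E) (κ : E → E), IsOpen N' ∧ K ⊆ N' ∧ IsOpenEmbedding κ ∧ (∀ x, RG κ x) ∧
      (∀ x ∈ N', κ x = x) ∧ range κ ⊆ N := by
  classical
  obtain ⟨ε, hε, hb1, hb2⟩ := h.nbhd hdim hN hKN
  have hδ : 0 < ε / 2 := by positivity
  obtain ⟨s, hse, hsr, hsid, hsran⟩ := exists_shrink q hδ (show ε / 2 < ε by linarith)
  have hsq : s q = q := hsid q (mem_closedBall_self hδ.le)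
  have hsm : ∀ y, s y ∈ ball q ε := fun y => by
    rw [← hsran]
    exact mem_range_self y
  have hsne : ∀ y, y ≠ q → s y ≠ q := fun y hy hs => hy (hse.injective (hs.trans hsq.symm))
  have hcl : IsClosed K := h.cpt.isClosed
  -- points outside the small ball have a preimage off `K`
  have hex : ∀ x, ∃ y, (ψ x ∈ ball q (ε / 2) → y = x) ∧
      (ψ x ∉ ball q (ε / 2) → y ∉ K ∧ ψ y = s (ψ x)) := by
    intro x
    by_cases hx : ψ x ∈ ball q (ε / 2)
    · exact ⟨x, fun _ => rfl, fun h' => absurd hx h'⟩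
    · have hne : ψ x ≠ q := fun h' => hx (by rw [h']; exact mem_ball_self hδ)
      obtain ⟨y, -, hy⟩ := hb1 (hsm (ψ x))
      refine ⟨y, fun h' => absurd h' hx, fun _ => ⟨fun hyK => ?_, hy⟩⟩
      rw [h.on y hyK] at hy
      exact hsne _ hne hy.symm
  choose κ hκ1 hκ2 using hex
  have hψκ : ∀ x, ψ (κ x) = s (ψ x) := by
    intro x
    by_cases hx : ψ x ∈ ball q (ε / 2)
    · rw [hκ1 x hx, hsid _ (ball_subset_closedBall hx)]
    · exact (hκ2 x hx).2
  have hin : ∀ x ∈ K, ψ x ∈ ball q (ε / 2) := fun x hx => by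
    rw [h.on x hx]
    exact mem_ball_self hδ
  have hκK : ∀ x ∈ K, κ x = x := fun x hx => hκ1 x (hin x hx)
  have hκK' : ∀ x, x ∉ K → κ x ∉ K := by
    intro x hx
    by_cases hxb : ψ x ∈ ball q (ε / 2)
    · rwa [hκ1 x hxb]
    · exact (hκ2 x hxb).1
  have hinj : Function.Injective κ := by
    intro x y hxy
    have h1 : ψ x = ψ y := by
      apply hse.injective
      rw [← hψκ, ← hψκ, hxy]
    by_cases hx : x ∈ K
    · by_cases hy : y ∈ K
      · rw [← hκK x hx, ← hκK y hy, hxy]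
      · exfalso
        apply hκK' y hy
        rw [← hxy, hκK x hx]
        exact hx
    · by_cases hy : y ∈ K
      · exfalso
        apply hκK' x hx
        rw [hxy, hκK y hy]
        exact hy
      · exact h.inj hx hy h1
  have hN'o : IsOpen (ψ ⁻¹' ball q (ε / 2)) := isOpen_ball.preimage h.cont
  have hrg : ∀ x, RG κ x := by
    intro x
    by_cases hx : ψ x ∈ ball q (ε / 2)
    · refine (RG_id x).congr ?_
      filter_upwards [hN'o.mem_nhds hx] with y hy
      exact (hκ1 y hy).symm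
    · have hxK : x ∉ K := fun h' => hx (hin x h')
      have hκx : κ x ∉ K := hκK' x hxK
      obtain ⟨g, hg1, hg2, -, hg4⟩ := (h.rg (κ x) hκx).exists_local_inv
      rw [hψκ] at hg1 hg2 hg4
      have r1 : RG (fun y => s (ψ y)) x := RG.comp (g := s) (f := ψ) (hsr _) (h.rg x hxK)
      have r2 : RG (fun y => g (s (ψ y))) x := RG.comp (g := g) (f := fun y => s (ψ y)) hg1 r1
      refine r2.congr ?_
      have e1 : ∀ᶠ y in 𝓝 x, ψ (g (s (ψ y))) = s (ψ y) :=
        r1.continuousAt.eventually hg4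
      have e2 : ∀ᶠ y in 𝓝 x, g (s (ψ y)) ∉ K := by
        refine r2.continuousAt.eventually (hcl.isOpen_compl.mem_nhds ?_)
        change g (s (ψ x)) ∉ K
        rw [hg2]
        exact hκx
      have e3 : ∀ᶠ y in 𝓝 x, y ∉ K := hcl.isOpen_compl.mem_nhds hxK
      filter_upwards [e1, e2, e3] with y h1 h2 h3
      refine h.inj h2 (hκK' y h3) ?_
      rw [h1, hψκ]
  refine ⟨ψ ⁻¹' ball q (ε / 2), κ, hN'o, hin, RG.isOpenEmbedding hinj hrg, hrg,
    fun x hx => hκ1 x hx, ?_⟩
  rintro _ ⟨x, rfl⟩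
  apply hb2
  change ψ (κ x) ∈ ball q ε
  rw [hψκ]
  exact hsm _

end Pool.Agent.HopfCov
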