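import Pool.Agent.HopfRem.Statement3
import Pool.Agent.HopfRem.OrbSp

/-!
# Orbit spaces of trapping contractions: diffeomorphisms and conjugacy classes
-/

set_option autoImplicit false
set_option linter.unusedSectionVars false

open scoped ContDiff Topology Manifold MeasureTheory
open Set Filter Metric

namespace Pool.Agent.HopfCov.Smooth

/-! ### the data of an orbit space -/

theorem orbit_iff {g : V4 ≃ₜ V4} {G : E4 ≃ₜ E4} (hG : Extends G g) (x y : V4) :
    (∃ n : ℤ, val y = (G ^ n : E4 ≃ₜ E4) (val x)) ↔ ∃ n : ℤ, y = (g ^ n) x := by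
  constructor
  · rintro ⟨n, h⟩
    exact ⟨n, Subtype.ext (h.trans (hG.zpow n x))⟩
  · rintro ⟨n, rfl⟩
    exact ⟨n, (hG.zpow n x).symm⟩

theorem IsOrbit.data {M : Mfd4} {p : Punctured → M} {G : E4 ≃ₜ E4} (h : IsOrbit M p G) :
    T2Space M.carrier ∧ CompactSpace M.carrier ∧ (PD 1 G ∨ PD (-1) G) ∧ Trap G ∧ Contr G ∧
      ∃ g : V4 ≃ₜ V4, Extends G g ∧ OrbitMap g (M := M.carrier) p := by
  have h1 : PD 1 G ∨ PD (-1) G := by
    have := h.diffeo
    rw [groupP_eq] at this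
    exact this
  have h2 : ∃ g : V4 ≃ₜ V4, Extends G g := h1.elim (fun h => exists_restr h)
    fun h => exists_restr h
  obtain ⟨g, hg⟩ := h2
  have h3 : OrbitMap g (M := M.carrier) p :=
    ⟨h.surj, h.loc, fun x y => (h.fib x y).trans (orbit_iff hg x y)⟩
  have a1 : T2Space M.carrier := h.closed.hausdorff
  have a2 : CompactSpace M.carrier := h.closed.compact
  exact ⟨a1, a2, h1, h.trap, Contr_of_orbit h3 hg h.trap, g, hg, h3⟩

theorem IsOrbit.mk' {M : Mfd4} {p : Punctured → M} {G : E4 ≃ₜ E4} {g : V4 ≃ₜ V4}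
    [T2Space M.carrier] [CompactSpace M.carrier] (hp : OrbitMap g (M := M.carrier) p)
    (hG : Extends G g) (h1 : PD 1 G ∨ PD (-1) G) (ht : Trap G) : IsOrbit M p G :=
  ⟨⟨inferInstance, inferInstance, hp.connected⟩, hp.surj, hp.loc,
    fun x y => (hp.fib x y).trans (orbit_iff hG x y).symm, by rw [groupP_eq]; exact h1, ht⟩

theorem IsOrbit.cov {M : Mfd4} {p : Punctured → M} {G : E4 ≃ₜ E4} (h : IsOrbit M p G) :
    IsCoveringMap p := by
  obtain ⟨a1, a2, h1, ht, hc, g, hg, hp⟩ := h.data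
  exact isCoveringMap_of_orbits hp.loc.isLocalHomeomorph hp.surj hp.fib
    fun k x hx => free_of_contr hg hc k x hx

theorem not_both {G : E4 ≃ₜ E4} (h : PD 1 G) (h' : PD (-1) G) : False := PD_ne h h'

/-! ### orientation preserving generators -/

theorem orbit_pos_iff {M : Mfd4} {p : Punctured → M} {G : E4 ≃ₜ E4} (hD : PD 1 G) :
    IsOrbit M p G ↔ IsOrbitSpace M p G := by
  constructor
  · intro h
    obtain ⟨a1, a2, h1, ht, hc, g, hg, hp⟩ := h.data
    exact IsOrbitSpace.mk' (G := G) hp hg hD ht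
  · intro h
    obtain ⟨a1, a2, h1, ht, hc, g, hg, hp⟩ := h.data
    exact IsOrbit.mk' hp hg (Or.inl hD) ht

theorem std_iff {M : Mfd4} {p : Punctured → M} {G : E4 ≃ₜ E4} (h : IsOrbit M p G)
    (hD : PD 1 G) : DiffeoS1S3 M ↔ Ext G := by
  obtain ⟨a1, a2, h1, ht, hc, g, hg, hp⟩ := h.data
  exact std_iff_ext hp hg hD hc ht

/-! ### topological types -/

/-- two surjective local homeomorphisms with the same fibres have homeomorphic targets -/
theorem homeo_of_fibres {V X Y : Type} [TopologicalSpace V] [TopologicalSpace X]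
    [TopologicalSpace Y] {p : V → X} {q : V → Y} (hp : Function.Surjective p)
    (hq : Function.Surjective q) (lp : IsLocalHomeomorph p) (lq : IsLocalHomeomorph q)
    (h : ∀ x y, p x = p y ↔ q x = q y) : Nonempty (X ≃ₜ Y) := by
  let pc : C(V, X) := ⟨p, lp.continuous⟩
  let qc : C(V, Y) := ⟨q, lq.continuous⟩
  have qp : Topology.IsQuotientMap pc := lp.isOpenMap.isQuotientMap lp.continuous hp
  have qq : Topology.IsQuotientMap qc := lq.isOpenMap.isQuotientMap lq.continuous hq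
  have h1 : Function.FactorsThrough qc pc := fun x y hxy => (h x y).1 hxy
  have h2 : Function.FactorsThrough pc qc := fun x y hxy => (h x y).2 hxy
  let f : C(X, Y) := qp.lift qc h1
  let f' : C(Y, X) := qq.lift pc h2
  have hf : ∀ v, f (p v) = q v := fun v => DFunLike.congr_fun (qp.lift_comp qc h1) v
  have hf' : ∀ v, f' (q v) = p v := fun v => DFunLike.congr_fun (qq.lift_comp pc h2) v
  exact ⟨{ toFun := f
           invFun := f'
           left_inv := fun x => by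
             obtain ⟨v, rfl⟩ := hp x
             rw [hf, hf']
           right_inv := fun y => by
             obtain ⟨v, rfl⟩ := hq y
             rw [hf', hf]
           continuous_toFun := f.continuous
           continuous_invFun := f'.continuous }⟩

/-- the topological type of an orbit space -/
theorem top_type {s : ℝ} (hs : s * s = 1) {L : E4 ≃ₗᵢ[ℝ] E4}
    (hL : 0 < s * (L.toContinuousLinearEquiv : E4 →L[ℝ] E4).det) {τ : V4 ≃ₜ V4}
    (hτ : Extends (tauL L) τ) {X : Type} [TopologicalSpace X] {q₀ : V4 → X}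
    (c1 : Function.Surjective q₀) (c2 : IsLocalHomeomorph q₀)
    (c3 : ∀ x y : V4, q₀ x = q₀ y ↔ ∃ n : ℤ, y = (τ ^ n) x)
    {G : E4 ≃ₜ E4} (hPD : PD s G) (ht : Trap G) (hc : Contr G) {g : V4 ≃ₜ V4}
    (hG : Extends G g) {M : Type} [TopologicalSpace M] [ChartedSpace E4 M]
    [IsManifold (𝓡 4) ∞ M] {p : V4 → M} (hp : OrbitMap g p) : Nonempty (M ≃ₜ X) := by
  obtain ⟨Φ, f1, f2, -⟩ := core_point hGerm hSwap hRad hdim4 hs hPD ht hc L hL
  have f1' : (Φ⁻¹ : E4 ≃ₜ E4) 0 = 0 := by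
    have := inv_apply_self' Φ 0
    rwa [f1] at this
  obtain ⟨k, k1, -⟩ := exists_restr_LD f1'
  have hc1 : k * g = τ * k := by
    have e1 : Φ * tauL L = G * Φ := Homeomorph.ext f2
    have e2 : Φ⁻¹ * G = tauL L * Φ⁻¹ := by
      rw [inv_mul_eq_iff_eq_mul, ← mul_assoc, e1, mul_assoc, mul_inv_cancel, mul_one]
    have d1 : Extends (Φ⁻¹ * G) (k * g) := k1.mul hG
    have d2 : Extends (tauL L * Φ⁻¹) (τ * k) := hτ.mul k1
    rw [e2] at d1
    exact d1.eq_of d2
  have hsc : SemiconjBy k g τ := hc1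
  have hpow : ∀ (n : ℤ) (x : V4), k ((g ^ n) x) = (τ ^ n) (k x) := fun n x =>
    DFunLike.congr_fun (hsc.zpow_right n).eq x
  refine homeo_of_fibres (q := fun x => q₀ (k x)) hp.surj (c1.comp k.surjective)
    hp.loc.isLocalHomeomorph (c2.comp k.isLocalHomeomorph) fun x y => ?_
  rw [hp.fib, c3]
  constructor
  · rintro ⟨n, hn⟩
    exact ⟨n, by rw [hn, hpow]⟩
  · rintro ⟨n, hn⟩
    exact ⟨n, k.injective (by rw [hn, hpow])⟩

theorem IsOrbit.homeoS1S3 {M : Mfd4} {p : Punctured → M} {G : E4 ≃ₜ E4} (h : IsOrbit M p G)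
    (hD : PD 1 G) : HomeoS1S3 M := ((orbit_pos_iff hD).1 h).embeds.homeo

theorem IsOrbit.homeoTwisted {M : Mfd4} {p : Punctured → M} {G : E4 ≃ₜ E4}
    (h : IsOrbit M p G) (hD : PD (-1) G) : HomeoTwisted M := by
  obtain ⟨a1, a2, h1, ht, hc, g, hg, hp⟩ := h.data
  obtain ⟨τ, q₀, t1, t2, t3, t4⟩ := twisted_model
  exact top_type (s := -1) (by norm_num) det_refl0_pos t1 t2 t3 t4 hD ht hc hg hp

/-- `M` is an orbit space if and only if the unit sphere is embedded by a covering -/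
theorem orbit_iff_embeds {M : Mfd4} {p : Punctured → M} :
    ((HomeoS1S3 M ∨ HomeoTwisted M) ∧ IsCoveringMap p ∧ LocalDiffeo p ∧
      InjOn p {x | nrm (val x) = 1}) ↔ ∃ G : E4 ≃ₜ E4, IsOrbit M p G := by
  constructor
  · rintro ⟨h1, h2, h3, h4⟩
    obtain ⟨a1, a2, g₀, h5⟩ := h1.elim (fun h => orbit_of_homeo h h2 h3)
      (fun h => orbit_of_twisted h h2 h3)
    have a1' : T2Space M.carrier := a1
    have a2' : CompactSpace M.carrier := a2
    obtain ⟨g, G, h6, h7, h8, h9⟩ := exists_gen h5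
    exact ⟨G, IsOrbit.mk' h6 h7 h8 ((injOn_iff_trap h6 h7 h9).1 h4)⟩
  · rintro ⟨G, h⟩
    obtain ⟨a1, a2, h1, ht, hc, g, hg, hp⟩ := h.data
    refine ⟨?_, h.cov, h.loc, (injOn_iff_trap hp hg hc).2 ht⟩
    exact h1.elim (fun h1 => Or.inl (h.homeoS1S3 h1)) fun h1 => Or.inr (h.homeoTwisted h1)

/-! ### orientation reversing generators -/

theorem diffeo_of_homeo' {M M' : Mfd4} {g k : V4 ≃ₜ V4} {G K : E4 ≃ₜ E4} (hG : Extends G g)
    (hK : Extends K k) (h : CJ G K) {p : Punctured → M} {p' : Punctured → M'}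
    (hp : OrbitMap g (M := M.carrier) p) (hp' : OrbitMap k (M := M'.carrier) p') :
    Diffeomorphic M M' := by
  obtain ⟨F, hF⟩ := diffeo_of_CJ hG hK h (N := M.carrier) (N' := M'.carrier) hp hp'
  exact diffeomorphic_of_homeo F hF

theorem chi_of_diffeo {M M' : Mfd4} {p : Punctured → M} {p' : Punctured → M'}
    {G G' : E4 ≃ₜ E4} (h : IsOrbit M p G) (h' : IsOrbit M' p' G') (hG : PD (-1) G)
    (hG' : PD (-1) G') (hd : Diffeomorphic M M') : chi G' hG' = chi G hG := by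
  obtain ⟨a1, a2, -, ht, hc, g, hg, hp⟩ := h.data
  obtain ⟨a1', a2', -, ht', hc', g', hg', hp'⟩ := h'.data
  obtain ⟨F, hF⟩ := hd
  obtain ⟨Ψ, f1, -, f3⟩ := hLift g g' M.carrier M'.carrier p p' hp hp' (toDiffeo hF)
  exact chi_pair hg hg' hG hG' hc hc' f1 f3

theorem IsTwisted.isOrbit {T : Mfd4} (hT : IsTwisted T) :
    ∃ p : Punctured → T, IsOrbit T p TT := by
  obtain ⟨ρ, pT, h1, h2⟩ := hT.data_TT
  have a1 : T2Space T.carrier := hT.1
  obtain ⟨τ, q₀, t1, t2, t3, t4⟩ := twisted_model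
  have h3 : Nonempty (T.carrier ≃ₜ Twisted) :=
    top_type (s := -1) (by norm_num) det_refl0_pos t1 t2 t3 t4 PD_TT (Trap_tauL _) Contr_TT h1 h2
  obtain ⟨F⟩ := h3
  have a3 : CompactSpace Twisted := compact_twisted
  have a2 : CompactSpace T.carrier := F.symm.compactSpace
  exact ⟨pT, IsOrbit.mk' h2 h1 (Or.inr PD_TT) (Trap_tauL _)⟩

theorem twisted_iff {M : Mfd4} {p : Punctured → M} {G : E4 ≃ₜ E4} (h : IsOrbit M p G)
    (hG : PD (-1) G) : IsTwisted M ↔ chi G hG = 1 := by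
  constructor
  · intro hM
    obtain ⟨p', h'⟩ := hM.isOrbit
    have h1 : Diffeomorphic M M := ⟨fun x => x, Function.bijective_id,
      fun x => (Diffeomorph.refl (𝓡 4) M.carrier ∞).isLocalDiffeomorph x⟩
    rw [← chi_of_diffeo h h' hG PD_TT h1]
    exact chi_TT
  · intro h1
    obtain ⟨a1, a2, -, ht, hc, g, hg, hp⟩ := h.data
    exact isTwisted_of_CJ hg (CJ_of_chi PD_TT hG (Trap_tauL _) ht Contr_TT hc
      (h1.trans chi_TT.symm)) hp a1

theorem diffeo_neg_iff {M M' : Mfd4} {p : Punctured → M} {p' : Punctured → M'}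
    {G G' : E4 ≃ₜ E4} (h : IsOrbit M p G) (h' : IsOrbit M' p' G') (hG : PD (-1) G)
    (hG' : PD (-1) G') : Diffeomorphic M M' ↔ chi G' hG' = chi G hG := by
  refine ⟨chi_of_diffeo h h' hG hG', fun hχ => ?_⟩
  obtain ⟨a1, a2, -, ht, hc, g, hg, hp⟩ := h.data
  obtain ⟨a1', a2', -, ht', hc', g', hg', hp'⟩ := h'.data
  exact diffeo_of_homeo' hg hg' (CJ_of_chi hG hG' ht ht' hc hc' hχ) hp hp'

/-! ### realisation -/

theorem exists_orbit_pos {h : E4 ≃ₜ E4} (hh : PD 1 h) : ∃ (M : Mfd4) (p : Punctured → M)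
    (G : E4 ≃ₜ E4), IsOrbit M p G ∧ PD 1 G ∧ Ext (G * h⁻¹) := by
  obtain ⟨M, p, G, -, h2, h3⟩ := exists_of_class hh
  have h4 : PD 1 (G : E4 ≃ₜ E4) := punctured_iff.1 h2.diffeo
  exact ⟨M, p, G, (orbit_pos_iff h4).2 h2, h4, h3⟩

theorem exists_orbit_of {G : E4 ≃ₜ E4} (hG : PD (-1) G) (ht : Trap G) (hc : Contr G) :
    ∃ (M : Mfd4) (p : Punctured → M), IsOrbit M p G := by
  obtain ⟨τ, q₀, t1, t2, t3, t4⟩ := twisted_model
  obtain ⟨g, C, p, g1, g2, g3⟩ := exists_orbit_space_gen (s := -1) (by norm_num) det_refl0_pos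
    t1 t2 t3 t4 hG ht hc
  let M : Mfd4 := ⟨Twisted, inferInstance, C, g2⟩
  have a1 : T2Space M.carrier := inferInstanceAs (T2Space Twisted)
  have a2 : CompactSpace M.carrier := compact_twisted
  have h2' : OrbitMap g (M := M.carrier) p := g3
  exact ⟨M, p, IsOrbit.mk' h2' g1 (Or.inr hG) ht⟩

theorem exists_orbit_neg {h : E4 ≃ₜ E4} (hh : PD (-1) h) : ∃ (M : Mfd4) (p : Punctured → M)
    (G : E4 ≃ₜ E4), IsOrbit M p G ∧ PD (-1) G ∧ Ext (G * h⁻¹) := by
  obtain ⟨e, A, he, a1, a2, a3, h1⟩ := exists_rad hh.1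
  have h2 : PD 1 (rad e : E4 ≃ₜ E4) := PD_rad he a1 a2
  have h3 : PD (-1) (rad e * h) := h2.mul_pos_neg hh
  obtain ⟨M, p, h4⟩ := exists_orbit_of h3 (trap_of_half h1) (contr_of_half h1)
  refine ⟨M, p, _, h4, h3, ?_⟩
  have e1 : rad e * h * h⁻¹ = (rad e : E4 ≃ₜ E4) := by group
  rw [e1]
  exact Ext_rad he a1 a2 a3

end Pool.Agent.HopfCov.Smooth
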