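import Pool.Agent.HopfRem.Class1

/-!
# Diffeomorphism classes of orbit spaces and conjugacy classes
-/

set_option autoImplicit false
set_option linter.unusedSectionVars false

open scoped ContDiff Topology Manifold MeasureTheory
open Set Filter Metric

namespace Pool.Agent.HopfCov.Smooth

/-- conjugate generators have the same orientation character -/
theorem sign_unique {g k Ψ : V4 ≃ₜ V4} {G K : E4 ≃ₜ E4} (hG : Extends G g) (hK : Extends K k)
    {s t : ℝ} (h1 : PD s G) (h2 : PD t K)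
    (hΨ : IsLocalDiffeomorph (𝓡 4) (𝓡 4) ∞ Ψ) (hc : Ψ * g * Ψ⁻¹ = k ∨ Ψ * g * Ψ⁻¹ = k⁻¹) :
    0 < s * t := by
  obtain ⟨u, hu, hu'⟩ : ∃ u : ℝ, u ≠ 0 ∧ ∀ x : E4, x ≠ 0 → LD u (ext0 Ψ) x := by
    rcases specSign Ψ hΨ with h | h
    · exact ⟨1, one_ne_zero, h⟩
    · exact ⟨-1, by norm_num, h⟩
  obtain ⟨k', K', hK', h2', hk'⟩ : ∃ (k' : V4 ≃ₜ V4) (K' : E4 ≃ₜ E4), Extends K' k' ∧ PD t K' ∧
      Ψ * g = k' * Ψ := by
    rcases hc with hc | hc
    · exact ⟨k, K, hK, h2, by rw [← hc]; group⟩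
    · exact ⟨k⁻¹, K⁻¹, hK.inv, h2.inv, by rw [← hc]; group⟩
  obtain ⟨x, hx⟩ := exists_ne (0 : E4)
  have e1 := LD_ext0_mul hu' (LD_ext0_of_extends hG h1) x hx
  have e2 := LD_ext0_mul (LD_ext0_of_extends hK' h2') hu' x hx
  rw [hk'] at e1
  have e3 := mul_pos e1.2 e2.2
  have e4 : u * s * (fderiv ℝ (ext0 (k' * Ψ : V4 ≃ₜ V4)) x).det *
      (t * u * (fderiv ℝ (ext0 (k' * Ψ : V4 ≃ₜ V4)) x).det) =
      (s * t) * (u * (fderiv ℝ (ext0 (k' * Ψ : V4 ≃ₜ V4)) x).det) ^ 2 := by ring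
  rw [e4] at e3
  by_contra hcon
  push Not at hcon
  exact absurd e3 (not_lt.2 (mul_nonpos_of_nonpos_of_nonneg hcon (sq_nonneg _)))

theorem PD_refl : PD (-1) (linH refl0) := PD_linH det_refl0_pos

theorem Trap_refl {G : E4 ≃ₜ E4} (h : Trap G) : Trap (linH refl0 * G * (linH refl0)⁻¹) := by
  intro x hx
  show ‖refl0 (G (refl0.symm x))‖ < 1
  rw [refl0.norm_map]
  exact h _ (by rw [refl0.symm.norm_map]; exact hx)

theorem Ext_comm_conj {G k : E4 ≃ₜ E4} (hG : PD 1 G) (hk : PD 1 k) :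
    Ext (k * G * k⁻¹ * G⁻¹) := by
  have h1 := comm_ext hGerm hSwap hdim4 hk.inv hG.inv
  rwa [inv_inv, inv_inv] at h1

/-- **Classification**: the diffeomorphism type is the conjugacy class -/
theorem diffeo_conj_iff {M M' : Mfd4} {p : Punctured → M} {p' : Punctured → M'}
    {G G' : E4 ≃ₜ E4} (h : IsOrbit M p G) (h' : IsOrbit M' p' G') :
    Diffeomorphic M M' ↔ ∃ k ∈ PP, G' * (k * G * k⁻¹)⁻¹ ∈ DX := by
  obtain ⟨a1, a2, hs, ht, hc, g, hg, hp⟩ := h.data
  obtain ⟨a1', a2', hs', ht', hc', g', hg', hp'⟩ := h'.data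
  have hr : PD (-1) (linH refl0) := PD_refl
  constructor
  · rintro ⟨F, hF⟩
    obtain ⟨Ψ, f1, f2, f3⟩ := hLift g g' M.carrier M'.carrier p p' hp hp' (toDiffeo hF)
    rcases hs with hs | hs <;> rcases hs' with hs' | hs'
    · rcases specSign Ψ f1 with f4 | f4
      · refine ⟨1, PP.one_mem, ?_⟩
        have e1 : G' * (1 * G * 1⁻¹)⁻¹ = G' * G⁻¹ := by group
        rw [e1]
        exact ⟨hs'.mul_one' hs.inv, pair_oriented specLiftSwap specSwapContr hg hg' hs hs' hc hc'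
          f1 f4 f3⟩
      · obtain ⟨l, l1, l2⟩ := exists_restr_PDs hr
        have e1 : Extends (linH refl0 * G' * (linH refl0)⁻¹) (l * g' * l⁻¹) :=
          (l1.mul hg').mul l1.inv
        have e2 : PD 1 (linH refl0 * G' * (linH refl0)⁻¹) :=
          PD_conj (s := -1) (by norm_num) hr hs'
        have e3 : Contr (linH refl0 * G' * (linH refl0)⁻¹) := hc'.conj hr.zero
        have e4 : IsLocalDiffeomorph (𝓡 4) (𝓡 4) ∞ (l * Ψ : V4 ≃ₜ V4) := fun x =>
          (f1 x).comp (K := 𝓡 4) (hg := l2 (Ψ x))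
        have e5 : ∀ x : E4, x ≠ 0 → LD 1 (ext0 (l * Ψ : V4 ≃ₜ V4)) x := by
          have := LD_ext0_mul (LD_ext0_of_extends l1 hr) f4
          rwa [show (-1 : ℝ) * -1 = 1 by norm_num] at this
        have e6 : l * Ψ * g * (l * Ψ)⁻¹ = l * g' * l⁻¹ ∨
            l * Ψ * g * (l * Ψ)⁻¹ = (l * g' * l⁻¹)⁻¹ := by
          rcases f3 with f3 | f3
          · left
            rw [← f3]
            group
          · right
            have e7 : (l * g' * l⁻¹)⁻¹ = l * g'⁻¹ * l⁻¹ := by group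
            rw [e7, ← f3]
            group
        have e8 : Ext (linH refl0 * G' * (linH refl0)⁻¹ * G⁻¹) :=
          pair_oriented specLiftSwap specSwapContr hg e1 hs e2 hc e3 e4 e5 e6
        have e9 := Ext.conj hGerm hSwap hdim4 (s := -1) (by norm_num) e8 hr.inv
        refine ⟨(linH refl0)⁻¹, Or.inr hr.inv, ?_⟩
        have e10 : G' * ((linH refl0)⁻¹ * G * (linH refl0)⁻¹⁻¹)⁻¹ =
            (linH refl0)⁻¹ * (linH refl0 * G' * (linH refl0)⁻¹ * G⁻¹) * (linH refl0)⁻¹⁻¹ := by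
          group
        rw [e10]
        exact ⟨PD_conj (s := -1) (by norm_num) hr.inv (e2.mul_one' hs.inv), e9⟩
    · exact absurd (sign_unique hg hg' hs hs' f1 f3) (by norm_num)
    · exact absurd (sign_unique hg hg' hs hs' f1 f3) (by norm_num)
    · have e1 := chi_pair hg hg' hs hs' hc hc' f1 f3
      obtain ⟨w, hw, hwe⟩ := exists_conj_of_chi hs hs' e1
      refine ⟨w, Or.inl hw, ?_, hwe⟩
      have e2 : PD (-1) (w * G * w⁻¹) := by
        have := (hw.mul hs).mul hw.inv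
        rwa [show (1 : ℝ) * -1 * 1 = -1 by norm_num] at this
      exact hs'.mul_neg e2.inv
  · rintro ⟨k, hk, hk1, hk2⟩
    have hG' : G' = (G' * (k * G * k⁻¹)⁻¹) * (k * G * k⁻¹) := by group
    rcases hs with hs | hs
    · -- orientation preserving
      rcases hk with hk | hk
      · have e1 : PD 1 (k * G * k⁻¹) := PD_conj (s := 1) (by norm_num) hk hs
        have e2 : PD 1 G' := by
          rw [hG']
          exact hk1.mul_one' e1
        have e3 : Ext (G' * G⁻¹) := by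
          have e4 : G' * G⁻¹ = (G' * (k * G * k⁻¹)⁻¹) * (k * G * k⁻¹ * G⁻¹) := by group
          rw [e4]
          exact hk2.mul (Ext_comm_conj hs hk)
        exact diffeo_of_homeo' hg hg' (CJ_core (one_mul 1) hs e2 ht ht' hc hc' e3) hp hp'
      · set r : E4 ≃ₜ E4 := linH refl0 with hrd
        have e0 : PD 1 (r * G * r⁻¹) := PD_conj (s := -1) (by norm_num) hr hs
        have e1 : PD 1 (k * G * k⁻¹) := PD_conj (s := -1) (by norm_num) hk hs
        have e2 : PD 1 G' := by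
          rw [hG']
          exact hk1.mul_one' e1
        have e3 : PD 1 (k * r⁻¹) := hk.mul_neg hr.inv
        have e4 : Ext (G' * (r * G * r⁻¹)⁻¹) := by
          have e5 : G' * (r * G * r⁻¹)⁻¹ = (G' * (k * G * k⁻¹)⁻¹) *
              ((k * r⁻¹) * (r * G * r⁻¹) * (k * r⁻¹)⁻¹ * (r * G * r⁻¹)⁻¹) := by group
          rw [e5]
          exact hk2.mul (Ext_comm_conj e0 e3)
        obtain ⟨l, l1, l2⟩ := exists_restr_PDs hr.inv
        have e6 : OrbitMap (l⁻¹ * g * l) (M := M.carrier) (fun x => p (l x)) :=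
          hp.conj (Φ := l) (h := l⁻¹ * g * l) l2 (by group)
        have e7 : Extends (r * G * r⁻¹) (l⁻¹ * g * l) := by
          have := (l1.inv.mul hg).mul l1
          rwa [inv_inv] at this
        exact diffeo_of_homeo' (p := fun x => p (l x)) e7 hg' (CJ_core (one_mul 1) e0 e2
          (Trap_refl ht) ht' (hc.conj hr.zero) hc' e4) e6 hp'
    · obtain ⟨t, ht1, hkt⟩ : ∃ t : ℝ, (t = 1 ∨ t = -1) ∧ PD t k :=
        hk.elim (fun hk => ⟨1, Or.inl rfl, hk⟩) fun hk => ⟨-1, Or.inr rfl, hk⟩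
      have e1 : PD (-1) (k * G * k⁻¹) := by
        have := (hkt.mul hs).mul hkt.inv
        rcases ht1 with rfl | rfl
        · rwa [show (1 : ℝ) * -1 * 1 = -1 by norm_num] at this
        · rwa [show (-1 : ℝ) * -1 * -1 = -1 by norm_num] at this
      have e2 : PD (-1) G' := by
        rw [hG']
        exact hk1.mul_pos_neg e1
      have e3 : chi G' e2 = chi G hs := by
        rw [chi_congr hG' e2 (hk1.mul_pos_neg e1), chi_mul hk1 e1, (cls_eq_one hk1).2 hk2,
          map_one, one_mul, chi_conj ht1 hkt hs e1]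
      exact (diffeo_neg_iff h h' hs e2).2 e3

/-- the oriented classification -/
theorem diffeo_or_iff {M M' : Mfd4} {p : Punctured → M} {p' : Punctured → M'}
    {G G' : E4 ≃ₜ E4} (h : IsOrbit M p G) (h' : IsOrbit M' p' G') (hs : PD 1 G)
    (hs' : PD 1 G') :
    (∃ F : M → M', IsDiffeo F ∧ PreservesTo p p' F) ↔ Ext (G' * G⁻¹) := by
  obtain ⟨a1, a2, -, ht, hc, g, hg, hp⟩ := h.data
  obtain ⟨a1', a2', -, ht', hc', g', hg', hp'⟩ := h'.data
  rw [← diffeo_iff_ext hp hp' hg hg' hs hs' hc hc' ht ht']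
  constructor
  · rintro ⟨F, hF, ho⟩
    exact ⟨toDiffeo hF, ho⟩
  · rintro ⟨F, ho⟩
    exact ⟨F, ⟨F.bijective, F.isLocalDiffeomorph⟩, ho⟩

/-- finite coverings correspond to powers -/
theorem cover_orbit {M : Mfd4} {p : Punctured → M} {G : E4 ≃ₜ E4} (h : IsOrbit M p G) {m : ℕ}
    (hm : 0 < m) {N : Mfd4} {q : N → M} (hN : Closed N) (hq : Cover m q) :
    ∃ p' : Punctured → N, IsOrbit N p' (G ^ m) ∧ ∀ x, q (p' x) = p x := by
  obtain ⟨a1, a2, h1, ht, hc, g, hg, hp⟩ := h.data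
  have c1 : CompactSpace N.carrier := hN.compact
  have c2 : T2Space N.carrier := hN.hausdorff
  have c3 : ConnectedSpace N.carrier := hN.connected
  obtain ⟨p', e1, e2⟩ := cover_data hp hm hq.old
  refine ⟨p', IsOrbit.mk' e1 (hg.pow m) ?_ fun x hx => ht.pow_lt hm hx, e2⟩
  exact PP.pow_mem h1 m

end Pool.Agent.HopfCov.Smooth
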