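import Pool.Agent.HopfRem.Inner

/-!
# HR15 (`OnePt`): a compact singular set is replaced by one point

Proof. Choose `R > 0` with `K ⊆ ball 0 R`. By `outer` with `L = closedBall 0 (R + 2)` there is a
homeomorphism `H` with `H = e` on `closedBall 0 (R + 2)` and `RG H x` for `x ∉ K`. Let
`F x = H x - H 0` (compose with the translation `tr (-H 0)` of `HopfCov/Basic.lean`); `F 0 = 0`.
`inner_fix` with `a = R`, `b = R + 1` gives `G` with `G 0 = 0`, `RG G x` for `x ≠ 0`,
`G x = F x` for `‖x‖ ≥ R + 1`. Put `χ = F⁻¹ * G` (`χ x = F⁻¹ (G x)`), so `χ x = x` for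
`‖x‖ ≥ R + 1` and, being bijective, `χ` maps `ball 0 (R + 1)` onto itself. Let
`C = closedBall 0 (R + 1)`. Let `x ≠ 0`. If `‖x‖ > R + 1` then `χ = id` near `x`, `e ∘ χ = e`
near `x`, and `RG e x`. If `‖x‖ < R + 2` then `‖χ y‖ < R + 2` for `y` near `x`, so
`e (χ y) = H (χ y) = F (χ y) + H 0 = G y + H 0` near `x`, and `RG G x`.
-/

set_option autoImplicit false
set_option linter.unusedSectionVars false

open scoped ContDiff Topology
open Set Filter Metric Topology

namespace Pool.Agent.HopfCov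

variable {E : Type} [NormedAddCommGroup E] [InnerProductSpace ℝ E] [FiniteDimensional ℝ E]

theorem one_point (hdim : 1 < Module.finrank ℝ E) {e : E → E} (he : IsOpenEmbedding e)
    {K : Set E} (hK : IsCompact K) (hr : ∀ x, x ∉ K → RG e x) :
    ∃ χ : E ≃ₜ E, (∃ C : Set E, IsCompact C ∧ ∀ x, x ∉ C → χ x = x) ∧
      ∀ x, x ≠ 0 → RG (fun y => e (χ y)) x := by
  obtain ⟨R, hR, hKR⟩ := hK.isBounded.subset_ball_lt 0 0
  obtain ⟨H, hH, hHr⟩ := outer hdim he hK (isCompact_closedBall (0 : E) (R + 2)) hr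
  set F : E ≃ₜ E := tr (-H 0) * H with hFdef
  have hF : ∀ x, F x = H x + -H 0 := fun x => rfl
  have hF0 : F 0 = 0 := by rw [hF, add_neg_cancel]
  have hoff : ∀ x : E, R ≤ ‖x‖ → x ∉ K := by
    intro x hx hxK
    have := mem_ball_zero_iff.1 (hKR hxK)
    linarith
  obtain ⟨G, hG0, hGr, hGF⟩ := inner_fix hdim hF0 hR (lt_add_one R)
    (fun x hx => RG.mul (LD_tr _ _).rg (hHr x (hoff x hx)))
  have hχ : ∀ x : E, R + 1 ≤ ‖x‖ → (F⁻¹ * G : E ≃ₜ E) x = x := by
    intro x hx
    show F.symm (G x) = x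
    rw [hGF x hx, F.symm_apply_apply]
  refine ⟨F⁻¹ * G, ⟨closedBall 0 (R + 1), isCompact_closedBall _ _, fun x hx => hχ x ?_⟩,
    fun x hx => ?_⟩
  · rw [mem_closedBall_zero_iff] at hx
    linarith
  · rcases lt_or_ge (R + 1) ‖x‖ with h1 | h1
    · refine (hr x (hoff x (by linarith))).congr ?_
      filter_upwards [continuous_norm.continuousAt.eventually (lt_mem_nhds h1)] with y hy
      rw [hχ y hy.le]
    · have h2 : RG (fun y => G y + H 0) x := RG.comp (g := fun y => y + H 0) (f := G)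
        (LD_tr (H 0) (G x)).rg (hGr x hx)
      refine h2.congr ?_
      have h3 : ‖x‖ < R + 2 := by linarith
      filter_upwards [continuous_norm.continuousAt.eventually (gt_mem_nhds h3)] with y hy
      have h4 : ‖(F⁻¹ * G : E ≃ₜ E) y‖ ≤ R + 2 := by
        by_contra hcon
        push Not at hcon
        have h5 := hχ ((F⁻¹ * G : E ≃ₜ E) y) (by linarith)
        have h6 := (F⁻¹ * G : E ≃ₜ E).injective h5
        rw [h6] at hcon
        linarith
      rw [← hH _ (mem_closedBall_zero_iff.2 h4)]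
      have h7 : F ((F⁻¹ * G : E ≃ₜ E) y) = G y := by
        show F (F.symm (G y)) = G y
        rw [F.apply_symm_apply]
      rw [hF] at h7
      rw [← h7, neg_add_cancel_right]

end Pool.Agent.HopfCov
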