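import Mathlib

/-!
# HR7 (`Transport`): transport of a compactly supported homeomorphism by an open embedding

Proof. Let `θ y = κ (s x)` if `y = κ x`, and `θ y = y` if `y ∉ range κ`. It is bijective (the
inverse is given by the same formula with `s.symm`). The set `κ '' C` is compact, hence closed
(`Y` is Hausdorff); on the open set `(κ '' C)ᶜ` the map `θ` is the identity (if
`y = κ x ∉ κ '' C` then `x ∉ C`, `s x = x`), and on the open set `range κ` it is `κ ∘ s ∘ κ⁻¹`,
where `κ⁻¹` is continuous on the range (`IsOpenEmbedding.toOpenPartialHomeomorph` or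
`hκ.toHomeomorph`); the two open sets cover `Y`. The inverse is continuous for the same reason
(`s.symm x = x` for `x ∉ C` as `s` is injective).
-/

set_option autoImplicit false
set_option linter.unusedSectionVars false

open scoped Topology
open Set Filter Topology

namespace Pool.Agent.HopfCov

open Classical in
/-- transport of a map along an injective map -/
private noncomputable def hr7tr {X Y : Type} (κ : X → Y) (s : X → X) (y : Y) : Y :=
  if h : ∃ x, κ x = y then κ (s h.choose) else y

private theorem hr7tr_apply {X Y : Type} {κ : X → Y} (hκ : Function.Injective κ) (s : X → X)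
    (x : X) : hr7tr κ s (κ x) = κ (s x) := by
  have h : ∃ x', κ x' = κ x := ⟨x, rfl⟩
  have h1 : h.choose = x := hκ h.choose_spec
  unfold hr7tr
  rw [dif_pos h, h1]

private theorem hr7tr_of {X Y : Type} {κ : X → Y} (hκ : Function.Injective κ) {s : X → X}
    {C : Set X} (hs : ∀ x, x ∉ C → s x = x) {y : Y} (hy : y ∉ κ '' C) : hr7tr κ s y = y := by
  by_cases h : ∃ x, κ x = y
  · obtain ⟨x, rfl⟩ := h
    rw [hr7tr_apply hκ, hs]
    intro hx
    exact hy ⟨x, hx, rfl⟩
  · unfold hr7tr
    rw [dif_neg h]

private theorem hr7tr_inv {X Y : Type} {κ : X → Y} (hκ : Function.Injective κ) {s t : X → X}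
    (hst : ∀ x, t (s x) = x) (y : Y) : hr7tr κ t (hr7tr κ s y) = y := by
  by_cases h : ∃ x, κ x = y
  · obtain ⟨x, rfl⟩ := h
    rw [hr7tr_apply hκ, hr7tr_apply hκ, hst]
  · have h1 : hr7tr κ s y = y := by
      unfold hr7tr
      rw [dif_neg h]
    rw [h1]
    unfold hr7tr
    rw [dif_neg h]

private theorem hr7tr_cont {X Y : Type} [TopologicalSpace X] [TopologicalSpace Y] [T2Space Y]
    {κ : X → Y} (hκ : IsOpenEmbedding κ) {s : X → X} (hsc : Continuous s) {C : Set X}
    (hC : IsCompact C) (hs : ∀ x, x ∉ C → s x = x) : Continuous (hr7tr κ s) := by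
  rw [continuous_iff_continuousAt]
  intro y
  by_cases h : ∃ x, κ x = y
  · obtain ⟨x, rfl⟩ := h
    rw [← hκ.continuousAt_iff]
    have h1 : hr7tr κ s ∘ κ = κ ∘ s := by
      funext z
      exact hr7tr_apply hκ.injective s z
    rw [h1]
    exact (hκ.continuous.comp hsc).continuousAt
  · have h1 : IsClosed (κ '' C) := (hC.image hκ.continuous).isClosed
    have h2 : (κ '' C)ᶜ ∈ 𝓝 y := by
      refine h1.isOpen_compl.mem_nhds ?_
      rintro ⟨x, _, hx⟩
      exact h ⟨x, hx⟩
    refine continuousAt_id.congr ?_
    filter_upwards [h2] with z hz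
    exact (hr7tr_of hκ.injective hs hz).symm

theorem exists_transport {X Y : Type} [TopologicalSpace X] [TopologicalSpace Y] [T2Space Y]
    {κ : X → Y} (hκ : IsOpenEmbedding κ) (s : X ≃ₜ X) {C : Set X} (hC : IsCompact C)
    (hs : ∀ x, x ∉ C → s x = x) :
    ∃ θ : Y ≃ₜ Y, (∀ x, θ (κ x) = κ (s x)) ∧ ∀ y, y ∉ κ '' C → θ y = y := by
  have hs' : ∀ x, x ∉ C → s.symm x = x := by
    intro x hx
    rw [Homeomorph.symm_apply_eq]
    exact (hs x hx).symm
  refine ⟨{ toFun := hr7tr κ s
            invFun := hr7tr κ s.symm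
            left_inv := hr7tr_inv hκ.injective s.symm_apply_apply
            right_inv := hr7tr_inv hκ.injective s.apply_symm_apply
            continuous_toFun := hr7tr_cont hκ s.continuous hC hs
            continuous_invFun := hr7tr_cont hκ s.symm.continuous hC hs' }, ?_, ?_⟩
  · intro x
    exact hr7tr_apply hκ.injective s x
  · intro y hy
    exact hr7tr_of hκ.injective hs hy

end Pool.Agent.HopfCov
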