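import Pool.Agent.HopfRem.BoxM
import Pool.Agent.HopfRem.OnePt
import Pool.Agent.HopfRem.Transport

/-!
# HR27 (`FinSing`): a singular set of length zero is replaced by a finite set

Proof. For every `x : M` there is a `Par` `ψ` of `X` with `F x ∈ range ψ` (`exists_par`); let
`𝒰 = {F ⁻¹' range ψ | Par ψ}`, an open cover of `M`. By `box_cover_mfd` there are `Par` maps
`φ i : E4 → M`, `i : Fin n`, with pairwise disjoint ranges covering `A` and `Par` maps `ψ i` of
`X` with `F '' range (φ i) ⊆ range (ψ i)`. Fix `i`. The set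
`A ∩ range (φ i) = A \ ⋃ j ≠ i, range (φ j)` is compact, so `K i = φ i ⁻¹' A` is compact. Let
`e : E4 → E4` be the open embedding with `ψ i (e y) = F (φ i y)`; for `y ∉ K i`, `F ∘ φ i` is a
local diffeomorphism at `y`, so `e` is too
(`LDA.of_comp`), `RG e y` (`ldAt_iff`). By `one_point` there is `χ i : E4 ≃ₜ E4`, the
identity off a compact `C i`, such that `e ∘ χ i` is `RG` off `0`, so it is `LDA` off `0`
(`ldAt_iff`: `{0}ᶜ` is open), and `F ∘ φ i ∘ χ i = ψ i ∘ e ∘ χ i` is `LDA` off `0`. Let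
`Θ i : M ≃ₜ M` be the transport of `χ i` by `φ i` (`exists_transport`):
`Θ i (φ i y) = φ i (χ i y)`, `Θ i = id` off the closed set `φ i '' C i ⊆ range (φ i)`. Let
`F' x = F (Θ x)`, where `Θ` is the homeomorphism with `Θ = Θ i` on `range (φ i)` and the
identity off `⋃ i, φ i '' C i` (the composition of the `Θ i` in any order, or prove by induction
on `m ≤ n` the existence of `F m : M ≃ₜ X` with `F m = F` on `range (φ i)` for `i ≥ m`, and
`LDA (F m)` off `{φ i 0 | i < m} ∪ (A \ ⋃ i < m, range (φ i))`). Then `F'` is `LDA` off the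
finite set `{φ i 0}`: for `x ∈ range (φ i)`, `x = φ i y`, `y ≠ 0`, `F' ∘ φ i = F ∘ φ i ∘ χ i` is
`LDA` at `y` and `LDA.of_comp_right` applies; for `x` in no range, `x ∉ A` and `F' = F` near `x`
(off the closed set `⋃ i, φ i '' C i`).
-/

set_option autoImplicit false
set_option linter.unusedSectionVars false

open scoped ContDiff Topology Manifold MeasureTheory
open Set Filter Metric Topology

namespace Pool.Agent.HopfCov

variable {M X : Type} [TopologicalSpace M] [ChartedSpace E4 M] [IsManifold (𝓡 4) ∞ M]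
  [TopologicalSpace X] [ChartedSpace E4 X] [IsManifold (𝓡 4) ∞ X]

private theorem fs_step [T2Space M] (F : M ≃ₜ X) {φ : E4 → M} {ψ : E4 → X} (hφ : Par φ)
    (hψ : Par ψ) (hr : ∀ y, F (φ y) ∈ range ψ) {K : Set E4} (hK : IsCompact K)
    (hF : ∀ y, y ∉ K → LDA F (φ y)) :
    ∃ (F' : M ≃ₜ X) (C : Set E4), IsCompact C ∧ (∀ x, x ∉ φ '' C → F' x = F x) ∧
      ∀ y, y ≠ 0 → LDA F' (φ y) := by
  choose e he using hr
  have hcomp : IsOpenEmbedding (fun y => F (φ y)) := F.isOpenEmbedding.comp hφ.emb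
  have he1 : ψ ∘ e = fun y => F (φ y) := funext he
  have heo : IsOpenEmbedding e := by
    refine IsOpenEmbedding.of_comp e hψ.emb ?_
    rw [he1]
    exact hcomp
  have hrg : ∀ y, y ∉ K → RG e y := by
    intro y hy
    have h1 : LDA (fun y => F (φ y)) y := LDA.comp' (hF y hy) (hφ.loc y)
    rw [← he1] at h1
    have h2 : LDA e y := LDA.of_comp heo.continuous.continuousAt (hψ.loc (e y)) h1
    exact (ldAt_iff.1 h2).self_of_nhds
  have hdim : 1 < Module.finrank ℝ E4 := by simp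
  obtain ⟨χ, ⟨C, hC, hχ⟩, hχ2⟩ := one_point hdim heo hK hrg
  obtain ⟨θ, hθ, hθ2⟩ := exists_transport hφ.emb χ hC hχ
  refine ⟨θ.trans F, C, hC, ?_, ?_⟩
  · intro x hx
    rw [Homeomorph.trans_apply, hθ2 x hx]
  · intro y hy
    have h1 : LDA (fun y => e (χ y)) y :=
      ldAt_iff.2 (Filter.mem_of_superset (isOpen_ne.mem_nhds hy) fun z hz => hχ2 z hz)
    have h2 : LDA (fun y => ψ (e (χ y))) y := LDA.comp' (hψ.loc _) h1
    have h3 : (fun y => ψ (e (χ y))) = fun y => (θ.trans F) (φ y) := by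
      funext z
      rw [Homeomorph.trans_apply, hθ z, he]
    rw [h3] at h2
    exact LDA.of_comp_right (hφ.loc y) h2

private theorem fs_ind [T2Space M] (F : M ≃ₜ X) {A : Set M} (hA : IsCompact A)
    (hF : ∀ x, x ∉ A → LDA F x) {n : ℕ} (φ : Fin n → E4 → M) (hφ : ∀ i, Par (φ i))
    (hr : ∀ i, ∃ ψ : E4 → X, Par ψ ∧ ∀ y, F (φ i y) ∈ range ψ)
    (hd : ∀ i j, i ≠ j → Disjoint (range (φ i)) (range (φ j))) (hc : A ⊆ ⋃ i, range (φ i)) :
    ∀ m : ℕ, ∃ (F' : M ≃ₜ X) (Z : Set M), IsClosed Z ∧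
      (∀ x ∈ Z, ∃ i : Fin n, (i : ℕ) < m ∧ x ∈ range (φ i)) ∧ (∀ x, x ∉ Z → F' x = F x) ∧
      ∀ i : Fin n, (i : ℕ) < m → ∀ y, y ≠ 0 → LDA F' (φ i y) := by
  intro m
  induction m with
  | zero =>
    exact ⟨F, ∅, isClosed_empty, fun x hx => absurd hx (notMem_empty x), fun x _ => rfl,
      fun i hi => absurd hi (Nat.not_lt_zero _)⟩
  | succ m ih =>
    obtain ⟨F₁, Z, hZ, hZr, hFZ, hF₁⟩ := ih
    by_cases hm : m < n
    · set k : Fin n := ⟨m, hm⟩ with hk
      have hkZ : ∀ y, φ k y ∉ Z := by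
        intro y hy
        obtain ⟨i, hi, hx⟩ := hZr _ hy
        have hik : i ≠ k := by
          intro h
          rw [h] at hi
          exact lt_irrefl _ hi
        exact (Set.disjoint_left.1 (hd i k hik)) hx (mem_range_self y)
      obtain ⟨ψ, hψ, hψr⟩ := hr k
      have hcK : IsCompact (φ k ⁻¹' A) := by
        rw [(hφ k).emb.isInducing.isCompact_iff, image_preimage_eq_inter_range]
        have h1 : A ∩ range (φ k) = A \ ⋃ j ∈ {j : Fin n | j ≠ k}, range (φ j) := by
          ext x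
          constructor
          · rintro ⟨h1, h2⟩
            refine ⟨h1, fun h3 => ?_⟩
            obtain ⟨j, hj, hx⟩ := mem_iUnion₂.1 h3
            exact (Set.disjoint_left.1 (hd j k hj)) hx h2
          · rintro ⟨h1, h2⟩
            refine ⟨h1, ?_⟩
            obtain ⟨j, hx⟩ := mem_iUnion.1 (hc h1)
            by_cases hj : j = k
            · rw [← hj]
              exact hx
            · exact absurd (mem_iUnion₂.2 ⟨j, hj, hx⟩) h2
        rw [h1]
        exact hA.diff (isOpen_biUnion fun j _ => (hφ j).emb.isOpen_range)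
      have hloc : ∀ y, y ∉ φ k ⁻¹' A → LDA F₁ (φ k y) := by
        intro y hy
        refine (hF (φ k y) hy).congr' ?_
        exact Filter.mem_of_superset (hZ.isOpen_compl.mem_nhds (hkZ y)) fun x hx =>
          (hFZ x hx).symm
      obtain ⟨F₂, C, hC, hF₂, hF₂l⟩ := fs_step F₁ (hφ k) hψ
        (fun y => by rw [hFZ _ (hkZ y)]; exact hψr y) hcK hloc
      have hCc : IsClosed (φ k '' C) := (hC.image (hφ k).emb.continuous).isClosed
      refine ⟨F₂, Z ∪ φ k '' C, hZ.union hCc, ?_, ?_, ?_⟩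
      · rintro x (hx | ⟨y, _, rfl⟩)
        · obtain ⟨i, hi, hx⟩ := hZr x hx
          exact ⟨i, Nat.lt_succ_of_lt hi, hx⟩
        · exact ⟨k, Nat.lt_succ_self m, mem_range_self y⟩
      · intro x hx
        rw [hF₂ x (fun h => hx (Or.inr h)), hFZ x (fun h => hx (Or.inl h))]
      · intro i hi y hy
        by_cases hik : i = k
        · rw [hik]
          exact hF₂l y hy
        · have him : (i : ℕ) < m := by
            rcases Nat.lt_succ_iff_lt_or_eq.1 hi with h | h
            · exact h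
            · exact absurd (Fin.ext h) hik
          have hn : φ i y ∉ φ k '' C := by
            rintro ⟨z, _, hz⟩
            exact (Set.disjoint_left.1 (hd i k hik)) (mem_range_self y) ⟨z, hz⟩
          refine (hF₁ i him y hy).congr' ?_
          exact Filter.mem_of_superset (hCc.isOpen_compl.mem_nhds hn) fun x hx =>
            (hF₂ x hx).symm
    · refine ⟨F₁, Z, hZ, ?_, hFZ, ?_⟩
      · intro x hx
        obtain ⟨i, hi, hx⟩ := hZr x hx
        exact ⟨i, Nat.lt_succ_of_lt hi, hx⟩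
      · intro i _ y hy
        exact hF₁ i (lt_of_lt_of_le i.2 (not_lt.1 hm)) y hy

theorem fin_sing [T2Space M] (F : M ≃ₜ X) {A : Set M} (hA : IsCompact A) (hL : LenZero A)
    (hF : ∀ x, x ∉ A → LDA F x) :
    ∃ (F' : M ≃ₜ X) (S : Set M), S.Finite ∧ ∀ x, x ∉ S → LDA F' x := by
  obtain ⟨n, φ, hφ, hd, hc⟩ := box_cover_mfd hL hA
    (𝒰 := {U | ∃ ψ : E4 → X, Par ψ ∧ U = F ⁻¹' range ψ})
    (by
      rintro U ⟨ψ, hψ, rfl⟩
      exact hψ.emb.isOpen_range.preimage F.continuous)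
    (by
      intro x _
      obtain ⟨ψ, hψ, h0, _⟩ := exists_par (F x) (O := univ) Filter.univ_mem
      exact ⟨F ⁻¹' range ψ, ⟨ψ, hψ, rfl⟩, ⟨0, h0⟩⟩)
  have hr : ∀ i, ∃ ψ : E4 → X, Par ψ ∧ ∀ y, F (φ i y) ∈ range ψ := by
    intro i
    obtain ⟨U, ⟨ψ, hψ, rfl⟩, hU⟩ := (hφ i).2
    exact ⟨ψ, hψ, fun y => hU (mem_range_self y)⟩
  obtain ⟨F', Z, hZ, hZr, hFZ, hF'⟩ := fs_ind F hA hF φ (fun i => (hφ i).1) hr hd hc n
  refine ⟨F', range fun i => φ i 0, Set.finite_range _, ?_⟩
  intro x hx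
  by_cases h : ∃ i, x ∈ range (φ i)
  · obtain ⟨i, y, rfl⟩ := h
    refine hF' i i.2 y ?_
    rintro rfl
    exact hx ⟨i, rfl⟩
  · have hxZ : x ∉ Z := fun hz => by
      obtain ⟨i, _, hi⟩ := hZr x hz
      exact h ⟨i, hi⟩
    have hxA : x ∉ A := fun ha => h (mem_iUnion.1 (hc ha))
    refine (hF x hxA).congr' ?_
    exact Filter.mem_of_superset (hZ.isOpen_compl.mem_nhds hxZ) fun z hz => (hFZ z hz).symm

end Pool.Agent.HopfCov
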