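import Pool.Agent.HopfRem.ParEx
import Pool.Agent.HopfRem.GermE

/-!
# HR28 (`Desing`): an embedding with finitely many singular points is smooth up to a homeomorphism

Proof. Induction on the number of elements of `S` (for all `f`). If `S = ∅` take `e = id`.
Otherwise let `a ∈ S`. If `LDA f a`, remove `a` from `S`. In general: let `ψ` be a `Par` of `X`
with `f a ∈ range ψ` (`exists_par`); the map `g = ψ⁻¹ ∘ f` is an open partial homeomorphism of
`E4` with source the open set `f ⁻¹' range ψ ∩ V`, where `V` is an open neighbourhood of `a` with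
`V ∩ S = {a}` (use `hf.toOpenPartialHomeomorph`, `ψ`'s one, `trans`, `restr`), and for
`x ≠ a` in the source `g` is `LDA` at `x` (`LDA.of_comp` with `ψ ∘ g = f`), so `RG g x`
(`ldAt_iff`). By `germ_extend` there is `G : E4 ≃ₜ E4` with `G = g` near `a` and `RG G x` for
`x ≠ a`. Let `f₁ y = f (G.symm y)`, an open embedding. It is `LDA` off `G '' (S \ {a})`: at
`y = G a`: near `G a` we have `f₁ = ψ` (for `y = G x` with `x` near `a`:
`f₁ y = f x = ψ (g x) = ψ (G x)`), which is `LDA`. At `y = G x` with `x ∉ S`, `x ≠ a`: `G` is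
`LDA` at `x` (`ldAt_iff`, `{a}ᶜ` is open), so `f₁` is `LDA` at `G x` by `LDA.of_comp_right`
(`f₁ ∘ G = f`). The set `G '' (S \ {a})` has one element less, so the induction hypothesis gives
`e₁` with `Par (f₁ ∘ e₁.symm)`; take `e = e₁ ∘ G` (`G.trans e₁`).
-/

set_option autoImplicit false
set_option linter.unusedSectionVars false

open scoped ContDiff Topology Manifold
open Set Filter Metric Topology

namespace Pool.Agent.HopfCov

variable {X : Type} [TopologicalSpace X] [ChartedSpace E4 X] [IsManifold (𝓡 4) ∞ X]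

/-- the induction step: one singular point less -/
private theorem desing_step {f : E4 → X} (hf : IsOpenEmbedding f) {S : Set E4} (hS : S.Finite)
    (hr : ∀ x, x ∉ S → LDA f x) (a : E4) : ∃ G : E4 ≃ₜ E4,
      ∀ y, y ∉ G '' (S \ {a}) → LDA (fun z => f (G.symm z)) y := by
  obtain ⟨ψ, hψ, hψ0, -⟩ := exists_par (f a) (O := univ) univ_mem
  have hV : IsOpen ((S \ {a})ᶜ) := (hS.subset sdiff_subset).isClosed.isOpen_compl
  let g : OpenPartialHomeomorph E4 E4 := ((hf.toOpenPartialHomeomorph f).trans
    (hψ.emb.toOpenPartialHomeomorph ψ).symm).restrOpen _ hV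
  have hsrc : ∀ x, x ∈ g.source ↔ f x ∈ range ψ ∧ x ∉ S \ {a} := by
    intro x
    simp [g]
  have hψg : ∀ x ∈ g.source, ψ (g x) = f x := by
    intro x hx
    have h1 : f x ∈ (hψ.emb.toOpenPartialHomeomorph ψ).target := by
      have := ((hsrc x).1 hx).1
      simpa using this
    exact (hψ.emb.toOpenPartialHomeomorph ψ).right_inv h1
  have ha : a ∈ g.source := (hsrc a).2 ⟨⟨0, hψ0⟩, fun h => h.2 rfl⟩
  have hgr : ∀ x ∈ g.source, x ≠ a → RG g x := by
    intro x hx hxa
    have hxS : x ∉ S := fun h => ((hsrc x).1 hx).2 ⟨h, hxa⟩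
    have h1 : f =ᶠ[𝓝 x] fun y => ψ (g y) := by
      filter_upwards [g.open_source.mem_nhds hx] with y hy
      exact (hψg y hy).symm
    have h2 : LDA (fun y => ψ (g y)) x := (hr x hxS).congr' h1
    have h3 : LDA g x := LDA.of_comp (g.continuousAt hx) (hψ.loc (g x)) h2
    exact (ldAt_iff.1 h3).self_of_nhds
  obtain ⟨G, hG, hGr⟩ := germ_extend (by simp) g ha hgr
  refine ⟨G, fun y hy => ?_⟩
  by_cases hya : y = G a
  · subst hya
    have h1 : Tendsto G.symm (𝓝 (G a)) (𝓝 a) := by
      have := G.symm.continuous.continuousAt (x := G a)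
      rwa [ContinuousAt, G.symm_apply_apply] at this
    refine (hψ.loc (G a)).congr' ?_
    filter_upwards [h1.eventually hG, h1.eventually (g.open_source.mem_nhds ha)] with z hz hz2
    change ψ z = f (G.symm z)
    rw [← hψg _ hz2, ← hz, G.apply_symm_apply]
  · obtain ⟨x, rfl⟩ : ∃ x, G x = y := ⟨G.symm y, G.apply_symm_apply y⟩
    have hxa : x ≠ a := fun h => hya (by rw [h])
    have hxS : x ∉ S := fun h => hy ⟨x, ⟨h, hxa⟩, rfl⟩
    have h1 : LDA G x := by
      refine ldAt_iff.2 ?_
      filter_upwards [isOpen_compl_singleton.mem_nhds hxa] with z hz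
      exact hGr z hz
    refine LDA.of_comp_right (g := fun z => f (G.symm z)) h1 ((hr x hxS).congr' ?_)
    filter_upwards with z
    rw [G.symm_apply_apply]

theorem desing {f : E4 → X} (hf : IsOpenEmbedding f) {S : Set E4} (hS : S.Finite)
    (hr : ∀ x, x ∉ S → LDA f x) : ∃ e : E4 ≃ₜ E4, Par (fun y => f (e.symm y)) := by
  obtain ⟨n, hn⟩ : ∃ n, S.ncard = n := ⟨_, rfl⟩
  induction n generalizing f S with
  | zero =>
    rw [Set.ncard_eq_zero hS] at hn
    subst hn
    exact ⟨Homeomorph.refl E4, hf, fun x => hr x (Set.notMem_empty x)⟩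
  | succ n ih =>
    obtain ⟨a, ha⟩ : S.Nonempty := by
      rw [← Set.ncard_pos hS]
      omega
    obtain ⟨G, hG⟩ := desing_step hf hS hr a
    have h1 : (G '' (S \ {a})).Finite := (hS.subset sdiff_subset).image _
    have h2 : (G '' (S \ {a})).ncard = n := by
      rw [Set.ncard_image_of_injective _ G.injective]
      have := Set.ncard_sdiff_singleton_add_one ha hS
      omega
    obtain ⟨e, he⟩ := ih (hf.comp G.symm.isOpenEmbedding) h1 hG h2
    exact ⟨G.trans e, he⟩

end Pool.Agent.HopfCov
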