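import Pool.Agent.HopfRem.OneBall
import Pool.Agent.HopfRem.Desing
import Pool.Agent.HopfRem.OnePt

/-!
# HR29 (`Merge`): finitely many singular points are merged to one

Proof. By `one_ball` there is a `Par` `φ` of `M` with `S ⊆ range φ`. `f = F ∘ φ : E4 → X` is an
open embedding, `LDA` off the finite set `φ ⁻¹' S`. By `desing` there is `e : E4 ≃ₜ E4` with
`φ' = f ∘ e.symm` a `Par`, so `f = φ' ∘ e`; for `x ∉ φ ⁻¹' S`, `e` is `LDA` at `x`
(`LDA.of_comp`), so `RG e x` (`ldAt_iff`). By `one_point` (`K = φ ⁻¹' S`, finite, so compact)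
there is `χ : E4 ≃ₜ E4`, the identity off a compact `C`, with `e ∘ χ` `RG` off `0`. Then
`f ∘ χ = φ' ∘ e ∘ χ` is `LDA` off `0` (`ldAt_iff`). Let `Θ : M ≃ₜ M` be the transport of `χ` by `φ`
(`exists_transport`), `F' = F ∘ Θ`, `x₀ = φ 0`. For `x = φ y`, `y ≠ 0`: `F' ∘ φ = f ∘ χ` is
`LDA` at `y`, so `F'` is `LDA` at `x` (`LDA.of_comp_right`). For `x ∉ range φ`: `x ∉ S` and
`Θ = id` near `x` (off the closed set `φ '' C`), so `F' = F` near `x`.
-/

set_option autoImplicit false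
set_option linter.unusedSectionVars false

open scoped ContDiff Topology Manifold
open Set Filter Metric Topology

namespace Pool.Agent.HopfCov

variable {M X : Type} [TopologicalSpace M] [ChartedSpace E4 M] [IsManifold (𝓡 4) ∞ M]
  [TopologicalSpace X] [ChartedSpace E4 X] [IsManifold (𝓡 4) ∞ X]

theorem merge [T2Space M] [ConnectedSpace M] (F : M ≃ₜ X) {S : Set M} (hS : S.Finite)
    (hF : ∀ x, x ∉ S → LDA F x) :
    ∃ (F' : M ≃ₜ X) (x₀ : M), ∀ x, x ≠ x₀ → LDA F' x := by
  obtain ⟨φ, hφ, hSφ⟩ := one_ball hS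
  have hf : IsOpenEmbedding (fun y => F (φ y)) := F.isOpenEmbedding.comp hφ.emb
  have hT : (φ ⁻¹' S).Finite := hS.preimage hφ.emb.injective.injOn
  have hfL : ∀ y, y ∉ φ ⁻¹' S → LDA (fun y => F (φ y)) y := fun y hy =>
    LDA.comp' (f := φ) (g := F) (hF _ hy) (hφ.loc y)
  obtain ⟨e, he⟩ := desing hf hT hfL
  have hr : ∀ y, y ∉ φ ⁻¹' S → RG e y := by
    intro y hy
    refine (ldAt_iff.1 (LDA.of_comp (f := e) (g := fun z => F (φ (e.symm z)))
      e.continuous.continuousAt (he.loc (e y)) ?_)).self_of_nhds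
    refine (hfL y hy).congr' (Eventually.of_forall fun z => ?_)
    show F (φ z) = F (φ (e.symm (e z)))
    rw [e.symm_apply_apply]
  obtain ⟨χ, ⟨C, hC, hχ⟩, hχ2⟩ := one_point hdim4 e.isOpenEmbedding hT.isCompact hr
  obtain ⟨Θ, h1, h2⟩ := exists_transport hφ.emb χ hC hχ
  refine ⟨Θ.trans F, φ 0, fun x hx => ?_⟩
  by_cases hxr : x ∈ range φ
  · obtain ⟨y, rfl⟩ := hxr
    have hy : y ≠ 0 := fun h => hx (by rw [h])
    have h3 : LDA (fun z => e (χ z)) y := by
      rw [ldAt_iff]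
      filter_upwards [isOpen_ne.mem_nhds hy] with z hz
      exact hχ2 z hz
    have h5 : LDA (fun z => F (φ (χ z))) y := by
      refine (LDA.comp' (f := fun z => e (χ z)) (g := fun z => F (φ (e.symm z)))
        (he.loc _) h3).congr' (Eventually.of_forall fun z => ?_)
      show F (φ (e.symm (e (χ z)))) = F (φ (χ z))
      rw [e.symm_apply_apply]
    have h6 : LDA (fun z => (Θ.trans F) (φ z)) y :=
      h5.congr' (Eventually.of_forall fun z => by
        show F (φ (χ z)) = F (Θ (φ z))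
        rw [h1])
    exact LDA.of_comp_right (f := φ) (g := (Θ.trans F : M → X)) (hφ.loc y) h6
  · have hxS : x ∉ S := fun h => hxr (hSφ h)
    have hxC : x ∉ φ '' C := fun ⟨c, _, hc⟩ => hxr ⟨c, hc⟩
    have hcl : IsClosed (φ '' C) := (hC.image hφ.emb.continuous).isClosed
    refine (hF x hxS).congr' ?_
    filter_upwards [hcl.isOpen_compl.mem_nhds hxC] with z hz
    show F z = F (Θ z)
    rw [h2 z hz]

end Pool.Agent.HopfCov
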