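import Pool.Agent.HopfRem.Prof
import Pool.Agent.HopfCov.Realise

/-!
# HR18 (`ContrFix`): a radial correction which makes a trapping map contracting

Proof. We use the radial homeomorphisms `rad e` of `HopfCov/Radial.lean`: `rad e 0 = 0`,
`‖rad e x‖ = exp (e (log ‖x‖))` for `x ≠ 0`, `rad e x = x` if `e (log ‖x‖) = log ‖x‖`, and
`PD 1 (rad e)` (`PD_rad`).

`M t = sSup {‖F y‖ | ‖y‖ ≤ t}` is finite and monotone for `t ≥ 0` (`bounded_image` in
`HopfCov/Conj.lean`). By `Trap` and compactness there are `0 < c₀ < 1 < d'` with `‖F y‖ ≤ c₀` for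
`‖y‖ ≤ d'` (the continuous function `‖F y‖` is `< 1` on the compact unit ball; take
`c₀` between its maximum and `1`, and a ball of radius `d' > 1` by compactness, cf. `Trap.bound` in
`HopfCov/Conj.lean`). Choose `c` with `c₀ < c < 1` and `d` with `1 < d < d'`.

Lower profile: `L u = sInf {log ‖F⁻¹ z‖ | ‖z‖ ≥ exp u / 2} - 1`, monotone with limits `±∞`
(exactly as in the proof of `exists_rad` in `HopfCov/Realise.lean`). By `prof_lower` with
`p = log c₀`, `q = log c` there are `e₁, A` with `A u = u` for `u ≥ log c`, `A u ≤ L u` for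
`u ≤ log c₀`. If `u ≤ log c₀` and `‖y‖ ≤ exp (A u)` then `‖F y‖ ≤ exp u / 2`: otherwise
`z = F y` shows `L u + 1 ≤ log ‖y‖ ≤ A u ≤ L u` (if `y = 0` then `F y = 0`).
Upper profile: `m v = log (2 * M (exp v) + 2)`, monotone. By `prof_upper` with `p = log d`,
`q = log d'` there are `e₂, D` with `D v = v` for `v ≤ log d`, `m v ≤ D v` for `v ≥ log d'`,
`v ≤ D v`.

Let `σ = (rad e₂)⁻¹ * rad e₁`. `PD 1 σ`. `σ x = x` for `c ≤ ‖x‖ ≤ d`. `‖σ x‖ ≤ 1 ↔ ‖x‖ ≤ 1`,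
since both factors have this property (`A 0 = 0`, `D 0 = 0`, strictly monotone). Let `g = F * σ`.
(a) `‖x‖ ≤ c₀` gives `‖g x‖ ≤ ‖x‖ / 2`: `x = 0` is clear (`F 0 = 0`); otherwise, with
`u = log ‖x‖ ≤ log c₀`, `‖rad e₁ x‖ = exp (A u) ≤ exp u ≤ c₀ ≤ d`, so `rad e₂` fixes `rad e₁ x`,
`‖σ x‖ = exp (A u)`, and the property of the lower profile applies.
(b) `‖x‖ ≤ d` gives `‖g x‖ ≤ c₀`: `‖rad e₁ x‖ ≤ ‖x‖ ≤ d` and `‖σ x‖ ≤ d ≤ d'`.
(c) `‖x‖ > d` gives `‖g x‖ ≤ max c₀ (‖x‖ / 2)`: `rad e₁ x = x`; let `y = σ x`, `v = log ‖y‖`, so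
`D v = log ‖x‖`. If `v ≤ log d'` then `‖g x‖ = ‖F y‖ ≤ c₀`. If `v ≥ log d'` then
`2 * M (exp v) ≤ exp (m v) ≤ exp (D v) = ‖x‖`, and `‖F y‖ ≤ M (exp v)`.
So `‖(g ^ n) x‖ ≤ max c₀ (‖x‖ / 2 ^ n)`... precisely: for `‖x‖ ≤ R` choose `n₁` with
`R / 2 ^ n₁ ≤ d`: by (b), (c) `‖(g ^ n) x‖ ≤ max d (R / 2 ^ n)` for all `n`, so
`‖(g ^ n₁) x‖ ≤ d`; then `‖(g ^ (n₁ + 1)) x‖ ≤ c₀` and by (a)
`‖(g ^ (n₁ + 1 + n)) x‖ ≤ c₀ / 2 ^ n`. This is `Contr g`.
-/

set_option autoImplicit false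
set_option linter.unusedSectionVars false

open scoped ContDiff Topology
open Set Filter Metric Topology

namespace Pool.Agent.HopfCov

variable {E : Type} [NormedAddCommGroup E] [InnerProductSpace ℝ E] [FiniteDimensional ℝ E]

private theorem norm_rad (e : ℝ ≃o ℝ) {x : E} (hx : x ≠ 0) :
    ‖(rad e : E ≃ₜ E) x‖ = Real.exp (e (Real.log ‖x‖)) := norm_radFun _ hx

private theorem norm_rad_inv (e : ℝ ≃o ℝ) {x : E} (hx : x ≠ 0) :
    ‖((rad e : E ≃ₜ E)⁻¹ : E ≃ₜ E) x‖ = Real.exp (e.symm (Real.log ‖x‖)) :=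
  norm_radFun (e.symm) hx

private theorem rad_fix (e : ℝ ≃o ℝ) {x : E} (h : e (Real.log ‖x‖) = Real.log ‖x‖) :
    (rad e : E ≃ₜ E) x = x := by
  by_cases hx : x = 0
  · rw [hx]
    exact radFun_zero _
  · rw [rad_apply, radFun_ne _ hx, h, sub_self, Real.exp_zero, one_smul]

private theorem rad_inv_fix (e : ℝ ≃o ℝ) {x : E} (h : e (Real.log ‖x‖) = Real.log ‖x‖) :
    ((rad e : E ≃ₜ E)⁻¹ : E ≃ₜ E) x = x := by
  conv_lhs => rw [← rad_fix e h]
  exact inv_apply_self' _ _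

/-- the lower profile -/
private theorem exists_low [Nontrivial E] {F : E ≃ₜ E} (h0 : F 0 = 0) {p q : ℝ} (hpq : p < q) :
    ∃ (e : ℝ ≃o ℝ) (A : ℝ → ℝ), (∀ u, e u = A u) ∧ ContDiff ℝ ∞ A ∧ (∀ u, 0 < deriv A u) ∧
      (∀ u, q ≤ u → A u = u) ∧ (∀ u, A u ≤ u) ∧
      ∀ u, u ≤ p → ∀ y, ‖y‖ ≤ Real.exp (A u) → ‖F y‖ ≤ Real.exp u / 2 := by
  have hi0 : (F⁻¹ : E ≃ₜ E) 0 = 0 := by
    conv_lhs => rw [← h0]
    exact inv_apply_self' _ _
  set G : E → ℝ := fun y => Real.log ‖(F⁻¹ : E ≃ₜ E) y‖ - 1 with hG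
  set L : ℝ → ℝ := fun u => sInf (G '' {y | Real.exp u / 2 ≤ ‖y‖}) with hL
  have hne : ∀ u, (G '' {y | Real.exp u / 2 ≤ ‖y‖}).Nonempty := by
    intro u
    obtain ⟨y, hy⟩ := exists_norm_eq E (half_pos (Real.exp_pos u)).le
    exact ⟨G y, y, hy.ge, rfl⟩
  have hbdd : ∀ u, BddBelow (G '' {y | Real.exp u / 2 ≤ ‖y‖}) := by
    intro u
    have hc : Tendsto F (𝓝 0) (𝓝 0) := by
      have := F.continuous.tendsto 0
      rwa [h0] at this
    obtain ⟨δ, hδ, hδ'⟩ := Metric.eventually_nhds_iff_ball.1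
      (hc.eventually (ball_mem_nhds (0 : E) (half_pos (Real.exp_pos u))))
    refine ⟨Real.log δ - 1, ?_⟩
    rintro _ ⟨y, hy, rfl⟩
    have h1 : δ ≤ ‖(F⁻¹ : E ≃ₜ E) y‖ := by
      by_contra hcon
      push Not at hcon
      have h2 := hδ' ((F⁻¹ : E ≃ₜ E) y) (by simpa using hcon)
      rw [apply_inv_self', dist_zero_right] at h2
      exact absurd hy (not_le.2 h2)
    have h3 := Real.log_le_log hδ h1
    show Real.log δ - 1 ≤ Real.log ‖(F⁻¹ : E ≃ₜ E) y‖ - 1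
    linarith
  have hmono : Monotone L := by
    intro u v huv
    refine csInf_le_csInf (hbdd u) (hne v) (image_mono fun y hy => ?_)
    have h1 := Real.exp_le_exp.2 huv
    have h2 : Real.exp v / 2 ≤ ‖y‖ := hy
    show Real.exp u / 2 ≤ ‖y‖
    linarith
  have htop : Tendsto L atTop atTop := by
    rw [Filter.tendsto_atTop]
    intro b
    obtain ⟨R₁, hR₁⟩ := bounded_image F (Real.exp (b + 1))
    have h1 : ∀ᶠ u in atTop, 2 * (max R₁ 0 + 1) ≤ Real.exp u :=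
      Real.tendsto_exp_atTop.eventually (eventually_ge_atTop _)
    filter_upwards [h1] with u hu
    refine le_csInf (hne u) ?_
    rintro _ ⟨y, hy, rfl⟩
    have hy' : Real.exp u / 2 ≤ ‖y‖ := hy
    have h2 : Real.exp (b + 1) < ‖(F⁻¹ : E ≃ₜ E) y‖ := by
      by_contra hcon
      push Not at hcon
      have h3 := hR₁ _ hcon
      rw [apply_inv_self'] at h3
      have h4 := le_max_left R₁ 0
      linarith
    have h5 : b + 1 ≤ Real.log ‖(F⁻¹ : E ≃ₜ E) y‖ := by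
      rw [Real.le_log_iff_exp_le ((Real.exp_pos _).trans h2)]
      exact h2.le
    show b ≤ Real.log ‖(F⁻¹ : E ≃ₜ E) y‖ - 1
    linarith
  have hine : ∀ y : E, y ≠ 0 → (F⁻¹ : E ≃ₜ E) y ≠ 0 := by
    intro y hy hy0
    exact hy ((F⁻¹ : E ≃ₜ E).injective (hy0.trans hi0.symm))
  have hbot : Tendsto L atBot atBot := by
    rw [Filter.tendsto_atBot]
    intro b
    have hc : Tendsto (F⁻¹ : E ≃ₜ E) (𝓝 0) (𝓝 0) := by
      have := (F⁻¹ : E ≃ₜ E).continuous.tendsto 0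
      rwa [hi0] at this
    obtain ⟨δ, hδ, hδ'⟩ := Metric.eventually_nhds_iff_ball.1
      (hc.eventually (ball_mem_nhds (0 : E) (Real.exp_pos (b + 1))))
    have h1 : ∀ᶠ u in atBot, Real.exp u < δ := by
      have := Real.tendsto_exp_atBot.eventually (gt_mem_nhds hδ)
      exact this
    filter_upwards [h1] with u hu
    have hup := Real.exp_pos u
    obtain ⟨y, hy⟩ := exists_norm_eq E (half_pos (Real.exp_pos u)).le
    have hy0 : y ≠ 0 := by
      rw [← norm_pos_iff, hy]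
      linarith
    have h2 := hδ' y (by rw [mem_ball_zero_iff, hy]; linarith)
    rw [dist_zero_right] at h2
    have h3 : G y ≤ b := by
      have h4 : Real.log ‖(F⁻¹ : E ≃ₜ E) y‖ ≤ b + 1 := by
        rw [Real.log_le_iff_le_exp (norm_pos_iff.2 (hine y hy0))]
        exact h2.le
      show Real.log ‖(F⁻¹ : E ≃ₜ E) y‖ - 1 ≤ b
      linarith
    exact (csInf_le (hbdd u) ⟨y, hy.ge, rfl⟩).trans h3
  obtain ⟨e, A, he, hA, hA', hq, hp, hu⟩ := prof_lower hmono htop hbot hpq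
  refine ⟨e, A, he, hA, hA', hq, hu, fun u hup y hy => ?_⟩
  by_contra hcon
  push Not at hcon
  have hFy : F y ≠ 0 := by
    rw [← norm_pos_iff]
    exact (half_pos (Real.exp_pos u)).trans hcon
  have hy0 : y ≠ 0 := by
    intro h
    rw [h, h0] at hFy
    exact hFy rfl
  have h1 : L u ≤ G (F y) := csInf_le (hbdd u) ⟨F y, hcon.le, rfl⟩
  have h2 : G (F y) = Real.log ‖y‖ - 1 := by
    show Real.log ‖(F⁻¹ : E ≃ₜ E) (F y)‖ - 1 = _
    rw [inv_apply_self']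
  have h3 : Real.log ‖y‖ ≤ A u := by
    rw [Real.log_le_iff_le_exp (norm_pos_iff.2 hy0)]
    exact hy
  have h4 := hp u hup
  rw [h2] at h1
  linarith

/-- the upper profile -/
private theorem exists_up (F : E ≃ₜ E) {p q : ℝ} (hpq : p < q) :
    ∃ (e : ℝ ≃o ℝ) (D : ℝ → ℝ), (∀ u, e u = D u) ∧ ContDiff ℝ ∞ D ∧ (∀ u, 0 < deriv D u) ∧
      (∀ u, u ≤ p → D u = u) ∧ (∀ u, u ≤ D u) ∧
      ∀ v, q ≤ v → ∀ y, ‖y‖ ≤ Real.exp v → ‖F y‖ ≤ Real.exp (D v) / 2 := by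
  set M : ℝ → ℝ := fun v => sSup ((fun y => ‖F y‖) '' closedBall (0 : E) (Real.exp v)) with hM
  have hbdd : ∀ v, BddAbove ((fun y => ‖F y‖) '' closedBall (0 : E) (Real.exp v)) := by
    intro v
    obtain ⟨R₁, hR₁⟩ := bounded_image F (Real.exp v)
    refine ⟨R₁, ?_⟩
    rintro _ ⟨y, hy, rfl⟩
    exact hR₁ y (by simpa using hy)
  have hne : ∀ v, ((fun y => ‖F y‖) '' closedBall (0 : E) (Real.exp v)).Nonempty := fun v =>
    ⟨_, 0, by simp [(Real.exp_pos v).le], rfl⟩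
  have hle : ∀ v, ∀ y : E, ‖y‖ ≤ Real.exp v → ‖F y‖ ≤ M v := fun v y hy =>
    le_csSup (hbdd v) ⟨y, by simpa using hy, rfl⟩
  have hM0 : ∀ v, 0 ≤ M v := fun v => (norm_nonneg _).trans (hle v 0 (by
    rw [norm_zero]; exact (Real.exp_pos v).le))
  have hMmono : Monotone M := by
    intro u v huv
    exact csSup_le_csSup (hbdd v) (hne u)
      (image_mono (closedBall_subset_closedBall (Real.exp_le_exp.2 huv)))
  have hmono : Monotone fun v => Real.log (2 * M v + 2) := by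
    intro u v huv
    have h1 := hMmono huv
    have h2 := hM0 u
    exact Real.log_le_log (by linarith) (by linarith)
  obtain ⟨e, D, he, hD, hD', hp, hq, hu⟩ := prof_upper hmono hpq
  refine ⟨e, D, he, hD, hD', hp, hu, fun v hv y hy => ?_⟩
  have h1 := hle v y hy
  have h2 := hq v hv
  have h3 : 0 < 2 * M v + 2 := by
    have := hM0 v
    linarith
  have h4 := Real.exp_le_exp.2 h2
  rw [Real.exp_log h3] at h4
  linarith

private theorem contr_of_abc {g : E ≃ₜ E} {c₀ d : ℝ} (hc0 : 0 < c₀) (hcd : c₀ ≤ d)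
    (ha : ∀ x, ‖x‖ ≤ c₀ → ‖g x‖ ≤ ‖x‖ / 2) (hb : ∀ x, ‖x‖ ≤ d → ‖g x‖ ≤ c₀)
    (hc : ∀ x, d < ‖x‖ → ‖g x‖ ≤ max c₀ (‖x‖ / 2)) : Contr g := by
  have h1 : ∀ (n : ℕ) (x : E), ‖(g ^ n) x‖ ≤ max d ((2⁻¹ : ℝ) ^ n * ‖x‖) := by
    intro n
    induction n with
    | zero => intro x; simp
    | succ n ih =>
      intro x
      rw [pow_succ', mul_apply']
      rcases le_or_gt ‖(g ^ n) x‖ d with h | h
      · exact (hb _ h).trans (hcd.trans (le_max_left _ _))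
      · have h2 : ‖(g ^ n) x‖ ≤ (2⁻¹ : ℝ) ^ n * ‖x‖ := by
          rcases le_max_iff.1 (ih x) with h3 | h3
          · exact absurd h3 (not_le.2 h)
          · exact h3
        refine (hc _ h).trans (max_le_max hcd ?_)
        rw [pow_succ]
        linarith
  have h2 : ∀ (n : ℕ) (x : E), ‖x‖ ≤ c₀ → ‖(g ^ n) x‖ ≤ (2⁻¹ : ℝ) ^ n * c₀ := by
    intro n
    induction n with
    | zero => intro x hx; simpa using hx
    | succ n ih =>
      intro x hx
      rw [pow_succ', mul_apply']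
      have h3 := ih x hx
      have h4 : (2⁻¹ : ℝ) ^ n * c₀ ≤ c₀ :=
        mul_le_of_le_one_left hc0.le (pow_le_one₀ (by norm_num) (by norm_num))
      have h5 := ha _ (h3.trans h4)
      rw [pow_succ]
      linarith
  intro R ε hε
  have hd : 0 < d := hc0.trans_le hcd
  have t1 : Tendsto (fun n : ℕ => (2⁻¹ : ℝ) ^ n * (max R 0)) atTop (𝓝 (0 * max R 0)) :=
    (tendsto_pow_atTop_nhds_zero_of_lt_one (by norm_num) (by norm_num)).mul_const _
  rw [zero_mul] at t1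
  obtain ⟨n₁, hn₁⟩ := (t1.eventually (gt_mem_nhds hd)).exists
  have t2 : Tendsto (fun n : ℕ => (2⁻¹ : ℝ) ^ n * c₀) atTop (𝓝 (0 * c₀)) :=
    (tendsto_pow_atTop_nhds_zero_of_lt_one (by norm_num) (by norm_num)).mul_const _
  rw [zero_mul] at t2
  obtain ⟨n₂, hn₂⟩ := (t2.eventually (gt_mem_nhds hε)).exists_forall_of_atTop
  refine ⟨n₂ + (n₁ + 1), fun n hn x hx => ?_⟩
  obtain ⟨k, rfl⟩ : ∃ k, n = k + (n₁ + 1) := ⟨n - (n₁ + 1), by omega⟩
  have h3 : ‖(g ^ n₁) x‖ ≤ d := by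
    refine (h1 n₁ x).trans (max_le le_rfl ?_)
    refine (mul_le_mul_of_nonneg_left (hx.trans (le_max_left R 0)) (by positivity)).trans hn₁.le
  have h4 : ‖(g ^ (n₁ + 1)) x‖ ≤ c₀ := by
    rw [pow_succ', mul_apply']
    exact hb _ h3
  rw [pow_add, mul_apply']
  exact (h2 k _ h4).trans_lt (hn₂ k (by omega))

theorem contr_fix [Nontrivial E] {F : E ≃ₜ E} (h0 : F 0 = 0) (ht : Trap F) :
    ∃ (σ : E ≃ₜ E) (c d : ℝ), PD 1 σ ∧ 0 < c ∧ c < 1 ∧ 1 < d ∧
      (∀ x, c ≤ ‖x‖ → ‖x‖ ≤ d → σ x = x) ∧ (∀ x, ‖σ x‖ ≤ 1 ↔ ‖x‖ ≤ 1) ∧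
      Contr (F * σ) := by
  obtain ⟨d', ρ, hd', hρ, hb⟩ := ht.bound
  set c₀ : ℝ := max ρ 2⁻¹ with hc₀
  have hc0 : 0 < c₀ := lt_of_lt_of_le (by norm_num) (le_max_right _ _)
  have hc1 : c₀ < 1 := max_lt hρ (by norm_num)
  have hb' : ∀ x, ‖x‖ ≤ d' → ‖F x‖ ≤ c₀ := fun x hx => (hb x hx).trans (le_max_left _ _)
  set c : ℝ := (c₀ + 1) / 2 with hc
  have hcc : c₀ < c := by rw [hc]; linarith
  have hc1' : c < 1 := by rw [hc]; linarith
  have hcpos : 0 < c := hc0.trans hcc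
  set d : ℝ := (1 + d') / 2 with hd
  have hd1 : 1 < d := by rw [hd]; linarith
  have hdd : d < d' := by rw [hd]; linarith
  have hdpos : 0 < d := by linarith
  obtain ⟨e₁, A, he₁, hA, hA', hA1, hA2, hA3⟩ := exists_low (F := F) h0
    (Real.log_lt_log hc0 hcc)
  obtain ⟨e₂, D, he₂, hD, hD', hD1, hD2, hD3⟩ := exists_up F (Real.log_lt_log hdpos hdd)
  have e1le : ∀ u, e₁ u ≤ u := fun u => by rw [he₁]; exact hA2 u
  have e1id : ∀ u, Real.log c ≤ u → e₁ u = u := fun u hu => by rw [he₁]; exact hA1 u hu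
  have e2le : ∀ u, u ≤ e₂ u := fun u => by rw [he₂]; exact hD2 u
  have e2id : ∀ u, u ≤ Real.log d → e₂ u = u := fun u hu => by rw [he₂]; exact hD1 u hu
  have hlc : Real.log c < 0 := Real.log_neg hcpos hc1'
  have hld : 0 < Real.log d := Real.log_pos hd1
  set σ : E ≃ₜ E := (rad e₂)⁻¹ * rad e₁ with hσ
  have hPD : PD 1 σ := (PD_rad he₂ hD hD').inv.mul_one' (PD_rad he₁ hA hA')
  have hσn : ∀ x : E, x ≠ 0 → ‖σ x‖ = Real.exp (e₂.symm (e₁ (Real.log ‖x‖))) := by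
    intro x hx
    have h1 : (rad e₁ : E ≃ₜ E) x ≠ 0 := radFun_ne_zero _ hx
    rw [hσ, mul_apply', norm_rad_inv e₂ h1, norm_rad e₁ hx, Real.log_exp]
  refine ⟨σ, c, d, hPD, hcpos, hc1', hd1, ?_, ?_, ?_⟩
  · intro x hx1 hx2
    have hx0 : 0 < ‖x‖ := hcpos.trans_le hx1
    have h1 : e₁ (Real.log ‖x‖) = Real.log ‖x‖ := e1id _ (Real.log_le_log hcpos hx1)
    have h2 : e₂ (Real.log ‖x‖) = Real.log ‖x‖ := e2id _ (Real.log_le_log hx0 hx2)
    rw [hσ, mul_apply', rad_fix e₁ h1, rad_inv_fix e₂ h2]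
  · intro x
    by_cases hx : x = 0
    · rw [hx, hPD.1]
    · have hx0 : 0 < ‖x‖ := norm_pos_iff.2 hx
      have h1 : e₁ 0 = 0 := e1id 0 hlc.le
      have h2 : e₂ 0 = 0 := e2id 0 hld.le
      rw [hσn x hx, Real.exp_le_one_iff, OrderIso.symm_apply_le, h2]
      conv_lhs => rw [← h1]
      rw [e₁.le_iff_le, Real.log_nonpos_iff hx0.le]
  · have hsmall : ∀ x : E, ‖x‖ ≤ d → ‖σ x‖ = ‖(rad e₁ : E ≃ₜ E) x‖ ∧ ‖σ x‖ ≤ d := by
      intro x hx
      by_cases hx' : x = 0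
      · rw [hx', hPD.1, rad_apply, radFun_zero, norm_zero]
        exact ⟨rfl, hdpos.le⟩
      · have hx0 : 0 < ‖x‖ := norm_pos_iff.2 hx'
        have h1 : Real.log ‖x‖ ≤ Real.log d := Real.log_le_log hx0 hx
        have h2 := (e1le (Real.log ‖x‖)).trans h1
        have h3 : e₂.symm (e₁ (Real.log ‖x‖)) = e₁ (Real.log ‖x‖) := by
          rw [OrderIso.symm_apply_eq, e2id _ h2]
        rw [hσn x hx', norm_rad e₁ hx', h3]
        refine ⟨rfl, ?_⟩
        rw [← Real.le_log_iff_exp_le hdpos]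
        exact h2
    refine contr_of_abc hc0 (hc1.le.trans hd1.le) ?_ ?_ ?_
    · intro x hx
      rw [mul_apply']
      by_cases hx' : x = 0
      · rw [hx', hPD.1, h0, norm_zero, zero_div]
      · have hx0 : 0 < ‖x‖ := norm_pos_iff.2 hx'
        have h1 := (hsmall x (hx.trans (hc1.le.trans hd1.le))).1
        have h2 := hA3 (Real.log ‖x‖) (Real.log_le_log hx0 hx) (σ x) (by
          rw [h1, norm_rad e₁ hx', he₁])
        rwa [Real.exp_log hx0] at h2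
    · intro x hx
      rw [mul_apply']
      exact hb' _ ((hsmall x hx).2.trans hdd.le)
    · intro x hx
      rw [mul_apply']
      have hx0 : 0 < ‖x‖ := hdpos.trans hx
      have hx' : x ≠ 0 := norm_pos_iff.1 hx0
      have h1 : e₁ (Real.log ‖x‖) = Real.log ‖x‖ :=
        e1id _ (Real.log_le_log hcpos (by linarith))
      have h2 := hσn x hx'
      rw [h1] at h2
      set v : ℝ := e₂.symm (Real.log ‖x‖) with hv
      have h3 : D v = Real.log ‖x‖ := by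
        rw [← he₂, hv, OrderIso.apply_symm_apply]
      rcases le_or_gt v (Real.log d') with h4 | h4
      · refine le_max_of_le_left (hb' _ ?_)
        rw [h2, ← Real.le_log_iff_exp_le (by linarith)]
        exact h4
      · refine le_max_of_le_right ?_
        have h5 := hD3 v h4.le (σ x) h2.le
        rwa [h3, Real.exp_log hx0] at h5

end Pool.Agent.HopfCov
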