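import Pool.Agent.HopfRem.OuterBall
import Pool.Agent.HopfRem.ContrFix

/-!
# HR19 (`GEx`): a trapping map which is smooth off the origin in a ball gives a contraction

Proof. Choose `1 < c₁ < b`. `outer_ball` with `K = {0}` (radii `c₁ < b`; `LD.rg`) gives `G₁` with
`G₁ = F` on `closedBall 0 c₁` and `RG G₁ x` for `x ≠ 0`. `G₁ 0 = F 0 = 0`. By `sign_const` on
`{0}ᶜ`
(`preconnected_compl_singleton`), `LD t G₁` off `0` with `t = 1` or `t = -1`, and comparing at a
point with `0 < ‖x‖ < c₁` (where `LD s F x`, `LD.congr`) gives `t = s` (the determinant of the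
derivative is nonzero of one sign). So `PD s G₁`, and `Trap G₁`. Let `σ, c, d` be given by
`contr_fix` for `G₁`, and `G = G₁ * σ`: `PD s G` (`PD.mul`), `Contr G`; `Trap G`: `‖x‖ ≤ 1`
gives `‖σ x‖ ≤ 1`. For `c ≤ ‖x‖ ≤ min d c₁`: `G x = G₁ x = F x`.
`G '' closedBall 0 1 = G₁ '' (σ '' closedBall 0 1) = G₁ '' closedBall 0 1 = F '' closedBall 0 1`
(`σ` is bijective and `‖σ x‖ ≤ 1 ↔ ‖x‖ ≤ 1`).
-/

set_option autoImplicit false
set_option linter.unusedSectionVars false

open scoped ContDiff Topology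
open Set Filter Metric Topology

namespace Pool.Agent.HopfCov

variable {E : Type} [NormedAddCommGroup E] [InnerProductSpace ℝ E] [FiniteDimensional ℝ E]

theorem exists_G (hdim : 1 < Module.finrank ℝ E) {F : E ≃ₜ E} {s : ℝ} (hs : s = 1 ∨ s = -1)
    (h0 : F 0 = 0) {b : ℝ} (hb : 1 < b) (hF : ∀ x, x ≠ 0 → ‖x‖ < b → LD s F x) (ht : Trap F) :
    ∃ (G : E ≃ₜ E) (c d : ℝ), PD s G ∧ Trap G ∧ Contr G ∧ 0 < c ∧ c < 1 ∧ 1 < d ∧
      (∀ x, c ≤ ‖x‖ → ‖x‖ ≤ d → G x = F x) ∧
      G '' closedBall 0 1 = F '' closedBall 0 1 := by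
  have hnt : Nontrivial E := Module.nontrivial_of_finrank_pos (R := ℝ) (by omega)
  obtain ⟨c₁, hc1, hc2⟩ := exists_between hb
  obtain ⟨G₁, hG1, hG2⟩ := outer_ball hdim (F := F) (K := {0}) isCompact_singleton
    (c := c₁) (b := b) (by linarith) hc2
    (by
      intro x hx
      rw [mem_singleton_iff] at hx
      rw [hx, mem_closedBall, dist_self]
      linarith)
    (by
      intro x hx hx0
      exact (hF x hx0 (by rwa [mem_ball, dist_zero_right] at hx)).rg)
  have hG1' : ∀ x : E, ‖x‖ ≤ c₁ → G₁ x = F x := fun x hx =>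
    hG1 x (by rwa [mem_closedBall, dist_zero_right])
  have hG0 : G₁ 0 = 0 := by
    rw [hG1' 0 (by rw [norm_zero]; linarith), h0]
  obtain ⟨t, ht1, ht2⟩ := sign_const (f := G₁) (isOpen_compl_singleton (x := (0 : E)))
    (preconnected_compl_singleton hdim 0) (fun x hx => hG2 x hx)
  obtain ⟨v, hv⟩ := exists_ne (0 : E)
  have hvn : 0 < ‖v‖ := norm_pos_iff.2 hv
  obtain ⟨y, hy⟩ : ∃ y : E, ‖y‖ = 1 / 2 := by
    refine ⟨(1 / (2 * ‖v‖)) • v, ?_⟩
    rw [norm_smul, Real.norm_of_nonneg (by positivity)]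
    field_simp
  have hy0 : y ≠ 0 := by
    intro h
    rw [h, norm_zero] at hy
    norm_num at hy
  have hLDy : LD s G₁ y := by
    refine (hF y hy0 (by linarith)).congr ?_
    have h1 : ball (0 : E) c₁ ∈ 𝓝 y :=
      isOpen_ball.mem_nhds (by rw [mem_ball, dist_zero_right]; linarith)
    filter_upwards [h1] with z hz
    rw [mem_ball, dist_zero_right] at hz
    exact (hG1' z hz.le).symm
  have hts : t = s := by
    have h1 := (ht2 y hy0).2
    have h2 := hLDy.2
    rcases ht1 with rfl | rfl <;> rcases hs with rfl | rfl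
    · rfl
    · exfalso
      linarith
    · exfalso
      linarith
    · rfl
  have hPD : PD s G₁ := ⟨hG0, fun x hx => hts ▸ ht2 x hx⟩
  have hT : Trap G₁ := by
    intro x hx
    rw [hG1' x (by linarith)]
    exact ht x hx
  obtain ⟨σ, c, d, hσ, hc0, hc1', hd, hfix, hiff, hcon⟩ := contr_fix hG0 hT
  refine ⟨G₁ * σ, c, min d c₁, ?_, ?_, hcon, hc0, hc1', lt_min hd hc1, ?_, ?_⟩
  · have := hPD.mul hσ
    rwa [mul_one] at this
  · intro x hx
    exact hT (σ x) ((hiff x).2 hx)
  · intro x hx1 hx2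
    show G₁ (σ x) = F x
    rw [hfix x hx1 (hx2.trans (min_le_left _ _))]
    exact hG1' x (hx2.trans (min_le_right _ _))
  · ext z
    constructor
    · rintro ⟨x, hx, rfl⟩
      rw [mem_closedBall, dist_zero_right] at hx
      have h1 := (hiff x).2 hx
      refine ⟨σ x, by rwa [mem_closedBall, dist_zero_right], ?_⟩
      show F (σ x) = G₁ (σ x)
      rw [hG1' (σ x) (by linarith)]
    · rintro ⟨x, hx, rfl⟩
      rw [mem_closedBall, dist_zero_right] at hx
      have h1 : σ (σ.symm x) = x := σ.apply_symm_apply x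
      refine ⟨σ.symm x, ?_, ?_⟩
      · rw [mem_closedBall, dist_zero_right]
        refine (hiff _).1 ?_
        rwa [h1]
      · show G₁ (σ (σ.symm x)) = F x
        rw [h1]
        exact hG1' x (by linarith)

end Pool.Agent.HopfCov
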