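import Pool.Agent.HopfRem.PushE

/-!
# HR17 (`JMap`): moving a singular point to the origin inside the unit ball

Proof. Let `a = F 0`, `a ≠ 0`, and `w = F⁻¹ 0`, `w ≠ 0` (as `F 0 ≠ 0`). `U = F ⁻¹' ball 0 1` is
open, preconnected (image of a ball under `F⁻¹`), and contains `0` (`‖F 0‖ < 1`) and `w`. By
`push_open` there is `S` with `LD 1 S` everywhere, `S 0 = w`, and a compact `C ⊆ U` with
`S = id` off `C`; note `S⁻¹ = id` off `C` as well. Let `B = F * S⁻¹ * F⁻¹`.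
* `B x = x` unless `F⁻¹ x ∈ C`, that is `x ∈ F '' C`, a compact subset of `ball 0 1`.
* `B 0 = F (S⁻¹ w) = F 0 = a`.
* `LD 1 B x` for `x ≠ 0`, `x ≠ a`: `F⁻¹` is `LD s` at `x` (`LD.inv'`, `F⁻¹ x ≠ 0` since
  `x ≠ F 0 = a`); `S⁻¹` is `LD 1`; `F` is `LD s` at `S⁻¹ (F⁻¹ x)`, which is `≠ 0` since otherwise
  `F⁻¹ x = S 0 = w = F⁻¹ 0`, `x = 0`; and `s * 1 * s = 1`.
* `B * F = F * S⁻¹` and `S⁻¹ 0 ≠ 0` (otherwise `0 = S 0 = w`), so `LD s (B * F) 0`.
By `push_open` in the unit ball (convex) there is `D` with `LD 1 D` everywhere, `D a = 0`, and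
`D = id` off a compact subset of `ball 0 1`. Put `j = D * B`: `j 0 = D a = 0`; `j x = x` off a
compact subset of `ball 0 1` (`F '' C ∪ C'`; a point outside is fixed by `B`, then by `D`), so
there is `ρ < 1` with `j x = x` for `‖x‖ ≥ ρ`.
-/

set_option autoImplicit false
set_option linter.unusedSectionVars false

open scoped ContDiff Topology
open Set Filter Metric Topology

namespace Pool.Agent.HopfCov

variable {E : Type} [NormedAddCommGroup E] [InnerProductSpace ℝ E] [FiniteDimensional ℝ E]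

theorem exists_j {F : E ≃ₜ E} {s : ℝ} (hs : s = 1 ∨ s = -1)
    (hF : ∀ x, x ≠ 0 → LD s F x) (h0 : F 0 ≠ 0) (h1 : ‖F 0‖ < 1) :
    ∃ (j : E ≃ₜ E) (ρ : ℝ), ρ < 1 ∧ j 0 = 0 ∧ (∀ x, ρ ≤ ‖x‖ → j x = x) ∧
      (∀ x, x ≠ 0 → x ≠ F 0 → LD 1 j x) ∧ LD s (fun y => j (F y)) 0 := by
  have hss : s * 1 * s = 1 := by
    rcases hs with rfl | rfl <;> norm_num
  set w : E := (F⁻¹ : E ≃ₜ E) 0 with hw
  have hFw : F w = 0 := apply_inv_self' F 0
  have hw0 : w ≠ 0 := by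
    intro h
    rw [h] at hFw
    exact h0 hFw
  have hUo : IsOpen (F ⁻¹' ball (0 : E) 1) := isOpen_ball.preimage F.continuous
  have hUc : IsPreconnected (F ⁻¹' ball (0 : E) 1) := by
    have h2 : IsPreconnected (F.symm '' ball (0 : E) 1) :=
      (convex_ball (0 : E) 1).isPreconnected.image _ F.symm.continuous.continuousOn
    rwa [Homeomorph.image_symm] at h2
  have h0U : (0 : E) ∈ F ⁻¹' ball (0 : E) 1 := by
    rw [mem_preimage, mem_ball_zero_iff]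
    exact h1
  have hwU : w ∈ F ⁻¹' ball (0 : E) 1 := by
    rw [mem_preimage, hFw]
    exact mem_ball_self one_pos
  obtain ⟨S, hS, hSw, C, hC, hCU, hSC⟩ := push_open hUo hUc h0U hwU
  obtain ⟨D, hD, hDa, C', hC', hCU', hDC⟩ := push_open isOpen_ball
    (convex_ball (0 : E) 1).isPreconnected (a := F 0) (b := 0) (by
      rw [mem_ball_zero_iff]
      exact h1) (mem_ball_self one_pos)
  have hSinv : ∀ y, y ∉ C → (S⁻¹ : E ≃ₜ E) y = y := by
    intro y hy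
    have h2 := inv_apply_self' S y
    rwa [hSC y hy] at h2
  set B : E ≃ₜ E := F * S⁻¹ * F⁻¹ with hB
  have hBx : ∀ x, B x = F ((S⁻¹ : E ≃ₜ E) ((F⁻¹ : E ≃ₜ E) x)) := fun x => rfl
  have hB0 : B 0 = F 0 := by
    rw [hBx, ← hw, ← hSw, inv_apply_self']
  have hBF : ∀ x, B (F x) = F ((S⁻¹ : E ≃ₜ E) x) := by
    intro x
    rw [hBx, inv_apply_self']
  have hBid : ∀ x, x ∉ F '' C → B x = x := by
    intro x hx
    rw [hBx, hSinv, apply_inv_self']
    intro hc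
    exact hx ⟨_, hc, apply_inv_self' F x⟩
  have hBld : ∀ x, x ≠ 0 → x ≠ F 0 → LD 1 B x := by
    intro x hx hxa
    have h2 : (F⁻¹ : E ≃ₜ E) x ≠ 0 := by
      intro h
      apply hxa
      rw [← h, apply_inv_self']
    have h3 : (S⁻¹ : E ≃ₜ E) ((F⁻¹ : E ≃ₜ E) x) ≠ 0 := by
      intro h
      apply hx
      have h4 : (F⁻¹ : E ≃ₜ E) x = w := by rw [← hSw, ← h, apply_inv_self']
      rw [← hFw, ← h4, apply_inv_self']
    have h4 : LD (s * 1) (F * S⁻¹ : E ≃ₜ E) ((F⁻¹ : E ≃ₜ E) x) :=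
      (hF _ h3).mul (LD_all_inv hS _)
    have h5 := h4.mul (LD.inv' (hF _ h2))
    rwa [hss] at h5
  obtain ⟨ρ, hρ, hρK⟩ : ∃ ρ < (1 : ℝ), F '' C ∪ C' ⊆ ball (0 : E) ρ := by
    refine exists_lt_subset_ball ((hC.image F.continuous).union hC').isClosed ?_
    refine union_subset ?_ hCU'
    rintro _ ⟨x, hx, rfl⟩
    exact hCU hx
  refine ⟨D * B, ρ, hρ, ?_, ?_, ?_, ?_⟩
  · change D (B 0) = 0
    rw [hB0, hDa]
  · intro x hx
    have h2 : x ∉ F '' C ∪ C' := by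
      intro h
      have h3 := hρK h
      rw [mem_ball_zero_iff] at h3
      exact absurd h3 (not_lt.2 hx)
    change D (B x) = x
    rw [hBid x fun h => h2 (Or.inl h)]
    exact hDC x fun h => h2 (Or.inr h)
  · intro x hx hxa
    exact LD.mul_one' (hD _) (hBld x hx hxa)
  · have h2 : (S⁻¹ : E ≃ₜ E) 0 ≠ 0 := by
      intro h
      apply hw0
      rw [← hSw]
      nth_rewrite 1 [← h]
      rw [apply_inv_self']
    have h3 : LD (s * 1) (F * S⁻¹ : E ≃ₜ E) 0 := (hF _ h2).mul (LD_all_inv hS _)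
    have h4 : LD (1 * (s * 1)) (D * (F * S⁻¹) : E ≃ₜ E) 0 := (hD _).mul h3
    rw [one_mul, mul_one] at h4
    have h5 : (fun y => (D * B : E ≃ₜ E) (F y)) = (D * (F * S⁻¹) : E ≃ₜ E) := by
      funext y
      change D (B (F y)) = D (F ((S⁻¹ : E ≃ₜ E) y))
      rw [hBF]
    rw [h5]
    exact h4

end Pool.Agent.HopfCov
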