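import Pool.Agent.HopfRem.ParEx
import Pool.Agent.HopfRem.GermE
import Pool.Agent.HopfRem.JMap
import Pool.Agent.HopfCov.Orbit

/-!
# HR31 (`OrbG`): the germ at the singular point

Proof. `P` is a local homeomorphism, so there is an open neighbourhood `V ⊆ V4` of `z` on which
it is an open embedding; choose `V` so small that it is contained in the open unit ball and
contains no other point `(τ ^ k) z`, `k ≠ 0` (these have norms `2 ^ (-k) * ‖z‖ ∉ (1/2, 1)`; choose
`V ⊆ {x | 1/2 < ‖x‖ < 1}`), so `P` is `LDA` on `V \ {z}`. Let `ψ` be a `Par` of `M` with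
`ψ 0 = P z`
(`exists_par`). The map `f = ψ⁻¹ ∘ P` is a homeomorphism of an open neighbourhood `V' ⊆ V` of
`z` onto an open neighbourhood of `0` in `E4`. Its inverse, composed with the inclusion
`V4 → E4`, is an open partial homeomorphism `g` of `E4` with `0 ∈ g.source`, `g 0 = z`,
`ψ y = P (g y)` for `y` in the source, and `RG g y` for `y ≠ 0` in the source (`g` is the local
inverse of a local diffeomorphism: `P ∘ g = ψ` is `LDA` and `P` is `LDA` at `g y ≠ z`, use
`LDA.of_comp` and `ldAt_iff`; the inclusion `V4 → E4` is a local diffeomorphism, see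
`exists_restr_PDs`, `restr_gen` of the library or `contMDiff_subtype_val`). By `germ_extend`
there is `F : E4 ≃ₜ E4` with `F = g` near `0`, `RG F y` for `y ≠ 0`; `F 0 = z`. By `sign_const`
(on `{0}ᶜ`) `LD t F` off `0`, with `t = 1` or `t = -1`. Apply `exists_j` to `F` (`F 0 = z ≠ 0`,
`‖z‖ < 1`): `j`, `ρ`. Conclusion: `P ∘ j⁻¹` is a local diffeomorphism at `j z`: near `0`,
`j ∘ F` is `LD t` at `0`, and off `0` near `0` it is `LD (1 * t)` (for `y ≠ 0` near `0`, `F y`
is not `0` and not `F 0`), so `j ∘ F` is `RG` near `0` and its local inverse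
`k = (j ∘ F)⁻¹ = F⁻¹ ∘ j⁻¹` is `LDA` at `j z = (j ∘ F) 0` with `k (j z) = 0`. Near `j z`:
`P (j⁻¹ y) = P (F (k y)) = P (g (k y)) = ψ (k y)`, which is `LDA`. The statement uses a map
`p : V4 → M` with `p y = P x` whenever `j x = y`; near `j z` this is `P ∘ j⁻¹`.
-/

set_option autoImplicit false
set_option linter.unusedSectionVars false

open scoped ContDiff Topology Manifold
open Set Filter Metric Topology

namespace Pool.Agent.HopfCov

/-- the inclusion of the punctured space is a local diffeomorphism -/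
private theorem hr31_val (x : V4) : LDA (fun y : V4 => (y : E4)) x := by
  let c : OpenPartialHomeomorph V4 E4 := V4.openPartialHomeomorphSubtypeCoe ⟨x⟩
  refine ⟨{ toPartialEquiv := c.toPartialEquiv
            open_source := c.open_source
            open_target := c.open_target
            contMDiffOn_toFun := ?_
            contMDiffOn_invFun := ?_ }, ?_, ?_⟩
  · exact contMDiff_subtype_val.contMDiffOn
  · intro y hy
    refine ContMDiffAt.contMDiffWithinAt ?_
    rw [← ContMDiffAt.subtypeVal_comp_iff]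
    refine contMDiffAt_id.congr_of_eventuallyEq ?_
    filter_upwards [c.open_target.mem_nhds hy] with w hw
    exact c.right_inv hw
  · exact mem_univ x
  · intro y _
    rfl

private theorem hr31_pow {L : E4 ≃ₗᵢ[ℝ] E4} {τ : V4 ≃ₜ V4} (hτ : Extends (tauL L) τ) (n : ℕ)
    (x : V4) : ‖(((τ ^ n) x : V4) : E4)‖ = (2⁻¹ : ℝ) ^ n * ‖(x : E4)‖ := by
  rw [← hτ.pow n x, norm_tauL_pow]

private theorem hr31_half {n : ℕ} (hn : 1 ≤ n) {r s : ℝ} (hr : r < 1) (hr0 : 0 ≤ r)
    (hs : 2⁻¹ < s) (h : s = (2⁻¹ : ℝ) ^ n * r) : False := by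
  have h1 : (2⁻¹ : ℝ) ^ n ≤ (2⁻¹ : ℝ) ^ 1 :=
    pow_le_pow_of_le_one (by norm_num) (by norm_num) hn
  rw [pow_one] at h1
  have h2 : (2⁻¹ : ℝ) ^ n * r ≤ 2⁻¹ * 1 := mul_le_mul h1 hr.le hr0 (by norm_num)
  rw [← h, mul_one] at h2
  linarith

/-- an annulus contains only one point of an orbit -/
private theorem hr31_orb {L : E4 ≃ₗᵢ[ℝ] E4} {τ : V4 ≃ₜ V4} (hτ : Extends (tauL L) τ) {z x : V4}
    (hz1 : 2⁻¹ < ‖(z : E4)‖) (hz2 : ‖(z : E4)‖ < 1) (hx1 : 2⁻¹ < ‖(x : E4)‖)
    (hx2 : ‖(x : E4)‖ < 1) {k : ℤ} (hk : x = (τ ^ k) z) : x = z := by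
  obtain ⟨n, rfl | rfl⟩ := Int.eq_nat_or_neg k
  · rcases Nat.eq_zero_or_pos n with rfl | hn
    · rw [hk]
      simp
    · exfalso
      rw [zpow_natCast] at hk
      exact hr31_half hn hz2 (norm_nonneg _) hx1 (by rw [hk]; exact hr31_pow hτ n z)
  · rcases Nat.eq_zero_or_pos n with rfl | hn
    · rw [hk]
      simp
    · exfalso
      have h1 : z = (τ ^ n) x := by
        rw [hk, zpow_neg, zpow_natCast]
        exact ((τ ^ n).apply_symm_apply z).symm
      exact hr31_half hn hx2 (norm_nonneg _) hz1 (by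
        conv_lhs => rw [h1]
        exact hr31_pow hτ n x)

variable {M : Type} [TopologicalSpace M] [ChartedSpace E4 M] [IsManifold (𝓡 4) ∞ M]

/-- `j` moves the singular point: it is singular at most at `0` and at `z`, and every local inverse
branch `p` of the form `p (j x) = P x` is smooth at `j z`. -/
theorem orb_germ {L : E4 ≃ₗᵢ[ℝ] E4} {τ : V4 ≃ₜ V4} (hτ : Extends (tauL L) τ) {P : V4 → M}
    (hP : TopOrbit τ P) {z : V4} (hz1 : 2⁻¹ < ‖(z : E4)‖) (hz2 : ‖(z : E4)‖ < 1)
    (hz : ∀ x : V4, (∀ k : ℤ, x ≠ (τ ^ k) z) → LDA P x) :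
    ∃ (j : E4 ≃ₜ E4) (ρ : ℝ), ρ < 1 ∧ j 0 = 0 ∧ (∀ x, ρ ≤ ‖x‖ → j x = x) ∧
      (∀ x, x ≠ 0 → x ≠ (z : E4) → LD 1 j x) ∧
      ∀ (H : V4 ≃ₜ V4) (y₀ : V4), H y₀ = z →
        (∀ᶠ y in 𝓝 y₀, j (H y : E4) = y) → LDA (fun y => P (H y)) y₀ := by
  obtain ⟨e, hez, hPe⟩ := hP.loc z
  set V : Set V4 := {x | 2⁻¹ < ‖(x : E4)‖ ∧ ‖(x : E4)‖ < 1} with hV
  have hVo : IsOpen V := by
    have hc : Continuous fun x : V4 => ‖(x : E4)‖ := continuous_subtype_val.norm
    exact (isOpen_lt continuous_const hc).inter (isOpen_lt hc continuous_const)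
  let e' : OpenPartialHomeomorph V4 M := e.restrOpen V hVo
  have he's : e'.source = e.source ∩ V := e.restrOpen_source V hVo
  have he'z : z ∈ e'.source := by
    rw [he's]
    exact ⟨hez, hz1, hz2⟩
  have he'P : ∀ x, e' x = P x := fun x => by rw [hPe]; rfl
  have hLDA : ∀ x ∈ V, x ≠ z → LDA P x := fun x hx hne => hz x fun k hk =>
    hne (hr31_orb hτ hz1 hz2 hx.1 hx.2 hk)
  obtain ⟨ψ, hψ, hψ0, -⟩ := exists_par (M := M) (P z) (O := univ) univ_mem
  let Ψ : OpenPartialHomeomorph E4 M := hψ.emb.toOpenPartialHomeomorph ψ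
  let c : OpenPartialHomeomorph V4 E4 := V4.openPartialHomeomorphSubtypeCoe ⟨z⟩
  let q : OpenPartialHomeomorph E4 V4 := Ψ.trans e'.symm
  let g : OpenPartialHomeomorph E4 E4 := q.trans c
  have hqapp : ∀ y, q y = e'.symm (ψ y) := fun _ => rfl
  have hgapp : ∀ y, g y = ((q y : V4) : E4) := fun _ => rfl
  have hqs : ∀ y, y ∈ q.source ↔ ψ y ∈ e'.target := by
    intro y
    have h1 : q.source = Ψ.source ∩ Ψ ⁻¹' e'.symm.source := Ψ.trans_source e'.symm
    rw [h1]
    constructor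
    · intro h
      exact h.2
    · intro h
      refine ⟨?_, h⟩
      have h2 : Ψ.source = univ := hψ.emb.toOpenPartialHomeomorph_source ψ
      rw [h2]
      exact mem_univ y
  have hgs : ∀ y, y ∈ g.source ↔ y ∈ q.source := by
    intro y
    have h1 : g.source = q.source ∩ q ⁻¹' c.source := q.trans_source c
    rw [h1]
    constructor
    · intro h
      exact h.1
    · intro h
      exact ⟨h, mem_univ _⟩
  have hqP : ∀ y ∈ q.source, P (q y) = ψ y := by
    intro y hy
    rw [← he'P, hqapp]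
    exact e'.right_inv ((hqs y).1 hy)
  have hqV : ∀ y ∈ q.source, q y ∈ V := by
    intro y hy
    have h1 : q y ∈ e'.source := e'.map_target ((hqs y).1 hy)
    rw [he's] at h1
    exact h1.2
  have h0q : (0 : E4) ∈ q.source := by
    rw [hqs, hψ0, ← he'P]
    exact e'.map_source he'z
  have h0g : (0 : E4) ∈ g.source := (hgs 0).2 h0q
  have hq0 : q 0 = z := by
    rw [hqapp, hψ0, ← he'P]
    exact e'.left_inv he'z
  have hg0 : g 0 = (z : E4) := by rw [hgapp, hq0]
  have hgRG : ∀ y ∈ g.source, y ≠ 0 → RG g y := by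
    intro y hy hne
    have hyq : y ∈ q.source := (hgs y).1 hy
    have h1 : q y ≠ z := by
      intro h
      apply hne
      apply hψ.emb.injective
      rw [hψ0, ← h, hqP y hyq]
    have h2 : LDA P (q y) := hLDA _ (hqV y hyq) h1
    have h3 : LDA (fun y => P (q y)) y := by
      refine (hψ.loc y).congr' ?_
      filter_upwards [q.open_source.mem_nhds hyq] with w hw
      exact (hqP w hw).symm
    have h4 : LDA q y := LDA.of_comp (q.continuousAt hyq) h2 h3
    have h5 : LDA (fun y => ((q y : V4) : E4)) y := (hr31_val (q y)).comp' h4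
    exact (ldAt_iff.1 h5).self_of_nhds
  obtain ⟨F, hFg, hFRG⟩ := germ_extend hdim4 g h0g hgRG
  have hF0 : F 0 = (z : E4) := by rw [hFg.self_of_nhds, hg0]
  obtain ⟨t, ht, hFt⟩ := sign_const (f := F) isOpen_compl_singleton
    (preconnected_compl_singleton hdim4 (0 : E4)) fun x hx => hFRG x hx
  have hF0' : F 0 ≠ 0 := by
    rw [hF0]
    exact V4_ne z
  obtain ⟨j, ρ, hρ, hj0, hjρ, hjLD, hjF⟩ := exists_j ht (fun x hx => hFt x hx) hF0' (by
    rw [hF0]
    exact hz2)
  rw [hF0] at hjLD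
  refine ⟨j, ρ, hρ, hj0, hjρ, hjLD, ?_⟩
  intro H y₀ hH hev
  -- the map `j ∘ F` near the origin
  let JF : E4 ≃ₜ E4 := F.trans j
  have hJF : ∀ x, JF x = j (F x) := fun _ => rfl
  have h1 : LDA JF 0 := by
    rw [ldAt_iff]
    have h2 : ∀ᶠ y in 𝓝 (0 : E4), F y ≠ 0 :=
      F.continuous.continuousAt.eventually (isOpen_ne.mem_nhds hF0')
    filter_upwards [h2] with y hy
    by_cases hy0 : y = 0
    · rw [hy0]
      exact hjF.rg
    · have h3 : LD 1 j (F y) := hjLD (F y) hy (by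
        rw [← hF0]
        exact fun h => hy0 (F.injective h))
      exact (h3.comp (hFt y hy0)).rg
  have hy₀ : (y₀ : E4) = JF 0 := by
    rw [hJF, hF0, ← hH]
    exact hev.self_of_nhds.symm
  have h2 : LDA JF.symm (y₀ : E4) := by
    rw [hy₀]
    exact h1.symm'
  have hκ0 : JF.symm (y₀ : E4) = 0 := by
    rw [hy₀]
    exact JF.symm_apply_apply 0
  have h3 : LDA (fun y : V4 => JF.symm (y : E4)) y₀ := h2.comp' (hr31_val y₀)
  have h4 : LDA (fun y : V4 => ψ (JF.symm (y : E4))) y₀ := (hψ.loc _).comp' h3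
  refine h4.congr' ?_
  have h5 : ContinuousAt (fun y : V4 => JF.symm (y : E4)) y₀ :=
    (JF.symm.continuous.comp continuous_subtype_val).continuousAt
  have h6 : ∀ᶠ y : V4 in 𝓝 y₀, F (JF.symm (y : E4)) = g (JF.symm (y : E4)) := by
    have h7 : ∀ᶠ u in 𝓝 (JF.symm (y₀ : E4)), F u = g u := by
      rw [hκ0]
      exact hFg
    exact h5.eventually h7
  have h7 : ∀ᶠ y : V4 in 𝓝 y₀, JF.symm (y : E4) ∈ q.source := by
    have h8 : ∀ᶠ u in 𝓝 (JF.symm (y₀ : E4)), u ∈ q.source := by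
      rw [hκ0]
      exact q.open_source.mem_nhds h0q
    exact h5.eventually h8
  filter_upwards [hev, h6, h7] with y e1 e2 e3
  have e4 : j (F (JF.symm (y : E4))) = (y : E4) := JF.apply_symm_apply (y : E4)
  have e5 : F (JF.symm (y : E4)) = (H y : E4) := j.injective (e4.trans e1.symm)
  have e6 : q (JF.symm (y : E4)) = H y := by
    apply Subtype.ext
    rw [← e5, e2, hgapp]
  rw [← e6]
  exact (hqP _ e3).symm

end Pool.Agent.HopfCov
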