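import Pool.Agent.HopfRem.OrbN
import Pool.Agent.HopfRem.OrbG
import Pool.Agent.HopfRem.GEx

/-!
# HR32 (`Orb`): a quotient with one singular orbit is an orbit space of a punctured diffeomorphism

Proof. By `orb_norm` we may assume `1/2 < ‖z‖ < 1`. Let `j, ρ` be given by `orb_germ`. Let
`F = j * tauL L`. `F 0 = 0`; `LD s F x` for `0 < ‖x‖ < 2 * ‖z‖`: `tauL L` is `LD s`
(`LD_tauL`), and `tauL L x ≠ 0`, and `tauL L x ≠ z` as `‖tauL L x‖ = ‖x‖ / 2 < ‖z‖`, so
`LD 1 j`. `b = 2 * ‖z‖ > 1`. `Trap F`: `j` maps the open unit ball onto itself (it is a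
bijection which is the identity for `‖x‖ ≥ ρ`, `ρ < 1`), and `‖tauL L x‖ < 1` for
`‖x‖ ≤ 1`. By `exists_G` we get `G` (`PD s`, `Trap`, `Contr`), `G = F` for `c ≤ ‖x‖ ≤ d`
(`c < 1 < d`), `G '' closedBall 0 1 = F '' closedBall 0 1`.

`Glue G (tauL L) j⁻¹` (`HopfCov/Glue.lean`): `out`: `j⁻¹ x = x` for `‖x‖ ≥ ρ`. `eq`: for
`c ≤ ‖x‖ ≤ d`, `j⁻¹ (G x) = j⁻¹ (j (tauL L x)) = tauL L x`. `img`:
`‖G⁻¹ x‖ ≤ 1` iff `x ∈ G '' closedBall 0 1 = j '' (tauL L '' closedBall 0 1)` iff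
`j⁻¹ x ∈ tauL L '' closedBall 0 1` iff `‖(tauL L)⁻¹ (j⁻¹ x)‖ ≤ 1`. So there is the homeomorphism
`H = glueHomeo`, `H 0 = 0`, `H (G x) = tauL L (H x)` (`glueFun_equivariant`), and by `glue_local`,
if `InA G k x` then `H y = (tauL L ^ k) (j⁻¹ (G ^ (-k) y))` near `x`.

Let `g, h : V4 ≃ₜ V4` be the restrictions of `G` and `H` (`exists_restr` in
`HopfCov/Assemble.lean`, `exists_restr_PDs` in `HopfCov/Twist2.lean`, `restr_gen`), `p = P ∘ h`.
Then `p` is surjective, and `p x = p y` iff `h y = (τ ^ n) (h x) = h ((g ^ n) x)` for some `n` iff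
`y = (g ^ n) x`. It remains to show that `p` is a local diffeomorphism at every `x : V4`. Choose
`k` with `InA G k x` (`exists_InA`), `x' = (G ^ (-k)) x`, in the fundamental domain (`InA G 0 x'`).
As `p ∘ g ^ k = p` and `g ^ k` is a local diffeomorphism (`PD.zpow'`, `LDA`), it suffices to treat
`x'`, that is the case `k = 0`: `H = j⁻¹` near `x` (`glue_local` with `k = 0`). If
`H x = z`, i.e. `x = j z`, apply the last property of `orb_germ` (`j (H y) = y` for `y` near `x`).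
Otherwise `H x = j⁻¹ x ≠ z`, and `≠ 0`; `j` is `LD 1` at `j⁻¹ x`, so `H` is `LD 1` at `x` (and
at all points near `x`), hence `h` is `LDA` at `x`. And `H x` is not in the orbit of `z` under `τ`:
`InA (tauL L) 0 (H x)` (`InA.glue`), that is `1/2 < ‖H x‖ ≤ 1`, while
`‖(τ ^ m) z‖ = 2 ^ (-m) * ‖z‖ ∉ (1/2, 1]` for `m ≠ 0` (as `1/2 < ‖z‖ < 1`). So `LDA P (h x)`, and
`LDA p x`.
-/

set_option autoImplicit false
set_option linter.unusedSectionVars false

open scoped ContDiff Topology Manifold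
open Set Filter Metric Topology

namespace Pool.Agent.HopfCov

variable {M : Type} [TopologicalSpace M] [ChartedSpace E4 M] [IsManifold (𝓡 4) ∞ M]

/-- `‖g⁻¹ x‖ ≤ 1` if and only if `x` is in the image of the closed unit ball -/
theorem norm_inv_le_iff (g : E4 ≃ₜ E4) (x : E4) :
    ‖(g⁻¹ : E4 ≃ₜ E4) x‖ ≤ 1 ↔ x ∈ g '' closedBall 0 1 := by
  constructor
  · intro h
    exact ⟨(g⁻¹ : E4 ≃ₜ E4) x, by simpa using h, apply_inv_self' g x⟩
  · rintro ⟨y, hy, rfl⟩
    rw [inv_apply_self']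
    simpa using hy

theorem orb_restr {s : ℝ} {K : E4 ≃ₜ E4} (hK : PD s K) :
    ∃ k : V4 ≃ₜ V4, Extends K k ∧ IsLocalDiffeomorph (𝓡 4) (𝓡 4) ∞ k := by
  obtain ⟨k, h1, -, h2⟩ := restr_gen K hK.1
  exact ⟨k, fun x => (h1 x).symm,
    fun x => h2 s x ((V4_eventually_ne x).mono fun y hy => hK.2 y hy)⟩

theorem exists_orbit_aux {L : E4 ≃ₗᵢ[ℝ] E4} {s : ℝ} (hs : s = 1 ∨ s = -1)
    (hL : 0 < s * (L.toContinuousLinearEquiv : E4 →L[ℝ] E4).det) {τ : V4 ≃ₜ V4}
    (hτ : Extends (tauL L) τ) {P : V4 → M} (hP : TopOrbit τ P) {z : V4}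
    (hz1 : 2⁻¹ < ‖(z : E4)‖) (hz2 : ‖(z : E4)‖ < 1)
    (hz : ∀ x : V4, (∀ k : ℤ, x ≠ (τ ^ k) z) → LDA P x) :
    ∃ (g : V4 ≃ₜ V4) (G : E4 ≃ₜ E4) (p : V4 → M), OrbitMap g p ∧ Extends G g ∧ PD s G ∧
      Contr G ∧ Trap G := by
  obtain ⟨j, ρ, hρ, hj0, hjout, hjLD, hjP⟩ := orb_germ hτ hP hz1 hz2 hz
  have hs2 : s * s = 1 := by rcases hs with rfl | rfl <;> norm_num
  have hT0 : tauL L (0 : E4) = 0 := by rw [tauL_apply]; simp
  -- `j` preserves the open unit ball
  have hjball : ∀ y : E4, ‖y‖ < 1 → ‖j y‖ < 1 := by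
    intro y hy
    by_contra hcon
    push Not at hcon
    have h1 := hjout (j y) (hρ.le.trans hcon)
    have h2 := j.injective h1
    rw [h2] at hcon
    exact absurd hcon (not_le.2 hy)
  have hF0 : (j * tauL L : E4 ≃ₜ E4) 0 = 0 := by
    rw [mul_apply', hT0, hj0]
  have hFLD : ∀ x : E4, x ≠ 0 → ‖x‖ < 2 * ‖(z : E4)‖ → LD s (j * tauL L : E4 ≃ₜ E4) x := by
    intro x hx0 hx
    have h1 : tauL L x ≠ 0 := by
      intro h
      exact hx0 ((tauL L).injective (h.trans hT0.symm))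
    have h2 : tauL L x ≠ (z : E4) := by
      intro h
      have h3 := congrArg norm h
      rw [norm_tauL] at h3
      linarith
    have h4 := (hjLD _ h1 h2).mul (LD_tauL L hL x)
    rwa [one_mul] at h4
  have hFT : Trap (j * tauL L : E4 ≃ₜ E4) := by
    intro x hx
    rw [mul_apply']
    apply hjball
    exact Trap_tauL L x hx
  obtain ⟨G, c, d, hPD, hTrap, hContr, hc0, hc1, hd1, hGF, himg⟩ :=
    exists_G hdim4 hs hF0 (b := 2 * ‖(z : E4)‖) (by linarith) hFLD hFT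
  have hGlue : Glue G (tauL L) (j⁻¹ : E4 ≃ₜ E4) := by
    refine ⟨⟨ρ, hρ, fun x hx => ?_⟩, ⟨c, d, hc1, hd1, fun x hx1 hx2 => ?_⟩, fun x => ?_⟩
    · conv_lhs => rw [← hjout x hx]
      exact inv_apply_self' _ _
    · rw [hGF x hx1 hx2, mul_apply', inv_apply_self']
    · have e1 : ((tauL L)⁻¹ : E4 ≃ₜ E4) ((j⁻¹ : E4 ≃ₜ E4) x)
          = ((j * tauL L)⁻¹ : E4 ≃ₜ E4) x := by
        rw [mul_inv_rev, mul_apply']
      rw [e1, norm_inv_le_iff, norm_inv_le_iff, himg]
  have hG0 := hPD.1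
  set H : E4 ≃ₜ E4 := glueHomeo hGlue hG0 hT0 hTrap (Trap_tauL L) hContr (Contr_tauL L) with hHdef
  have hHap : ∀ x, H x = glueFun G (tauL L) (j⁻¹ : E4 ≃ₜ E4) x := fun x => rfl
  have hH0 : H 0 = 0 := by rw [hHap, glueFun_zero]
  have hHG : H * G = tauL L * H := by
    ext1 x
    show H (G x) = tauL L (H x)
    rw [hHap, hHap]
    exact glueFun_equivariant hG0 hT0 hTrap hContr x
  obtain ⟨g, hg, hgl⟩ := orb_restr hPD
  obtain ⟨h, hh1, -, hhl⟩ := restr_gen H hH0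
  have hh : Extends H h := fun x => (hh1 x).symm
  have hhg : h * g = τ * h := by
    have e1 : Extends (H * G) (h * g) := hh.mul hg
    have e2 : Extends (tauL L * H) (τ * h) := hτ.mul hh
    rw [hHG] at e1
    exact e1.eq_of e2
  have key : ∀ (n : ℤ) (x : V4), h ((g ^ n) x) = (τ ^ n) (h x) := by
    intro n x
    have h1 : SemiconjBy h g τ := hhg
    exact DFunLike.congr_fun (h1.zpow_right n).eq x
  have hfib : ∀ x y : V4, P (h x) = P (h y) ↔ ∃ n : ℤ, y = (g ^ n) x := by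
    intro x y
    rw [hP.fib]
    constructor
    · rintro ⟨n, hn⟩
      refine ⟨n, h.injective ?_⟩
      rw [hn, key]
    · rintro ⟨n, hn⟩
      exact ⟨n, by rw [hn, key]⟩
  -- the local statement in the fundamental domain
  have hloc0 : ∀ x : V4, InA G 0 (x : E4) → LDA (fun y => P (h y)) x := by
    intro x hx
    have hnear : ∀ᶠ y in 𝓝 (x : E4), H y = (j⁻¹ : E4 ≃ₜ E4) y := by
      filter_upwards [glue_local hGlue hG0 hTrap hx] with y hy
      rw [hHap, hy]
      simp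
    have hnearV : ∀ᶠ y : V4 in 𝓝 x, H (y : E4) = (j⁻¹ : E4 ≃ₜ E4) y :=
      continuous_subtype_val.continuousAt.eventually hnear
    by_cases hxz : h x = z
    · refine hjP h x hxz ?_
      filter_upwards [hnearV] with y hy
      rw [hh1, hy, apply_inv_self']
    · have hHx : H (x : E4) ≠ (z : E4) := by
        intro h1
        exact hxz (Subtype.ext (by rw [hh1, h1]))
      -- smoothness of `h`
      have e1 : ∀ᶠ y in 𝓝 (x : E4), (j⁻¹ : E4 ≃ₜ E4) y ≠ (z : E4) := by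
        have hx1 : (j⁻¹ : E4 ≃ₜ E4) (x : E4) ≠ (z : E4) := by
          rw [← hnear.self_of_nhds]
          exact hHx
        exact (j⁻¹ : E4 ≃ₜ E4).continuous.continuousAt.eventually_ne hx1
      have e2 : ∀ᶠ y in 𝓝 (x : E4), LD 1 H y := by
        filter_upwards [hnear.eventually_nhds, e1, V4_eventually_ne x] with y hy1 hy2 hy3
        have hy4 : (j⁻¹ : E4 ≃ₜ E4) y ≠ 0 := by
          intro h1
          apply hy3
          have := congrArg j h1
          rwa [apply_inv_self', hj0] at this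
        have hy5 : LD 1 (j⁻¹ : E4 ≃ₜ E4) y := LD.inv' (hjLD _ hy4 hy2)
        refine hy5.congr ?_
        filter_upwards [hy1] with w hw
        exact hw.symm
      have e3 : LDA h x := hhl 1 x e2
      -- the point is not in the orbit of `z`
      have e4 : LDA P (h x) := by
        apply hz
        intro k hk
        have hT := Trap_tauL L (E := E4)
        have i1 : InA (tauL L) 0 (H (x : E4)) := by
          rw [hHap]
          exact hx.glue hGlue hG0 hTrap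
        have i2 : (H (x : E4)) = ((tauL L) ^ k) (z : E4) := by
          rw [← hh1, hk]
          exact ((hτ.zpow k) z).symm
        have i3 : InA (tauL L) k (H (x : E4)) := by
          rw [i2]
          constructor
          · rw [zpow_neg_zpow]
            exact hz2.le
          · have h3 : (-(k + 1) : ℤ) = -1 + -k := by ring
            rw [h3, zpow_apply_add, zpow_neg_zpow, zpow_neg_one]
            have h4 : ‖(z : E4)‖ = 2⁻¹ * ‖((tauL L)⁻¹ : E4 ≃ₜ E4) (z : E4)‖ := by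
              rw [← norm_tauL L, apply_inv_self']
            linarith
        have i4 : (0 : ℤ) = k := i1.unique hT i3
        apply hxz
        rw [hk, ← i4]
        rfl
      exact LDA.comp' e4 e3
  refine ⟨g, G, fun x => P (h x), ⟨?_, ?_, hfib⟩, hg, hPD, hContr, hTrap⟩
  · intro m
    obtain ⟨w, hw⟩ := hP.surj m
    obtain ⟨x, hx⟩ := h.surjective w
    exact ⟨x, by simp only [hx, hw]⟩
  · intro x
    obtain ⟨k, hk⟩ := exists_InA hTrap hContr (V4_ne x)
    obtain ⟨g', hg', hgl'⟩ := orb_restr (hPD.zpow' hs2 (-k))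
    have e1 : g' = g ^ (-k) := hg'.eq_of (hg.zpow (-k))
    subst e1
    have hx' : InA G 0 (((g ^ (-k)) x : V4) : E4) := by
      have e2 : (((g ^ (-k)) x : V4) : E4) = (G ^ (-k)) (x : E4) := ((hg.zpow (-k)) x).symm
      rw [e2]
      constructor
      · simpa using hk.1
      · rw [← zpow_apply_add]
        have h3 : (-(0 + 1) + -k : ℤ) = -(k + 1) := by ring
        rw [h3]
        exact hk.2
    have e3 := hloc0 _ hx'
    have e4 : LDA (fun y : V4 => P (h ((g ^ (-k)) y))) x :=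
      LDA.comp' (f := fun y : V4 => (g ^ (-k)) y) (g := fun y : V4 => P (h y)) e3 (hgl' x)
    refine LDA.congr' e4 (Eventually.of_forall fun y => ?_)
    exact ((hfib y ((g ^ (-k)) y)).2 ⟨-k, rfl⟩).symm

theorem exists_orbit {L : E4 ≃ₗᵢ[ℝ] E4} {s : ℝ} (hs : s = 1 ∨ s = -1)
    (hL : 0 < s * (L.toContinuousLinearEquiv : E4 →L[ℝ] E4).det) {τ : V4 ≃ₜ V4}
    (hτ : Extends (tauL L) τ) {P : V4 → M} (hP : TopOrbit τ P) {z : V4}
    (hz : ∀ x : V4, (∀ k : ℤ, x ≠ (τ ^ k) z) → LDA P x) :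
    ∃ (g : V4 ≃ₜ V4) (G : E4 ≃ₜ E4) (p : V4 → M), OrbitMap g p ∧ Extends G g ∧ PD s G ∧
      Contr G ∧ Trap G := by
  obtain ⟨P', z', h1, h2, h3, h4⟩ := orb_norm hτ hP hz
  exact exists_orbit_aux hs hL hτ h1 h2 h3 h4

end Pool.Agent.HopfCov
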