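import Pool.Agent.HopfRem.Class2
import Pool.Agent.HopfRem.Merge
import Pool.Agent.HopfRem.FinSing
import Pool.Agent.HopfRem.Orb

/-!
# Manifolds which are smoothly standard off a set of length zero
-/

set_option autoImplicit false
set_option linter.unusedSectionVars false

open scoped ContDiff Topology Manifold MeasureTheory
open Set Filter Metric

namespace Pool.Agent.HopfCov.Smooth

theorem lengthZero_iff {M : Mfd4} {A : Set M} : LengthZero A ↔ LenZero (M := M.carrier) A :=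
  Iff.rfl

theorem lengthZero_singleton {M : Mfd4} (x₀ : M) : LengthZero ({x₀} : Set M) := by
  intro x
  have h1 : chartAt E4 x '' ({x₀} ∩ (chartAt E4 x).source) ⊆ {chartAt E4 x x₀} := by
    rintro _ ⟨y, ⟨hy, -⟩, rfl⟩
    rw [mem_singleton_iff.1 hy]
    rfl
  refine MeasureTheory.measure_mono_null h1 ?_
  have : MeasureTheory.NullSingletonClass (μH[1] : MeasureTheory.Measure E4) :=
    MeasureTheory.Measure.noAtoms_hausdorff E4 one_pos
  exact MeasureTheory.measure_singleton _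

/-- removal of the singular set up to one point -/
theorem off_of_length {M X : Mfd4} (hX : Closed X) (h : SmoothOffLengthZero M X) :
    OffPointTo M X := by
  obtain ⟨F, A, hA, hF, hL⟩ := h
  have c1 : CompactSpace X.carrier := hX.compact
  have c2 : T2Space X.carrier := hX.hausdorff
  have c3 : ConnectedSpace X.carrier := hX.connected
  have d1 : CompactSpace M.carrier := F.symm.compactSpace
  have d2 : T2Space M.carrier := F.symm.t2Space
  have d3 : ConnectedSpace M.carrier := F.symm.surjective.connectedSpace F.symm.continuous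
  have hAc : IsCompact A := hA.isCompact
  rcases hL with hL | hL
  · obtain ⟨F', S, hS, hF'⟩ := fin_sing (M := M.carrier) (X := X.carrier) F hAc hL hF
    obtain ⟨F₁, x₀, h1⟩ := merge F' hS hF'
    exact ⟨F₁, x₀, h1⟩
  · have hF2 : ∀ y : X.carrier, y ∉ F '' A → LDA F.symm y := by
      intro y hy
      obtain ⟨x, rfl⟩ := F.surjective y
      exact LDA.symm' (hF x fun hx => hy ⟨x, hx, rfl⟩)
    obtain ⟨F', S, hS, hF'⟩ := fin_sing (M := X.carrier) (X := M.carrier) F.symm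
      (hAc.image F.continuous) hL hF2
    have hF3 : ∀ x : M.carrier, x ∉ F' '' S → LDA F'.symm x := by
      intro x hx
      obtain ⟨y, rfl⟩ := F'.surjective x
      exact LDA.symm' (hF' y fun hy => hx ⟨y, hy, rfl⟩)
    obtain ⟨F₁, x₀, h1⟩ := merge F'.symm (hS.image F') hF3
    exact ⟨F₁, x₀, h1⟩

theorem length_of_off {M X : Mfd4} [T1Space M.carrier] (h : OffPointTo M X) :
    SmoothOffLengthZero M X := by
  obtain ⟨F, x₀, hF⟩ := h
  exact ⟨F, {x₀}, isClosed_singleton, fun x hx => hF x hx, Or.inl (lengthZero_singleton x₀)⟩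

/-- the standard manifold as the orbit space of a linear contraction -/
structure IsModel (X : Mfd4) (s : ℝ) (L : E4 ≃ₗᵢ[ℝ] E4) (p₀ : Punctured → X) : Prop where
  sgn : s = 1 ∨ s = -1
  det : 0 < s * (L.toContinuousLinearEquiv : E4 →L[ℝ] E4).det
  orbit : IsOrbit X p₀ (tauL L)

theorem orbit_of_off {M X : Mfd4} {s : ℝ} {L : E4 ≃ₗᵢ[ℝ] E4} {p₀ : Punctured → X}
    (hX : IsModel X s L p₀) (h : OffPointTo M X) :
    ∃ (p : Punctured → M) (G : E4 ≃ₜ E4), IsOrbit M p G ∧ PD s G := by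
  obtain ⟨F, x₀, hF⟩ := h
  obtain ⟨a1, a2, -, -, -, τ, hτ, hp₀⟩ := hX.orbit.data
  have a3 : CompactSpace M.carrier := F.symm.compactSpace
  have a4 : T2Space M.carrier := F.symm.t2Space
  obtain ⟨z, hz⟩ := hp₀.surj (F x₀)
  have hP : TopOrbit (M := M.carrier) τ fun x => F.symm (p₀ x) := by
    refine ⟨F.symm.surjective.comp hp₀.surj,
      F.symm.isLocalHomeomorph.comp hp₀.loc.isLocalHomeomorph, fun x y => ?_⟩
    rw [← hp₀.fib]
    exact F.symm.injective.eq_iff
  have hz' : ∀ x : V4, (∀ k : ℤ, x ≠ (τ ^ k) z) →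
      LDA (Y := M.carrier) (fun x => F.symm (p₀ x)) x := by
    intro x hx
    obtain ⟨y, hy⟩ := F.surjective (p₀ x)
    have hy0 : y ≠ x₀ := by
      rintro rfl
      obtain ⟨k, hk⟩ := (hp₀.fib z x).1 (hz.trans hy)
      exact hx k hk
    have h1 : LDA F.symm (p₀ x) := by
      rw [← hy]
      exact LDA.symm' (hF y hy0)
    exact LDA.comp' (f := (p₀ : V4 → X.carrier)) (g := F.symm) h1 (hp₀.loc x)
  obtain ⟨g, G, p, h1, h2, h3, h4, h5⟩ := exists_orbit (M := M.carrier) hX.sgn hX.det hτ hP hz'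
  refine ⟨p, G, IsOrbit.mk' h1 h2 ?_ h5, h3⟩
  rcases hX.sgn with rfl | rfl
  · exact Or.inl h3
  · exact Or.inr h3

theorem off_of_orbit {M X : Mfd4} {s : ℝ} {L : E4 ≃ₗᵢ[ℝ] E4} {p₀ : Punctured → X}
    (hX : IsModel X s L p₀) {p : Punctured → M} {G : E4 ≃ₜ E4} (h : IsOrbit M p G)
    (hs : PD s G) : OffPointTo M X := by
  obtain ⟨a1, a2, -, -, -, τ, hτ, hp₀⟩ := hX.orbit.data
  obtain ⟨b1, b2, -, ht, hc, g, hg, hp⟩ := h.data
  have hss : s * s = 1 := by
    rcases hX.sgn with rfl | rfl <;> norm_num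
  obtain ⟨F, x₀, hF⟩ := off_point (M := M.carrier) (X := X.carrier) (I' := 𝓡 4) hss hg hs ht hc hp
    hX.det hτ hp₀.surj hp₀.loc hp₀.fib
  exact ⟨F, x₀, hF⟩

theorem DiffeoS1S3.model {X : Mfd4} (h : DiffeoS1S3 X) :
    ∃ p₀ : Punctured → X, IsModel X 1 (LinearIsometryEquiv.refl ℝ E4) p₀ := by
  obtain ⟨τ, h1, h2⟩ := exists_tau
  obtain ⟨p₀, hp₀⟩ := specModelOrbit τ h2 X.carrier h
  obtain ⟨D⟩ := h
  have F : X.carrier ≃ₜ Circle × sphere (0 : E4) 1 := D.toHomeomorph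
  have a1 : T2Space X.carrier := F.symm.t2Space
  have a2 : CompactSpace X.carrier := F.symm.compactSpace
  exact ⟨p₀, Or.inl rfl, det_refl_pos, IsOrbit.mk' hp₀ h1 (Or.inl PD_tau) (Trap_tauL _)⟩

theorem IsTwisted.model {X : Mfd4} (h : IsTwisted X) :
    ∃ p₀ : Punctured → X, IsModel X (-1) refl0 p₀ := by
  obtain ⟨p₀, h1⟩ := h.isOrbit
  exact ⟨p₀, Or.inr rfl, det_refl0_pos, h1⟩

/-- the three conditions are equivalent -/
theorem conditions {X : Mfd4} {s : ℝ} {L : E4 ≃ₗᵢ[ℝ] E4} {p₀ : Punctured → X}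
    (hX : IsModel X s L p₀) (M : Mfd4) :
    ((∃ (p : Punctured → M) (G : E4 ≃ₜ E4), IsOrbit M p G ∧ PD s G) ↔ OffPointTo M X) ∧
      (OffPointTo M X ↔ SmoothOffLengthZero M X) := by
  refine ⟨⟨fun ⟨p, G, h1, h2⟩ => off_of_orbit hX h1 h2, orbit_of_off hX⟩, fun h => ?_,
    off_of_length hX.orbit.closed⟩
  obtain ⟨F, x₀, hF⟩ := h
  have a1 : T2Space X.carrier := hX.orbit.closed.hausdorff
  have a4 : T2Space M.carrier := F.symm.t2Space
  exact length_of_off ⟨F, x₀, hF⟩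

theorem exists_S1S3 : ∃ X : Mfd4, DiffeoS1S3 X := by
  obtain ⟨M, p, G, h1, h2, h3⟩ := exists_orbit_pos PD_one
  rw [inv_one, mul_one] at h3
  exact ⟨M, (std_iff h1 h2).2 h3⟩

theorem exists_twisted : ∃ X : Mfd4, IsTwisted X := by
  obtain ⟨M, p, h1⟩ := exists_orbit_of PD_TT (Trap_tauL _) Contr_TT
  exact ⟨M, (twisted_iff h1 PD_TT).2 chi_TT⟩

end Pool.Agent.HopfCov.Smooth
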