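import Pool.Agent.HopfRem.Class3

/-!
# The parts of the main theorem
-/

set_option autoImplicit false
set_option linter.unusedSectionVars false

open scoped ContDiff Topology Manifold MeasureTheory
open Set Filter Metric

namespace Pool.Agent.HopfCov.Smooth

theorem DD_comm : ⁅groupD, groupD⁆ = DX := by rw [groupD_eq, commutator_DD]

theorem PP_comm : ⁅groupP, groupP⁆ = ⁅PP, PP⁆ := by rw [groupP_eq]

theorem mem_groupD {h : E4 ≃ₜ E4} : h ∈ groupD ↔ PD 1 h := by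
  rw [groupD_eq]
  exact mem_DD

theorem mem_groupP {h : E4 ≃ₜ E4} : h ∈ groupP ↔ PD 1 h ∨ PD (-1) h := by
  rw [groupP_eq]
  exact mem_PP

theorem IsOrbit.neg {M : Mfd4} {p : Punctured → M} {G : E4 ≃ₜ E4} (h : IsOrbit M p G)
    (hG : G ∉ groupD) : PD (-1) G := by
  rcases mem_groupP.1 h.diffeo with h1 | h1
  · exact absurd (mem_groupD.2 h1) hG
  · exact h1

theorem neg_not_mem {G : E4 ≃ₜ E4} (hG : PD (-1) G) : G ∉ groupD := fun h =>
  PD_ne (mem_groupD.1 h) hG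

theorem diffeomorphic_refl (M : Mfd4) : Diffeomorphic M M :=
  ⟨fun x => x, Function.bijective_id,
    fun x => (Diffeomorph.refl (𝓡 4) M.carrier ∞).isLocalDiffeomorph x⟩

/-- the orientation character is a diffeomorphism invariant -/
theorem same_sign {M M' : Mfd4} {p : Punctured → M} {p' : Punctured → M'} {G G' : E4 ≃ₜ E4}
    (h : IsOrbit M p G) (h' : IsOrbit M' p' G') (hd : Diffeomorphic M M') {s t : ℝ}
    (h1 : PD s G) (h2 : PD t G') : 0 < s * t := by
  obtain ⟨a1, a2, -, ht, hc, g, hg, hp⟩ := h.data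
  obtain ⟨a1', a2', -, ht', hc', g', hg', hp'⟩ := h'.data
  obtain ⟨F, hF⟩ := hd
  obtain ⟨Ψ, f1, -, f3⟩ := hLift g g' M.carrier M'.carrier p p' hp hp' (toDiffeo hF)
  exact sign_unique hg hg' h1 h2 f1 f3

theorem oriented_iff_D {M : Mfd4} {p : Punctured → M} {G : E4 ≃ₜ E4} (h : IsOrbit M p G) :
    G ∈ groupD ↔ OrientedBy p := by
  obtain ⟨a1, a2, -, ht, hc, g, hg, hp⟩ := h.data
  rw [mem_groupD]
  constructor
  · intro h1
    exact oriented_of_PD specMfderiv hp hg h1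
  · intro h1
    exact PD_of_oriented specMfderiv specSign hp hg h1

theorem std_iff_comm {M : Mfd4} {p : Punctured → M} {G : E4 ≃ₜ E4} (h : IsOrbit M p G) :
    DiffeoS1S3 M ↔ G ∈ ⁅groupD, groupD⁆ := by
  rw [DD_comm, mem_DX]
  constructor
  · intro hM
    obtain ⟨p₀, hX⟩ := hM.model
    rcases mem_groupP.1 h.diffeo with h1 | h1
    · exact ⟨h1, (std_iff h h1).1 hM⟩
    · exact absurd (same_sign h hX.orbit (diffeomorphic_refl M) h1 PD_tau) (by norm_num)
  · rintro ⟨h1, h2⟩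
    exact (std_iff h h1).2 h2

theorem TT_eq {H : E4 ≃ₜ E4} (hH : ∀ x, H x = halfReflection x) : H = TT := by
  ext1 x
  rw [hH, ← half_apply]
  rfl

theorem twisted_iff_comm {M : Mfd4} {p : Punctured → M} {G : E4 ≃ₜ E4} (h : IsOrbit M p G) :
    IsTwisted M ↔ G * TT⁻¹ ∈ ⁅groupP, groupP⁆ := by
  rw [PP_comm]
  constructor
  · intro hM
    obtain ⟨p₀, hX⟩ := hM.isOrbit
    rcases mem_groupP.1 h.diffeo with h1 | h1
    · exact absurd (same_sign h hX (diffeomorphic_refl M) h1 PD_TT) (by norm_num)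
    · rw [← chi_eq_iff PD_TT h1, (twisted_iff h h1).1 hM, chi_TT]
  · intro h1
    have h2 : PD (-1) G := by
      have h3 : PD 1 (G * TT⁻¹) := by
        rw [commutator_PP] at h1
        exact h1.1
      have h4 := h3.mul_pos_neg PD_TT
      have e : G * TT⁻¹ * TT = G := by group
      rwa [e] at h4
    rw [← chi_eq_iff PD_TT h2, chi_TT] at h1
    exact (twisted_iff h h2).2 h1

theorem realise_all {h : E4 ≃ₜ E4} (hh : h ∈ groupP) : ∃ (M : Mfd4) (p : Punctured → M)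
    (G : E4 ≃ₜ E4), IsOrbit M p G ∧ G * h⁻¹ ∈ ⁅groupD, groupD⁆ := by
  rw [DD_comm]
  rcases mem_groupP.1 hh with h1 | h1
  · obtain ⟨M, p, G, h2, h3, h4⟩ := exists_orbit_pos h1
    exact ⟨M, p, G, h2, h3.mul_one' h1.inv, h4⟩
  · obtain ⟨M, p, G, h2, h3, h4⟩ := exists_orbit_neg h1
    exact ⟨M, p, G, h2, h3.mul_neg h1.inv, h4⟩

theorem unique_pos : (∀ M X : Mfd4, DiffeoS1S3 X → SmoothOffLengthZero M X → DiffeoS1S3 M) ↔
    ⁅groupD, groupD⁆ = groupD := by
  constructor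
  · intro H
    rw [groupD_eq, perfect_iff]
    intro h hh
    obtain ⟨M, p, G, h2, h3, h4⟩ := exists_orbit_pos hh
    obtain ⟨X, hX⟩ := exists_S1S3
    obtain ⟨p₀, hm⟩ := hX.model
    obtain ⟨c1, c2⟩ := conditions hm M
    have h5 := H M X hX (c2.1 (c1.1 ⟨p, G, h2, h3⟩))
    have h6 := (std_iff h2 h3).1 h5
    have h7 := h4.inv.mul h6
    have e : (G * h⁻¹)⁻¹ * G = h := by group
    rwa [e] at h7
  · intro H M X hX hM
    obtain ⟨p₀, hm⟩ := hX.model
    obtain ⟨c1, c2⟩ := conditions hm M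
    obtain ⟨p, G, h2, h3⟩ := c1.2 (c2.2 hM)
    rw [std_iff_comm h2, H]
    exact mem_groupD.2 h3

theorem unique_neg : (∀ M X : Mfd4, IsTwisted X → SmoothOffLengthZero M X → IsTwisted M) ↔
    ⁅groupP, groupP⁆ = groupD := by
  rw [groupP_eq, groupD_eq, coperfect_iff]
  constructor
  · intro H
    have key : ∀ (K : E4 ≃ₜ E4) (hK : PD (-1) K), chi K hK = 1 := by
      intro K hK
      obtain ⟨M, p, G, h2, h3, h4⟩ := exists_orbit_neg hK
      obtain ⟨X, hX⟩ := exists_twisted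
      obtain ⟨p₀, hm⟩ := hX.model
      obtain ⟨c1, c2⟩ := conditions hm M
      have h5 := H M X hX (c2.1 (c1.1 ⟨p, G, h2, h3⟩))
      have h6 := (twisted_iff h2 h3).1 h5
      have h7 : PD 1 (G * K⁻¹) := h3.mul_neg hK.inv
      have e : G = (G * K⁻¹) * K := by group
      rw [chi_congr e h3 (h7.mul_pos_neg hK), chi_mul h7 hK, (cls_eq_one h7).2 h4, map_one,
        one_mul] at h6
      exact h6
    intro K K' hK hK'
    rw [key K hK, key K' hK']
  · intro H M X hX hM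
    obtain ⟨p₀, hm⟩ := hX.model
    obtain ⟨c1, c2⟩ := conditions hm M
    obtain ⟨p, G, h2, h3⟩ := c1.2 (c2.2 hM)
    rw [twisted_iff h2 h3, ← chi_TT]
    exact H TT G PD_TT h3

theorem comm_le_D : ⁅groupP, groupP⁆ ≤ groupD := by
  rw [PP_comm, groupD_eq, commutator_PP]
  rintro u ⟨hu, -⟩
  exact hu

end Pool.Agent.HopfCov.Smooth
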