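import Pool.Agent.HopfRem.Loc

/-!
# HR6 (`CollN`): neighbourhoods of the collapsed set

Proof of `Coll.nbhd`. `K` is compact and `N` is an open neighbourhood of `K`; choose an open set
`V` with compact closure, `K ⊆ V`, `closure V ⊆ N` (`exists_open_between_and_isCompact_closure`).
The frontier of `V` is compact and `q ∉ ψ '' frontier V` (`h.off`; the frontier is disjoint from
`K`), so there is `ε > 0` with `ball q ε` disjoint from `ψ '' frontier V`. Let
`B = ball q ε ∩ {q}ᶜ`, which is preconnected (dimension at least two; e.g.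
`IsPreconnected` of a punctured ball: the punctured ball is the image of `(0, ε) × sphere 0 1`
under `(t, u) ↦ q + t • u`, cf. `preconnected_outside1` in `HopfCov/Core.lean` and
`isPreconnected_sphere`). The set
`A = B ∩ ψ '' (V \ K)` is open (`RG.isOpen_image`) and `B ∩ ψ '' (V \ K) = B ∩ ψ '' closure V` (a
point of `closure V` is in `K`, mapped to `q ∉ B`, or in the frontier, mapped outside the ball, or
in `V \ K`), which is relatively closed in `B` as `ψ '' closure V` is compact. It is nonempty: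
`K` is compact, nonempty and not open (`E` is connected and not compact), so there are points
`x ∉ K` arbitrarily near a point of `K`, with `ψ x ≠ q` and `ψ x → q` by continuity. Hence
`B ⊆ ψ '' (V \ K)` and `ball q ε ⊆ ψ '' V ⊆ ψ '' N` (`q = ψ k` for `k ∈ K`). If `ψ x ∈ ball q ε`
and `x ∉ V` then `x ∉ K`, so `ψ x ≠ q` and `ψ x ∈ B`, `ψ x = ψ y` with `y ∈ V \ K`, and
`h.inj` gives `x = y ∈ V`, a contradiction. So `ψ ⁻¹' ball q ε ⊆ V ⊆ N`.
-/

set_option autoImplicit false
set_option linter.unusedSectionVars false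

open scoped ContDiff Topology
open Set Filter Metric Topology

namespace Pool.Agent.HopfCov

variable {E : Type} [NormedAddCommGroup E] [InnerProductSpace ℝ E] [FiniteDimensional ℝ E]

private theorem preconnected_punctured_ball (hdim : 1 < Module.finrank ℝ E) (q : E) (ε : ℝ) :
    IsPreconnected (ball q ε ∩ {q}ᶜ) := by
  have h1 : 1 < Module.rank ℝ E := by
    rw [← Module.finrank_eq_rank]
    exact_mod_cast hdim
  have h : ball q ε ∩ {q}ᶜ =
      (fun p : ℝ × E => q + p.1 • p.2) '' (Ioo 0 ε ×ˢ sphere (0 : E) 1) := by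
    ext y
    constructor
    · rintro ⟨hy, hyq⟩
      have hne : y - q ≠ 0 := sub_ne_zero.2 hyq
      have hpos : 0 < ‖y - q‖ := norm_pos_iff.2 hne
      refine ⟨(‖y - q‖, ‖y - q‖⁻¹ • (y - q)), ⟨⟨hpos, ?_⟩, ?_⟩, ?_⟩
      · simpa [dist_eq_norm] using hy
      · simp [norm_smul, hpos.ne']
      · simp [smul_smul, hpos.ne']
    · rintro ⟨⟨t, u⟩, ⟨ht, hu⟩, rfl⟩
      have hu' : ‖u‖ = 1 := by simpa using hu
      have ht1 : 0 < t := ht.1
      have ht2 : t < ε := ht.2
      have h3 : ‖t • u‖ = t := by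
        rw [norm_smul, hu', mul_one, Real.norm_eq_abs, abs_of_pos ht1]
      constructor
      · change dist (q + t • u) q < ε
        rw [dist_eq_norm, add_sub_cancel_left, h3]
        exact ht2
      · intro hq
        have h4 : q + t • u = q := hq
        have h5 : t • u = 0 := by simpa using h4
        rw [h5, norm_zero] at h3
        exact ht1.ne h3
  rw [h]
  exact (isPreconnected_Ioo.prod (isPreconnected_sphere h1 0 1)).image _
    (by fun_prop)

/-- a nonempty compact set has points of its complement arbitrarily near one of its points -/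
private theorem exists_limit_pt (hdim : 1 < Module.finrank ℝ E) {K : Set E} (hK : IsCompact K)
    (hne : K.Nonempty) : ∃ k ∈ K, ∀ W : Set E, IsOpen W → k ∈ W → ∃ x ∈ W, x ∉ K := by
  by_contra hcon
  push Not at hcon
  have hopen : IsOpen K := by
    rw [isOpen_iff_mem_nhds]
    intro k hk
    obtain ⟨W, hW, hkW, hWK⟩ := hcon k hk
    exact mem_of_superset (hW.mem_nhds hkW) hWK
  have huniv : K = univ := IsClopen.eq_univ ⟨hK.isClosed, hopen⟩ hne
  have : CompactSpace E := ⟨huniv ▸ hK⟩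
  have hnt : Nontrivial E := Module.nontrivial_of_finrank_pos (R := ℝ) (by omega)
  exact not_compactSpace_iff.2 (NormedSpace.noncompactSpace ℝ E) this

theorem Coll.nbhd (hdim : 1 < Module.finrank ℝ E) {K : Set E} {q : E} {ψ : E → E}
    (h : Coll K q ψ) {N : Set E} (hN : IsOpen N) (hKN : K ⊆ N) :
    ∃ ε : ℝ, 0 < ε ∧ ball q ε ⊆ ψ '' N ∧ ψ ⁻¹' ball q ε ⊆ N := by
  obtain ⟨V, hVo, hKV, hVN, hVc⟩ := exists_open_between_and_isCompact_closure h.cpt hN hKN
  have hfr : IsCompact (frontier V) :=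
    hVc.of_isClosed_subset isClosed_frontier frontier_subset_closure
  have hfrK : ∀ x ∈ frontier V, x ∉ K := fun x hx hxK => by
    rw [hVo.frontier_eq] at hx
    exact hx.2 (hKV hxK)
  have hclosed : IsClosed (ψ '' frontier V) := (hfr.image h.cont).isClosed
  have hq : q ∉ ψ '' frontier V := by
    rintro ⟨x, hx, hxq⟩
    exact h.off x (hfrK x hx) hxq
  obtain ⟨ε, hε, hball⟩ := Metric.isOpen_iff.1 hclosed.isOpen_compl q hq
  have hVK : IsOpen (V \ K) := hVo.sdiff h.cpt.isClosed
  have hAo : IsOpen (ψ '' (V \ K)) := RG.isOpen_image hVK fun x hx => h.rg x hx.2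
  have hCc : IsClosed (ψ '' closure V) := (hVc.image h.cont).isClosed
  -- the two descriptions of the image agree on the punctured ball
  have heq : ∀ y ∈ ball q ε ∩ {q}ᶜ, y ∈ ψ '' closure V → y ∈ ψ '' (V \ K) := by
    rintro y ⟨hyb, hyq⟩ ⟨x, hx, rfl⟩
    by_cases hxV : x ∈ V
    · refine ⟨x, ⟨hxV, fun hxK => hyq (h.on x hxK)⟩, rfl⟩
    · exfalso
      have : x ∈ frontier V := by
        rw [hVo.frontier_eq]
        exact ⟨hx, hxV⟩
      exact hball hyb ⟨x, this, rfl⟩
  obtain ⟨k, hk, hlim⟩ := exists_limit_pt hdim h.cpt h.ne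
  have hqk : ψ k = q := h.on k hk
  -- a point of the punctured ball in the image
  obtain ⟨x₀, ⟨hx₀b, hx₀V⟩, hx₀K⟩ := hlim (ψ ⁻¹' ball q ε ∩ V)
    ((isOpen_ball.preimage h.cont).inter hVo)
    ⟨by change ψ k ∈ ball q ε; rw [hqk]; exact mem_ball_self hε, hKV hk⟩
  have hB : IsPreconnected (ball q ε ∩ {q}ᶜ) := preconnected_punctured_ball hdim q ε
  have hsub : ∀ y ∈ ball q ε ∩ {q}ᶜ, y ∈ ψ '' (V \ K) := by
    intro y hy
    by_contra hyn
    obtain ⟨z, hzB, hz1, hz2⟩ := hB (ψ '' (V \ K)) (ψ '' closure V)ᶜ hAo hCc.isOpen_compl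
      (fun w hw => by
        by_cases hwc : w ∈ ψ '' closure V
        · exact Or.inl (heq w hw hwc)
        · exact Or.inr hwc)
      ⟨ψ x₀, ⟨hx₀b, h.off x₀ hx₀K⟩, ⟨x₀, ⟨hx₀V, hx₀K⟩, rfl⟩⟩
      ⟨y, hy, fun hyc => hyn (heq y hy hyc)⟩
    obtain ⟨w, hw, hwz⟩ := hz1
    exact hz2 ⟨w, subset_closure hw.1, hwz⟩
  refine ⟨ε, hε, ?_, ?_⟩
  · intro y hy
    by_cases hyq : y = q
    · exact ⟨k, hKN hk, by rw [hqk, hyq]⟩
    · obtain ⟨x, hx, hxy⟩ := hsub y ⟨hy, hyq⟩
      exact ⟨x, hVN (subset_closure hx.1), hxy⟩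
  · intro x hx
    by_cases hxK : x ∈ K
    · exact hKN hxK
    · obtain ⟨y, hy, hyx⟩ := hsub (ψ x) ⟨hx, h.off x hxK⟩
      have : y = x := h.inj hy.2 hxK hyx
      rw [← this]
      exact hVN (subset_closure hy.1)

end Pool.Agent.HopfCov
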