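import Pool.Agent.HopfCov.Crit

/-!
# Removal of singular sets of homeomorphisms: definitions

(problem MP_6db3ee_gt, architect helper66)

`RG f x`: the map `f` is smooth at `x` with invertible derivative (no condition on the sign of
the determinant, in contrast to `LD`).
-/

set_option autoImplicit false
set_option linter.unusedSectionVars false

open scoped ContDiff Topology
open Set Filter Metric Topology

namespace Pool.Agent.HopfCov

variable {E : Type} [NormedAddCommGroup E] [InnerProductSpace ℝ E] [FiniteDimensional ℝ E]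

/-- `f` is a local diffeomorphism at `x`. -/
def RG (f : E → E) (x : E) : Prop := ContDiffAt ℝ ∞ f x ∧ (fderiv ℝ f x).det ≠ 0

theorem LD.rg {s : ℝ} {f : E → E} {x : E} (h : LD s f x) : RG f x := by
  refine ⟨h.1, fun h0 => ?_⟩
  have := h.2
  rw [h0, mul_zero] at this
  exact lt_irrefl _ this

theorem RG.ld {f : E → E} {x : E} (h : RG f x) : LD 1 f x ∨ LD (-1) f x := by
  rcases lt_or_gt_of_ne h.2 with h1 | h1
  · right
    exact ⟨h.1, by linarith⟩
  · left
    exact ⟨h.1, by linarith⟩

theorem RG.congr {f g : E → E} {x : E} (h : RG f x) (hfg : f =ᶠ[𝓝 x] g) : RG g x := by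
  rcases h.ld with h1 | h1
  · exact (h1.congr hfg).rg
  · exact (h1.congr hfg).rg

theorem RG.comp {f g : E → E} {x : E} (hg : RG g (f x)) (hf : RG f x) :
    RG (fun y => g (f y)) x := by
  rcases hg.ld with h1 | h1 <;> rcases hf.ld with h2 | h2
  · exact (h1.comp h2).rg
  · exact (h1.comp h2).rg
  · exact (h1.comp h2).rg
  · exact (h1.comp h2).rg

theorem RG.continuousAt {f : E → E} {x : E} (h : RG f x) : ContinuousAt f x := h.1.continuousAt

theorem RG_id (x : E) : RG (fun y : E => y) x := (LD_id x).rg

theorem RG.mul {a b : E ≃ₜ E} {x : E} (ha : RG a (b x)) (hb : RG b x) :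
    RG (a * b : E ≃ₜ E) x := ha.comp hb

theorem RG.inv {h : E ≃ₜ E} {x : E} (hx : RG h x) : RG (h⁻¹ : E ≃ₜ E) (h x) := by
  rcases hx.ld with h1 | h1
  · exact (LD.inv h h1).rg
  · exact (LD.inv h h1).rg

theorem RG.inv' {h : E ≃ₜ E} {y : E} (hx : RG h ((h⁻¹ : E ≃ₜ E) y)) :
    RG (h⁻¹ : E ≃ₜ E) y := by
  have := RG.inv hx
  rwa [apply_inv_self'] at this

/-- `ψ` collapses the compact set `K` to the point `q` and is an embedding of its complement,
which is a local diffeomorphism there. -/
structure Coll (K : Set E) (q : E) (ψ : E → E) : Prop where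
  cont : Continuous ψ
  cpt : IsCompact K
  ne : K.Nonempty
  on : ∀ x ∈ K, ψ x = q
  off : ∀ x, x ∉ K → ψ x ≠ q
  inj : InjOn ψ Kᶜ
  rg : ∀ x, x ∉ K → RG ψ x

/-- the inversion at the point `c` -/
noncomputable def iv (c x : E) : E := EuclideanGeometry.inversion c 1 x

/-- The complement of the range of `e` together with the point at infinity, seen from the
point `c`. -/
def Cpl (e : E → E) (c : E) : Set E := {x | x = c ∨ iv c x ∉ range e}

end Pool.Agent.HopfCov
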