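import Pool.Agent.HopfRem.ParRG

/-!
# HR25 (`LenPar`): sets of length zero in parametrisations

Proof. Let `y : E4`, `e = chartAt E4 (φ y)`. The map `f = e ∘ φ` is defined near `y` and is a local
diffeomorphism there, so it has a local inverse `g` at `f y` which is `RG` (smooth) at `f y`, hence
Lipschitz on a neighbourhood `V` of `f y` (`ContDiffAt.exists_lipschitzOnWith`); let `O` be an open
neighbourhood of `y` such that `φ '' O ⊆ e.source`, `f '' O ⊆ V`, and `g (f y') = y'` for
`y' ∈ O`. Then `φ ⁻¹' S ∩ O ⊆ g '' (V ∩ e '' (S ∩ e.source))`, which has `μH[1]` measure zero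
(`LipschitzOnWith.hausdorffMeasure_image_le`). So every point of `E4` has a neighbourhood whose
intersection with `φ ⁻¹' S` is a null set, and therefore `φ ⁻¹' S` is a null set (`E4` is second
countable: `MeasureTheory.measure_null_of_locally_null`).
-/

set_option autoImplicit false
set_option linter.unusedSectionVars false

open scoped ContDiff Topology Manifold MeasureTheory
open Set Filter Metric Topology

namespace Pool.Agent.HopfCov

variable {M : Type} [TopologicalSpace M] [ChartedSpace E4 M] [IsManifold (𝓡 4) ∞ M]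

theorem LenZero.par {S : Set M} (hS : LenZero S) {φ : E4 → M} (hφ : Par φ) :
    μH[1] (φ ⁻¹' S) = 0 := by
  refine MeasureTheory.measure_null_of_locally_null _ fun y _ => ?_
  obtain ⟨Φ, hy, hΦ⟩ := hφ.loc y
  set e := chartAt E4 (φ y) with he
  have hye : φ y ∈ e.source := mem_chart_source E4 (φ y)
  have hφy : φ y = Φ y := hΦ hy
  have hyt : φ y ∈ Φ.target := by
    rw [hφy]
    exact Φ.map_source hy
  -- the local inverse
  set g : E4 → E4 := fun z => Φ.invFun (e.symm z) with hg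
  have hg1 : ContMDiffAt (𝓡 4) (𝓡 4) ∞ g (e (φ y)) := by
    have h1 : ContMDiffAt (𝓡 4) (𝓡 4) ∞ e.symm (e (φ y)) :=
      (contMDiffOn_chart_symm (I := 𝓡 4) (n := ∞) (x := φ y)).contMDiffAt
        (e.open_target.mem_nhds (e.map_source hye))
    have h2 : ContMDiffAt (𝓡 4) (𝓡 4) ∞ Φ.invFun (e.symm (e (φ y))) := by
      rw [e.left_inv hye]
      exact Φ.contMDiffOn_invFun.contMDiffAt (Φ.open_target.mem_nhds hyt)
    exact h2.comp (e (φ y)) h1
  have hg2 : ContDiffAt ℝ ∞ g (e (φ y)) := hg1.contDiffAt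
  have hle : (1 : WithTop ℕ∞) ≤ ∞ := by exact_mod_cast le_top
  obtain ⟨K, t, ht, hK⟩ := (hg2.of_le hle).exists_lipschitzOnWith
  have hcont : ContinuousAt (fun y' => e (φ y')) y :=
    (e.continuousAt hye).comp hφ.emb.continuous.continuousAt
  have hO : Φ.source ∩ (φ ⁻¹' e.source ∩ (fun y' => e (φ y')) ⁻¹' t) ∈ 𝓝 y :=
    inter_mem (Φ.open_source.mem_nhds hy)
      (inter_mem (hφ.emb.continuous.continuousAt.preimage_mem_nhds (e.open_source.mem_nhds hye))
        (hcont.preimage_mem_nhds ht))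
  refine ⟨φ ⁻¹' S ∩ (Φ.source ∩ (φ ⁻¹' e.source ∩ (fun y' => e (φ y')) ⁻¹' t)),
    inter_mem self_mem_nhdsWithin (mem_nhdsWithin_of_mem_nhds hO), ?_⟩
  have hsub : φ ⁻¹' S ∩ (Φ.source ∩ (φ ⁻¹' e.source ∩ (fun y' => e (φ y')) ⁻¹' t)) ⊆
      g '' (t ∩ e '' (S ∩ e.source)) := by
    rintro y' ⟨h1, h2, h3, h4⟩
    refine ⟨e (φ y'), ⟨h4, φ y', ⟨h1, h3⟩, rfl⟩, ?_⟩
    rw [hg]
    simp only
    rw [e.left_inv h3, hΦ h2]
    exact Φ.left_inv h2
  have h0 : μH[1] (t ∩ e '' (S ∩ e.source)) = 0 :=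
    MeasureTheory.measure_mono_null inter_subset_right (hS (φ y))
  refine MeasureTheory.measure_mono_null hsub ?_
  have h5 := (hK.mono (inter_subset_left (s := t)
    (t := e '' (S ∩ e.source)))).hausdorffMeasure_image_le (show (0 : ℝ) ≤ 1 by norm_num)
  rw [h0, mul_zero] at h5
  exact le_antisymm h5 zero_le

theorem LenZero.mono {S S' : Set M} (hS : LenZero S) (h : S' ⊆ S) : LenZero S' := fun x =>
  MeasureTheory.measure_mono_null (image_mono (inter_subset_inter_left _ h)) (hS x)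

end Pool.Agent.HopfCov
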