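import Pool.Agent.HopfRem.Sqz

/-!
# HR10 (`Lim`): a surjective collapse which is the identity off a neighbourhood

Proof. We construct homeomorphisms `T n` and open sets `M n` with: `T 0 = id`, `M 0 = N`;
`K ⊆ M n`; `M (n + 1) ⊆ M n`; `M (n + 1) ⊆ Metric.thickening (1 / (n + 1)) K`; `RG (T n) x` for all
`x`; `T n k₀ = k₀`; `T (n + 1) x = T n x` for `x ∉ M n`; and
`T (n + 1) x ∈ ball k₀ (1 / (n + 1))` for `x ∈ M (n + 1)`. Step: given `(T n, M n)` choose `η > 0`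
such that `T n '' ball k₀ η ⊆ ball k₀ (1 / (n + 1))` (continuity of `T n` at `k₀`), let
`(N', θ)` be given by `Coll.squeeze` for `M n` and `η`; put `T (n + 1) = T n ∘ θ`
(as homeomorphism: `T n * θ`), `M (n + 1) = N' ∩ M n ∩ thickening (1 / (n + 1)) K`.

Facts: (1) `θ` is the identity off `M n`, hence it maps `M n` onto itself, and
`T (n + 1) '' M n = T n '' M n`; by induction `T m '' M n = T n '' M n` for `m ≥ n` (use
`M m ⊆ M n`), so `T m x ∈ ball k₀ (1 / n)` for `x ∈ M n`, `m ≥ n ≥ 1`. (2) if `x ∉ K` then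
`x ∉ M n` for all large `n`, even `y ∉ M n` for all `y` near `x` and `n ≥ n₀` (as `K` is closed and
`M n` is in the `1/n`-thickening), so `T m y = T n₀ y` for `m ≥ n₀` and `y` near `x`.
Define `Ψ x = k₀` for `x ∈ K`, and `Ψ x` = the eventual value of `T n x` for `x ∉ K`.
* `RG Ψ x`, continuity at `x ∉ K`: `Ψ = T n₀` near `x`.
* continuity at `x ∈ K`: `M n` is a neighbourhood of `x`, and `Ψ '' M n ⊆ ball k₀ (1 / n)` for
  `n ≥ 1` by (1).
* injective off `K`, and `Ψ x ≠ k₀` for `x ∉ K`: compare with a `T n` for large `n`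
  (`T n` is injective and `T n k₀ = k₀`, `x ≠ k₀`).
* surjective: `k₀ = Ψ k₀`; for `y ≠ k₀` choose `n ≥ 1` with `1 / n < dist y k₀` and
  `x` with `T n x = y`; then `x ∉ M n`, so `x ∉ K` and `T m x = T n x` for `m ≥ n`, `Ψ x = y`.
* `Ψ x = x` for `x ∉ N = M 0`: `T m x = T 0 x = x`.
-/

set_option autoImplicit false
set_option linter.unusedSectionVars false

open scoped ContDiff Topology
open Set Filter Metric Topology

namespace Pool.Agent.HopfCov

variable {E : Type} [NormedAddCommGroup E] [InnerProductSpace ℝ E] [FiniteDimensional ℝ E]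

/-- the invariants of one stage of the construction -/
def LimP (K : Set E) (k₀ : E) (p : (E ≃ₜ E) × Set E) : Prop :=
  IsOpen p.2 ∧ K ⊆ p.2 ∧ (∀ x, RG p.1 x) ∧ p.1 k₀ = k₀

/-- the relation of two consecutive stages of the construction -/
def LimR (K : Set E) (k₀ : E) (n : ℕ) (p p' : (E ≃ₜ E) × Set E) : Prop :=
  p'.2 ⊆ p.2 ∧ p'.2 ⊆ Metric.thickening (1 / ((n : ℝ) + 1)) K ∧
    (∀ x, x ∉ p.2 → p'.1 x = p.1 x) ∧ (∀ x ∈ p'.2, p'.1 x ∈ ball k₀ (1 / ((n : ℝ) + 1))) ∧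
    ∀ x ∈ p.2, ∃ y ∈ p.2, p'.1 x = p.1 y

theorem Coll.limit_step (hdim : 1 < Module.finrank ℝ E) {K : Set E} {q : E} {ψ : E → E}
    (h : Coll K q ψ) {k₀ : E} (hk : k₀ ∈ K) (n : ℕ) (p : (E ≃ₜ E) × Set E)
    (hp : LimP K k₀ p) : ∃ p' : (E ≃ₜ E) × Set E, LimP K k₀ p' ∧ LimR K k₀ n p p' := by
  obtain ⟨T, M⟩ := p
  obtain ⟨hM, hKM, hT, hTk⟩ := hp
  dsimp only at hM hKM hT hTk
  have hn : (0 : ℝ) < 1 / ((n : ℝ) + 1) := by positivity
  obtain ⟨η, hη, hηT⟩ := Metric.continuousAt_iff.1 (T.continuous.continuousAt (x := k₀)) _ hn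
  obtain ⟨N', θ, h1, h2, h3, h4, h5, h6⟩ := h.squeeze hdim hM hKM hk hη
  have hθM : ∀ x ∈ M, θ x ∈ M := by
    intro x hx
    by_contra h0
    have h7 := θ.injective (h4 _ h0)
    exact h0 (by rw [h7]; exact hx)
  refine ⟨⟨T * θ, N' ∩ M ∩ Metric.thickening (1 / ((n : ℝ) + 1)) K⟩, ⟨?_, ?_, ?_, ?_⟩,
    ?_, ?_, ?_, ?_, ?_⟩
  · exact (h1.inter hM).inter Metric.isOpen_thickening
  · intro x hx
    exact ⟨⟨h2 hx, hKM hx⟩, Metric.self_subset_thickening hn K hx⟩
  · intro x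
    exact RG.mul (hT _) (h3 x)
  · change T (θ k₀) = k₀
    rw [h5, hTk]
  · exact fun x hx => hx.1.2
  · exact fun x hx => hx.2
  · intro x hx
    change T (θ x) = T x
    rw [h4 x hx]
  · intro x hx
    change T (θ x) ∈ _
    have h7 := h6 x hx.1.1
    rw [mem_ball] at h7 ⊢
    have h8 := hηT h7
    rwa [hTk] at h8
  · intro x hx
    exact ⟨θ x, hθM x hx, rfl⟩

theorem Coll.limit (hdim : 1 < Module.finrank ℝ E) {K : Set E} {q : E} {ψ : E → E}
    (h : Coll K q ψ) {N : Set E} (hN : IsOpen N) (hKN : K ⊆ N) {k₀ : E} (hk : k₀ ∈ K) :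
    ∃ Ψ : E → E, Coll K k₀ Ψ ∧ Function.Surjective Ψ ∧ ∀ x, x ∉ N → Ψ x = x := by
  classical
  choose! F hF1 hF2 using h.limit_step hdim hk
  let p0 : (E ≃ₜ E) × Set E := (1, N)
  have hp0 : LimP K k₀ p0 := ⟨hN, hKN, fun x => RG_id x, rfl⟩
  let Q : ℕ → (E ≃ₜ E) × Set E := fun n => Nat.rec p0 (fun n p => F n p) n
  have hQs : ∀ n, Q (n + 1) = F n (Q n) := fun n => rfl
  have hP : ∀ n, LimP K k₀ (Q n) := by
    intro n
    induction n with
    | zero => exact hp0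
    | succ n ih =>
      rw [hQs]
      exact hF1 n _ ih
  have hR : ∀ n, LimR K k₀ n (Q n) (Q (n + 1)) := by
    intro n
    rw [hQs]
    exact hF2 n _ (hP n)
  set T : ℕ → (E ≃ₜ E) := fun n => (Q n).1 with hTdef
  set M : ℕ → Set E := fun n => (Q n).2 with hMdef
  have hT0 : ∀ x, T 0 x = x := fun x => rfl
  have hM0 : M 0 = N := rfl
  have hMo : ∀ n, IsOpen (M n) := fun n => (hP n).1
  have hKM : ∀ n, K ⊆ M n := fun n => (hP n).2.1
  have hRG : ∀ n x, RG (T n) x := fun n => (hP n).2.2.1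
  have hTk : ∀ n, T n k₀ = k₀ := fun n => (hP n).2.2.2
  have hanti : Antitone M := antitone_nat_of_succ_le fun n => (hR n).1
  have hthick : ∀ n : ℕ, M (n + 1) ⊆ Metric.thickening (1 / ((n : ℝ) + 1)) K :=
    fun n => (hR n).2.1
  have heq : ∀ n x, x ∉ M n → T (n + 1) x = T n x := fun n => (hR n).2.2.1
  have hball : ∀ n : ℕ, ∀ x ∈ M (n + 1), T (n + 1) x ∈ ball k₀ (1 / ((n : ℝ) + 1)) :=
    fun n => (hR n).2.2.2.1
  have hmap : ∀ n, ∀ x ∈ M n, ∃ y ∈ M n, T (n + 1) x = T n y := fun n => (hR n).2.2.2.2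
  -- eventual constancy
  have hconst : ∀ n x, x ∉ M n → ∀ m, n ≤ m → T m x = T n x := by
    intro n x hx m hm
    induction m, hm using Nat.le_induction with
    | base => rfl
    | succ m hm ih => rw [heq m x (fun h0 => hx (hanti hm h0)), ih]
  -- images
  have himg : ∀ n m, n ≤ m → ∀ x ∈ M n, ∃ y ∈ M n, T m x = T n y := by
    intro n m hm
    induction m, hm using Nat.le_induction with
    | base => exact fun x hx => ⟨x, hx, rfl⟩
    | succ m hm ih =>
      intro x hx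
      by_cases hxm : x ∈ M m
      · obtain ⟨y, hy, hxy⟩ := hmap m x hxm
        obtain ⟨z, hz, hyz⟩ := ih y (hanti hm hy)
        exact ⟨z, hz, hxy.trans hyz⟩
      · obtain ⟨z, hz, hyz⟩ := ih x hx
        exact ⟨z, hz, (heq m x hxm).trans hyz⟩
  have himb : ∀ n m : ℕ, n + 1 ≤ m → ∀ x ∈ M (n + 1),
      T m x ∈ ball k₀ (1 / ((n : ℝ) + 1)) := by
    intro n m hm x hx
    obtain ⟨y, hy, hxy⟩ := himg (n + 1) m hm x hx
    rw [hxy]
    exact hball n y hy
  -- points off the set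
  have hloc : ∀ x, x ∉ K → ∃ n, ∀ᶠ y in 𝓝 x, y ∉ M n := by
    intro x hx
    obtain ⟨ε, hε, hεK⟩ := Metric.isOpen_iff.1 h.cpt.isClosed.isOpen_compl x hx
    obtain ⟨n, hn⟩ := exists_nat_one_div_lt (half_pos hε)
    refine ⟨n + 1, ?_⟩
    filter_upwards [ball_mem_nhds x (half_pos hε)] with y hy hyM
    obtain ⟨z, hz, hyz⟩ := Metric.mem_thickening_iff.1 (hthick n hyM)
    refine hεK ?_ hz
    rw [mem_ball] at hy ⊢
    calc dist z x ≤ dist z y + dist y x := dist_triangle _ _ _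
      _ < ε / 2 + ε / 2 := by
          rw [dist_comm z y]
          exact add_lt_add (hyz.trans hn) hy
      _ = ε := by ring
  have hex : ∀ x, x ∉ K → ∃ n, x ∉ M n := fun x hx => by
    obtain ⟨n, hn⟩ := hloc x hx
    exact ⟨n, hn.self_of_nhds⟩
  let Ψ : E → E := fun x => if hx : ∃ n, x ∉ M n then T (Nat.find hx) x else k₀
  have hΨ : ∀ n x, x ∉ M n → Ψ x = T n x := by
    intro n x hx
    have h0 : ∃ n, x ∉ M n := ⟨n, hx⟩
    have h1 : Ψ x = T (Nat.find h0) x := dif_pos h0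
    rw [h1]
    exact (hconst _ x (Nat.find_spec h0) n (Nat.find_min' h0 hx)).symm
  have hΨK : ∀ x ∈ K, Ψ x = k₀ := by
    intro x hx
    refine dif_neg ?_
    rintro ⟨n, hn⟩
    exact hn (hKM n hx)
  have hev : ∀ x, x ∉ K → ∃ n, ∀ m, n ≤ m → x ∉ M m := by
    intro x hx
    obtain ⟨n, hn⟩ := hex x hx
    exact ⟨n, fun m hm h0 => hn (hanti hm h0)⟩
  have hrg : ∀ x, x ∉ K → RG Ψ x := by
    intro x hx
    obtain ⟨n, hn⟩ := hloc x hx
    refine (hRG n x).congr ?_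
    filter_upwards [hn] with y hy
    exact (hΨ n y hy).symm
  have hΨb : ∀ n : ℕ, ∀ x ∈ M (n + 1), Ψ x ∈ ball k₀ (1 / ((n : ℝ) + 1)) := by
    intro n x hx
    by_cases hxK : x ∈ K
    · rw [hΨK x hxK]
      exact mem_ball_self (by positivity)
    · obtain ⟨m, hm⟩ := hev x hxK
      rw [hΨ (max m (n + 1)) x (hm _ (le_max_left _ _))]
      exact himb n _ (le_max_right _ _) x hx
  refine ⟨Ψ, ⟨?_, h.cpt, h.ne, hΨK, ?_, ?_, hrg⟩, ?_, ?_⟩
  · rw [continuous_iff_continuousAt]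
    intro x
    by_cases hx : x ∈ K
    · rw [Metric.continuousAt_iff']
      intro ε hε
      obtain ⟨n, hn⟩ := exists_nat_one_div_lt hε
      filter_upwards [(hMo (n + 1)).mem_nhds (hKM (n + 1) hx)] with y hy
      rw [hΨK x hx]
      exact (mem_ball.1 (hΨb n y hy)).trans hn
    · exact (hrg x hx).continuousAt
  · intro x hx h0
    obtain ⟨n, hn⟩ := hex x hx
    rw [hΨ n x hn] at h0
    have h1 : x = k₀ := (T n).injective (h0.trans (hTk n).symm)
    exact hx (h1 ▸ hk)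
  · intro x hx y hy hxy
    obtain ⟨n, hn⟩ := hev x hx
    obtain ⟨m, hm⟩ := hev y hy
    rw [hΨ (max n m) x (hn _ (le_max_left _ _)), hΨ (max n m) y (hm _ (le_max_right _ _))] at hxy
    exact (T (max n m)).injective hxy
  · intro y
    by_cases hy : y = k₀
    · exact ⟨k₀, by rw [hΨK k₀ hk, hy]⟩
    · obtain ⟨n, hn⟩ := exists_nat_one_div_lt (dist_pos.2 hy)
      obtain ⟨x, hx⟩ := (T (n + 1)).surjective y
      have hxM : x ∉ M (n + 1) := by
        intro h0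
        have h1 := hball n x h0
        rw [hx, mem_ball] at h1
        exact lt_irrefl _ (h1.trans hn)
      exact ⟨x, by rw [hΨ (n + 1) x hxM, hx]⟩
  · intro x hx
    rw [hΨ 0 x hx, hT0]

end Pool.Agent.HopfCov
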