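import Pool.Agent.HopfRem.Defs

/-!
# Removal of singular sets: definitions for manifolds
-/

set_option autoImplicit false
set_option linter.unusedSectionVars false

open scoped ContDiff Topology Manifold MeasureTheory
open Set Filter Metric Topology

namespace Pool.Agent.HopfCov

/-- `f` is a local diffeomorphism at `x` (for maps between manifolds modelled on `E4`) -/
abbrev LDA {X Y : Type} [TopologicalSpace X] [ChartedSpace E4 X] [TopologicalSpace Y]
    [ChartedSpace E4 Y] (f : X → Y) (x : X) : Prop :=
  IsLocalDiffeomorphAt (𝓡 4) (𝓡 4) ∞ f x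

section

variable {M : Type} [TopologicalSpace M]

/-- the orbits of `g` are the fibres of the local homeomorphism `P` -/
structure TopOrbit (g : V4 ≃ₜ V4) (P : V4 → M) : Prop where
  surj : Function.Surjective P
  loc : IsLocalHomeomorph P
  fib : ∀ x y : V4, P x = P y ↔ ∃ n : ℤ, y = (g ^ n) x

variable [ChartedSpace E4 M]

/-- a smooth parametrisation by `E4` of an open subset of `M` -/
structure Par (φ : E4 → M) : Prop where
  emb : IsOpenEmbedding φ
  loc : ∀ x, LDA φ x

/-- the one-dimensional Hausdorff measure of `S` vanishes in all (preferred) charts -/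
def LenZero (S : Set M) : Prop :=
  ∀ x : M, μH[1] (chartAt E4 x '' (S ∩ (chartAt E4 x).source)) = 0

end

end Pool.Agent.HopfCov
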