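import Pool.Agent.HopfRem.ParEx
import Pool.Agent.HopfRem.PushE
import Pool.Agent.HopfRem.Transport

/-!
# HR22 (`OneBall`): a finite subset of a connected manifold lies in one open ball

Proof. Induction on the finite set (`Set.Finite.induction_on`). Empty set: `exists_par` at any
point
(`M` is nonempty). Step: let `S` be finite, contained in the range of some `Par`, and `b : M`. Let
`W = {b : M | ∃ φ, Par φ ∧ S ⊆ range φ ∧ b ∈ range φ}`. `W` is nonempty (the given `φ`) and open
(the ranges are open). It is closed: let `b` be in its closure; if `b ∈ S` then `b ∈ W`.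
Otherwise let `β` be a `Par` with `β 0 = b` (`exists_par`). The set `W ∩ range β \ S` is nonempty:
`W ∩ range β` is open and nonempty, and `S` is finite, `M` has no isolated points (its preimage
under `β` is a nonempty open subset of `E4`, hence infinite, e.g. it is not contained in a finite
set because its complement is dense: `Set.Finite.dense_compl` / `Dense.diff_finite`). Let
`b' = β v` be in it, `φ` a `Par` with `S ∪ {b'} ⊆ range φ`. The set `U = (β ⁻¹' S)ᶜ` is open
(finite complement, `β` injective) and preconnected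
(`Set.Countable.isPathConnected_compl_of_one_lt_rank`), and contains `v` and `0` (`b ∉ S`). By
`push_open` there is `s : E4 ≃ₜ E4`, `LD 1` everywhere, `s v = 0`, equal to the identity off a
compact `C ⊆ U`. Let `Θ : M ≃ₜ M` be the transport of `s` by `β` (`exists_transport`, `M` is
Hausdorff). `Θ` is a local diffeomorphism at every point: off the closed set `β '' C` it is the
identity, and on `range β`, `Θ ∘ β = β ∘ s` (`LDA.of_comp_right`, `ldAt_iff`).
`Θ b' = β (s v) = b`, and `Θ = id` on `S` (`S ∩ β '' C = ∅`). So `Θ ∘ φ` is a `Par`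
(`Par.homeo`) whose range contains `S` and `b`: `b ∈ W`. As `M` is connected, `W = univ`
(`IsClopen.eq_univ`).
-/

set_option autoImplicit false
set_option linter.unusedSectionVars false

open scoped ContDiff Topology Manifold
open Set Filter Metric Topology

namespace Pool.Agent.HopfCov

variable {M : Type} [TopologicalSpace M] [ChartedSpace E4 M] [IsManifold (𝓡 4) ∞ M]

private theorem one_ball_step [T2Space M] [ConnectedSpace M] {S : Set M} (hS : S.Finite)
    {φ₀ : E4 → M} (hφ₀ : Par φ₀) (hSφ₀ : S ⊆ range φ₀) (b : M) :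
    ∃ φ : E4 → M, Par φ ∧ S ⊆ range φ ∧ b ∈ range φ := by
  set W : Set M := {b | ∃ φ : E4 → M, Par φ ∧ S ⊆ range φ ∧ b ∈ range φ} with hW
  have hne : W.Nonempty := ⟨φ₀ 0, φ₀, hφ₀, hSφ₀, mem_range_self 0⟩
  have hopen : IsOpen W := by
    rw [isOpen_iff_mem_nhds]
    rintro b ⟨φ, h1, h2, h3⟩
    exact Filter.mem_of_superset (h1.emb.isOpen_range.mem_nhds h3) fun c hc => ⟨φ, h1, h2, hc⟩
  have hclosed : IsClosed W := by
    rw [← closure_subset_iff_isClosed]
    intro b hb
    by_cases hbS : b ∈ S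
    · exact ⟨φ₀, hφ₀, hSφ₀, hSφ₀ hbS⟩
    obtain ⟨β, hβ, hβ0, -⟩ := exists_par b (univ_mem)
    have h2 : IsOpen (β ⁻¹' W) := hopen.preimage hβ.emb.continuous
    have h3 : (β ⁻¹' S).Finite := hS.preimage hβ.emb.injective.injOn
    obtain ⟨v, hvW, hvS⟩ : ∃ v, v ∈ β ⁻¹' W ∧ v ∉ β ⁻¹' S := by
      by_contra hcon
      push Not at hcon
      have h4 : (β ⁻¹' W).Finite := h3.subset hcon
      obtain ⟨c, ⟨x, rfl⟩, hc⟩ := mem_closure_iff.1 hb (range β) hβ.emb.isOpen_range ⟨0, hβ0⟩
      exact (infinite_of_mem_nhds x (h2.mem_nhds hc)) h4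
    have hrank : 1 < Module.rank ℝ E4 := by
      rw [← Module.finrank_eq_rank, finrank_euclideanSpace, Fintype.card_fin]
      norm_num
    have hU : IsPreconnected (β ⁻¹' S)ᶜ :=
      (h3.countable.isPathConnected_compl_of_one_lt_rank hrank).isConnected.isPreconnected
    have h0 : (0 : E4) ∈ (β ⁻¹' S)ᶜ := by
      intro h
      rw [mem_preimage, hβ0] at h
      exact hbS h
    obtain ⟨s, hs1, hs2, C, hC, hCU, hsC⟩ := push_open h3.isClosed.isOpen_compl hU hvS h0
    obtain ⟨Θ, hΘ1, hΘ2⟩ := exists_transport hβ.emb s hC hsC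
    have hΘ : ∀ x, LDA Θ x := by
      intro x
      by_cases hx : x ∈ β '' C
      · obtain ⟨c, -, rfl⟩ := hx
        refine LDA.of_comp_right (hβ.loc c) ?_
        have h5 : (fun y => Θ (β y)) = fun y => β (s y) := funext hΘ1
        rw [h5]
        exact LDA.comp' (hβ.loc (s c)) (ldAt_iff.2 (Eventually.of_forall fun y => (hs1 y).rg))
      · refine (LDA_id x).congr' ?_
        have h6 : IsClosed (β '' C) := (hC.image hβ.emb.continuous).isClosed
        filter_upwards [h6.isOpen_compl.mem_nhds hx] with y hy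
        exact (hΘ2 y hy).symm
    obtain ⟨φ, hφ, hSφ, hbφ⟩ := hvW
    refine ⟨fun y => Θ (φ y), hφ.homeo hΘ, ?_, ?_⟩
    · intro t ht
      obtain ⟨y, hy⟩ := hSφ ht
      refine ⟨y, ?_⟩
      change Θ (φ y) = t
      rw [hy]
      refine hΘ2 t ?_
      rintro ⟨c, hc, rfl⟩
      exact hCU hc ht
    · obtain ⟨y, hy⟩ := hbφ
      refine ⟨y, ?_⟩
      change Θ (φ y) = b
      rw [hy, hΘ1, hs2, hβ0]
  have huniv : W = univ := IsClopen.eq_univ ⟨hclosed, hopen⟩ hne
  have hb : b ∈ W := by
    rw [huniv]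
    exact mem_univ b
  exact hb

theorem one_ball [T2Space M] [ConnectedSpace M] {S : Set M} (hS : S.Finite) :
    ∃ φ : E4 → M, Par φ ∧ S ⊆ range φ := by
  induction S, hS using Set.Finite.induction_on with
  | empty =>
    obtain ⟨x⟩ : Nonempty M := ConnectedSpace.toNonempty
    obtain ⟨φ, hφ, -, -⟩ := exists_par x univ_mem
    exact ⟨φ, hφ, empty_subset _⟩
  | @insert a S _ hS ih =>
    obtain ⟨φ₀, hφ₀, hS₀⟩ := ih
    obtain ⟨φ, hφ, h1, h2⟩ := one_ball_step hS hφ₀ hS₀ a
    exact ⟨φ, hφ, insert_subset h2 h1⟩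

end Pool.Agent.HopfCov
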