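import Pool.Agent.HopfRem.ParRG
import Pool.Agent.HopfCov.Orbit

/-!
# HR30 (`OrbN`): normalisation of the singular orbit

Proof. Choose `k : ℤ` with `(1/2 : ℝ) < 2 ^ k * ‖z‖ ≤ 1` (`‖z‖ > 0`). Let `t = 1` if
`2 ^ k * ‖z‖ < 1` and `t = 3/4` if it equals `1`. The point `z₁ = (tauL L)^{-k} z` (so
`‖z₁‖ = 2 ^ k * ‖z‖`, `norm_tauL`, `norm_tauL_pow`) has the same orbit as `z` (as an element of
`V4`: `z₁ = (τ ^ (-k)) z`). Let `m : V4 ≃ₜ V4` be multiplication by `t⁻¹`; it commutes with `τ`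
(`L` is linear) and is a local diffeomorphism. Put `P' x = P (m x)` and `z' = m⁻¹ z₁ = t • z₁`,
`1/2 < ‖z'‖ < 1`. Then `TopOrbit τ P'` (`m` commutes with all powers of `τ`), and if `x` is not
in the orbit of `z'` then `m x` is not in the orbit of `z₁`, i.e. of `z`, so `LDA P (m x)` and
`LDA P' x`.
-/

set_option autoImplicit false
set_option linter.unusedSectionVars false

open scoped ContDiff Topology Manifold
open Set Filter Metric Topology

namespace Pool.Agent.HopfCov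

variable {M : Type} [TopologicalSpace M] [ChartedSpace E4 M] [IsManifold (𝓡 4) ∞ M]

theorem orb_norm {L : E4 ≃ₗᵢ[ℝ] E4} {τ : V4 ≃ₜ V4} (hτ : Extends (tauL L) τ) {P : V4 → M}
    (hP : TopOrbit τ P) {z : V4} (hz : ∀ x : V4, (∀ k : ℤ, x ≠ (τ ^ k) z) → LDA P x) :
    ∃ (P' : V4 → M) (z' : V4), TopOrbit τ P' ∧ 2⁻¹ < ‖(z' : E4)‖ ∧ ‖(z' : E4)‖ < 1 ∧
      ∀ x : V4, (∀ k : ℤ, x ≠ (τ ^ k) z') → LDA P' x := by
  have hz0 : (z : E4) ≠ 0 := z.2
  have hzn : 0 < ‖(z : E4)‖ := norm_pos_iff.2 hz0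
  obtain ⟨s, hs, hsn⟩ : ∃ s : ℝ, 0 < s ∧ ‖(z : E4)‖ = s * (3 / 4) :=
    ⟨‖(z : E4)‖ * (4 / 3), by positivity, by ring⟩
  let K : E4 ≃ₜ E4 := Homeomorph.smulOfNeZero s hs.ne'
  have hK : ∀ x, K x = s • x := fun x => rfl
  have hKLD : ∀ x, LD 1 K x := by
    intro x
    have h1 : (K : E4 → E4) = (s • ContinuousLinearMap.id ℝ E4 : E4 →L[ℝ] E4) := by
      funext x
      rfl
    rw [h1]
    apply LD_clm
    have h2 : (s • ContinuousLinearMap.id ℝ E4 : E4 →L[ℝ] E4).det =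
        s ^ (Module.finrank ℝ E4) := by
      simp only [ContinuousLinearMap.det, ContinuousLinearMap.toLinearMap_smul,
        LinearMap.det_smul]
      simp
    rw [h2, one_mul]
    exact pow_pos hs _
  obtain ⟨m, hm, hmLD⟩ := exists_restr_LD (K := K) (by rw [hK, smul_zero])
  have hmL : ∀ x, IsLocalDiffeomorphAt (𝓡 4) (𝓡 4) ∞ m x := fun x =>
    hmLD x (Eventually.of_forall hKLD)
  have hc : m * τ = τ * m := by
    have e1 := hm.mul hτ
    have e2 := hτ.mul hm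
    have e3 : K * tauL L = tauL L * K := by
      ext1 x
      change s • ((2⁻¹ : ℝ) • L x) = (2⁻¹ : ℝ) • L (s • x)
      rw [L.map_smul, smul_comm]
    rw [← e3] at e2
    exact e1.eq_of e2
  have hcz : ∀ (n : ℤ) (x : V4), m ((τ ^ n) x) = (τ ^ n) (m x) := fun n x => by
    have h1 : SemiconjBy m τ τ := hc
    exact DFunLike.congr_fun (h1.zpow_right n).eq x
  have hmz : m (m.symm z) = z := m.apply_symm_apply z
  have hnorm : ‖((m.symm z : V4) : E4)‖ = 3 / 4 := by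
    have h1 := hm (m.symm z)
    rw [hmz, hK] at h1
    have h2 : ‖(z : E4)‖ = s * ‖((m.symm z : V4) : E4)‖ := by
      rw [← h1, norm_smul, Real.norm_of_nonneg hs.le]
    rw [hsn] at h2
    exact (mul_left_cancel₀ hs.ne' h2).symm
  refine ⟨fun x => P (m x), m.symm z, ⟨?_, ?_, ?_⟩, ?_, ?_, ?_⟩
  · intro y
    obtain ⟨x, hx⟩ := hP.surj y
    exact ⟨m.symm x, by simp [hx]⟩
  · exact hP.loc.comp m.isLocalHomeomorph
  · intro x y
    rw [hP.fib]
    constructor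
    · rintro ⟨n, hn⟩
      refine ⟨n, m.injective ?_⟩
      rw [hn, hcz]
    · rintro ⟨n, hn⟩
      exact ⟨n, by rw [hn, hcz]⟩
  · rw [hnorm]
    norm_num
  · rw [hnorm]
    norm_num
  · intro x hx
    have h1 : LDA P (m x) := hz _ fun k hk => hx k (m.injective (by rw [hk, hcz, hmz]))
    exact LDA.comp' h1 (hmL x)

end Pool.Agent.HopfCov
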