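import Pool.Agent.HopfRem.PsiMap
import Pool.Agent.HopfRem.Lim

/-!
# HR12 (`Outer`): an embedding of `E` is made surjective far away

Proof. Choose `R > 0` with `K ∪ L ⊆ ball 0 R`; let `z', q, ψ` be as in `exists_coll`, `c = e z'`,
`A = Cpl e c`. Choose `r > 0` with `closedBall c r ⊆ range e`, put `R₁ = ‖z'‖ + 1`,
`C = e '' closedBall 0 R₁ ∪ closedBall c r` (compact, contained in `range e`), and
`N = {x | x = c ∨ iv c x ∉ C}`. `N` is open: it contains a neighbourhood of `c` by
`tendsto_iv_nhds`, and near `x ≠ c` it is the preimage of an open set by a continuous map. `A ⊆ N`,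
`c ∈ A`. Let `Ψ` be given by `Coll.limit` with `k₀ = c`: `Coll A c Ψ`, surjective, identity off
`N`. Put `H w = iv c (Ψ (iv c (e w)))`.
* `H z' = iv c (Ψ c) = iv c c = c`. For `w ≠ z'`: `iv c (e w) ≠ c` and
  `iv c (iv c (e w)) = e w ∈ range e`, so `iv c (e w) ∉ A`, hence `Ψ (iv c (e w)) ≠ c` and
  `H w ≠ c`.
* injective: for `w, w' ≠ z'` by `Coll.inj` and injectivity of `iv c`, `e`.
* surjective: `c = H z'`; for `y ≠ c`, `iv c y = Ψ x` for some `x`, and `iv c y ≠ c`, so `x ∉ A`
  (`Coll.on`), thus `x ≠ c`, `iv c x = e w` for some `w`, and `H w = iv c (Ψ (iv c (iv c x))) = y`.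
* `H w = e w` for `‖w‖ ≤ R₁`: if `w = z'` clear; otherwise `iv c (e w) ∉ N`, because it is not
  `c` and `iv c (iv c (e w)) = e w ∈ C`. So `Ψ` is the identity there and `H w = e w`.
* `RG H w` for `w ∉ K`: if `‖w‖ < R₁` then `H = e` near `w`. Otherwise `w ≠ z'`, and `e` is `RG`
  at `w`, `iv c` at `e w ≠ c`, `Ψ` at `iv c (e w) ∉ A`, and `iv c` at `Ψ (iv c (e w)) ≠ c`.
* `H` is continuous (at points of `K ⊆ ball 0 R₁` it agrees with `e` near the point) and open
  (near such points as `e`, elsewhere by `RG.map_nhds`), so it is a homeomorphism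
  (`Equiv.toHomeomorphOfIsInducing` or `Homeomorph` from continuous open bijection:
  `Equiv.toHomeomorphOfContinuousOpen`).
-/

set_option autoImplicit false
set_option linter.unusedSectionVars false

open scoped ContDiff Topology
open Set Filter Metric Topology

namespace Pool.Agent.HopfCov

variable {E : Type} [NormedAddCommGroup E] [InnerProductSpace ℝ E] [FiniteDimensional ℝ E]

theorem outer (hdim : 1 < Module.finrank ℝ E) {e : E → E} (he : IsOpenEmbedding e)
    {K L : Set E} (hK : IsCompact K) (hL : IsCompact L) (hr : ∀ x, x ∉ K → RG e x) :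
    ∃ H : E ≃ₜ E, (∀ x ∈ L, H x = e x) ∧ ∀ x, x ∉ K → RG H x := by
  have hnt : Nontrivial E := Module.nontrivial_of_finrank_pos (R := ℝ) (by omega)
  obtain ⟨R, hR, hKL⟩ := (hK.union hL).isBounded.subset_ball_lt 0 0
  obtain ⟨z', q, ψ, hz', hcoll⟩ := exists_coll he hR (subset_union_left.trans hKL) hr
  set c := e z' with hc
  set A := Cpl e c with hA
  have hcR : c ∈ range e := ⟨z', rfl⟩
  set R₁ := ‖z'‖ + 1 with hR₁
  set C := e '' closedBall 0 R₁ with hC
  have hCc : IsCompact C := (isCompact_closedBall 0 R₁).image he.continuous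
  have hCr : C ⊆ range e := image_subset_range _ _
  set N : Set E := {x | x = c ∨ iv c x ∉ C} with hN
  have hNo : IsOpen N := by
    rw [isOpen_iff_mem_nhds]
    intro x hx
    by_cases hxc : x = c
    · rw [hxc]
      have h2 := (tendsto_iv_nhds c).eventually hCc.compl_mem_cocompact
      rw [eventually_nhdsWithin_iff] at h2
      filter_upwards [h2] with y hy
      by_cases hyx : y = c
      · exact Or.inl hyx
      · exact Or.inr (hy hyx)
    · have h1 : iv c x ∉ C := hx.resolve_left hxc
      have h2 := (continuousAt_iv hxc).eventually (hCc.isClosed.isOpen_compl.mem_nhds h1)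
      filter_upwards [h2] with y hy
      exact Or.inr hy
  have hAN : A ⊆ N := by
    rintro x (hx | hx)
    · exact Or.inl hx
    · exact Or.inr fun h => hx (hCr h)
  have hcA : c ∈ A := Or.inl rfl
  obtain ⟨Ψ, hΨ, hsurj, hid⟩ := hcoll.limit hdim hNo hAN hcA
  set H : E → E := fun w => iv c (Ψ (iv c (e w))) with hH
  have hec : ∀ w, w ≠ z' → e w ≠ c := fun w hw h => hw (he.injective h)
  have hnA : ∀ w, w ≠ z' → iv c (e w) ∉ A := by
    rintro w hw (h | h)
    · exact iv_ne (hec w hw) h
    · exact h ⟨w, (iv_iv c (e w)).symm⟩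
  have hHz : H z' = c := by
    change iv c (Ψ (iv c c)) = c
    rw [iv_self, hΨ.on c hcA, iv_self]
  have hHne : ∀ w, w ≠ z' → H w ≠ c := fun w hw => iv_ne (hΨ.off _ (hnA w hw))
  have hinj : Function.Injective H := by
    intro w w' h
    by_cases hw : w = z'
    · by_cases hw' : w' = z'
      · rw [hw, hw']
      · rw [hw, hHz] at h
        exact absurd h.symm (hHne w' hw')
    · by_cases hw' : w' = z'
      · rw [hw', hHz] at h
        exact absurd h (hHne w hw)
      · have h1 : Ψ (iv c (e w)) = Ψ (iv c (e w')) := iv_injective c h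
        have h2 := hΨ.inj (hnA w hw) (hnA w' hw') h1
        exact he.injective (iv_injective c h2)
  have hsur : Function.Surjective H := by
    intro y
    by_cases hy : y = c
    · exact ⟨z', by rw [hHz, hy]⟩
    · obtain ⟨x, hx⟩ := hsurj (iv c y)
      have h1 : x ∉ A := by
        intro h2
        rw [hΨ.on x h2] at hx
        exact iv_ne hy hx.symm
      have h2 : iv c x ∈ range e := by
        by_contra h3
        exact h1 (Or.inr h3)
      obtain ⟨w, hw⟩ := h2
      refine ⟨w, ?_⟩
      change iv c (Ψ (iv c (e w))) = y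
      rw [hw, iv_iv, hx, iv_iv]
  have heq : ∀ w, ‖w‖ ≤ R₁ → H w = e w := by
    intro w hw
    by_cases hwz : w = z'
    · rw [hwz, hHz]
    · have h1 : iv c (e w) ∉ N := by
        rintro (h | h)
        · exact iv_ne (hec w hwz) h
        · rw [iv_iv] at h
          exact h ⟨w, by rw [mem_closedBall_zero_iff]; exact hw, rfl⟩
      change iv c (Ψ (iv c (e w))) = e w
      rw [hid _ h1, iv_iv]
  have hev : ∀ w, ‖w‖ < R₁ → H =ᶠ[𝓝 w] e := by
    intro w hw
    have h1 : ∀ᶠ y in 𝓝 w, ‖y‖ < R₁ := continuous_norm.continuousAt.eventually_lt_const hw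
    filter_upwards [h1] with y hy
    exact heq y hy.le
  have hRG : ∀ w, w ∉ K → RG H w := by
    intro w hw
    by_cases h1 : ‖w‖ < R₁
    · exact (hr w hw).congr (hev w h1).symm
    · have h2 : w ≠ z' := by
        rintro rfl
        exact h1 (by rw [hR₁]; linarith)
      have h3 : RG (fun w => iv c (e w)) w := (rg_iv (hec w h2)).comp (hr w hw)
      have h4 : RG (fun w => Ψ (iv c (e w))) w := RG.comp (hΨ.rg _ (hnA w h2)) h3
      exact RG.comp (rg_iv (hΨ.off _ (hnA w h2))) h4
  have hKn : ∀ w ∈ K, ‖w‖ < R₁ := by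
    intro w hw
    have h1 : w ∈ ball (0 : E) R := hKL (Or.inl hw)
    rw [mem_ball_zero_iff] at h1
    rw [hR₁]
    linarith
  have hcont : Continuous H := by
    rw [continuous_iff_continuousAt]
    intro w
    by_cases hw : w ∈ K
    · exact he.continuous.continuousAt.congr (hev w (hKn w hw)).symm
    · exact (hRG w hw).continuousAt
  have hopen : IsOpenMap H := by
    rw [isOpenMap_iff_nhds_le]
    intro w
    by_cases hw : w ∈ K
    · have h1 := hev w (hKn w hw)
      rw [Filter.map_congr h1, he.map_nhds_eq, h1.self_of_nhds]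
    · rw [(hRG w hw).map_nhds]
  refine ⟨(Equiv.ofBijective H ⟨hinj, hsur⟩).toHomeomorphOfContinuousOpen hcont hopen, ?_, ?_⟩
  · intro x hx
    refine heq x ?_
    have h1 : x ∈ ball (0 : E) R := hKL (Or.inr hx)
    rw [mem_ball_zero_iff] at h1
    rw [hR₁]
    linarith
  · exact hRG

end Pool.Agent.HopfCov
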