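import Pool.Agent.HopfRem.Perf1
import Pool.Agent.HopfCov.ClassGroup

/-!
# The subgroup of extendable punctured diffeomorphisms is perfect
-/

set_option autoImplicit false
set_option linter.unusedSectionVars false

open scoped ContDiff Topology
open Set Filter Metric Topology

namespace Pool.Agent.HopfCov

section

variable {E : Type} [NormedAddCommGroup E] [InnerProductSpace ℝ E] [FiniteDimensional ℝ E]

/-- the conjugate of a radial homeomorphism with the inversion -/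
theorem exists_rad_inv {e : ℝ ≃o ℝ} (he : SmProf e) :
    ∃ e' : ℝ ≃o ℝ, SmProf e' ∧
      ∀ x : E, (rad e' : E ≃ₜ E) x = iv 0 ((rad e : E ≃ₜ E) (iv 0 x)) := by
  obtain ⟨A, h1, h2, h3⟩ := he
  have hA : A = e := funext fun u => (h1 u).symm
  have b1 : ContDiff ℝ ∞ fun u => -A (-u) := (h2.comp contDiff_neg).neg
  have b2 : ∀ u, 0 < deriv (fun u => -A (-u)) u := by
    intro u
    have hd : HasDerivAt A (deriv A (-u)) (-u) :=
      (h2.differentiable (by simp) _).hasDerivAt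
    have hn : HasDerivAt (fun u : ℝ => -u) (-1) u := (hasDerivAt_id u).neg
    have hc : HasDerivAt (fun u => -A (-u)) (-(deriv A (-u) * -1)) u := (hd.comp u hn).neg
    rw [hc.deriv]
    have := h3 (-u)
    linarith
  have b3 : Tendsto (fun u => -A (-u)) atTop atTop := by
    rw [hA]
    exact tendsto_neg_atBot_atTop.comp (e.tendsto_atBot.comp tendsto_neg_atTop_atBot)
  have b4 : Tendsto (fun u => -A (-u)) atBot atBot := by
    rw [hA]
    exact tendsto_neg_atTop_atBot.comp (e.tendsto_atTop.comp tendsto_neg_atBot_atTop)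
  obtain ⟨e', he'⟩ := exists_orderIso b1 b2 b3 b4
  refine ⟨e', ⟨_, he', b1, b2⟩, fun x => ?_⟩
  by_cases hx : x = 0
  · rw [hx, iv_self, rad_apply, rad_apply, radFun_zero, radFun_zero, iv_self]
  · have h0 : 0 < ‖x‖ := norm_pos_iff.2 hx
    have hform : ∀ y : E, y ≠ 0 → iv 0 y = (‖y‖⁻¹ ^ 2) • y := by
      intro y _
      rw [iv, EuclideanGeometry.inversion]
      simp
    have hix : iv 0 x ≠ 0 := iv_ne hx
    have hrx : (rad e : E ≃ₜ E) (iv 0 x) ≠ 0 := radFun_ne_zero _ hix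
    have hnix : ‖iv 0 x‖ = ‖x‖⁻¹ := norm_iv_zero x
    have hnr : ‖(rad e : E ≃ₜ E) (iv 0 x)‖ = Real.exp (e (-Real.log ‖x‖)) := by
      rw [rad_apply, norm_radFun _ hix, hnix, Real.log_inv]
    rw [hform _ hrx, hnr, rad_apply, rad_apply, radFun_ne _ hx, radFun_ne _ hix, hnix,
      Real.log_inv, hform _ hx, smul_smul, smul_smul, he', ← Real.exp_neg, h1]
    congr 1
    have hxn : ‖x‖⁻¹ = Real.exp (-Real.log ‖x‖) := by
      rw [Real.exp_neg, Real.exp_log h0]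
    rw [hxn, ← Real.exp_nat_mul, ← Real.exp_nat_mul, ← Real.exp_add, ← Real.exp_add]
    congr 1
    push_cast
    ring

/-- a punctured diffeomorphism which is the identity near the origin is a commutator -/
theorem comm_of_id_zero (hdim : 1 < Module.finrank ℝ E) {h : E ≃ₜ E} (hh : PD 1 h)
    (h1 : ∀ᶠ x in 𝓝 (0 : E), h x = x) :
    ∃ F s : E ≃ₜ E, PD 1 F ∧ Ext F ∧ PD 1 s ∧ Ext s ∧ h = F * s * F⁻¹ * s⁻¹ := by
  have hnt : Nontrivial E := Module.nontrivial_of_finrank_pos (R := ℝ) (by omega)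
  obtain ⟨k, k0, k1, -, k2⟩ := exists_invconj hdim hh.1
  have hk : PD 1 k := ⟨k0, fun x hx => k2 1 x hx (hh.2 _ (iv_ne hx))⟩
  have hkc : CS k := by
    have h2 := (tendsto_iv_cocompact (0 : E)).eventually h1
    filter_upwards [h2] with x hx
    rw [k1, hx, iv_iv]
  obtain ⟨F₁, e, he, hF₁, hF₁c, hcomm⟩ := comm_of_cs hk hkc
  obtain ⟨F, F0, hF1, -, hF2⟩ := exists_invconj hdim hF₁.1
  have hF : PD 1 F := ⟨F0, fun x hx => hF2 1 x hx (hF₁.2 _ (iv_ne hx))⟩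
  obtain ⟨e', he', hre⟩ := exists_rad_inv (E := E) he
  refine ⟨F, rad e', hF, ?_, he'.PD, he'.ext, ?_⟩
  · refine Ext_of_LD fun x => ?_
    by_cases hx : x = 0
    · subst hx
      refine (LD_id 0).congr ?_
      have h2 : ∀ᶠ x in 𝓝[≠] (0 : E), F₁ (iv 0 x) = iv 0 x :=
        (tendsto_iv_nhds (0 : E)).eventually hF₁c
      rw [eventually_nhdsWithin_iff] at h2
      filter_upwards [h2] with x hx
      by_cases hx0 : x = 0
      · rw [hx0, F0]
      · rw [hF1, hx hx0, iv_iv]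
    · exact hF.2 x hx
  · have h3 : k * rad e * F₁ = F₁ * rad e := by
      conv_lhs => rw [hcomm]
      group
    have h4 : h * rad e' * F = F * rad e' := by
      ext1 x
      have h5 : k ((rad e : E ≃ₜ E) (F₁ (iv 0 x))) = F₁ ((rad e : E ≃ₜ E) (iv 0 x)) :=
        DFunLike.congr_fun h3 (iv 0 x)
      show h ((rad e' : E ≃ₜ E) (F x)) = F ((rad e' : E ≃ₜ E) x)
      rw [hF1 ((rad e' : E ≃ₜ E) x), hre x, hre, hF1, iv_iv, iv_iv, ← h5, k1, iv_iv]
    calc h = h * rad e' * F * F⁻¹ * (rad e')⁻¹ := by group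
      _ = _ := by rw [h4]

/-- extendable punctured diffeomorphisms are products of two commutators -/
theorem two_comm (hdim : 1 < Module.finrank ℝ E) {h : E ≃ₜ E} (hh : PD 1 h) (he : Ext h) :
    ∃ a b c d : E ≃ₜ E, (PD 1 a ∧ Ext a) ∧ (PD 1 b ∧ Ext b) ∧ (PD 1 c ∧ Ext c) ∧
      (PD 1 d ∧ Ext d) ∧ h = (a * b * a⁻¹ * b⁻¹) * (c * d * c⁻¹ * d⁻¹) := by
  have hnt : Nontrivial E := Module.nontrivial_of_finrank_pos (R := ℝ) (by omega)
  obtain ⟨Θ, t1, t2, t3⟩ := he.conn hGerm hSwap hdim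
  have hΘ : PD 1 Θ := ⟨t1.self_of_nhds, fun x _ => t3 x (notMem_empty x)⟩
  obtain ⟨a, b, ha, ha', hb, hb', hab⟩ := comm_of_id_zero hdim hΘ t1
  have hk : PD 1 (Θ⁻¹ * h) := hΘ.inv.mul_one' hh
  have hkc : CS (Θ⁻¹ * h) := by
    have h1 : EqInf (Θ⁻¹ * h) (Θ⁻¹ * Θ) := (EqInf.refl _).mul t2.symm
    rw [inv_mul_cancel] at h1
    exact CS.of_eqInf h1
  obtain ⟨F, e, h1, h2, h3, h4⟩ := comm_of_cs hk hkc
  have hFe : Ext F := ⟨1, LD_one, h3.eqInf.symm⟩
  refine ⟨a, b, F, rad e, ⟨ha, ha'⟩, ⟨hb, hb'⟩, ⟨h2, hFe⟩, ⟨h1.PD, h1.ext⟩, ?_⟩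
  rw [← hab, ← h4]
  group

end

/-- the group of extendable punctured diffeomorphisms of `ℝ⁴` -/
def DX : Subgroup (E4 ≃ₜ E4) where
  carrier := {h | PD 1 h ∧ Ext h}
  mul_mem' := fun ha hb => ⟨ha.1.mul_one' hb.1, ha.2.mul hb.2⟩
  one_mem' := ⟨PD_one, Ext_one⟩
  inv_mem' := fun ha => ⟨ha.1.inv, ha.2.inv⟩

theorem mem_DD {h : E4 ≃ₜ E4} : h ∈ DD ↔ PD 1 h := Iff.rfl

theorem mem_DX {h : E4 ≃ₜ E4} : h ∈ DX ↔ PD 1 h ∧ Ext h := Iff.rfl

theorem DX_le_commutator {H : Subgroup (E4 ≃ₜ E4)} (hH : DX ≤ H) : DX ≤ ⁅H, H⁆ := by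
  intro h hh
  obtain ⟨a, b, c, d, ha, hb, hc, hd, rfl⟩ := two_comm hdim4 hh.1 hh.2
  have h1 := Subgroup.commutator_mem_commutator (hH ha) (hH hb)
  have h2 := Subgroup.commutator_mem_commutator (hH hc) (hH hd)
  rw [commutatorElement_def] at h1 h2
  exact mul_mem h1 h2

theorem commutator_DX : ⁅DX, DX⁆ = DX := by
  refine le_antisymm ?_ (DX_le_commutator le_rfl)
  rw [Subgroup.commutator_le]
  intro a ha b hb
  rw [commutatorElement_def]
  exact mul_mem (mul_mem (mul_mem ha hb) (inv_mem ha)) (inv_mem hb)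

theorem commutator_DD : ⁅DD, DD⁆ = DX := by
  refine le_antisymm ?_ (DX_le_commutator fun h hh => hh.1)
  rw [Subgroup.commutator_le]
  intro a ha b hb
  rw [commutatorElement_def]
  refine ⟨((PD.mul_one' ha hb).mul_one' (PD.inv ha)).mul_one' (PD.inv hb), ?_⟩
  have h1 := comm_ext hGerm hSwap hdim4 (PD.inv ha) (PD.inv hb)
  rwa [inv_inv, inv_inv] at h1

end Pool.Agent.HopfCov
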