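import Pool.Agent.HopfCov.Radial

/-!
# HR18a (`Prof`): radial profiles which are the identity on one side

Proof of `prof_lower`. `exists_smooth_below` (`HopfCov/Radial.lean`) applied to
`fun u => min (L u) u - 1` gives a smooth `B` with positive derivative, `B u < L u`, `B u < u`,
`B → ±∞` at `±∞`. Let `χ u = Real.smoothTransition ((u - p) / (q - p))` (smooth, monotone, `0` for
`u ≤ p`, `1` for `u ≥ q`, values in `[0, 1]`) and `A u = B u + χ u * (u - B u)`. Derivative:
`(1 - χ) B' + χ + χ' (u - B u) > 0` (see the proof of `exists_linear_end`). `A = B` for `u ≤ p`,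
`A u = u` for `u ≥ q`, `A u ≤ u`. Use `exists_orderIso`.

Proof of `prof_upper`. Let `M v = max (m v - m p) 0 + v + |m p| + |p|`: monotone, `M v ≥ v`,
`M → ±∞` at `±∞` (for `v ≤ p` it is `v + const`), and `M v ≥ m v` for `v ≥ p`. Apply
`exists_smooth_below` to `fun v => - M (-v)` (monotone, limits `±∞`): smooth `B`;
`C v = - B (-v)` is smooth with positive derivative, `C v ≥ M v`, limits `±∞`. With `χ` as above
let `D v = v + χ v * (C v - v)`; derivative `(1 - χ) + χ C' + χ' (C v - v) > 0`; `D v = v` for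
`v ≤ p`; `D v = C v ≥ m v` for `v ≥ q`; `D v ≥ v`.
-/

set_option autoImplicit false
set_option linter.unusedSectionVars false

open scoped ContDiff Topology
open Set Filter Metric Topology

namespace Pool.Agent.HopfCov

/-- gluing of two smooth functions with positive derivatives -/
private theorem prof_glue {f g : ℝ → ℝ} (hf : ContDiff ℝ ∞ f) (hf' : ∀ u, 0 < deriv f u)
    (hg : ContDiff ℝ ∞ g) (hg' : ∀ u, 0 < deriv g u) (hfg : ∀ u, f u ≤ g u) {p q : ℝ}
    (hpq : p < q) :
    ∃ h : ℝ → ℝ, ContDiff ℝ ∞ h ∧ (∀ u, 0 < deriv h u) ∧ (∀ u, u ≤ p → h u = f u) ∧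
      (∀ u, q ≤ u → h u = g u) ∧ (∀ u, f u ≤ h u) ∧ ∀ u, h u ≤ g u := by
  have hqp : 0 < q - p := sub_pos.2 hpq
  set χ : ℝ → ℝ := fun u => Real.smoothTransition ((u - p) / (q - p)) with hχ
  have hχc : ContDiff ℝ ∞ χ := Real.smoothTransition.contDiff.comp
    ((contDiff_id.sub contDiff_const).div_const _)
  have hχmono : Monotone χ := by
    intro u v huv
    refine Real.smoothTransition.monotone ?_
    exact div_le_div_of_nonneg_right (by linarith) hqp.le
  have hχ0 : ∀ u, 0 ≤ χ u := fun u => Real.smoothTransition.nonneg _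
  have hχ1 : ∀ u, χ u ≤ 1 := fun u => Real.smoothTransition.le_one _
  have hχl : ∀ u, u ≤ p → χ u = 0 := fun u hu =>
    Real.smoothTransition.zero_of_nonpos (div_nonpos_of_nonpos_of_nonneg (by linarith) hqp.le)
  have hχr : ∀ u, q ≤ u → χ u = 1 := fun u hu =>
    Real.smoothTransition.one_of_one_le ((one_le_div hqp).2 (by linarith))
  refine ⟨fun u => f u + χ u * (g u - f u), hf.add (hχc.mul (hg.sub hf)), ?_, ?_, ?_, ?_, ?_⟩
  · intro u
    have h1 : HasDerivAt χ (deriv χ u) u :=
      ((hχc.differentiable (by simp)).differentiableAt).hasDerivAt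
    have h2 : HasDerivAt f (deriv f u) u :=
      ((hf.differentiable (by simp)).differentiableAt).hasDerivAt
    have h3 : HasDerivAt g (deriv g u) u :=
      ((hg.differentiable (by simp)).differentiableAt).hasDerivAt
    have h4 := h2.add (h1.mul (h3.sub h2))
    have h5 : HasDerivAt (fun u => f u + χ u * (g u - f u))
      (deriv f u + (deriv χ u * (g u - f u) + χ u * (deriv g u - deriv f u))) u := h4
    rw [h5.deriv]
    have h6 : 0 ≤ deriv χ u := hχmono.deriv_nonneg
    have h7 : 0 ≤ deriv χ u * (g u - f u) := mul_nonneg h6 (sub_nonneg.2 (hfg u))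
    have h10 : deriv f u + (deriv χ u * (g u - f u) + χ u * (deriv g u - deriv f u)) =
        (1 - χ u) * deriv f u + χ u * deriv g u + deriv χ u * (g u - f u) := by ring
    rw [h10]
    rcases (hχ0 u).eq_or_lt with h11 | h11
    · rw [← h11]
      have := hf' u
      linarith
    · have h12 := mul_pos h11 (hg' u)
      have h13 := mul_nonneg (sub_nonneg.2 (hχ1 u)) (hf' u).le
      linarith
  · intro u hu
    show f u + χ u * (g u - f u) = f u
    rw [hχl u hu]
    ring
  · intro u hu
    show f u + χ u * (g u - f u) = g u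
    rw [hχr u hu]
    ring
  · intro u
    have := mul_nonneg (hχ0 u) (sub_nonneg.2 (hfg u))
    show f u ≤ f u + χ u * (g u - f u)
    linarith
  · intro u
    have := mul_le_mul_of_nonneg_right (hχ1 u) (sub_nonneg.2 (hfg u))
    show f u + χ u * (g u - f u) ≤ g u
    linarith

theorem prof_lower {L : ℝ → ℝ} (hmono : Monotone L) (htop : Tendsto L atTop atTop)
    (hbot : Tendsto L atBot atBot) {p q : ℝ} (hpq : p < q) :
    ∃ (e : ℝ ≃o ℝ) (A : ℝ → ℝ), (∀ u, e u = A u) ∧ ContDiff ℝ ∞ A ∧ (∀ u, 0 < deriv A u) ∧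
      (∀ u, q ≤ u → A u = u) ∧ (∀ u, u ≤ p → A u ≤ L u) ∧ ∀ u, A u ≤ u := by
  have h1 : Monotone fun u => min (L u) u - 1 := fun u v huv =>
    sub_le_sub_right (min_le_min (hmono huv) huv) 1
  have h2 : Tendsto (fun u => min (L u) u - 1) atTop atTop := by
    rw [Filter.tendsto_atTop]
    intro b
    filter_upwards [Filter.tendsto_atTop.1 htop (b + 1), eventually_ge_atTop (b + 1)] with u hu hu'
    have := le_min hu hu'
    linarith
  have h3 : Tendsto (fun u => min (L u) u - 1) atBot atBot := by
    rw [tendsto_atBot]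
    intro b
    filter_upwards [eventually_le_atBot (b + 1)] with u hu
    have := min_le_right (L u) u
    linarith
  obtain ⟨B, hB, hB', hBL, hBt, hBb⟩ := exists_smooth_below h1 h2 h3
  have hBu : ∀ u, B u ≤ u := fun u => by
    have := hBL u
    have := min_le_right (L u) u
    linarith
  obtain ⟨A, hA, hA', hAl, hAr, hA1, hA2⟩ := prof_glue hB hB' contDiff_id
    (fun u => by simp) hBu hpq
  have hAt : Tendsto A atTop atTop := by
    refine tendsto_id.congr' ?_
    filter_upwards [eventually_ge_atTop q] with u hu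
    exact (hAr u hu).symm
  have hAb : Tendsto A atBot atBot := by
    refine hBb.congr' ?_
    filter_upwards [eventually_le_atBot p] with u hu
    exact (hAl u hu).symm
  obtain ⟨e, he⟩ := exists_orderIso hA hA' hAt hAb
  refine ⟨e, A, he, hA, hA', hAr, fun u hu => ?_, hA2⟩
  rw [hAl u hu]
  have := hBL u
  have := min_le_left (L u) u
  linarith

theorem prof_upper {m : ℝ → ℝ} (hmono : Monotone m) {p q : ℝ} (hpq : p < q) :
    ∃ (e : ℝ ≃o ℝ) (D : ℝ → ℝ), (∀ u, e u = D u) ∧ ContDiff ℝ ∞ D ∧ (∀ u, 0 < deriv D u) ∧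
      (∀ u, u ≤ p → D u = u) ∧ (∀ u, q ≤ u → m u ≤ D u) ∧ ∀ u, u ≤ D u := by
  set M : ℝ → ℝ := fun v => max (m v - m p) 0 + v + |m p| + |p| with hM
  have hMmono : Monotone M := by
    intro u v huv
    have h1 : max (m u - m p) 0 ≤ max (m v - m p) 0 :=
      max_le_max (sub_le_sub_right (hmono huv) _) le_rfl
    show max (m u - m p) 0 + u + |m p| + |p| ≤ max (m v - m p) 0 + v + |m p| + |p|
    linarith
  have hMv : ∀ v, v ≤ M v := by
    intro v
    have h1 : 0 ≤ max (m v - m p) 0 := le_max_right _ _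
    have h2 := abs_nonneg (m p)
    have h3 := abs_nonneg p
    show v ≤ max (m v - m p) 0 + v + |m p| + |p|
    linarith
  have hMm : ∀ v, p ≤ v → m v ≤ M v := by
    intro v hv
    have h1 : m v - m p ≤ max (m v - m p) 0 := le_max_left _ _
    have h2 := le_abs_self (m p)
    have h3 := neg_abs_le p
    show m v ≤ max (m v - m p) 0 + v + |m p| + |p|
    linarith
  have hMl : ∀ v, v ≤ p → M v = v + (|m p| + |p|) := by
    intro v hv
    have h1 : max (m v - m p) 0 = 0 := max_eq_right (sub_nonpos.2 (hmono hv))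
    show max (m v - m p) 0 + v + |m p| + |p| = v + (|m p| + |p|)
    rw [h1]
    ring
  have h1 : Monotone fun v => -M (-v) := fun u v huv => neg_le_neg (hMmono (neg_le_neg huv))
  have h2 : Tendsto (fun v => -M (-v)) atTop atTop := by
    rw [Filter.tendsto_atTop]
    intro b
    filter_upwards [eventually_ge_atTop (-p), eventually_ge_atTop (b + (|m p| + |p|))] with v hv hv'
    rw [hMl (-v) (by linarith)]
    linarith
  have h3 : Tendsto (fun v => -M (-v)) atBot atBot := by
    rw [tendsto_atBot]
    intro b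
    filter_upwards [eventually_le_atBot b] with v hv
    have := hMv (-v)
    linarith
  obtain ⟨B, hB, hB', hBL, hBt, hBb⟩ := exists_smooth_below h1 h2 h3
  have hC : ContDiff ℝ ∞ fun v => -B (-v) := (hB.comp contDiff_neg).neg
  have hC' : ∀ v, 0 < deriv (fun v => -B (-v)) v := by
    intro v
    have h4 : HasDerivAt B (deriv B (-v)) (-v) :=
      ((hB.differentiable (by simp)).differentiableAt).hasDerivAt
    have h5 := (h4.comp v (hasDerivAt_neg v)).neg
    have h6 : HasDerivAt (fun v => -B (-v)) (-(deriv B (-v) * -1)) v := h5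
    rw [h6.deriv]
    have := hB' (-v)
    linarith
  have hCM : ∀ v, M v ≤ -B (-v) := by
    intro v
    have := hBL (-v)
    rw [neg_neg] at this
    linarith
  obtain ⟨D, hD, hD', hDl, hDr, hD1, hD2⟩ := prof_glue contDiff_id
    (fun u => by simp) hC hC' (fun v => (hMv v).trans (hCM v)) hpq
  have hDb : Tendsto D atBot atBot := by
    refine tendsto_id.congr' ?_
    filter_upwards [eventually_le_atBot p] with u hu
    exact (hDl u hu).symm
  have hDt : Tendsto D atTop atTop := tendsto_atTop_mono hD1 tendsto_id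
  obtain ⟨e, he⟩ := exists_orderIso hD hD' hDt hDb
  refine ⟨e, D, he, hD, hD', hDl, fun u hu => ?_, hD1⟩
  rw [hDr u hu]
  exact (hMm u (hpq.le.trans hu)).trans (hCM u)

end Pool.Agent.HopfCov
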