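import Pool.Agent.HopfRem.TMap

/-!
# HR11 (`PsiMap`): the complement of the range of an embedding can be collapsed

Proof. Let `T, z, z'` be given by `exists_T` for `R`; `c = e z'`, `q = e z`, `A = Cpl e c`. Define
`ψ x = q` for `x ∈ A`, and `ψ x = e (T w)` if `x ∉ A`, where `w` is the unique point with
`e w = iv c x` (`x ∉ A` means `x ≠ c` and `iv c x ∈ range e`). Here `w ≠ z'`, since
`e w = iv c x ≠ c`
(`iv_ne`).
* `A` is closed: its complement `{x | x ≠ c} ∩ iv c ⁻¹' range e` is open, as `iv c` is continuous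
  off `c` and `range e` is open. `A` is bounded: `c ∈ range e`, so `closedBall c r ⊆ range e` for
  some `r > 0`, and `‖x - c‖ > r⁻¹` gives `x ≠ c`, `iv c x ∈ closedBall c r`. So `A` is compact.
  `c ∈ A`.
* `off`: `T w ≠ z` for `w ≠ z'`, `e` injective.
* `inj`: `T` is injective off `z'`; `e`, `iv c` are injective.
* `rg` at `x ∉ A`, with `e w = iv c x`: if `‖w‖ < R` then `T = id` near `w`, so `ψ = iv c` near `x`
  (for `x'` near `x`, `x' ∉ A` and its `w'` is near `w` as `e` is an open embedding, so
  `ψ x' = e (T w') = e w' = iv c x'`), which is `RG` at `x ≠ c`. If `‖w‖ ≥ R` then `w ∉ K`,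
  `RG e w`, and the inverse of `e` is `RG` at `e w` (`RG.exists_local_inv`; it agrees with the
  local inverse near `e w`); `RG T w`; and `T w ∉ K`: otherwise `‖T w‖ < R`, so `T (T w) = T w`,
  and `w = T w` by injectivity (`T w ≠ z'` since `‖z'‖ > R`), contradicting `‖w‖ ≥ R`. So
  `RG e (T w)`. Compose: `ψ = e ∘ T ∘ e⁻¹ ∘ iv c` near `x`.
* `cont`: at `x ∉ A` by `rg`. At `x ∈ A`: let `O` be a neighbourhood of `q = e z`; by `exists_T`
  and continuity of `e` at `z` there is `R₁` with `e (T w) ∈ O` for `‖w‖ ≥ R₁`. The set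
  `C = e '' closedBall 0 R₁` is compact. Case `x ≠ c`: `iv c x ∉ range e ⊇ C`, so
  `iv c x' ∉ C` for `x'` near `x`, and then `ψ x' = q` or `ψ x' = e (T w')` with `‖w'‖ > R₁`. Case
  `x = c`: `iv c x' → ∞` as `x' → c`, `x' ≠ c` (`tendsto_iv_nhds`), so again `iv c x' ∉ C`; and
  `ψ c = q`.
-/

set_option autoImplicit false
set_option linter.unusedSectionVars false

open scoped ContDiff Topology
open Set Filter Metric Topology

namespace Pool.Agent.HopfCov

variable {E : Type} [NormedAddCommGroup E] [InnerProductSpace ℝ E] [FiniteDimensional ℝ E]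

theorem exists_coll [Nontrivial E] {e : E → E} (he : IsOpenEmbedding e) {K : Set E} {R : ℝ}
    (hR : 0 < R) (hK : K ⊆ ball 0 R) (hr : ∀ x, x ∉ K → RG e x) :
    ∃ (z' q : E) (ψ : E → E), R < ‖z'‖ ∧ Coll (Cpl e (e z')) q ψ := by
  classical
  obtain ⟨T, z, z', hz, hz', hT, hT1, hT2, hT3⟩ := exists_T (E := E) hR
  obtain ⟨c, hc⟩ : ∃ c, c = e z' := ⟨_, rfl⟩
  obtain ⟨w, hw⟩ : ∃ w : E → E, ∀ x, x ∉ Cpl e c → e (w x) = iv c x := by
    refine ⟨fun x => Function.invFun e (iv c x), fun x hx => ?_⟩
    have h1 : iv c x ∈ range e := by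
      by_contra h
      exact hx (Or.inr h)
    exact Function.invFun_eq h1
  have hxc : ∀ x, x ∉ Cpl e c → x ≠ c := fun x hx h => hx (Or.inl h)
  have hcA : c ∈ Cpl e c := Or.inl rfl
  have hwz : ∀ x, x ∉ Cpl e c → w x ≠ z' := by
    intro x hx h
    have h1 := hw x hx
    rw [h, ← hc] at h1
    exact iv_ne (hxc x hx) h1.symm
  -- the complement is open
  have hopen : IsOpen (Cpl e c)ᶜ := by
    rw [isOpen_iff_mem_nhds]
    intro x hx
    have h1 : iv c x ∈ range e := by
      by_contra h
      exact hx (Or.inr h)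
    have h2 : ∀ᶠ y in 𝓝 x, y ≠ c := isOpen_ne.mem_nhds (hxc x hx)
    have h3 : ∀ᶠ y in 𝓝 x, iv c y ∈ range e :=
      (continuousAt_iv (hxc x hx)).eventually (he.isOpen_range.mem_nhds h1)
    filter_upwards [h2, h3] with y hy1 hy2 hy3
    rcases hy3 with h | h
    · exact hy1 h
    · exact h hy2
  have hcpt : IsCompact (Cpl e c) := by
    refine Metric.isCompact_of_isClosed_isBounded ⟨hopen⟩ ?_
    obtain ⟨r, hr0, hball⟩ := Metric.isOpen_iff.1 he.isOpen_range c ⟨z', hc.symm⟩
    refine (Metric.isBounded_closedBall (x := c) (r := r⁻¹)).subset ?_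
    intro x hx
    rw [mem_closedBall, dist_eq_norm]
    by_contra hcon
    rw [not_le] at hcon
    have hri : 0 < r⁻¹ := inv_pos.2 hr0
    rcases hx with h | h
    · rw [h, sub_self, norm_zero] at hcon
      exact lt_asymm hcon hri
    · apply h
      apply hball
      rw [mem_ball, dist_eq_norm, norm_iv_sub]
      exact inv_lt_of_inv_lt₀ hr0 hcon
  have hwc : ∀ x, x ∉ Cpl e c → ContinuousAt w x := by
    intro x hx
    rw [ContinuousAt, he.isInducing.tendsto_nhds_iff, hw x hx]
    refine (continuousAt_iv (hxc x hx)).congr' ?_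
    filter_upwards [hopen.mem_nhds hx] with y hy
    exact (hw y hy).symm
  obtain ⟨ψ, hψ⟩ : ∃ ψ : E → E, ψ = fun x => if x ∈ Cpl e c then e z else e (T (w x)) :=
    ⟨_, rfl⟩
  have hψA : ∀ x, x ∈ Cpl e c → ψ x = e z := by
    intro x hx
    rw [hψ]
    exact if_pos hx
  have hψB : ∀ x, x ∉ Cpl e c → ψ x = e (T (w x)) := by
    intro x hx
    rw [hψ]
    exact if_neg hx
  have hrg : ∀ x, x ∉ Cpl e c → RG ψ x := by
    intro x hx
    by_cases hwR : ‖w x‖ < R
    · refine (rg_iv (hxc x hx)).congr ?_
      have h1 : ∀ᶠ y in 𝓝 x, ‖w y‖ < R :=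
        (hwc x hx).norm.eventually (isOpen_Iio.mem_nhds hwR)
      filter_upwards [h1, hopen.mem_nhds hx] with y hy1 hy2
      rw [hψB y hy2, hT _ hy1.le, hw y hy2]
    · rw [not_lt] at hwR
      have hwK : w x ∉ K := by
        intro h
        have h1 := hK h
        rw [mem_ball_zero_iff] at h1
        exact absurd h1 (not_lt.2 hwR)
      obtain ⟨g, hg1, -, hg3, -⟩ := (hr _ hwK).exists_local_inv
      rw [hw x hx] at hg1
      have hRw : RG w x := by
        refine (hg1.comp (rg_iv (hxc x hx))).congr ?_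
        filter_upwards [(hwc x hx).eventually hg3, hopen.mem_nhds hx] with y hy1 hy2
        rw [← hw y hy2]
        exact hy1
      have hRT : RG (fun y => T (w y)) x := (hT1 _ (hwz x hx)).2.comp hRw
      have hTK : T (w x) ∉ K := by
        intro h
        have h1 := hK h
        rw [mem_ball_zero_iff] at h1
        have h2 := hT _ h1.le
        have h3 : T (w x) ≠ z' := by
          intro h4
          rw [h4] at h1
          exact lt_asymm h1 hz'
        have h4 := hT2 h3 (hwz x hx) h2
        rw [h4] at h1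
        exact absurd h1 (not_lt.2 hwR)
      have hRe : RG (fun y => e (T (w y))) x := RG.comp (g := e) (hr _ hTK) hRT
      refine hRe.congr ?_
      filter_upwards [hopen.mem_nhds hx] with y hy
      exact (hψB y hy).symm
  refine ⟨z', e z, ψ, hz', ?_⟩
  rw [← hc]
  refine ⟨?_, hcpt, ⟨c, hcA⟩, hψA, ?_, ?_, hrg⟩
  · rw [continuous_iff_continuousAt]
    intro x
    by_cases hx : x ∈ Cpl e c
    · rw [ContinuousAt, hψA x hx]
      intro O hO
      have h1 : Tendsto (fun v => e (T v)) (cocompact E) (𝓝 (e z)) :=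
        (he.continuous.tendsto z).comp hT3
      obtain ⟨C, hC, hCO⟩ := mem_cocompact.1 (h1 hO)
      have hC' : IsCompact (e '' C) := hC.image he.continuous
      have h2 : ∀ᶠ y in 𝓝 x, y ∉ Cpl e c → iv c y ∉ e '' C := by
        by_cases hxc' : x = c
        · rw [hxc']
          have h3 := tendsto_iv_nhds c hC'.compl_mem_cocompact
          rw [mem_map, mem_nhdsWithin_iff_exists_mem_nhds_inter] at h3
          obtain ⟨u, hu, hu'⟩ := h3
          filter_upwards [hu] with y hy hyA
          exact hu' ⟨hy, hxc y hyA⟩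
        · have h3 : iv c x ∉ e '' C := by
            intro h
            rcases hx with h4 | h4
            · exact hxc' h4
            · exact h4 (image_subset_range e C h)
          filter_upwards [(continuousAt_iv hxc').eventually
            (hC'.isClosed.isOpen_compl.mem_nhds h3)] with y hy _
          exact hy
      rw [mem_map]
      filter_upwards [h2] with y hy
      show ψ y ∈ O
      by_cases hyA : y ∈ Cpl e c
      · rw [hψA y hyA]
        exact mem_of_mem_nhds hO
      · rw [hψB y hyA]
        refine hCO fun h => hy hyA ?_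
        rw [← hw y hyA]
        exact mem_image_of_mem e h
    · exact (hrg x hx).continuousAt
  · intro x hx h
    rw [hψB x hx] at h
    exact (hT1 _ (hwz x hx)).1 (he.injective h)
  · intro x hx y hy h
    rw [hψB x hx, hψB y hy] at h
    have h1 := hT2 (hwz x hx) (hwz y hy) (he.injective h)
    apply iv_injective c
    rw [← hw x hx, ← hw y hy, h1]

end Pool.Agent.HopfCov
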