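import Pool.Agent.HopfRem.Cell
import Pool.Agent.HopfRem.Transport

/-!
# HR9 (`Sqz`): squeezing the collapsed set into a small ball

Proof. Let `N₁`, `κ` be as in `Coll.cell` (for `N`): `κ` is an open embedding, `RG` everywhere,
the identity on the open set `N₁ ⊇ K`, with range in `N`. Choose `r > 0` with `K ⊆ ball k₀ r`
and `0 < η' ≤ η` with `ball k₀ η' ⊆ N₁`. By `hRad` (`SpecRadial`) with factor
`min 1 (η' / (2 * r))` on `‖v‖ ≤ r`, identity for `‖v‖ ≥ 2 * r`, translated to the centre `k₀`,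
there is a homeomorphism `s`, `LD 1` everywhere, `s k₀ = k₀`, `s (ball k₀ r) ⊆ ball k₀ η'`, and
`s x = x` off the compact set `C = closedBall k₀ (2 * r)`. Let `θ` be the transport of `s` by `κ`
(`exists_transport`): `θ (κ x) = κ (s x)`, `θ y = y` for `y ∉ κ '' C`.
* `θ = id` off `N`, since `κ '' C ⊆ range κ ⊆ N`.
* `RG θ y`: if `y ∉ κ '' C` (a closed set) then `θ = id` near `y`; if `y = κ x` then
  `θ (κ x') = κ (s x')` for `x'` near `x`, and `RG.of_comp_right` applies (`RG κ x`).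
* `θ k₀ = κ (s k₀) = κ k₀ = k₀` (as `k₀ ∈ K`, `κ k₀ = k₀`).
* `N' = κ '' ball k₀ r` is open and contains `K = κ '' K`; for `y = κ x` in it,
  `θ y = κ (s x)` with `s x ∈ ball k₀ η' ⊆ N₁`, so `θ y = s x ∈ ball k₀ η`.
-/

set_option autoImplicit false
set_option linter.unusedSectionVars false

open scoped ContDiff Topology
open Set Filter Metric Topology

namespace Pool.Agent.HopfCov

variable {E : Type} [NormedAddCommGroup E] [InnerProductSpace ℝ E] [FiniteDimensional ℝ E]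

theorem Coll.squeeze (hdim : 1 < Module.finrank ℝ E) {K : Set E} {q : E} {ψ : E → E}
    (h : Coll K q ψ) {N : Set E} (hN : IsOpen N) (hKN : K ⊆ N) {k₀ : E} (hk : k₀ ∈ K) {η : ℝ}
    (hη : 0 < η) :
    ∃ (N' : Set E) (θ : E ≃ₜ E), IsOpen N' ∧ K ⊆ N' ∧ (∀ x, RG θ x) ∧
      (∀ x, x ∉ N → θ x = x) ∧ θ k₀ = k₀ ∧ ∀ x ∈ N', θ x ∈ ball k₀ η := by
  obtain ⟨N₁, κ, hN₁, hKN₁, hκ, hRG, hid, hran⟩ := h.cell hdim hN hKN
  obtain ⟨r, hr, hKr⟩ := h.cpt.isBounded.subset_ball_lt 0 k₀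
  obtain ⟨ε, hε, hεN⟩ := Metric.isOpen_iff.1 hN₁ k₀ (hKN₁ hk)
  set η' := min ε η with hη'
  have hη'0 : 0 < η' := lt_min hε hη
  set c := min 1 (η' / (2 * r)) with hc
  have hc0 : 0 < c := lt_min one_pos (by positivity)
  have hc1 : c ≤ 1 := min_le_left _ _
  have hc2 : c ≤ η' / (2 * r) := min_le_right _ _
  obtain ⟨s₀, hs1, hs2, hs3⟩ := hRad E c r (2 * r) hc0 hc1 hr (by linarith)
  set s : E ≃ₜ E := (tr (-k₀)).trans (s₀.trans (tr k₀)) with hs
  have hsx : ∀ x, s x = s₀ (x - k₀) + k₀ := by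
    intro x
    change s₀ (x + -k₀) + k₀ = _
    rw [sub_eq_add_neg]
  have hsRG : ∀ x, RG s x := fun x =>
    (LD_tr k₀ _).rg.comp ((hs1 _).rg.comp (LD_tr (-k₀) x).rg)
  have hsC : ∀ x, x ∉ closedBall k₀ (2 * r) → s x = x := by
    intro x hx
    rw [mem_closedBall, not_le, dist_eq_norm] at hx
    rw [hsx, hs3 _ hx.le, sub_add_cancel]
  obtain ⟨θ, hθ1, hθ2⟩ := exists_transport hκ s (isCompact_closedBall k₀ (2 * r)) hsC
  have hκk : κ k₀ = k₀ := hid k₀ (hKN₁ hk)
  refine ⟨κ '' ball k₀ r, θ, hκ.isOpenMap _ isOpen_ball, ?_, ?_, ?_, ?_, ?_⟩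
  · intro x hx
    exact ⟨x, hKr hx, hid x (hKN₁ hx)⟩
  · intro y
    by_cases hy : y ∈ range κ
    · obtain ⟨x, rfl⟩ := hy
      refine RG.of_comp_right (hRG x) ?_
      have h1 : RG (fun y => κ (s y)) x := (hRG _).comp (hsRG x)
      have h2 : (fun y => θ (κ y)) = fun y => κ (s y) := funext hθ1
      rw [h2]
      exact h1
    · have hcl : IsClosed (κ '' closedBall k₀ (2 * r)) :=
        ((isCompact_closedBall k₀ (2 * r)).image hκ.continuous).isClosed
      have hy' : y ∈ (κ '' closedBall k₀ (2 * r))ᶜ := by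
        rintro ⟨x, -, rfl⟩
        exact hy ⟨x, rfl⟩
      refine (RG_id y).congr ?_
      filter_upwards [hcl.isOpen_compl.mem_nhds hy'] with z hz
      exact (hθ2 z hz).symm
  · intro x hx
    refine hθ2 x ?_
    rintro ⟨y, -, rfl⟩
    exact hx (hran ⟨y, rfl⟩)
  · have h1 := hθ1 k₀
    have h2 : s k₀ = k₀ := by
      rw [hsx, sub_self, hs2 0 (by rw [norm_zero]; exact hr.le), smul_zero, zero_add]
    rw [h2, hκk] at h1
    exact h1
  · rintro y ⟨x, hx, rfl⟩
    rw [mem_ball, dist_eq_norm] at hx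
    have h1 : s x ∈ ball k₀ η' := by
      rw [mem_ball, dist_eq_norm, hsx, add_sub_cancel_right, hs2 _ hx.le, norm_smul,
        Real.norm_of_nonneg hc0.le]
      calc c * ‖x - k₀‖ ≤ η' / (2 * r) * r :=
            mul_le_mul hc2 hx.le (norm_nonneg _) (by positivity)
        _ = η' / 2 := by
            field_simp
        _ < η' := by linarith
    rw [hθ1, hid _ (hεN (ball_subset_ball (min_le_left _ _) h1))]
    exact ball_subset_ball (min_le_right _ _) h1

end Pool.Agent.HopfCov
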