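import Pool.Agent.HopfCov.Bridge2
import Pool.Agent.HopfRem.TwAb
import Pool.Agent.HopfRem.MDefs

/-!
# The definitions used in the statement of the classification
-/

set_option autoImplicit false

open scoped ContDiff Topology Manifold MeasureTheory
open Set Filter Metric

namespace Pool.Agent.HopfCov.Smooth

/-- `f` is smooth at `x` with invertible derivative -/
def InvertibleAt (f : E4 → E4) (x : E4) : Prop :=
  ContDiffAt ℝ ∞ f x ∧ (fderiv ℝ f x).det ≠ 0

theorem invertible_iff {f : E4 → E4} {x : E4} : InvertibleAt f x ↔ RG f x := Iff.rfl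

theorem memP_iff {h : E4 ≃ₜ E4} :
    (h 0 = 0 ∧ ∀ x, x ≠ 0 → InvertibleAt h x) ↔ h ∈ PP := by
  rw [mem_PP]
  constructor
  · rintro ⟨h0, h1⟩
    obtain ⟨s, hs, h2⟩ := sign_const (f := h) isOpen_compl_singleton
      (preconnected_compl_singleton hdim4 (0 : E4)) h1
    rcases hs with rfl | rfl
    · exact Or.inl ⟨h0, h2⟩
    · exact Or.inr ⟨h0, h2⟩
  · rintro (h1 | h1)
    · exact ⟨h1.1, fun x hx => (h1.2 x hx).rg⟩
    · exact ⟨h1.1, fun x hx => (h1.2 x hx).rg⟩

theorem memD_iff {h : E4 ≃ₜ E4} :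
    (h 0 = 0 ∧ ∀ x, x ≠ 0 → RegularAt h x) ↔ PD 1 h := by
  constructor
  · rintro ⟨h0, h1⟩
    exact ⟨h0, fun x hx => regular_iff.1 (h1 x hx)⟩
  · rintro h1
    exact ⟨h1.1, fun x hx => regular_iff.2 (h1.2 x hx)⟩

/-- the group of the homeomorphisms of `ℝ⁴` which fix the origin and restrict to diffeomorphisms
of `ℝ⁴ ∖ 0` (the product is the composition) -/
def groupP : Subgroup (E4 ≃ₜ E4) where
  carrier := {h | h 0 = 0 ∧ ∀ x, x ≠ 0 → InvertibleAt h x}
  mul_mem' := fun ha hb => memP_iff.2 (PP.mul_mem (memP_iff.1 ha) (memP_iff.1 hb))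
  one_mem' := memP_iff.2 PP.one_mem
  inv_mem' := fun ha => memP_iff.2 (PP.inv_mem (memP_iff.1 ha))

/-- the subgroup of the orientation preserving ones -/
def groupD : Subgroup (E4 ≃ₜ E4) where
  carrier := {h | h 0 = 0 ∧ ∀ x, x ≠ 0 → RegularAt h x}
  mul_mem' := fun ha hb => memD_iff.2 (PD.mul_one' (memD_iff.1 ha) (memD_iff.1 hb))
  one_mem' := memD_iff.2 PD_one
  inv_mem' := fun ha => memD_iff.2 (PD.inv (memD_iff.1 ha))

/-- `h` agrees near infinity with an orientation preserving diffeomorphism of `ℝ⁴` -/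
def AgreesAtInfinity (h : E4 ≃ₜ E4) : Prop :=
  ∃ Θ : E4 ≃ₜ E4, (∀ x, RegularAt Θ x) ∧ ∃ R : ℝ, ∀ x, R ≤ nrm x → Θ x = h x

/-- `p : ℝ⁴ ∖ 0 → M` is the smooth covering of the closed manifold `M` whose fibres are the orbits
of the group generated by `G ∈ P`, and `G` maps the closed unit ball into the open unit ball -/
structure IsOrbit (M : Mfd4) (p : Punctured → M) (G : E4 ≃ₜ E4) : Prop where
  closed : Closed M
  surj : Function.Surjective p
  loc : LocalDiffeo p
  fib : ∀ x y : Punctured, p x = p y ↔ ∃ n : ℤ, val y = (G ^ n : E4 ≃ₜ E4) (val x)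
  diffeo : G ∈ groupP
  trap : ∀ x, nrm x ≤ 1 → nrm (G x) < 1

/-- the images of the set in the charts have one-dimensional Hausdorff measure zero -/
def LengthZero {M : Mfd4} (A : Set M) : Prop :=
  ∀ x : M, μH[1] (chartAt E4 x '' (A ∩ (chartAt E4 x).source)) = 0

/-- there is a homeomorphism `M → X` which is a local diffeomorphism off a closed set `A`
such that `A` or its image has length zero -/
def SmoothOffLengthZero (M X : Mfd4) : Prop :=
  ∃ (F : M ≃ₜ X) (A : Set M), IsClosed A ∧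
    (∀ x, x ∉ A → IsLocalDiffeomorphAt (𝓡 4) (𝓡 4) ∞ F x) ∧ (LengthZero A ∨ LengthZero (F '' A))

theorem groupP_eq : groupP = PP := by
  ext h
  exact memP_iff

theorem groupD_eq : groupD = DD := by
  ext h
  exact memD_iff

theorem agrees_iff {h : E4 ≃ₜ E4} : AgreesAtInfinity h ↔ Ext h := by
  constructor
  · rintro ⟨Θ, h1, R, h2⟩
    refine ⟨Θ, fun x => regular_iff.1 (h1 x), ?_⟩
    have h3 : ∀ᶠ x : E4 in cocompact E4, R ≤ ‖x‖ :=
      tendsto_norm_cocompact_atTop.eventually (eventually_ge_atTop R)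
    exact h3.mono fun x hx => h2 x hx
  · rintro ⟨Θ, h1, h2⟩
    obtain ⟨R, -, hR⟩ := exists_radius h2
    exact ⟨Θ, fun x => regular_iff.2 (h1 x), R, fun x hx => hR x hx⟩

end Pool.Agent.HopfCov.Smooth
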