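import Pool.Agent.HopfRem.InvE
import Pool.Agent.HopfCov.Crit

/-!
# HR5 (`TMap`): a diffeomorphism of the sphere which moves the point at infinity

Proof. Choose `c` with `‖c‖ = 1 / (4 * R)` and let `s` be the radial diffeomorphism of `hRad`
(`SpecRadial`) with factor `1/2` for `‖v‖ ≤ 2 / (4 * R)` and the identity for
`‖v‖ ≥ 3 / (4 * R)`. Put `τ x = c + s (x - c)` (a homeomorphism, `LD 1` everywhere). Then
`τ 0 = c / 2`, and `τ (-c) = c + s (-2 c) = 0`; `τ x = x` if `‖x‖ ≥ 1 / R` (as then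
`‖x - c‖ ≥ 3 / (4 * R)`). Let
`T x = x` if `‖x‖ ≤ R` and `T x = iv 0 (τ (iv 0 x))` otherwise, `z = iv 0 ((1/2) • c)`,
`z' = iv 0 (-c)`, so `‖z‖ = 8 * R`, `‖z'‖ = 4 * R`. For `0 < ‖x‖ ≤ R` both formulas agree
(`‖iv 0 x‖ = ‖x‖⁻¹ ≥ 1 / R`), so `T x = iv 0 (τ (iv 0 x))` for all `x ≠ 0` and `T x = x` on
`ball 0 R`, which is a neighbourhood of `0`.
* `T x ≠ z`: `T 0 = 0 ≠ z`; for `x ≠ 0`, `T x = z` gives `τ (iv 0 x) = (1/2) • c = τ 0` by
  injectivity of `iv 0`, hence `iv 0 x = 0`, `x = iv 0 0 = 0`, a contradiction.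
* `RG T x` for `x ≠ z'`: clear at `0`; for `x ≠ 0`: `iv 0` is `RG` at `x`, `τ` everywhere,
  `iv 0` at `τ (iv 0 x) ≠ 0` (as `τ y = 0` iff `y = -c` iff `x = z'`).
* injective off `z'`: for `x, y ≠ 0` by injectivity of `iv 0` and `τ`; `T x = 0 = T 0` for
  `x ≠ 0` gives `τ (iv 0 x) = 0`, `x = z'`.
* if `x → ∞` then `iv 0 x → 0`, `τ (iv 0 x) → (1/2) • c ≠ 0`, `iv 0` is continuous there.
-/

set_option autoImplicit false
set_option linter.unusedSectionVars false

open scoped ContDiff Topology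
open Set Filter Metric Topology

namespace Pool.Agent.HopfCov

variable {E : Type} [NormedAddCommGroup E] [InnerProductSpace ℝ E] [FiniteDimensional ℝ E]

theorem exists_T [Nontrivial E] {R : ℝ} (hR : 0 < R) :
    ∃ (T : E → E) (z z' : E), R < ‖z‖ ∧ R < ‖z'‖ ∧ (∀ x, ‖x‖ ≤ R → T x = x) ∧
      (∀ x, x ≠ z' → T x ≠ z ∧ RG T x) ∧ InjOn T {z'}ᶜ ∧ Tendsto T (cocompact E) (𝓝 z) := by
  classical
  set ρ : ℝ := 1 / (4 * R) with hρ
  have hρ0 : 0 < ρ := by positivity
  have hρR : ρ * (4 * R) = 1 := by rw [hρ]; field_simp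
  obtain ⟨c, hc⟩ : ∃ c : E, ‖c‖ = ρ := exists_norm_eq E hρ0.le
  have hc0 : c ≠ 0 := by
    intro h
    rw [h, norm_zero] at hc
    exact hρ0.ne hc
  obtain ⟨s, hs1, hs2, hs3⟩ := hRad E (1 / 2) (2 * ρ) (3 * ρ) (by norm_num) (by norm_num)
    (by positivity) (by linarith)
  -- the homeomorphism `τ`
  let τ : E ≃ₜ E := ((Homeomorph.subRight c).trans s).trans (Homeomorph.addLeft c)
  have hτ : ∀ x, τ x = c + s (x - c) := fun x => rfl
  have hτLD : ∀ x, RG τ x := by
    intro x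
    have h1 : LD 1 (fun y : E => y - c) x := LD_sub_const c x
    have h2 : LD (1 * 1) (s ∘ fun y : E => y - c) x := LD.comp (hs1 _) h1
    have h3 : LD 1 (fun y : E => y + c) ((s ∘ fun y : E => y - c) x) := LD_add_const c _
    have h4 := (LD.comp h3 h2).rg
    refine h4.congr (Eventually.of_forall fun y => ?_)
    simp only [Function.comp_apply, hτ, add_comm]
  have hτ0 : τ 0 = (1 / 2 : ℝ) • c := by
    rw [hτ, zero_sub, hs2 (-c) (by rw [norm_neg, hc]; linarith)]
    module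
  have hτc : τ (-c) = 0 := by
    have e : -c - c = (-2 : ℝ) • c := by module
    have hn : ‖(-2 : ℝ) • c‖ ≤ 2 * ρ := by
      rw [norm_smul, hc, Real.norm_eq_abs, abs_neg, abs_two]
    rw [hτ, e, hs2 _ hn, smul_smul]
    module
  have hτfar : ∀ x : E, 1 / R ≤ ‖x‖ → τ x = x := by
    intro x hx
    have h1 : 1 / R = 4 * ρ := by rw [hρ]; field_simp
    have h2 : ‖x‖ ≤ ‖x - c‖ + ‖c‖ := by
      have := norm_add_le (x - c) c
      rwa [sub_add_cancel] at this
    rw [hτ, hs3 (x - c) (by linarith)]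
    abel
  -- the two points
  set z : E := iv 0 ((1 / 2 : ℝ) • c) with hz
  set z' : E := iv 0 (-c) with hz'
  have hhalf : (1 / 2 : ℝ) • c ≠ 0 := smul_ne_zero (by norm_num) hc0
  have hnc : -c ≠ 0 := neg_ne_zero.2 hc0
  have hzn : ‖z‖ = 8 * R := by
    rw [hz, norm_iv_zero, norm_smul, hc, hρ, Real.norm_eq_abs, abs_of_pos (by norm_num)]
    field_simp
    ring
  have hzn' : ‖z'‖ = 4 * R := by
    rw [hz', norm_iv_zero, norm_neg, hc, hρ]
    field_simp
  have hz0 : z ≠ 0 := iv_ne hhalf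
  -- the map
  let T : E → E := fun x => if ‖x‖ ≤ R then x else iv 0 (τ (iv 0 x))
  have hT1 : ∀ x, ‖x‖ ≤ R → T x = x := fun x hx => if_pos hx
  have hT2 : ∀ x, x ≠ 0 → T x = iv 0 (τ (iv 0 x)) := by
    intro x hx
    by_cases h : ‖x‖ ≤ R
    · have h1 : 1 / R ≤ ‖iv 0 x‖ := by
        rw [norm_iv_zero, ← one_div]
        exact one_div_le_one_div_of_le (norm_pos_iff.2 hx) h
      rw [hT1 x h, hτfar _ h1, iv_iv]
    · exact if_neg h
  have hT0 : T 0 = 0 := hT1 0 (by rw [norm_zero]; exact hR.le)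
  have hτne : ∀ x, x ≠ 0 → x ≠ z' → τ (iv 0 x) ≠ 0 := by
    intro x _ hx' h
    have h1 : iv 0 x = -c := τ.injective (h.trans hτc.symm)
    apply hx'
    rw [hz', ← h1, iv_iv]
  have hTne0 : ∀ x, x ≠ 0 → x ≠ z' → T x ≠ 0 := by
    intro x hx hx'
    rw [hT2 x hx]
    exact iv_ne (hτne x hx hx')
  refine ⟨T, z, z', by rw [hzn]; linarith, by rw [hzn']; linarith, hT1, ?_, ?_, ?_⟩
  · intro x hx'
    by_cases hx : x = 0
    · subst hx
      refine ⟨?_, ?_⟩
      · rw [hT0]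
        exact hz0.symm
      · refine (RG_id (0 : E)).congr ?_
        filter_upwards [ball_mem_nhds (0 : E) hR] with y hy
        rw [mem_ball_zero_iff] at hy
        exact (hT1 y hy.le).symm
    · refine ⟨?_, ?_⟩
      · intro h
        rw [hT2 x hx, hz] at h
        have h1 : τ (iv 0 x) = τ 0 := by
          rw [hτ0]
          exact iv_injective 0 h
        exact iv_ne hx (τ.injective h1)
      · have h1 : RG (fun y => τ (iv 0 y)) x := RG.comp (hτLD _) (rg_iv hx)
        have h2 : RG (fun y => iv 0 (τ (iv 0 y))) x :=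
          RG.comp (g := iv 0) (f := fun y => τ (iv 0 y)) (rg_iv (hτne x hx hx')) h1
        refine h2.congr ?_
        filter_upwards [isOpen_compl_singleton.mem_nhds hx] with y hy
        exact (hT2 y hy).symm
  · intro x hx y hy hxy
    have hx1 : x ≠ z' := hx
    have hy1 : y ≠ z' := hy
    by_cases hx0 : x = 0
    · by_cases hy0 : y = 0
      · rw [hx0, hy0]
      · exfalso
        rw [hx0, hT0] at hxy
        exact hTne0 y hy0 hy1 hxy.symm
    · by_cases hy0 : y = 0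
      · exfalso
        rw [hy0, hT0] at hxy
        exact hTne0 x hx0 hx1 hxy
      · rw [hT2 x hx0, hT2 y hy0] at hxy
        exact iv_injective 0 (τ.injective (iv_injective 0 hxy))
  · have h1 : Tendsto (fun x => iv 0 (τ (iv 0 x))) (cocompact E) (𝓝 z) := by
      have h2 : Tendsto (fun x => τ (iv 0 x)) (cocompact E) (𝓝 ((1 / 2 : ℝ) • c)) := by
        rw [← hτ0]
        exact (τ.continuous.tendsto 0).comp (tendsto_iv_cocompact 0)
      exact (continuousAt_iv hhalf).tendsto.comp h2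
    refine h1.congr' ?_
    have h3 : ({0}ᶜ : Set E) ∈ cocompact E :=
      (isCompact_singleton (x := (0 : E))).compl_mem_cocompact
    filter_upwards [h3] with x hx
    exact (hT2 x hx).symm

end Pool.Agent.HopfCov
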